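import Pool.Agent.Lib.MP_1a91b9_nuX.GM.Desc
import Pool.Agent.Lib.MP_1a91b9_nt.LocDep

/-!
# The local polynomial of a Weierstrass curve with integral `j` at a place without a good model

PROOF. `Nv = v.adicCompletion N`, `R = v.adicCompletionIntegers N`, `Wv = W.baseChange Nv`, `W' = Wv.minimal R = C • Wv`. By definition `locPoly W v` is `1` if `W'` has neither good nor multiplicative reduction over `R` (`WeierstrassCurve.localPolynomial`).
(1) Not multiplicative: multiplicative reduction means `v Δ(W') < 1` and `v c₄(W') = 1` (Mathlib/AlgebraicGeometry/EllipticCurve/Reduction.lean), but `v (c₄ ^ 3) ≤ v Δ` is invariant under changes of variables (both are multiplied by `u⁻¹ ^ 12`).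
(2) Not good: suppose `v Δ(W') = 1`; `W'` is integral. `C = (u, r, s, t)` over `Nv`. `N` is dense in `Nv` (`UniformSpace.Completion.denseRange_coe`; every element of `Nv` is approximated by elements of `N` to any precision): choose `u', r', s', t' ∈ N` close to `u, r, s, t`:
`C' = (u', r', s', t')`, `D = C' * C⁻¹` (as change over `Nv`) tends to the identity, so for a good approximation `v D.u = 1`, `v D.r ≤ 1`, `v D.s ≤ 1`, `v D.t ≤ 1`; then `C' • Wv = D • W'` is good (`GM.good_change` for the valuation of `Nv`), and it is the base change of `C' • W`,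
the valuation of `Nv` restricts to that of `N` (`HeightOneSpectrum.valuedAdicCompletion_eq_valuation`): `GoodW (v.valuation N) (C' • W)`, contradiction.
Formulas: with `C' = D * C`: `D.u = C'.u / C.u`, `D.r = (C'.r - C.r)/C.u ^ 2`, `D.s = (C'.s - C.s)/C.u`, `D.t = (C'.t - C.t - (C'.r - C.r) C.s)/C.u ^ 3` (`WeierstrassCurve.VariableChange.mul_def`).
-/

set_option autoImplicit false

namespace Pool.Agent.Lib.MP_1a91b9_nuX.GL

open NumberField IsDedekindDomain Polynomial Pool.Agent.Lib.MP_1a91b9_nt

section
variable {N : Type*} [Field N] [NumberField N]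

private theorem cntC_mul {L : Type*} [Field L] (C : WeierstrassCurve.VariableChange L) {u' : L}
    (r' s' t' : L) (h1 : u' ≠ 0) (h0 : (C.u : L) ≠ 0) :
    (⟨Units.mk0 (u' / (C.u : L)) (div_ne_zero h1 h0), (r' - C.r) / (C.u : L) ^ 2,
      (s' - C.s) / (C.u : L), (t' - (C.t + (r' - C.r) * C.s)) / (C.u : L) ^ 3⟩ :
        WeierstrassCurve.VariableChange L) * C = ⟨Units.mk0 u' h1, r', s', t'⟩ := by
  obtain ⟨⟨u, ui, hu1, hu2⟩, r, s, t⟩ := C
  rw [WeierstrassCurve.VariableChange.mul_def]
  have h0' : u ≠ 0 := h0
  ext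
  · change u' / u * u = u'
    exact div_mul_cancel₀ _ h0'
  · change (r' - r) / u ^ 2 * u ^ 2 + r = r'
    rw [div_mul_cancel₀ _ (pow_ne_zero 2 h0'), sub_add_cancel]
  · change u * ((s' - s) / u) + s = s'
    rw [mul_div_cancel₀ _ h0', sub_add_cancel]
  · change (t' - (t + (r' - r) * s)) / u ^ 3 * u ^ 3 + (r' - r) / u ^ 2 * s * u ^ 2 + t = t'
    rw [div_mul_cancel₀ _ (pow_ne_zero 3 h0'), mul_right_comm,
      div_mul_cancel₀ _ (pow_ne_zero 2 h0')]
    ring

private theorem cntC_appr (v : HeightOneSpectrum (𝓞 N)) (x c : v.adicCompletion N) (hc : c ≠ 0) :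
    ∃ y : N, Valued.v (algebraMap N (v.adicCompletion N) y - x) < Valued.v c := by
  have hd := HeightOneSpectrum.denseRange_algebraMap N v
  have ho : IsOpen {z : v.adicCompletion N | Valued.v (z - x) < Valued.v c} := by
    have h1 := Valued.isOpen_ball (v.adicCompletion N)
      ((Valued.v (R := v.adicCompletion N)).restrict c)
    have h2 := h1.preimage
      (continuous_id.sub continuous_const : Continuous fun z : v.adicCompletion N => z - x)
    have h3 : {z : v.adicCompletion N | Valued.v (z - x) < Valued.v c} =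
        (fun z : v.adicCompletion N => z - x) ⁻¹'
          {z | Valued.v.restrict z < Valued.v.restrict c} := by
      ext z
      exact (Valuation.restrict_lt_iff (v := Valued.v (R := v.adicCompletion N))).symm
    rw [h3]
    exact h2
  refine hd.exists_mem_open ho ⟨x, ?_⟩
  change Valued.v (x - x) < Valued.v c
  rw [sub_self, map_zero]
  exact zero_lt_iff.2 ((Valuation.ne_zero_iff _).2 hc)

private theorem cntC_val (v : HeightOneSpectrum (𝓞 N)) (x : N) :
    Valued.v (algebraMap N (v.adicCompletion N) x) = v.valuation N x :=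
  HeightOneSpectrum.valuedAdicCompletion_eq_valuation' v x

/-- the two valuations of the completion -/
private theorem cntC_cmp (v : HeightOneSpectrum (𝓞 N)) (x : v.adicCompletion N) :
    (IsDiscreteValuationRing.maximalIdeal (v.adicCompletionIntegers N)).valuation
      (v.adicCompletion N) x ≤ 1 ↔ Valued.v x ≤ 1 := by
  constructor
  · intro h
    obtain ⟨a, ha⟩ := IsDiscreteValuationRing.exists_lift_of_le_one h
    rw [← ha]
    exact a.2
  · intro h
    exact HeightOneSpectrum.valuation_le_one _ (⟨x, h⟩ : v.adicCompletionIntegers N)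

/-- a good model over the completion gives a good model over the field -/
theorem good_of_completion (v : HeightOneSpectrum (𝓞 N)) (W : WeierstrassCurve N)
    (C : WeierstrassCurve.VariableChange (v.adicCompletion N))
    (h : GM.GoodW (Valued.v (R := v.adicCompletion N))
      (C • W.map (algebraMap N (v.adicCompletion N)))) :
    ∃ C' : WeierstrassCurve.VariableChange N, GM.GoodW (v.valuation N) (C' • W) := by
  obtain ⟨u, hu⟩ : ∃ u : v.adicCompletion N, u = (C.u : v.adicCompletion N) := ⟨_, rfl⟩
  have hu0 : u ≠ 0 := by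
    rw [hu]
    exact C.u.ne_zero
  have hvu : Valued.v u ≠ 0 := (Valuation.ne_zero_iff _).2 hu0
  obtain ⟨u', hu'⟩ := cntC_appr v u u hu0
  obtain ⟨r', hr'⟩ := cntC_appr v C.r (u ^ 2) (pow_ne_zero 2 hu0)
  obtain ⟨s', hs'⟩ := cntC_appr v C.s u hu0
  obtain ⟨t', ht'⟩ := cntC_appr v (C.t + (algebraMap N (v.adicCompletion N) r' - C.r) * C.s)
    (u ^ 3) (pow_ne_zero 3 hu0)
  have hv : Valued.v (algebraMap N (v.adicCompletion N) u') = Valued.v u := by
    have h1 := Valuation.map_add_eq_of_lt_left Valued.v hu'
    rwa [add_sub_cancel] at h1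
  have hu'0 : u' ≠ 0 := by
    rintro rfl
    rw [map_zero, map_zero] at hv
    exact hvu hv.symm
  have hu'1 : algebraMap N (v.adicCompletion N) u' ≠ 0 := by
    rwa [Ne, map_eq_zero]
  obtain ⟨C', hC'⟩ : ∃ C' : WeierstrassCurve.VariableChange N,
    C' = ⟨Units.mk0 u' hu'0, r', s', t'⟩ := ⟨_, rfl⟩
  obtain ⟨D, hD⟩ : ∃ D : WeierstrassCurve.VariableChange (v.adicCompletion N),
    D = ⟨Units.mk0 (algebraMap N (v.adicCompletion N) u' / u) (div_ne_zero hu'1 hu0),
      (algebraMap N (v.adicCompletion N) r' - C.r) / u ^ 2,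
      (algebraMap N (v.adicCompletion N) s' - C.s) / u,
      (algebraMap N (v.adicCompletion N) t' -
        (C.t + (algebraMap N (v.adicCompletion N) r' - C.r) * C.s)) / u ^ 3⟩ := ⟨_, rfl⟩
  have hDC : D * C = C'.map (algebraMap N (v.adicCompletion N)) := by
    have h1 := cntC_mul C (u' := algebraMap N (v.adicCompletion N) u')
      (algebraMap N (v.adicCompletion N) r') (algebraMap N (v.adicCompletion N) s')
      (algebraMap N (v.adicCompletion N) t') hu'1 (hu ▸ hu0)
    subst hu
    rw [hD, h1, hC']
    refine WeierstrassCurve.VariableChange.ext (Units.ext ?_) rfl rfl rfl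
    rfl
  have h2 : GM.GoodW (Valued.v (R := v.adicCompletion N))
      (D • C • W.map (algebraMap N (v.adicCompletion N))) := by
    refine GM.good_change h ?_ ?_ ?_ ?_
    · rw [hD]
      change Valued.v (algebraMap N (v.adicCompletion N) u' / u) = 1
      rw [map_div₀, hv, div_self hvu]
    · rw [hD]
      change Valued.v ((algebraMap N (v.adicCompletion N) r' - C.r) / u ^ 2) ≤ 1
      rw [map_div₀, map_pow]
      rw [map_pow] at hr'
      exact div_le_one_of_le₀ hr'.le zero_le
    · rw [hD]
      change Valued.v ((algebraMap N (v.adicCompletion N) s' - C.s) / u) ≤ 1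
      rw [map_div₀]
      exact div_le_one_of_le₀ hs'.le zero_le
    · rw [hD]
      change Valued.v ((algebraMap N (v.adicCompletion N) t' -
        (C.t + (algebraMap N (v.adicCompletion N) r' - C.r) * C.s)) / u ^ 3) ≤ 1
      rw [map_div₀]
      exact div_le_one_of_le₀ ht'.le zero_le
  rw [← mul_smul, hDC, WeierstrassCurve.map_variableChange] at h2
  refine ⟨C', ?_⟩
  obtain ⟨⟨k1, k2, k3, k4, k6⟩, kd⟩ := h2
  refine ⟨⟨?_, ?_, ?_, ?_, ?_⟩, ?_⟩
  · rw [← cntC_val]
    exact k1
  · rw [← cntC_val]
    exact k2
  · rw [← cntC_val]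
    exact k3
  · rw [← cntC_val]
    exact k4
  · rw [← cntC_val]
    exact k6
  · rw [← cntC_val]
    rw [WeierstrassCurve.map_Δ] at kd
    exact kd

/-- the local polynomial is trivial if there is no good model -/
theorem locPoly_bad (v : HeightOneSpectrum (𝓞 N)) (W : WeierstrassCurve N)
    (hj : v.valuation N (W.c₄ ^ 3) ≤ v.valuation N W.Δ)
    (h : ¬ ∃ C : WeierstrassCurve.VariableChange N, GM.GoodW (v.valuation N) (C • W)) :
    locPoly W v = 1 := by
  classical
  obtain ⟨C, hC⟩ : ∃ C : WeierstrassCurve.VariableChange (v.adicCompletion N),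
    (W.baseChange (v.adicCompletion N)).minimal (v.adicCompletionIntegers N) =
      C • W.baseChange (v.adicCompletion N) := ⟨_, rfl⟩
  have heq : ∀ x : v.adicCompletion N, Valued.v x = 1 ↔
      (IsDiscreteValuationRing.maximalIdeal (v.adicCompletionIntegers N)).valuation
        (v.adicCompletion N) x = 1 := fun x =>
    GM.val_ext_eq ((IsDiscreteValuationRing.maximalIdeal
      (v.adicCompletionIntegers N)).valuation (v.adicCompletion N)) Valued.v
      (fun x => (cntC_cmp v x).symm) x
  have hlt : ∀ x : v.adicCompletion N, Valued.v x < 1 ↔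
      (IsDiscreteValuationRing.maximalIdeal (v.adicCompletionIntegers N)).valuation
        (v.adicCompletion N) x < 1 := fun x =>
    GM.val_ext_lt ((IsDiscreteValuationRing.maximalIdeal
      (v.adicCompletionIntegers N)).valuation (v.adicCompletion N)) Valued.v
      (fun x => (cntC_cmp v x).symm) x
  have hgood : ¬ ((W.baseChange (v.adicCompletion N)).minimal
      (v.adicCompletionIntegers N)).HasGoodReduction (v.adicCompletionIntegers N) := by
    intro hg
    apply h
    apply good_of_completion v W C
    have hint : WeierstrassCurve.IsIntegral (v.adicCompletionIntegers N)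
      ((W.baseChange (v.adicCompletion N)).minimal (v.adicCompletionIntegers N)) := inferInstance
    obtain ⟨I, hI⟩ := hint.integral
    have hd := (heq _).2 hg.goodReduction
    change GM.GoodW _ (C • W.baseChange (v.adicCompletion N))
    rw [← hC]
    refine ⟨⟨?_, ?_, ?_, ?_, ?_⟩, hd⟩
    · rw [hI]
      exact I.a₁.2
    · rw [hI]
      exact I.a₂.2
    · rw [hI]
      exact I.a₃.2
    · rw [hI]
      exact I.a₄.2
    · rw [hI]
      exact I.a₆.2
  have hmult : ¬ ((W.baseChange (v.adicCompletion N)).minimal
      (v.adicCompletionIntegers N)).HasMultiplicativeReduction (v.adicCompletionIntegers N) := by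
    intro hm
    have h1 := (hlt _).2 hm.badReduction
    have h2 := (heq _).2 hm.multiplicativeReduction
    have h3 : Valued.v (((W.baseChange (v.adicCompletion N)).minimal
        (v.adicCompletionIntegers N)).c₄ ^ 3) ≤ Valued.v ((W.baseChange
          (v.adicCompletion N)).minimal (v.adicCompletionIntegers N)).Δ := by
      rw [hC, WeierstrassCurve.variableChange_c₄, WeierstrassCurve.variableChange_Δ, mul_pow,
        ← pow_mul, map_mul, map_mul]
      refine mul_le_mul_right ?_ _
      change Valued.v ((W.map (algebraMap N (v.adicCompletion N))).c₄ ^ 3) ≤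
        Valued.v (W.map (algebraMap N (v.adicCompletion N))).Δ
      rw [WeierstrassCurve.map_c₄, WeierstrassCurve.map_Δ, ← map_pow, cntC_val, cntC_val]
      exact hj
    rw [map_pow, h2, one_pow] at h3
    exact absurd h1 (not_lt.2 h3)
  unfold locPoly WeierstrassCurve.localPolynomial
  rw [if_neg hgood, if_neg (fun h => hmult h.toHasMultiplicativeReduction), if_neg hmult]

end

end Pool.Agent.Lib.MP_1a91b9_nuX.GL
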