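import Pool.Agent.Lib.MP_1a91b9_nuX.GL.Rd
import Pool.Agent.Lib.MP_1a91b9_nt.LocDep

/-!
# The local polynomial of a Weierstrass curve at a place with a good model

PROOF. `R = v.adicCompletionIntegers N`, `W₀ : WeierstrassCurve R` with `W₀.map = (C.map _) • W.baseChange (v.adicCompletion N)`: the coefficients `a_i` of `C • W` satisfy `v a_i ≤ 1` (`GoodW`, `IntW`), so their images in the completion are in `R`
(`HeightOneSpectrum.valuedAdicCompletion_eq_valuation`), `W₀.Δ` is a unit of `R` (its value is `v Δ = 1`). `localPolynomial_of_model` (MP_1a91b9_nt/GoodModel.lean) gives `locPoly W v = 1 - (q + 1 - n) X + q X ^ 2`, `q = nrm v`, `n = #` of the points of `W₀.map (residue R)` over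
the residue field `k_v` of `R`. The ring `O_v = {x ∈ N | v x ≤ 1}` maps onto `k_v` with kernel `{v x < 1}` (density of `N` in the completion; or use `𝓞 N → k_v` surjective with kernel `v.asIdeal`: `redMap`, `residue_ker`, file Residue.lean) and `rd V ∘ algebraMap N Ω` is a ring homomorphism from it to `RF V` with the same kernel (`Abv`), whose
image is in `{z | z ^ q = z}` (`rd_fix`), a set with at most `q` elements, so it is equal to it (`k_v` has `q` elements) and we get an injective ring homomorphism `j : k_v → RF V` with image `{z ^ q = z}` mapping the coefficients of `W₀.map (residue R)` to those of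
`rdW V ((C • W).map (algebraMap N Ω))`. The affine points over `k_v` (all solutions of the equation are nonsingular as `Δ ≠ 0`: `WeierstrassCurve.Affine.nonsingular_of_Δ_ne_zero`-like; points = `0` and the affine ones) correspond to `Sp`. So `n = 1 + (Sp ..).ncard`.
`card_two`: `card_pm` with `rd_closed`, `rd_char`, `rd_fix`.
-/

set_option autoImplicit false

namespace Pool.Agent.Lib.MP_1a91b9_nuX.GL

open NumberField IsDedekindDomain Polynomial Pool.Agent.Lib.MP_1a91b9_nt

section
variable {N Ω : Type*} [Field N] [NumberField N] [Field Ω] [Algebra N Ω]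

theorem CntB_int_le {v : HeightOneSpectrum (𝓞 N)} {V : ValuationSubring Ω} (hV : Abv v V)
    (a : 𝓞 N) : V.valuation (algebraMap N Ω (a : N)) ≤ 1 :=
  (hV _).2 (v.valuation_le_one a)

/-- the reduction of the integers -/
theorem CntB_psi {v : HeightOneSpectrum (𝓞 N)} {V : ValuationSubring Ω} (hV : Abv v V) :
    ∃ ψ : 𝓞 N →+* RF V, ∀ a : 𝓞 N, ψ a = rd V (algebraMap N Ω (a : N)) := by
  refine ⟨⟨⟨⟨fun a => rd V (algebraMap N Ω (a : N)), ?_⟩, ?_⟩, ?_, ?_⟩, fun a => rfl⟩
  · change rd V (algebraMap N Ω ((1 : 𝓞 N) : N)) = 1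
    have e : ((1 : 𝓞 N) : N) = 1 := map_one (algebraMap (𝓞 N) N)
    rw [e, map_one, rd_one]
  · intro a b
    change rd V (algebraMap N Ω ((a * b : 𝓞 N) : N)) = _
    have e : ((a * b : 𝓞 N) : N) = (a : N) * (b : N) := map_mul (algebraMap (𝓞 N) N) a b
    rw [e, map_mul, rd_mul (CntB_int_le hV a) (CntB_int_le hV b)]
  · change rd V (algebraMap N Ω ((0 : 𝓞 N) : N)) = 0
    have e : ((0 : 𝓞 N) : N) = 0 := map_zero (algebraMap (𝓞 N) N)
    rw [e, map_zero, rd_zero]
  · intro a b
    change rd V (algebraMap N Ω ((a + b : 𝓞 N) : N)) = _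
    have e : ((a + b : 𝓞 N) : N) = (a : N) + (b : N) := map_add (algebraMap (𝓞 N) N) a b
    rw [e, map_add, rd_add (CntB_int_le hV a) (CntB_int_le hV b)]

theorem CntB_rd_zero {v : HeightOneSpectrum (𝓞 N)} {V : ValuationSubring Ω} (hV : Abv v V)
    {x : N} (hx : v.valuation N x ≤ 1) :
    rd V (algebraMap N Ω x) = 0 ↔ v.valuation N x < 1 := by
  have h1 := rd_eq (V := V) (x := algebraMap N Ω x) (y := 0) ((hV x).2 hx)
    (by rw [map_zero]; exact zero_le_one)
  rw [rd_zero, sub_zero] at h1
  rw [h1, abv_lt hV]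

/-- the embedding of the residue fields -/
theorem CntB_j {v : HeightOneSpectrum (𝓞 N)} {V : ValuationSubring Ω} (hV : Abv v V) :
    ∃ j : IsLocalRing.ResidueField (v.adicCompletionIntegers N) →+* RF V,
      ∀ (x : N) (x' : v.adicCompletionIntegers N), v.valuation N x ≤ 1 →
        (x' : v.adicCompletion N) = algebraMap N (v.adicCompletion N) x →
        j (IsLocalRing.residue (v.adicCompletionIntegers N) x') = rd V (algebraMap N Ω x) := by
  obtain ⟨ψ, hψ⟩ := CntB_psi hV
  obtain ⟨red, hred⟩ : ∃ red : 𝓞 N →+* IsLocalRing.ResidueField (v.adicCompletionIntegers N),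
      red = (IsLocalRing.residue (v.adicCompletionIntegers N)).comp
        (algebraMap (𝓞 N) (v.adicCompletionIntegers N)) := ⟨_, rfl⟩
  have hsurj : Function.Surjective red := by
    rw [hred]
    exact residue_surjective v
  have hker : RingHom.ker red = v.asIdeal := by
    rw [hred]
    exact residue_ker v
  have hle : ∀ a ∈ RingHom.ker red, ψ a = 0 := by
    intro a ha
    rw [hker] at ha
    rw [hψ, CntB_rd_zero hV (v.valuation_le_one a)]
    exact (v.valuation_lt_one_iff_mem a).2 ha
  refine ⟨(Ideal.Quotient.lift (RingHom.ker red) ψ hle).comp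
    (RingHom.quotientKerEquivOfSurjective hsurj).symm.toRingHom, ?_⟩
  have hj : ∀ a, ((Ideal.Quotient.lift (RingHom.ker red) ψ hle).comp
      (RingHom.quotientKerEquivOfSurjective hsurj).symm.toRingHom) (red a) = ψ a := by
    intro a
    change (Ideal.Quotient.lift (RingHom.ker red) ψ hle)
      ((RingHom.quotientKerEquivOfSurjective hsurj).symm (red a)) = _
    rw [RingHom.quotientKerEquivOfSurjective_symm_apply, Ideal.Quotient.lift_mk]
  intro x x' hx hx'
  obtain ⟨a, ha⟩ := GM.exists_int hx
  have h1 : IsLocalRing.residue (v.adicCompletionIntegers N) x' = red a := by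
    rw [← sub_eq_zero, hred, RingHom.comp_apply, ← map_sub, residue_eq_zero_iff_valued]
    have h2 : ((x' - algebraMap (𝓞 N) (v.adicCompletionIntegers N) a :
        v.adicCompletionIntegers N) : v.adicCompletion N) =
        algebraMap N (v.adicCompletion N) (x - (a : N)) := by
      rw [map_sub, ← hx']
      rfl
    rw [h2, valued_algebraMap]
    exact ha
  rw [h1, hj, hψ]
  refine ((rd_eq ((hV x).2 hx) (CntB_int_le hV a)).2 ?_).symm
  rw [← map_sub, abv_lt hV]
  exact ha

/-- a set of representatives in the completion -/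
theorem CntB_lift {v : HeightOneSpectrum (𝓞 N)} {x : N} (hx : v.valuation N x ≤ 1) :
    ∃ x' : v.adicCompletionIntegers N,
      (x' : v.adicCompletion N) = algebraMap N (v.adicCompletion N) x :=
  ⟨⟨algebraMap N (v.adicCompletion N) x, by
    change Valued.v (algebraMap N (v.adicCompletion N) x) ≤ 1
    rw [valued_algebraMap]
    exact hx⟩, rfl⟩

/-- the image of the embedding -/
theorem CntB_range {κ : Type*} [Field κ] {k : Type*} [Field k] [Finite k] (j : k →+* κ) (z : κ) :
    z ^ Nat.card k = z ↔ ∃ y, j y = z := by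
  classical
  have := Fintype.ofFinite k
  rw [Nat.card_eq_fintype_card]
  constructor
  · intro hz
    have hq : 1 < Fintype.card k := Fintype.one_lt_card
    have hne : (Polynomial.X ^ Fintype.card k - Polynomial.X : κ[X]) ≠ 0 :=
      FiniteField.X_pow_card_sub_X_ne_zero κ hq
    have hsub : Finset.univ.image j ⊆
        (Polynomial.X ^ Fintype.card k - Polynomial.X : κ[X]).roots.toFinset := by
      intro w hw
      obtain ⟨y, _, rfl⟩ := Finset.mem_image.1 hw
      rw [Multiset.mem_toFinset, Polynomial.mem_roots hne, Polynomial.IsRoot.def,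
        Polynomial.eval_sub, Polynomial.eval_pow, Polynomial.eval_X, ← map_pow,
        FiniteField.pow_card, sub_self]
    have hcard : (Polynomial.X ^ Fintype.card k - Polynomial.X : κ[X]).roots.toFinset.card ≤
        (Finset.univ.image j).card := by
      rw [Finset.card_image_of_injective _ j.injective, Finset.card_univ]
      refine (Multiset.toFinset_card_le _).trans ((Polynomial.card_roots' _).trans ?_)
      rw [FiniteField.X_pow_card_sub_X_natDegree_eq κ hq]
    have heq := Finset.eq_of_subset_of_card_le hsub hcard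
    have hz' : z ∈ (Polynomial.X ^ Fintype.card k - Polynomial.X : κ[X]).roots.toFinset := by
      rw [Multiset.mem_toFinset, Polynomial.mem_roots hne, Polynomial.IsRoot.def,
        Polynomial.eval_sub, Polynomial.eval_pow, Polynomial.eval_X, hz, sub_self]
    rw [← heq] at hz'
    obtain ⟨y, _, hy⟩ := Finset.mem_image.1 hz'
    exact ⟨y, hy⟩
  · rintro ⟨y, rfl⟩
    rw [← map_pow, FiniteField.pow_card]

/-- the number of points, by an embedding of the finite field -/
theorem CntB_card {κ : Type*} [Field κ] {k : Type*} [Field k] [Finite k] (j : k →+* κ)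
    (W : WeierstrassCurve k) (hΔ : W.Δ ≠ 0) (W' : WeierstrassCurve κ) (hW : W.map j = W') :
    (Sp (Nat.card k) W').Finite ∧
      Nat.card W.toAffine.Point = (Sp (Nat.card k) W').ncard + 1 := by
  classical
  have himg : Sp (Nat.card k) W' =
      (fun P : k × k => (j P.1, j P.2)) '' {P : k × k | W.toAffine.Nonsingular P.1 P.2} := by
    ext ⟨x, y⟩
    constructor
    · rintro ⟨hx, hy, he⟩
      obtain ⟨a, ha⟩ := (CntB_range j x).1 hx
      obtain ⟨b, hb⟩ := (CntB_range j y).1 hy
      refine ⟨(a, b), ?_, ?_⟩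
      · change W.toAffine.Nonsingular a b
        rw [← WeierstrassCurve.Affine.equation_iff_nonsingular_of_Δ_ne_zero hΔ,
          WeierstrassCurve.Affine.equation_iff]
        apply j.injective
        dsimp only at he
        rw [← ha, ← hb, ← hW] at he
        simp only [WeierstrassCurve.map_a₁, WeierstrassCurve.map_a₂, WeierstrassCurve.map_a₃,
          WeierstrassCurve.map_a₄, WeierstrassCurve.map_a₆] at he
        simp only [map_add, map_mul, map_pow]
        exact he
      · change (j a, j b) = (x, y)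
        rw [ha, hb]
    · rintro ⟨⟨a, b⟩, hab, h⟩
      rw [Prod.mk.injEq] at h
      obtain ⟨h1, h2⟩ := h
      dsimp only at h1 h2
      refine ⟨(CntB_range j x).2 ⟨a, h1⟩, (CntB_range j y).2 ⟨b, h2⟩, ?_⟩
      change W.toAffine.Nonsingular a b at hab
      rw [← WeierstrassCurve.Affine.equation_iff_nonsingular_of_Δ_ne_zero hΔ,
          WeierstrassCurve.Affine.equation_iff] at hab
      have he := congrArg j hab
      simp only [map_add, map_mul, map_pow] at he
      dsimp only
      rw [← h1, ← h2, ← hW]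
      simp only [WeierstrassCurve.map_a₁, WeierstrassCurve.map_a₂, WeierstrassCurve.map_a₃,
          WeierstrassCurve.map_a₄, WeierstrassCurve.map_a₆]
      exact he
  have hinj : Function.Injective (fun P : k × k => (j P.1, j P.2)) := by
    rintro ⟨a, b⟩ ⟨c, d⟩ h
    rw [Prod.mk.injEq] at h
    rw [Prod.mk.injEq]
    exact ⟨j.injective h.1, j.injective h.2⟩
  have hfin : ({P : k × k | W.toAffine.Nonsingular P.1 P.2}).Finite := Set.toFinite _
  refine ⟨by rw [himg]; exact hfin.image _, ?_⟩
  rw [himg, Set.ncard_image_of_injective _ hinj, Nat.card_congr (pointEquivOption W),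
    Finite.card_option]
  rfl

/-- the local polynomial in terms of the points over the residue field of `V` -/
theorem locPoly_good {v : HeightOneSpectrum (𝓞 N)} {V : ValuationSubring Ω} (hV : Abv v V)
    (W : WeierstrassCurve N) {C : WeierstrassCurve.VariableChange N}
    (hC : GM.GoodW (v.valuation N) (C • W)) :
    (Sp (Ideal.absNorm v.asIdeal) (rdW V ((C • W).map (algebraMap N Ω)))).Finite ∧
    locPoly W v = 1 - Polynomial.C ((Ideal.absNorm v.asIdeal : ℤ) -
      ((Sp (Ideal.absNorm v.asIdeal) (rdW V ((C • W).map (algebraMap N Ω)))).ncard : ℤ)) * X +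
      Polynomial.C (Ideal.absNorm v.asIdeal : ℤ) * X ^ 2 := by
  obtain ⟨j, hj⟩ := CntB_j hV
  have hfin := finite_residue v
  have hq : Nat.card (IsLocalRing.ResidueField (v.adicCompletionIntegers N)) =
      Ideal.absNorm v.asIdeal := nrm_eq v
  obtain ⟨x1, h1⟩ := CntB_lift hC.a1
  obtain ⟨x2, h2⟩ := CntB_lift hC.a2
  obtain ⟨x3, h3⟩ := CntB_lift hC.a3
  obtain ⟨x4, h4⟩ := CntB_lift hC.a4
  obtain ⟨x6, h6⟩ := CntB_lift hC.a6
  let W₀ : WeierstrassCurve (v.adicCompletionIntegers N) := ⟨x1, x2, x3, x4, x6⟩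
  have hW₀ : (C • W).map (algebraMap N (v.adicCompletion N)) =
      W₀.map (algebraMap (v.adicCompletionIntegers N) (v.adicCompletion N)) :=
    WeierstrassCurve.ext h1.symm h2.symm h3.symm h4.symm h6.symm
  have hmodel : (C.map (algebraMap N (v.adicCompletion N))) • (W.baseChange (v.adicCompletion N)) =
      W₀.map (algebraMap (v.adicCompletionIntegers N) (v.adicCompletion N)) := by
    rw [← hW₀, ← WeierstrassCurve.map_variableChange]
    rfl
  have hres : (W₀.map (IsLocalRing.residue (v.adicCompletionIntegers N))).map j =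
      rdW V ((C • W).map (algebraMap N Ω)) := by
    ext
    · exact hj _ _ hC.a1 h1
    · exact hj _ _ hC.a2 h2
    · exact hj _ _ hC.a3 h3
    · exact hj _ _ hC.a4 h4
    · exact hj _ _ hC.a6 h6
  have hΔv : Valued.v ((W₀.Δ : v.adicCompletionIntegers N) : v.adicCompletion N) = 1 := by
    have e : ((W₀.Δ : v.adicCompletionIntegers N) : v.adicCompletion N) =
        algebraMap N (v.adicCompletion N) (C • W).Δ := by
      have h7 := congrArg WeierstrassCurve.Δ hW₀
      rw [WeierstrassCurve.map_Δ, WeierstrassCurve.map_Δ] at h7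
      exact h7.symm
    rw [e, valued_algebraMap]
    exact hC.disc
  have hΔres : IsLocalRing.residue (v.adicCompletionIntegers N) W₀.Δ ≠ 0 := by
    rw [Ne, residue_eq_zero_iff_valued, hΔv]
    exact lt_irrefl _
  have hΔ : IsUnit W₀.Δ := (IsLocalRing.residue_ne_zero_iff_isUnit _).1 hΔres
  obtain ⟨hf, hc⟩ := CntB_card j (W₀.map (IsLocalRing.residue (v.adicCompletionIntegers N)))
    (by rw [WeierstrassCurve.map_Δ]; exact hΔres) _ hres
  rw [hq] at hf hc
  refine ⟨hf, ?_⟩
  have hloc := localPolynomial_of_model (v.adicCompletionIntegers N)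
    (W.baseChange (v.adicCompletion N)) (C.map (algebraMap N (v.adicCompletion N))) W₀ hmodel hΔ
  rw [hc, hq] at hloc
  unfold locPoly
  rw [hloc]
  push_cast
  have e : ((Ideal.absNorm v.asIdeal : ℤ) + 1 -
      (((Sp (Ideal.absNorm v.asIdeal) (rdW V ((C • W).map (algebraMap N Ω)))).ncard : ℤ) + 1)) =
      (Ideal.absNorm v.asIdeal : ℤ) -
      ((Sp (Ideal.absNorm v.asIdeal) (rdW V ((C • W).map (algebraMap N Ω)))).ncard : ℤ) := by ring
  rw [e]

theorem card_two [IsAlgClosed Ω] {v : HeightOneSpectrum (𝓞 N)} {V : ValuationSubring Ω}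
    (hV : Abv v V) (W : WeierstrassCurve N) (hW : GM.IntW (v.valuation N) W) :
    (Sp (Ideal.absNorm v.asIdeal) (rdW V (W.map (algebraMap N Ω)))).Finite ∧
    (Sm (Ideal.absNorm v.asIdeal) (rdW V (W.map (algebraMap N Ω)))).Finite ∧
    (Sp (Ideal.absNorm v.asIdeal) (rdW V (W.map (algebraMap N Ω)))).ncard +
      (Sm (Ideal.absNorm v.asIdeal) (rdW V (W.map (algebraMap N Ω)))).ncard =
      2 * Ideal.absNorm v.asIdeal := by
  classical
  have hfin := finite_residue v
  have hcl : IsAlgClosed (RF V) := rd_closed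
  have hq : Nat.card (IsLocalRing.ResidueField (v.adicCompletionIntegers N)) =
      Ideal.absNorm v.asIdeal := nrm_eq v
  have := Fintype.ofFinite (IsLocalRing.ResidueField (v.adicCompletionIntegers N))
  obtain ⟨p, hp⟩ := CharP.exists (IsLocalRing.ResidueField (v.adicCompletionIntegers N))
  obtain ⟨n, hprime, hn⟩ := FiniteField.card
    (IsLocalRing.ResidueField (v.adicCompletionIntegers N)) p
  have hpv : V.valuation (p : Ω) < 1 := by
    have h1 : (p : 𝓞 N) ∈ v.asIdeal := by
      rw [← residue_ker v, RingHom.mem_ker, map_natCast]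
      exact CharP.cast_eq_zero _ p
    have h2 : v.valuation N (algebraMap (𝓞 N) N (p : 𝓞 N)) < 1 :=
      (v.valuation_lt_one_iff_mem (K := N) (p : 𝓞 N)).2 h1
    rw [map_natCast (algebraMap (𝓞 N) N)] at h2
    have h3 := (abv_lt hV (p : N)).2 h2
    rwa [map_natCast] at h3
  have hchar : CharP (RF V) p := rd_char hprime hpv
  have hfact : Fact p.Prime := ⟨hprime⟩
  have hqn : Ideal.absNorm v.asIdeal = p ^ (n : ℕ) := by
    rw [← hq, Nat.card_eq_fintype_card]
    exact hn
  exact card_pm p n.ne_zero hqn
    ⟨rd_fix hV hW.a1, rd_fix hV hW.a2, rd_fix hV hW.a3, rd_fix hV hW.a4, rd_fix hV hW.a6⟩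

end

end Pool.Agent.Lib.MP_1a91b9_nuX.GL
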