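import Pool.Agent.Lib.MP_1a91b9_nuX.GL.PiA

/-!
# The points killed by an element of value one are not in the kernel of reduction

PROOF of `cj_kr`: `p` the residue characteristic, `β : 𝓞 K` with `Ideal.absNorm (Ideal.span {β}) = p` and `β ∉ P.asIdeal`; `Y ∈ KrC`, `sm β Y = 0`, then `Y = 0`. Suppose `Y ≠ 0`. `Deg1 β p`, `β` is prime (`Deg1.isPrime`), `Ord β Y` (`ord_of_prime`).
`T` with `IsRes β T` (`isRes_deg1` or `exists_isRes`; `T.card + 1 = p ≥ 2`, so `T` is not empty). Every `S = sm a Y`, `a ∈ T`, is `k • Y` for an integer `k` (`Deg1.exists_int`, `sm_eq_int`), so `S ∈ KrC`, `S ≠ 0` (`tors_ne`): `V (cx S) > 1`.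
Primes `l ≥ 5`, `l' ≥ l + 1` of value one; `X ≠ 0`, `l • X = 0`; `R ≠ 0`, `l' • R = 0`; both `Tr`, not in `KrC`; `X ∓ R` are `Tr` and `≠ 0`. `sm β X ≠ 0`, `2 • sm β R ≠ 0`, `sm β X ≠ ± sm β R` (`sm_inj_on`, `p` is prime to `l`, `l'`, since `V p < 1`).
`V (cx X - cx R) = 1` (`krc_unit`); `V (cx (X + S) - cx X) < 1` (`krc_near`), so `V (cx (X + S) - cx R) = 1`. `V (cx S - cx R) = V (cx S) > 1`. `V (cx (sm β X) - cx (sm β R)) = 1` (`krc_unit` for `sm β X`, `sm β R`, which are `Tr` and whose sum and difference are `≠ 0`).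
`V β = 1`. `distc`: `1 = 1 * ∏ V (cx S) * 1 > 1`, contradiction.
PROOF of `ta_kr`: `X ∈ KrC`, `sm a X = 0`, `V a = 1` (`a ∉ P`, `val_one_iff`), `a ≠ 0`. `N a = a * cj a` (`mul_cj`). If `V (N a) = 1`: `N a • X = 0`, `krc_tors`. Otherwise `N a ∈ P` (`res_char`), so `cj a ∈ P = span {π}` (`exists_gen`), `cj π ∣ a` (`cj_dvd_iff`, `cj_cj`).
`cj π ∉ P` (otherwise `π ∣ cj π ∣ a`). The norm of `π` is `p` (`norm_cases`: in the other case `span {π} = span {p}` and `cj π` would be in `P`). Put `β = cj π`: `absNorm_cj`, `Ideal.absNorm (span {β}) = p`, prime. `a = β ^ j * a'` with `β ∤ a'` (`exists_eq_pow_mul_and_not_dvd`,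
`FiniteMultiplicity`; `a ≠ 0`, `β` not a unit). `V (N a') = 1`: otherwise as before `cj π ∣ a'`. So `N a' • X` is killed by `β ^ j` (`β ^ j * N a' = cj a' * a`); it is in `KrC`; if it is `0` then `X = 0` (`krc_tors`). So it is enough:
for every `j`: `X ∈ KrC`, `sm (β ^ j) X = 0` imply `X = 0`. Induction on `j`: `j = 0` clear. `j + 1`: `Y = p ^ j • X ∈ KrC`, `sm β Y = 0` since `p ^ j = π ^ j β ^ j` (`π * cj π = N π = p`), so `Y = 0` by `cj_kr`, that is `sm (π ^ j) (sm (β ^ j) X) = 0`; also `sm β (sm (β ^ j) X) = 0`;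
`π ^ j` and `β` are coprime (`β` prime, `β ∤ π ^ j` since otherwise `β ∣ π`, `π ∣ cj π = β` (apply `cj`) and `cj π ∈ P`), so `sm (β ^ j) X = 0`, and `X = 0` by induction.
-/

set_option autoImplicit false

namespace Pool.Agent.Lib.MP_1a91b9_nuX.GL

open NumberField IsDedekindDomain WeierstrassCurve Pool.Agent.Lib.MP_1a91b9_nuT DB

variable [CD] [DecidableEq Kb]

omit [CD] [DecidableEq Kb] in
private theorem PiC_kill {G : Type*} [AddCommGroup G] {m n : ℕ} (h : Nat.Coprime m n) {Z : G}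
    (hm : m • Z = 0) (hn : n • Z = 0) : Z = 0 := by
  have h1 := addOrderOf_dvd_of_nsmul_eq_zero hm
  have h2 := addOrderOf_dvd_of_nsmul_eq_zero hn
  have h3 : addOrderOf Z = 1 := Nat.eq_one_of_dvd_coprimes h h1 h2
  exact AddMonoid.addOrderOf_eq_one_iff.1 h3

private theorem PiC_smkill {u w : 𝓞 K} (h : IsCoprime u w) {W : Pt Kb} (hu : sm Kb u W = 0)
    (hw : sm Kb w W = 0) : W = 0 := by
  obtain ⟨x, y, hxy⟩ := h
  have h1 : sm Kb (x * u + y * w) W = 0 := by
    rw [sm_add, sm_mul, sm_mul, hu, hw, map_zero, map_zero, add_zero]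
  rw [hxy, sm_one] at h1
  exact h1

section
variable {P : HeightOneSpectrum (𝓞 K)} {V : ValuationSubring Kb} (hV : Abv P V)
include hV

omit [DecidableEq Kb] in
private theorem PiC_cast (n : ℕ) : V.valuation (n : Kb) < 1 ↔ (n : 𝓞 K) ∈ P.asIdeal := by
  have h := val_lt_iff hV (n : 𝓞 K)
  have h1 : algebraMap K Kb ((n : 𝓞 K) : K) = (n : Kb) := by
    change algebraMap K Kb (algebraMap (𝓞 K) K (n : 𝓞 K)) = (n : Kb)
    rw [map_natCast, map_natCast]
  rw [h1] at h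
  exact h

omit [DecidableEq Kb] in
private theorem PiC_norm {b : 𝓞 K} (hb : b ∉ P.asIdeal)
    (hN : V.valuation ((Ideal.absNorm (Ideal.span {b}) : ℕ) : Kb) ≠ 1) : cj b ∈ P.asIdeal := by
  obtain ⟨p, -, -, hchar⟩ := res_char hV
  have h1 : V.valuation ((Ideal.absNorm (Ideal.span {b}) : ℕ) : Kb) ≤ 1 := by
    have h := val_ok hV ((Ideal.absNorm (Ideal.span {b}) : ℕ) : 𝓞 K)
    change V.valuation (algebraMap K Kb (algebraMap (𝓞 K) K
      ((Ideal.absNorm (Ideal.span {b}) : ℕ) : 𝓞 K))) ≤ 1 at h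
    rw [map_natCast, map_natCast] at h
    exact h
  have h2 := (PiC_cast hV _).1 (lt_of_le_of_ne h1 hN)
  rw [← mul_cj] at h2
  exact (P.isPrime.mem_or_mem h2).resolve_left hb

end

section
variable {P : HeightOneSpectrum (𝓞 K)} {V : ValuationSubring Kb} (hV : Abv P V)
  {C : VariableChange Kb} (hC : GoodC V.valuation C)
include hV hC

theorem cj_kr {p : ℕ} (hp : p.Prime) (hpV : V.valuation (p : Kb) < 1) {β : 𝓞 K}
    (hβ : Ideal.absNorm (Ideal.span {β}) = p) (hβP : β ∉ P.asIdeal) {Y : Pt Kb}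
    (hY : KrC V.valuation C Y) (h : sm Kb β Y = 0) : Y = 0 := by
  classical
  by_contra hY0
  have hd : Deg1 β p := ⟨hp, hβ⟩
  have hβ0 : β ≠ 0 := hd.isPrime.ne_zero
  have hO : Ord β Y := ord_of_prime hd.isPrime h hY0
  obtain ⟨T, hT, hTn, hTm⟩ := isRes_deg1 hd
  have h1T : ((1 : ℕ) : 𝓞 K) ∈ T := hTm 1 (Finset.mem_Ico.2 ⟨le_rfl, hp.one_lt⟩)
  have hSk : ∀ a ∈ T, KrC V.valuation C (sm Kb a Y) := by
    intro a ha
    obtain ⟨n, -, rfl⟩ := hTn a ha
    rw [sm_nat]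
    exact krc_nsmul hC hY n
  have hS1 : ∀ a ∈ T, 1 < V.valuation (cx C (sm Kb a Y)) := by
    intro a ha
    exact (hSk a ha).resolve_left (tors_ne hT hO ha)
  obtain ⟨l, hl, hl5, hlV⟩ := exists_prime hV 5
  obtain ⟨l', hl', hll, hlV'⟩ := exists_prime hV (l + 1)
  have hpl : Nat.Coprime p l := (Nat.coprime_primes hp hl).2 (by
    rintro rfl
    exact absurd hlV hpV.ne)
  have hpl' : Nat.Coprime p l' := (Nat.coprime_primes hp hl').2 (by
    rintro rfl
    exact absurd hlV' hpV.ne)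
  have hcop : Nat.Coprime l l' := (Nat.coprime_primes hl hl').2 (by omega)
  have hcop2 : Nat.Coprime 2 l' := (Nat.coprime_primes Nat.prime_two hl').2 (by omega)
  obtain ⟨X, hX0, hXl⟩ := exists_pt_prime (hl := hl)
  obtain ⟨R, hR0, hRl⟩ := exists_pt_prime (hl := hl')
  have hXT : Tr V.valuation X := ⟨l, hlV, hXl⟩
  have hRT : Tr V.valuation R := ⟨l', hlV', hRl⟩
  have hsl : l • sm Kb β X = 0 := by rw [← map_nsmul, hXl, map_zero]
  have hsl' : l' • sm Kb β R = 0 := by rw [← map_nsmul, hRl, map_zero]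
  have hsX : sm Kb β X ≠ 0 := fun h1 => hX0 (sm_inj_on (by rw [hβ]; exact hpl) h1 hXl)
  have hsR : sm Kb β R ≠ 0 := fun h1 => hR0 (sm_inj_on (by rw [hβ]; exact hpl') h1 hRl)
  have hsR2 : 2 • sm Kb β R ≠ 0 := fun h1 => hsR (PiC_kill hcop2 h1 hsl')
  have key : ∀ {A B : Pt Kb}, A ≠ 0 → l • A = 0 → l' • B = 0 → A ≠ B ∧ A ≠ -B := by
    intro A B hA hAl hBl
    refine ⟨fun h1 => hA (PiC_kill hcop hAl (by rw [h1, hBl])), fun h1 =>
      hA (PiC_kill hcop hAl (by rw [h1, smul_neg, hBl, neg_zero]))⟩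
  have hsub : ∀ {A B : Pt Kb}, A ≠ 0 → l • A = 0 → l' • B = 0 → Tr V.valuation A →
      Tr V.valuation B → ¬ KrC V.valuation C (A - B) ∧ ¬ KrC V.valuation C (A + B) := by
    intro A B hA hAl hBl hAT hBT
    obtain ⟨h1, h2⟩ := key hA hAl hBl
    exact ⟨tr_not_kr hC (tr_sub hAT hBT) (sub_ne_zero.2 h1),
      tr_not_kr hC (tr_add hAT hBT) fun h3 => h2 (eq_neg_of_add_eq_zero_left h3)⟩
  have hne : xc (sm Kb β X) ≠ xc (sm Kb β R) := by
    rw [Ne, xc_eq_iff hsX hsR, not_or]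
    exact key hsX hsl hsl'
  have hXk : ¬ KrC V.valuation C X := tr_not_kr hC hXT hX0
  have hRk : ¬ KrC V.valuation C R := tr_not_kr hC hRT hR0
  have hR1 := (not_krc hRk).2
  have v1 : V.valuation (cx C X - cx C R) = 1 := by
    obtain ⟨h1, h2⟩ := hsub hX0 hXl hRl hXT hRT
    rw [krc_unit hC hXk hR0 h1 h2, max_eq_left hR1]
  have v2 : ∀ a ∈ T, V.valuation (cx C (X + sm Kb a Y) - cx C R) = 1 := by
    intro a ha
    have h1 : KrC V.valuation C (X + sm Kb a Y - X) := by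
      rw [add_sub_cancel_left]
      exact hSk a ha
    have h2 := (krc_near hC hXk h1).1
    have h3 : cx C (X + sm Kb a Y) - cx C R =
        (cx C (X + sm Kb a Y) - cx C X) + (cx C X - cx C R) := by ring
    rw [h3, Valuation.map_add_eq_of_lt_right _ (by rw [v1]; exact h2), v1]
  have v3 : ∀ a ∈ T, V.valuation (cx C (sm Kb a Y) - cx C R) =
      V.valuation (cx C (sm Kb a Y)) := by
    intro a ha
    rw [sub_eq_add_neg]
    refine Valuation.map_add_eq_of_lt_left _ ?_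
    rw [Valuation.map_neg]
    exact lt_of_le_of_lt hR1 (hS1 a ha)
  have v4 : V.valuation (cx C (sm Kb β X) - cx C (sm Kb β R)) = 1 := by
    obtain ⟨h1, h2⟩ := hsub hsX hsl hsl' (tr_sm hXT β) (tr_sm hRT β)
    rw [krc_unit hC (tr_not_kr hC (tr_sm hXT β) hsX) hsR h1 h2,
      max_eq_left (not_krc (tr_not_kr hC (tr_sm hRT β) hsR)).2]
  have v5 : V.valuation (algebraMap K Kb (β : K)) = 1 := (val_one_iff hV β).2 hβP
  have hdist := congrArg V.valuation (distc hβ0 hT hO C hsX hsR2 hne)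
  rw [map_mul, map_mul, map_mul, map_pow, map_prod, map_prod, v1, v4, v5,
    Finset.prod_congr rfl v2, Finset.prod_congr rfl v3, Finset.prod_const_one, one_pow, one_mul,
    one_mul, mul_one] at hdist
  have hlt : 1 < ∏ a ∈ T, V.valuation (cx C (sm Kb a Y)) := by
    rw [← Finset.mul_prod_erase T _ h1T]
    have h1 : 1 ≤ ∏ a ∈ T.erase ((1 : ℕ) : 𝓞 K), V.valuation (cx C (sm Kb a Y)) :=
      Finset.one_le_prod' fun a ha => (hS1 a (Finset.mem_of_mem_erase ha)).le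
    exact lt_of_lt_of_le (hS1 _ h1T) (le_mul_of_one_le_right' h1)
  exact absurd hdist hlt.ne

/-- no point killed by an element of value one in the kernel of reduction -/
theorem ta_kr {X : Pt Kb} (h : Ta V.valuation X) (hX : KrC V.valuation C X) : X = 0 := by
  obtain ⟨a, ha1, ha⟩ := h
  have haP : a ∉ P.asIdeal := (val_one_iff hV a).1 ha1
  have hkill : ∀ (b c : 𝓞 K), sm Kb (c * b) X = sm Kb c (sm Kb b X) := fun b c => sm_mul c b X
  by_cases hNa : V.valuation ((Ideal.absNorm (Ideal.span {a}) : ℕ) : Kb) = 1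
  · refine krc_tors hC hX hNa ?_
    rw [← sm_nat, ← mul_cj, mul_comm, sm_mul, ha, map_zero]
  have hcjP : cj a ∈ P.asIdeal := PiC_norm hV haP hNa
  obtain ⟨p, hp, hpV, -⟩ := res_char hV
  obtain ⟨π, -, hπ⟩ := exists_gen P
  have hmem : ∀ c : 𝓞 K, c ∈ P.asIdeal ↔ π ∣ c := fun c => by
    rw [← hπ, Ideal.mem_span_singleton]
  have hcjd : ∀ c : 𝓞 K, cj c ∈ P.asIdeal → cj π ∣ c := fun c hc => by
    rw [hmem, ← cj_dvd_iff, cj_cj] at hc
    exact hc
  have hβa : cj π ∣ a := hcjd a hcjP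
  have hβP : cj π ∉ P.asIdeal := fun h1 => haP ((hmem a).2 (((hmem _).1 h1).trans hβa))
  have hπN : Ideal.absNorm (Ideal.span {π}) = p := by
    rw [hπ]
    rcases norm_cases hV hp hpV with h1 | h1
    · exact h1
    · exfalso
      apply hβP
      have h2 : π ∈ P.asIdeal := (hmem π).2 dvd_rfl
      rw [h1, Ideal.mem_span_singleton] at h2 ⊢
      have h3 := map_dvd cj h2
      rwa [map_natCast] at h3
  have hβN : Ideal.absNorm (Ideal.span {cj π}) = p := by rw [absNorm_cj, hπN]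
  have hd : Deg1 (cj π) p := ⟨hp, hβN⟩
  have hβp : Prime (cj π) := hd.isPrime
  have hpe : ((p : ℕ) : 𝓞 K) = π * cj π := by rw [mul_cj, hπN]
  have hndvd : ¬ cj π ∣ π := fun h1 => hβP ((hmem _).2 (by
    have h2 := cj_dvd_iff.2 h1
    rwa [cj_cj] at h2))
  -- the points killed by the powers of `cj π`
  have hmain : ∀ (j : ℕ) (Z : Pt Kb), KrC V.valuation C Z → sm Kb (cj π ^ j) Z = 0 → Z = 0 := by
    intro j
    induction j with
    | zero =>
      intro Z _ hZ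
      rwa [pow_zero, sm_one] at hZ
    | succ j ih =>
      intro Z hZk hZ
      refine ih Z hZk ?_
      have h1 : sm Kb (cj π) (p ^ j • Z) = 0 := by
        rw [← sm_nat, ← sm_mul, Nat.cast_pow, hpe, mul_pow]
        have h2 : cj π * (π ^ j * cj π ^ j) = π ^ j * cj π ^ (j + 1) := by ring
        rw [h2, sm_mul, hZ, map_zero]
      have h3 := cj_kr hV hC hp hpV hβN hβP (krc_nsmul hC hZk (p ^ j)) h1
      rw [← sm_nat, Nat.cast_pow, hpe, mul_pow, sm_mul] at h3
      have h4 : sm Kb (cj π) (sm Kb (cj π ^ j) Z) = 0 := by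
        rw [← sm_mul, mul_comm, ← pow_succ]
        exact hZ
      have h5 : IsCoprime (cj π) (π ^ j) := by
        rw [hβp.irreducible.coprime_iff_not_dvd]
        exact fun h6 => hndvd (hβp.dvd_of_dvd_pow h6)
      exact PiC_smkill h5 h4 h3
  have ha0 : a ≠ 0 := by
    rintro rfl
    exact haP (Ideal.zero_mem _)
  obtain ⟨a', haa, hnd⟩ :=
    (FiniteMultiplicity.of_not_isUnit hβp.not_isUnit ha0).exists_eq_pow_mul_and_not_dvd
  have haP' : a' ∉ P.asIdeal := fun h1 => haP (by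
    rw [haa]
    exact Ideal.mul_mem_left _ _ h1)
  have hNa' : V.valuation ((Ideal.absNorm (Ideal.span {a'}) : ℕ) : Kb) = 1 := by
    by_contra h1
    exact hnd (hcjd a' (PiC_norm hV haP' h1))
  refine krc_tors hC hX hNa' (hmain (multiplicity (cj π) a) _ (krc_nsmul hC hX _) ?_)
  rw [← sm_nat, ← sm_mul, ← mul_cj, ← mul_assoc, ← haa, mul_comm, sm_mul, ha, map_zero]

end

end Pool.Agent.Lib.MP_1a91b9_nuX.GL
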