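import Mathlib

/-!
# Counting the points of a Weierstrass curve over a finite field and of its quadratic twist

`κ` is algebraically closed of characteristic `p`, `q` a power of `p`, `W` has coefficients in `𝔽_q = {x | x ^ q = x}`. `Sp q W` = the affine points with both coordinates in `𝔽_q`, `Sm q W` = the points with abscissa in `𝔽_q` whose image under
the Frobenius map is their opposite.

PROOF. `X ^ q - X` splits with `q` distinct roots in `κ` (separable: its derivative is `-1`), so `𝔽_q` has `q` elements. Fix `x ∈ 𝔽_q`. The equation `y ^ 2 + (a₁ x + a₃) y = g`, `g = x³ + a₂ x² + a₄ x + a₆`, has a root `y₁`, the other root is `y₂ = -y₁ - a₁ x - a₃`. `y ↦ y ^ q` maps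
a root to a root (the coefficients are in `𝔽_q`, `add_pow_char_pow`). If `y₁ ≠ y₂`: either `y₁ ^ q = y₁` and then `y₂ ^ q = y₂`, two points in `Sp`, none in `Sm`; or `y₁ ^ q = y₂`, `y₂ ^ q = y₁`, two points in `Sm` and none in `Sp`. If `y₁ = y₂` the only root satisfies
`y₁ ^ q = y₁ = -y₁ - a₁ x - a₃`: one point in `Sp`, one in `Sm`. So the fibres over `x` of `Sp` and `Sm` have together `2` elements; sum over the `q` values of `x` (`Set.ncard` as `Finset.card`, `Finset.card_eq_sum_card_fiberwise`).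
-/

set_option autoImplicit false

namespace Pool.Agent.Lib.MP_1a91b9_nuX.GL

section
variable {κ : Type*} [Field κ]

/-- the affine points with coordinates fixed by the Frobenius map -/
def Sp (q : ℕ) (W : WeierstrassCurve κ) : Set (κ × κ) :=
  {P | P.1 ^ q = P.1 ∧ P.2 ^ q = P.2 ∧ P.2 ^ 2 + W.a₁ * P.1 * P.2 + W.a₃ * P.2 =
    P.1 ^ 3 + W.a₂ * P.1 ^ 2 + W.a₄ * P.1 + W.a₆}

/-- the affine points which the Frobenius map sends to their opposites -/
def Sm (q : ℕ) (W : WeierstrassCurve κ) : Set (κ × κ) :=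
  {P | P.1 ^ q = P.1 ∧ P.2 ^ q = -P.2 - W.a₁ * P.1 - W.a₃ ∧
    P.2 ^ 2 + W.a₁ * P.1 * P.2 + W.a₃ * P.2 = P.1 ^ 3 + W.a₂ * P.1 ^ 2 + W.a₄ * P.1 + W.a₆}

/-- the coefficients are fixed by the Frobenius map -/
structure FixW (q : ℕ) (W : WeierstrassCurve κ) : Prop where
  a1 : W.a₁ ^ q = W.a₁
  a2 : W.a₂ ^ q = W.a₂
  a3 : W.a₃ ^ q = W.a₃
  a4 : W.a₄ ^ q = W.a₄
  a6 : W.a₆ ^ q = W.a₆

open Classical in
/-- One fibre: the two roots of a quadratic polynomial with coefficients fixed by `φ`. -/
private theorem cntA_fib [IsAlgClosed κ] (φ : κ →+* κ) {b g : κ} (hb : φ b = b) (hg : φ g = g) :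
    ∃ R : Finset κ × Finset κ, (∀ y, y ∈ R.1 ↔ (φ y = y ∧ y ^ 2 + b * y = g)) ∧
      (∀ y, y ∈ R.2 ↔ (φ y = -y - b ∧ y ^ 2 + b * y = g)) ∧ R.1.card + R.2.card = 2 := by
  have hdeg : (Polynomial.X ^ 2 + Polynomial.C b * Polynomial.X + Polynomial.C (-g) :
      Polynomial κ).degree = 2 := by
    compute_degree!
  obtain ⟨y₁, hy₁⟩ := IsAlgClosed.exists_root
    (Polynomial.X ^ 2 + Polynomial.C b * Polynomial.X + Polynomial.C (-g) : Polynomial κ)
    (by rw [hdeg]; exact two_ne_zero)
  have hy : y₁ ^ 2 + b * y₁ = g := by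
    rw [Polynomial.IsRoot.def] at hy₁
    simp only [Polynomial.eval_add, Polynomial.eval_pow, Polynomial.eval_X, Polynomial.eval_mul,
      Polynomial.eval_C] at hy₁
    linear_combination hy₁
  have hroot : ∀ y, y ^ 2 + b * y = g ↔ (y = y₁ ∨ y = -y₁ - b) := by
    intro y
    constructor
    · intro h
      have h2 : (y - y₁) * (y - (-y₁ - b)) = 0 := by linear_combination h - hy
      rcases mul_eq_zero.mp h2 with h3 | h3
      · left; exact sub_eq_zero.mp h3
      · right; exact sub_eq_zero.mp h3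
    · rintro (rfl | rfl)
      · exact hy
      · linear_combination hy
  have hφ : (φ y₁) ^ 2 + b * φ y₁ = g := by
    have h := congrArg φ hy
    rw [map_add, map_pow, map_mul, hb, hg] at h
    exact h
  have hφ2 : φ (-y₁ - b) = -(φ y₁) - b := by rw [map_sub, map_neg, hb]
  by_cases h12 : y₁ = -y₁ - b
  · refine ⟨({y₁}, {y₁}), ?_, ?_, ?_⟩
    · intro y
      rw [Finset.mem_singleton, hroot y, ← h12, or_self]
      constructor
      · rintro rfl
        refine ⟨?_, rfl⟩
        rcases (hroot _).mp hφ with h | h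
        · exact h
        · rw [h]; exact h12.symm
      · exact fun h => h.2
    · intro y
      rw [Finset.mem_singleton, hroot y, ← h12, or_self]
      constructor
      · rintro rfl
        refine ⟨?_, rfl⟩
        rcases (hroot _).mp hφ with h | h
        · rw [h]; exact h12
        · exact h
      · exact fun h => h.2
    · simp
  · have hcard : ({y₁, -y₁ - b} : Finset κ).card = 2 := Finset.card_pair h12
    rcases (hroot _).mp hφ with h | h
    · refine ⟨({y₁, -y₁ - b}, ∅), ?_, ?_, ?_⟩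
      · intro y
        rw [Finset.mem_insert, Finset.mem_singleton, hroot y]
        constructor
        · rintro (rfl | rfl)
          · exact ⟨h, Or.inl rfl⟩
          · exact ⟨by rw [hφ2, h], Or.inr rfl⟩
        · exact fun h => h.2
      · intro y
        rw [hroot y]
        constructor
        · intro h0
          exact absurd h0 (Finset.notMem_empty y)
        · rintro ⟨h1, rfl | rfl⟩
          · exact absurd (h.symm.trans h1) h12
          · rw [hφ2, h] at h1
            exact absurd (by linear_combination -h1) h12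
      · rw [Finset.card_empty, hcard]
    · refine ⟨(∅, {y₁, -y₁ - b}), ?_, ?_, ?_⟩
      · intro y
        rw [hroot y]
        constructor
        · intro h0
          exact absurd h0 (Finset.notMem_empty y)
        · rintro ⟨h1, rfl | rfl⟩
          · exact absurd (h1.symm.trans h) h12
          · rw [hφ2, h] at h1
            exact absurd (by linear_combination h1) h12
      · intro y
        rw [Finset.mem_insert, Finset.mem_singleton, hroot y]
        constructor
        · rintro (rfl | rfl)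
          · exact ⟨h, Or.inl rfl⟩
          · exact ⟨by rw [hφ2, h], Or.inr rfl⟩
        · exact fun h => h.2
      · rw [Finset.card_empty, hcard]

open Classical in
theorem card_pm [IsAlgClosed κ] (p : ℕ) [Fact p.Prime] [CharP κ p] {q n : ℕ} (hn : n ≠ 0)
    (hq : q = p ^ n) {W : WeierstrassCurve κ} (hW : FixW q W) :
    (Sp q W).Finite ∧ (Sm q W).Finite ∧ (Sp q W).ncard + (Sm q W).ncard = 2 * q := by
  have : ExpChar κ p := ExpChar.prime Fact.out
  let φ : κ →+* κ := iterateFrobenius κ p n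
  have hφ : ∀ x : κ, φ x = x ^ q := by
    intro x
    rw [hq]
    exact iterateFrobenius_def p n x
  have hp1 : 1 < q := by
    rw [hq]
    exact Nat.one_lt_pow hn (Fact.out : p.Prime).one_lt
  have hpq : p ∣ q := by
    rw [hq]
    exact dvd_pow_self p hn
  -- the fixed points
  let f : Polynomial κ := Polynomial.X ^ q - Polynomial.X
  have hf0 : f ≠ 0 := FiniteField.X_pow_card_sub_X_ne_zero κ hp1
  have hfsep : f.Separable := galois_poly_separable p q hpq
  let F : Finset κ := f.roots.toFinset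
  have hFmem : ∀ x, x ∈ F ↔ x ^ q = x := by
    intro x
    rw [Multiset.mem_toFinset, Polynomial.mem_roots hf0, Polynomial.IsRoot.def]
    simp only [f, Polynomial.eval_sub, Polynomial.eval_pow, Polynomial.eval_X]
    exact sub_eq_zero
  have hFcard : F.card = q := by
    have h1 : F.card = Multiset.card f.roots :=
      Multiset.toFinset_card_of_nodup (Polynomial.nodup_roots hfsep)
    rw [h1]
    have h2 := (IsAlgClosed.splits f).natDegree_eq_card_roots
    rw [← h2]
    exact FiniteField.X_pow_card_sub_X_natDegree_eq κ hp1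
  have hfib : ∀ x : κ, ∃ R : Finset κ × Finset κ, x ^ q = x →
      ((∀ y, y ∈ R.1 ↔ (y ^ q = y ∧ y ^ 2 + W.a₁ * x * y + W.a₃ * y =
          x ^ 3 + W.a₂ * x ^ 2 + W.a₄ * x + W.a₆)) ∧
      (∀ y, y ∈ R.2 ↔ (y ^ q = -y - W.a₁ * x - W.a₃ ∧ y ^ 2 + W.a₁ * x * y + W.a₃ * y =
          x ^ 3 + W.a₂ * x ^ 2 + W.a₄ * x + W.a₆)) ∧ R.1.card + R.2.card = 2) := by
    intro x
    by_cases hx : x ^ q = x
    · have hb : φ (W.a₁ * x + W.a₃) = W.a₁ * x + W.a₃ := by
        rw [map_add, map_mul, hφ, hφ, hφ, hx, hW.a1, hW.a3]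
      have hg : φ (x ^ 3 + W.a₂ * x ^ 2 + W.a₄ * x + W.a₆) =
          x ^ 3 + W.a₂ * x ^ 2 + W.a₄ * x + W.a₆ := by
        rw [map_add, map_add, map_add, map_mul, map_mul, map_pow, map_pow, hφ, hφ, hφ, hφ, hx,
          hW.a2, hW.a4, hW.a6]
      obtain ⟨R, h1, h2, h3⟩ := cntA_fib φ hb hg
      refine ⟨R, fun _ => ⟨?_, ?_, h3⟩⟩
      · intro y
        rw [h1 y, hφ]
        have e : y ^ 2 + (W.a₁ * x + W.a₃) * y = y ^ 2 + W.a₁ * x * y + W.a₃ * y := by ring
        rw [e]
      · intro y
        rw [h2 y, hφ]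
        have e : y ^ 2 + (W.a₁ * x + W.a₃) * y = y ^ 2 + W.a₁ * x * y + W.a₃ * y := by ring
        have e2 : -y - (W.a₁ * x + W.a₃) = -y - W.a₁ * x - W.a₃ := by ring
        rw [e, e2]
    · exact ⟨(∅, ∅), fun h => absurd h hx⟩
  choose R hR using hfib
  have hcard : ∀ (S : Set (κ × κ)) (T : κ → Finset κ),
      (∀ P : κ × κ, P ∈ S ↔ (P.1 ∈ F ∧ P.2 ∈ T P.1)) →
      S.Finite ∧ S.ncard = ∑ x ∈ F, (T x).card := by
    intro S T h
    have e : S = (((F.sigma T).map (Equiv.sigmaEquivProd κ κ).toEmbedding : Finset (κ × κ)) :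
        Set (κ × κ)) := by
      ext P
      rw [Finset.mem_coe, Finset.mem_map_equiv, h P]
      simp
    rw [e]
    refine ⟨Finset.finite_toSet _, ?_⟩
    rw [Set.ncard_coe_finset, Finset.card_map, Finset.card_sigma]
  have h1 := hcard (Sp q W) (fun x => (R x).1) (by
    intro P
    rw [hFmem]
    constructor
    · intro h
      exact ⟨h.1, ((hR P.1 h.1).1 P.2).mpr h.2⟩
    · intro h
      exact ⟨h.1, ((hR P.1 h.1).1 P.2).mp h.2⟩)
  have h2 := hcard (Sm q W) (fun x => (R x).2) (by
    intro P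
    rw [hFmem]
    constructor
    · intro h
      exact ⟨h.1, ((hR P.1 h.1).2.1 P.2).mpr h.2⟩
    · intro h
      exact ⟨h.1, ((hR P.1 h.1).2.1 P.2).mp h.2⟩)
  refine ⟨h1.1, h2.1, ?_⟩
  rw [h1.2, h2.2, ← Finset.sum_add_distrib]
  have h3 : ∑ x ∈ F, ((R x).1.card + (R x).2.card) = ∑ x ∈ F, 2 := by
    refine Finset.sum_congr rfl fun x hx => ?_
    exact (hR x ((hFmem x).mp hx)).2.2
  rw [h3, Finset.sum_const, hFcard, smul_eq_mul, mul_comm]

end

end Pool.Agent.Lib.MP_1a91b9_nuX.GL
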