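import Pool.Agent.Lib.MP_1a91b9_nuX.GL.AbsU
import Pool.Agent.Lib.MP_1a91b9_nuX.GL.CntA
import Pool.Agent.Lib.MP_1a91b9_nuX.GM.Sub

/-!
# The residue field of a valuation subring of an algebraically closed field

`rd V x` = the residue class of `x` if `V x ≤ 1`, `0` otherwise.

PROOF. `rd_add`, `rd_mul`, ...: `IsLocalRing.residue V` is a ring homomorphism. `rd_eq`: `rd V x = rd V y ↔ V (x - y) < 1` for integral `x, y`: the maximal ideal of `V` is `{V z < 1}` (`ValuationSubring.valuation_lt_one_iff`, `IsLocalRing.residue_eq_zero_iff`).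
`rd_closed`: a monic polynomial of positive degree over the residue field lifts to a monic polynomial over `V` of the same degree (`Polynomial.lifts_and_natDegree_eq_and_monic`), it has a root in `Ω`, which is integral over `V`, so in `V` (a valuation subring is integrally closed), and its residue is a root;
`IsAlgClosed.of_exists_root`. `rd_char`: `p ∈ P` so `V p < 1`, `p = 0` in the residue field. `rd_surj`: `IsLocalRing.residue_surjective`.
-/

set_option autoImplicit false

namespace Pool.Agent.Lib.MP_1a91b9_nuX.GL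

open NumberField IsDedekindDomain

section
variable {Ω : Type*} [Field Ω] (V : ValuationSubring Ω)

/-- the residue field -/
abbrev RF : Type _ := IsLocalRing.ResidueField V

open scoped Classical in
/-- the residue class -/
noncomputable def rd (x : Ω) : RF V :=
  if h : V.valuation x ≤ 1 then IsLocalRing.residue V ⟨x, (V.valuation_le_one_iff x).1 h⟩ else 0

variable {V}

private theorem Rd_of {x : Ω} (hx : V.valuation x ≤ 1) :
    rd V x = IsLocalRing.residue V ⟨x, (V.valuation_le_one_iff x).1 hx⟩ := by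
  unfold rd
  rw [dif_pos hx]

private theorem Rd_mem (y : V) : rd V (y : Ω) = IsLocalRing.residue V y :=
  Rd_of (V.valuation_le_one y)

theorem rd_zero : rd V 0 = 0 := by
  have h := Rd_mem (V := V) 0
  rw [map_zero] at h
  exact h

theorem rd_one : rd V 1 = 1 := by
  have h := Rd_mem (V := V) 1
  rw [map_one] at h
  exact h

theorem rd_add {x y : Ω} (hx : V.valuation x ≤ 1) (hy : V.valuation y ≤ 1) :
    rd V (x + y) = rd V x + rd V y := by
  rw [Rd_of hx, Rd_of hy, ← map_add]
  exact Rd_mem ((⟨x, (V.valuation_le_one_iff x).1 hx⟩ : V) + ⟨y, (V.valuation_le_one_iff y).1 hy⟩)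

theorem rd_mul {x y : Ω} (hx : V.valuation x ≤ 1) (hy : V.valuation y ≤ 1) :
    rd V (x * y) = rd V x * rd V y := by
  rw [Rd_of hx, Rd_of hy, ← map_mul]
  exact Rd_mem ((⟨x, (V.valuation_le_one_iff x).1 hx⟩ : V) * ⟨y, (V.valuation_le_one_iff y).1 hy⟩)

theorem rd_neg {x : Ω} (hx : V.valuation x ≤ 1) : rd V (-x) = -rd V x := by
  rw [Rd_of hx, ← map_neg]
  exact Rd_mem (-⟨x, (V.valuation_le_one_iff x).1 hx⟩)

theorem rd_pow {x : Ω} (hx : V.valuation x ≤ 1) (n : ℕ) : rd V (x ^ n) = rd V x ^ n := by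
  rw [Rd_of hx, ← map_pow]
  exact Rd_mem (⟨x, (V.valuation_le_one_iff x).1 hx⟩ ^ n)

theorem rd_eq {x y : Ω} (hx : V.valuation x ≤ 1) (hy : V.valuation y ≤ 1) :
    rd V x = rd V y ↔ V.valuation (x - y) < 1 := by
  rw [Rd_of hx, Rd_of hy, ← sub_eq_zero, ← map_sub, IsLocalRing.residue_eq_zero_iff,
    ValuationSubring.valuation_lt_one_iff]
  exact Iff.rfl

theorem rd_surj (z : RF V) : ∃ x : Ω, V.valuation x ≤ 1 ∧ rd V x = z := by
  obtain ⟨y, rfl⟩ := IsLocalRing.residue_surjective z
  exact ⟨y, V.valuation_le_one y, Rd_mem y⟩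

theorem rd_closed [IsAlgClosed Ω] : IsAlgClosed (RF V) := by
  refine IsAlgClosed.of_exists_root _ fun p hp hirr => ?_
  have hl : p ∈ Polynomial.lifts (IsLocalRing.residue V) :=
    Polynomial.map_surjective _ IsLocalRing.residue_surjective p
  obtain ⟨q, hq1, hq2, hq3⟩ := Polynomial.lifts_and_natDegree_eq_and_monic hl hp
  have hdeg : (q.map (algebraMap V Ω)).degree ≠ 0 := by
    rw [hq3.degree_map, Polynomial.degree_eq_natDegree hq3.ne_zero, hq2]
    have h1 := hirr.natDegree_pos
    exact_mod_cast h1.ne'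
  obtain ⟨x, hx⟩ := IsAlgClosed.exists_root _ hdeg
  rw [Polynomial.IsRoot.def, Polynomial.eval_map] at hx
  obtain ⟨y, hy⟩ := IsIntegrallyClosed.isIntegral_iff.1 (⟨q, hq3, hx⟩ : IsIntegral V x)
  rw [← hy, Polynomial.eval₂_at_apply] at hx
  have h2 : Polynomial.eval y q = 0 := by
    have h3 : algebraMap V Ω (Polynomial.eval y q) = algebraMap V Ω 0 := by
      rw [hx, map_zero]
    exact Subtype.ext h3
  refine ⟨IsLocalRing.residue V y, ?_⟩
  rw [← hq1, Polynomial.eval_map, Polynomial.eval₂_at_apply, h2, map_zero]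

theorem rd_char {p : ℕ} (hp : p.Prime) (h : V.valuation (p : Ω) < 1) : CharP (RF V) p := by
  rw [CharP.charP_iff_prime_eq_zero hp, ← map_natCast (IsLocalRing.residue V) p,
    IsLocalRing.residue_eq_zero_iff, ValuationSubring.valuation_lt_one_iff]
  have h1 : (((p : V)) : Ω) = (p : Ω) := by push_cast; rfl
  rw [h1]
  exact h

/-- the reduction of a Weierstrass curve -/
noncomputable def rdW (V : ValuationSubring Ω) (W : WeierstrassCurve Ω) :
    WeierstrassCurve (RF V) :=
  ⟨rd V W.a₁, rd V W.a₂, rd V W.a₃, rd V W.a₄, rd V W.a₆⟩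

/-- the residue classes fixed by the `q`-th power map are those of the integers of `N` -/
theorem rd_fix {N : Type*} [Field N] [NumberField N] [Algebra N Ω] {v : HeightOneSpectrum (𝓞 N)}
    (hV : Abv v V) {x : N} (hx : v.valuation N x ≤ 1) :
    rd V (algebraMap N Ω x) ^ Ideal.absNorm v.asIdeal = rd V (algebraMap N Ω x) := by
  obtain ⟨z, hz⟩ := GM.exists_int hx
  have hxV : V.valuation (algebraMap N Ω x) ≤ 1 := (hV x).2 hx
  have hzV : V.valuation (algebraMap N Ω (z : N)) ≤ 1 := (hV _).2 (GM.val_le v z)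
  have h1 : rd V (algebraMap N Ω x) = rd V (algebraMap N Ω (z : N)) := by
    rw [rd_eq hxV hzV, ← map_sub]
    exact (abv_lt hV _).2 hz
  rw [h1, ← rd_pow hzV]
  have hzqV : V.valuation (algebraMap N Ω (z : N) ^ Ideal.absNorm v.asIdeal) ≤ 1 := by
    rw [map_pow]
    exact pow_le_one' hzV _
  rw [rd_eq hzqV hzV, ← map_pow, ← map_sub]
  refine (abv_lt hV _).2 ?_
  have h2 : (z : N) ^ Ideal.absNorm v.asIdeal - (z : N) =
      ((z ^ Ideal.absNorm v.asIdeal - z : 𝓞 N) : N) := by
    push_cast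
    rfl
  rw [h2, GM.val_lt_mem]
  have hmax : v.asIdeal.IsMaximal := v.isMaximal
  have hfin : Finite (𝓞 N ⧸ v.asIdeal) := Ideal.finiteQuotientOfFreeOfNeBot _ v.ne_bot
  let _ : Field (𝓞 N ⧸ v.asIdeal) := Ideal.Quotient.field _
  let _ : Fintype (𝓞 N ⧸ v.asIdeal) := Fintype.ofFinite _
  rw [← Ideal.Quotient.eq_zero_iff_mem, map_sub, map_pow, sub_eq_zero, Ideal.absNorm_apply,
    Submodule.cardQuot_apply, Nat.card_eq_fintype_card]
  exact FiniteField.pow_card _

end

end Pool.Agent.Lib.MP_1a91b9_nuX.GL
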