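import Pool.Agent.Lib.MP_1a91b9_nuX.GL.TrA
import Pool.Agent.Lib.MP_1a91b9_nuX.GL.PiC
import Pool.Agent.Lib.MP_1a91b9_nuX.GL.Rd

/-!
# Torsion points with a given reduction

`rdp V D T`: the reduction of `T` in the model `D • E`. `Ph V D q φ`: the endomorphism `φ` induces the `q`-th power map on the reduction of the points of `Ta`.

PROOF (`v = V.valuation`).
`pt_eqn`: for `T ≠ 0` the pair `(cx D T, cy D T)` satisfies the equation of `D • EF Kb`, and `cy D (-T) = - cy D T - a₁ cx D T - a₃`: `e` from `GM.exists_chg (EF Kb) D` (see `GL/ChgA.lean`, a lemma `chgA_e` or similar), `GM.p_eq`, `GM.py_neg`. Then reduce: `rd_add`, `rd_mul`, `rd_pow`, `rd_neg` (all the elements are integral: `GoodC` gives the coefficients,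
`not_krc`, `cy_le`; points of `Ta`, not `0`, are not in `KrC`: `ta_kr`).
`ph_sp`: `rd (cx T) ^ q = rd (cx T ^ q) = rd (cx (φ T)) = rd (cx T)` (`rd_eq`, `h.x`), same for `cy`. `ph_sm`: `cx (-T) = cx T` (`cx_neg`), `rd (cy T) ^ q = rd (cy (-T))`.
`rdp_inj`: `rd_eq`, `krc_of`: `T - T' ∈ KrC`, it is `Ta` (`ta_sub`), `ta_kr`. `rdp_neg`, `rdp_phi`: the reductions of `-T` and of `φ T`.
-/

set_option autoImplicit false

namespace Pool.Agent.Lib.MP_1a91b9_nuX.GL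

open NumberField IsDedekindDomain WeierstrassCurve Pool.Agent.Lib.MP_1a91b9_nuT DB

variable [CD] [DecidableEq Kb]

/-- the reduction of a point in the model `D • E` -/
noncomputable def rdp (V : ValuationSubring Kb) (D : VariableChange Kb) (T : Pt Kb) : RF V × RF V :=
  (rd V (cx D T), rd V (cy D T))

/-- `φ` induces the `q`-th power map on the reductions -/
structure Ph (V : ValuationSubring Kb) (D : VariableChange Kb) (q : ℕ) (φ : Pt Kb →+ Pt Kb) :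
    Prop where
  ta : ∀ T : Pt Kb, Ta V.valuation T → Ta V.valuation (φ T)
  inj : ∀ T : Pt Kb, φ T = 0 → T = 0
  x : ∀ T : Pt Kb, Ta V.valuation T → T ≠ 0 → V.valuation (cx D (φ T) - cx D T ^ q) < 1
  y : ∀ T : Pt Kb, Ta V.valuation T → T ≠ 0 → V.valuation (cy D (φ T) - cy D T ^ q) < 1

omit [CD] [DecidableEq Kb] in
private theorem cntE_alg {F : Type*} [Field F] {u r s t x y X Y : F} (hu : u ≠ 0)
    (h1 : x = u ^ 2 * X + r) (h2 : y = u ^ 3 * Y + u ^ 2 * s * X + t) :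
    X = (x - r) / u ^ 2 ∧ Y = (y - s * (x - r) - t) / u ^ 3 := by
  rw [eq_div_iff (pow_ne_zero 2 hu), eq_div_iff (pow_ne_zero 3 hu), h1, h2]
  constructor <;> ring

omit [CD] [DecidableEq Kb] in
private theorem cntE_mul {F : Type*} [Field F] {V : ValuationSubring F} {x y : F}
    (hx : V.valuation x ≤ 1) (hy : V.valuation y ≤ 1) : V.valuation (x * y) ≤ 1 := by
  rw [map_mul]
  exact mul_le_one' hx hy

omit [CD] [DecidableEq Kb] in
private theorem cntE_pow {F : Type*} [Field F] {V : ValuationSubring F} {x : F}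
    (hx : V.valuation x ≤ 1) (n : ℕ) : V.valuation (x ^ n) ≤ 1 := by
  rw [map_pow]
  exact pow_le_one' hx n

omit [CD] [DecidableEq Kb] in
private theorem cntE_add {F : Type*} [Field F] {V : ValuationSubring F} {x y : F}
    (hx : V.valuation x ≤ 1) (hy : V.valuation y ≤ 1) : V.valuation (x + y) ≤ 1 :=
  Valuation.map_add_le _ hx hy

omit [CD] [DecidableEq Kb] in
private theorem cntE_neg {F : Type*} [Field F] {V : ValuationSubring F} {x : F}
    (hx : V.valuation x ≤ 1) : V.valuation (-x) ≤ 1 := by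
  rw [Valuation.map_neg]
  exact hx

private theorem cntE_e (D : VariableChange Kb) : ∃ e : Pt Kb ≃+ (D • EF Kb).toAffine.Point,
    ∀ P : Pt Kb, P ≠ 0 → GM.px (e P) = cx D P ∧ GM.py (e P) = cy D P := by
  obtain ⟨e, he⟩ := GM.exists_chg (EF Kb) D
  refine ⟨e, fun P hP => ?_⟩
  obtain ⟨h1, h2⟩ := he P hP
  have hx : ∀ P : (EF Kb).toAffine.Point, GM.px P = xc (F := Kb) P := by
    rintro (_ | ⟨x, y, h⟩)
    · rfl
    · rfl
  have hy : ∀ P : (EF Kb).toAffine.Point, GM.py P = yc (F := Kb) P := by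
    rintro (_ | ⟨x, y, h⟩)
    · rfl
    · rfl
  rw [hx P] at h1
  rw [hy P] at h2
  exact cntE_alg D.u.ne_zero h1 h2

theorem pt_eqn (D : VariableChange Kb) {T : Pt Kb} (h0 : T ≠ 0) :
    cy D T ^ 2 + (D • EF Kb).a₁ * cx D T * cy D T + (D • EF Kb).a₃ * cy D T =
      cx D T ^ 3 + (D • EF Kb).a₂ * cx D T ^ 2 + (D • EF Kb).a₄ * cx D T + (D • EF Kb).a₆ ∧
    cy D (-T) = -cy D T - (D • EF Kb).a₁ * cx D T - (D • EF Kb).a₃ := by
  obtain ⟨e, he⟩ := cntE_e D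
  have he0 : e T ≠ 0 := fun h => h0 ((map_eq_zero_iff e e.injective).1 h)
  have h0' : -T ≠ 0 := neg_ne_zero.2 h0
  refine ⟨?_, ?_⟩
  · rw [← (he T h0).1, ← (he T h0).2]
    exact GM.p_eq he0
  · rw [← (he (-T) h0').2, ← (he T h0).1, ← (he T h0).2, map_neg]
    exact GM.py_neg he0

section
variable {P : HeightOneSpectrum (𝓞 K)} {V : ValuationSubring Kb} (hV : Abv P V)
  {D : VariableChange Kb} (hD : GoodC V.valuation D)
include hV hD

theorem ta_le {T : Pt Kb} (hT : Ta V.valuation T) (h0 : T ≠ 0) :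
    V.valuation (cx D T) ≤ 1 ∧ V.valuation (cy D T) ≤ 1 := by
  have hk : ¬ KrC V.valuation D T := fun h => h0 (ta_kr hV hD hT h)
  exact ⟨(not_krc hk).2, cy_le hD hk⟩

private theorem cntE_eqn {T : Pt Kb} (hT : Ta V.valuation T) (h0 : T ≠ 0) :
    (rdp V D T).2 ^ 2 + (rdW V (D • EF Kb)).a₁ * (rdp V D T).1 * (rdp V D T).2 +
      (rdW V (D • EF Kb)).a₃ * (rdp V D T).2 =
    (rdp V D T).1 ^ 3 + (rdW V (D • EF Kb)).a₂ * (rdp V D T).1 ^ 2 +
      (rdW V (D • EF Kb)).a₄ * (rdp V D T).1 + (rdW V (D • EF Kb)).a₆ := by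
  obtain ⟨hx, hy⟩ := ta_le hV hD hT h0
  have h1 := hD.a1
  have h2 := hD.a2
  have h3 := hD.a3
  have h4 := hD.a4
  have h6 := hD.a6
  have h := congrArg (rd V) (pt_eqn D h0).1
  rw [rd_add (cntE_add (cntE_pow hy 2) (cntE_mul (cntE_mul h1 hx) hy)) (cntE_mul h3 hy),
    rd_add (cntE_pow hy 2) (cntE_mul (cntE_mul h1 hx) hy), rd_pow hy,
    rd_mul (cntE_mul h1 hx) hy, rd_mul h1 hx, rd_mul h3 hy,
    rd_add (cntE_add (cntE_add (cntE_pow hx 3) (cntE_mul h2 (cntE_pow hx 2))) (cntE_mul h4 hx)) h6,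
    rd_add (cntE_add (cntE_pow hx 3) (cntE_mul h2 (cntE_pow hx 2))) (cntE_mul h4 hx),
    rd_add (cntE_pow hx 3) (cntE_mul h2 (cntE_pow hx 2)), rd_pow hx,
    rd_mul h2 (cntE_pow hx 2), rd_pow hx, rd_mul h4 hx] at h
  exact h

theorem rdp_neg {T : Pt Kb} (hT : Ta V.valuation T) (h0 : T ≠ 0) :
    rdp V D (-T) = ((rdp V D T).1, -(rdp V D T).2 - (rdW V (D • EF Kb)).a₁ * (rdp V D T).1 -
      (rdW V (D • EF Kb)).a₃) := by
  obtain ⟨hx, hy⟩ := ta_le hV hD hT h0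
  have h1 := hD.a1
  have h3 := hD.a3
  apply Prod.ext
  · show rd V (cx D (-T)) = rd V (cx D T)
    rw [cx_neg]
  · show rd V (cy D (-T)) = -rd V (cy D T) - rd V (D • EF Kb).a₁ * rd V (cx D T) -
      rd V (D • EF Kb).a₃
    rw [(pt_eqn D h0).2, sub_eq_add_neg, sub_eq_add_neg,
      rd_add (cntE_add (cntE_neg hy) (cntE_neg (cntE_mul h1 hx))) (cntE_neg h3),
      rd_add (cntE_neg hy) (cntE_neg (cntE_mul h1 hx)), rd_neg hy, rd_neg (cntE_mul h1 hx),
      rd_mul h1 hx, rd_neg h3]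
    ring

theorem rdp_phi {q : ℕ} {φ : Pt Kb →+ Pt Kb} (h : Ph V D q φ) {T : Pt Kb}
    (hT : Ta V.valuation T) (h0 : T ≠ 0) :
    rdp V D (φ T) = ((rdp V D T).1 ^ q, (rdp V D T).2 ^ q) := by
  obtain ⟨hx, hy⟩ := ta_le hV hD hT h0
  obtain ⟨hx', hy'⟩ := ta_le hV hD (h.ta T hT) (fun e => h0 (h.inj T e))
  apply Prod.ext
  · show rd V (cx D (φ T)) = rd V (cx D T) ^ q
    rw [← rd_pow hx, rd_eq hx' (cntE_pow hx q)]
    exact h.x T hT h0
  · show rd V (cy D (φ T)) = rd V (cy D T) ^ q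
    rw [← rd_pow hy, rd_eq hy' (cntE_pow hy q)]
    exact h.y T hT h0

theorem rdp_inj {T T' : Pt Kb} (hT : Ta V.valuation T) (hT' : Ta V.valuation T') (h0 : T ≠ 0)
    (h0' : T' ≠ 0) (h : rdp V D T = rdp V D T') : T = T' := by
  obtain ⟨hx, hy⟩ := ta_le hV hD hT h0
  obtain ⟨hx', hy'⟩ := ta_le hV hD hT' h0'
  have hk : ¬ KrC V.valuation D T := fun h => h0 (ta_kr hV hD hT h)
  have hk' : ¬ KrC V.valuation D T' := fun h => h0' (ta_kr hV hD hT' h)
  have h1 : rd V (cx D T) = rd V (cx D T') := congrArg Prod.fst h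
  have h2 : rd V (cy D T) = rd V (cy D T') := congrArg Prod.snd h
  rw [rd_eq hx hx'] at h1
  rw [rd_eq hy hy'] at h2
  exact sub_eq_zero.1 (ta_kr hV hD (ta_sub hT hT') (krc_of hD hk hk' h1 h2))

theorem ph_sp {q : ℕ} {φ : Pt Kb →+ Pt Kb} (h : Ph V D q φ) {T : Pt Kb}
    (hT : Ta V.valuation T) (h0 : T ≠ 0) (e : φ T = T) :
    rdp V D T ∈ Sp q (rdW V (D • EF Kb)) := by
  have h1 := rdp_phi hV hD h hT h0
  rw [e] at h1
  exact ⟨(congrArg Prod.fst h1).symm, (congrArg Prod.snd h1).symm, cntE_eqn hV hD hT h0⟩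

theorem ph_sm {q : ℕ} {φ : Pt Kb →+ Pt Kb} (h : Ph V D q φ) {T : Pt Kb}
    (hT : Ta V.valuation T) (h0 : T ≠ 0) (e : φ T = -T) :
    rdp V D T ∈ Sm q (rdW V (D • EF Kb)) := by
  have h1 := rdp_phi hV hD h hT h0
  rw [e, rdp_neg hV hD hT h0] at h1
  exact ⟨(congrArg Prod.fst h1).symm, (congrArg Prod.snd h1).symm, cntE_eqn hV hD hT h0⟩

end

end Pool.Agent.Lib.MP_1a91b9_nuX.GL
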