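import Pool.Agent.Lib.MP_1a91b9_nuX.GL.DistC

/-!
# The number of points killed by an element; divisibility

PROOF.
`tors_card`: `R` with `Ord a R` (`exists_ord`), `T` with `IsRes a T`, `T.card + 1 = N a` (`exists_isRes`); the set of points killed by `a` is `{0} ∪ {sm c R | c ∈ T}` (`tors_mem`, `tors_ne`, `tors_zero`), and `c ↦ sm c R` is injective on `T` (`Ord.sm_eq_iff`, `hT.uniq`).
`card_comp`: group theory: `g` maps `ker (f ∘ g)` onto `ker f` with fibres the cosets of `ker g`. (`Nat.card (f.comp g).ker = Nat.card g.ker * Nat.card f.ker`; for finite or infinite kernels; e.g. the surjection `ker (f ∘ g) → ker f` with kernel isomorphic to `ker g`, `AddSubgroup.card_eq_card_quotient_mul_card_addSubgroup`,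
`QuotientAddGroup.quotientKerEquivOfSurjective`.)
`taG`: the points of `Ta` form a subgroup (`ta_zero`, `ta_add`, `ta_neg`). `smG a`: the multiplication by `a` on it. `smG_surj`: `ext_div` (`DB/Ext.lean`) with `f : Kb →ₐ[K] ℂ` (`IsAlgClosed.lift`): `T` killed by `b`, `V b = 1`, is `sm a T'` with `sm (b a) T' = 0`, and `V (b a) = 1`. `smG_ker`: the kernel of `smG a` is the set of all points killed by `a`.
-/

set_option autoImplicit false

namespace Pool.Agent.Lib.MP_1a91b9_nuX.GL

open NumberField IsDedekindDomain WeierstrassCurve Pool.Agent.Lib.MP_1a91b9_nuT DB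

theorem card_comp {M₁ M₂ M₃ : Type*} [AddCommGroup M₁] [AddCommGroup M₂] [AddCommGroup M₃]
    (f : M₂ →+ M₃) (g : M₁ →+ M₂) (hg : Function.Surjective g) :
    Nat.card (f.comp g).ker = Nat.card f.ker * Nat.card g.ker := by
  obtain ⟨h, hh⟩ : ∃ h : (f.comp g).ker →+ f.ker, ∀ x, ((h x : f.ker) : M₂) = g (x : M₁) :=
    ⟨(g.comp (f.comp g).ker.subtype).codRestrict f.ker (fun x => x.2), fun x => rfl⟩
  have hs : Function.Surjective h := by
    rintro ⟨y, hy⟩
    obtain ⟨x, rfl⟩ := hg y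
    exact ⟨⟨x, hy⟩, Subtype.ext (hh _)⟩
  have h1 := AddSubgroup.card_eq_card_quotient_mul_card_addSubgroup h.ker
  have h2 : Nat.card ((f.comp g).ker ⧸ h.ker) = Nat.card f.ker :=
    Nat.card_congr (QuotientAddGroup.quotientKerEquivOfSurjective h hs).toEquiv
  have h3 : Nat.card h.ker = Nat.card g.ker := by
    have hm : ∀ x : h.ker, ((x : (f.comp g).ker) : M₁) ∈ g.ker := by
      intro x
      have h4 : h (x : (f.comp g).ker) = 0 := x.2
      rw [AddMonoidHom.mem_ker, ← hh, h4]
      rfl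
    refine Nat.card_eq_of_bijective (fun x : h.ker => (⟨_, hm x⟩ : g.ker)) ⟨?_, ?_⟩
    · intro x y hxy
      have h5 : ((x : (f.comp g).ker) : M₁) = ((y : (f.comp g).ker) : M₁) :=
        congrArg (fun z : g.ker => (z : M₁)) hxy
      exact Subtype.ext (Subtype.ext h5)
    · rintro ⟨y, hy⟩
      have hy0 : g y = 0 := hy
      have hy1 : y ∈ (f.comp g).ker := by
        rw [AddMonoidHom.mem_ker, AddMonoidHom.comp_apply, hy0, map_zero]
      refine ⟨⟨⟨y, hy1⟩, ?_⟩, rfl⟩
      rw [AddMonoidHom.mem_ker]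
      exact Subtype.ext ((hh _).trans hy0)
  rw [h1, h2, h3]

variable [CD] [DecidableEq Kb]

theorem tors_card {a : 𝓞 K} (ha : a ≠ 0) : {T : Pt Kb | sm Kb a T = 0}.Finite ∧
    {T : Pt Kb | sm Kb a T = 0}.ncard = Ideal.absNorm (Ideal.span {a}) := by
  classical
  obtain ⟨R, hR⟩ := exists_ord ha
  obtain ⟨T, hT, hc⟩ := exists_isRes ha
  have e : {S : Pt Kb | sm Kb a S = 0} =
      ((insert 0 (T.image fun c => sm Kb c R) : Finset (Pt Kb)) : Set (Pt Kb)) := by
    ext S
    rw [Set.mem_ofPred_eq, Finset.mem_coe, Finset.mem_insert, Finset.mem_image]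
    constructor
    · intro hS
      by_cases h0 : S = 0
      · exact Or.inl h0
      · obtain ⟨c, hcT, rfl⟩ := tors_mem ha hT hR hS h0
        exact Or.inr ⟨c, hcT, rfl⟩
    · rintro (rfl | ⟨c, -, rfl⟩)
      · exact map_zero _
      · exact tors_zero hR c
  have hcard : (insert 0 (T.image fun c => sm Kb c R) : Finset (Pt Kb)).card =
      Ideal.absNorm (Ideal.span {a}) := by
    rw [Finset.card_insert_of_notMem, Finset.card_image_of_injOn, hc]
    · intro c hc d hd hcd
      exact hT.uniq c hc d hd ((hR.sm_eq_iff c d).1 hcd)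
    · rw [Finset.mem_image]
      rintro ⟨c, hcT, h0⟩
      exact tors_ne hT hR hcT h0
  rw [e]
  exact ⟨Finset.finite_toSet _, by rw [Set.ncard_coe_finset, hcard]⟩

/-- the group of the points killed by an element of value one -/
def taG (V : ValuationSubring Kb) : AddSubgroup (Pt Kb) where
  carrier := {T | Ta V.valuation T}
  zero_mem' := ta_zero
  add_mem' := ta_add
  neg_mem' := ta_neg

/-- the multiplication by `a` -/
noncomputable def smG (V : ValuationSubring Kb) (a : 𝓞 K) : taG V →+ taG V where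
  toFun T := ⟨sm Kb a T.1, ta_sm T.2 a⟩
  map_zero' := Subtype.ext (map_zero _)
  map_add' T T' := Subtype.ext (map_add (sm Kb a) T.1 T'.1)

theorem smG_surj {V : ValuationSubring Kb} {a : 𝓞 K}
    (ha : V.valuation (algebraMap K Kb (a : K)) = 1) : Function.Surjective (smG V a) := by
  rintro ⟨T, b, hb, hT⟩
  have hne : ∀ c : 𝓞 K, V.valuation (algebraMap K Kb (c : K)) = 1 → c ≠ 0 := by
    rintro c hc rfl
    have h1 : algebraMap K Kb ((0 : 𝓞 K) : K) = 0 := by
      change algebraMap K Kb (algebraMap (𝓞 K) K 0) = 0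
      rw [map_zero, map_zero]
    rw [h1, map_zero] at hc
    exact zero_ne_one hc
  obtain ⟨Q, hQ1, hQ2⟩ := ext_div (IsAlgClosed.lift : Kb →ₐ[K] ℂ) (hne b hb) (hne a ha) hT
  refine ⟨⟨Q, b * a, ?_, hQ2⟩, Subtype.ext hQ1⟩
  change V.valuation (algebraMap K Kb (algebraMap (𝓞 K) K (b * a))) = 1
  rw [map_mul, map_mul, map_mul]
  change V.valuation (algebraMap K Kb (b : K)) * V.valuation (algebraMap K Kb (a : K)) = 1
  rw [hb, ha, one_mul]

theorem smG_ker {V : ValuationSubring Kb} {a : 𝓞 K}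
    (ha : V.valuation (algebraMap K Kb (a : K)) = 1) :
    Nat.card (smG V a).ker = Ideal.absNorm (Ideal.span {a}) := by
  have ha0 : a ≠ 0 := by
    rintro rfl
    have h1 : algebraMap K Kb ((0 : 𝓞 K) : K) = 0 := by
      change algebraMap K Kb (algebraMap (𝓞 K) K 0) = 0
      rw [map_zero, map_zero]
    rw [h1, map_zero] at ha
    exact zero_ne_one ha
  rw [← (tors_card ha0).2, ← Nat.card_coe_set_eq]
  have hm : ∀ x : (smG V a).ker, ((x : taG V) : Pt Kb) ∈ {T : Pt Kb | sm Kb a T = 0} := by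
    intro x
    have h4 : smG V a (x : taG V) = 0 := x.2
    exact congrArg Subtype.val h4
  refine Nat.card_eq_of_bijective
    (fun x : (smG V a).ker => (⟨_, hm x⟩ : {T : Pt Kb | sm Kb a T = 0})) ⟨?_, ?_⟩
  · intro x y hxy
    have h5 : ((x : taG V) : Pt Kb) = ((y : taG V) : Pt Kb) :=
      congrArg (fun z : {T : Pt Kb | sm Kb a T = 0} => (z : Pt Kb)) hxy
    exact Subtype.ext (Subtype.ext h5)
  · rintro ⟨y, hy⟩
    refine ⟨⟨⟨y, a, ha, hy⟩, ?_⟩, rfl⟩
    rw [AddMonoidHom.mem_ker]
    exact Subtype.ext hy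

end Pool.Agent.Lib.MP_1a91b9_nuX.GL
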