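import Pool.Agent.Lib.MP_1a91b9_nuX.GL.FrB
import Pool.Agent.Lib.MP_1a91b9_nuX.GL.CntE
import Pool.Agent.Lib.MP_1a91b9_nuX.GL.TorC
import Pool.Agent.Lib.MP_1a91b9_nuX.GL.CntB

/-!
# The number of points at a place prime to the conductor

`F` is a number field between `K` and `Kb`, `w` a place of `F`, `P = w.under (𝓞 K)`, `Ψ = psi F w.asIdeal`, `q = Ideal.absNorm w.asIdeal`, `C : VariableChange F` with `GM.GoodW (w.valuation F) (C • E F)`, `C' = C.map (algebraMap F Kb)`, `v = V.valuation`.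

PROOF.
`psi_facts`: `psi_pow`: `Ψ = ps P.asIdeal ^ f`, `f = w.asIdeal.inertiaDeg (𝓞 K)`; `q = Ideal.absNorm P.asIdeal ^ f` (`Ideal.absNorm_eq_pow_inertiaDeg'` or `Ideal.absNorm_relNorm`; `span {ps P.asIdeal} = P.asIdeal` by `ps_span'`, so `Ideal.absNorm (span {Ψ}) = q`); `f ≠ 0`, so `Ψ ∈ P.asIdeal`, `v Ψ < 1`, `v (1 - Ψ) = v (1 + Ψ) = 1` and `1 - Ψ, 1 + Ψ ≠ 0`.
`ph_gk`: `σ` fixes the coefficients of `C'`: `cx C' (ga σ T) = σ (cx C' T)`, `ta_le`, `hσ`. `ta`: `ta_hom` with `gk_sm`; `inj`: `gk_ne`.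
`cnt_w`: `σ : Kb ≃ₐ[F] Kb` with `IsFr V q σ` (`exists_fr` for `k = F`); `σ.restrictScalars K` satisfies `IsFr V (N P ^ f)`, so `ga σ T = sm Ψ T` for `T` in `Ta` (`fr_ta`, `abv_res`). The points `T ≠ 0` with `sm (1 - Ψ) T = 0` are `Ta` and satisfy `ga σ T = T`: `rdp V C'` maps them injectively (`rdp_inj`) to `Sp q` (`ph_sp`): `N (1 - Ψ) - 1 ≤ (Sp q).ncard` (`tors_card`);
the points with `sm (1 + Ψ) T = 0` satisfy `ga σ T = -T`: `N (1 + Ψ) - 1 ≤ (Sm q).ncard`. `card_two hV (C • E F) (hC.toIntW)`: both sets are finite and the sum of the two is `2 q`. `N (1 - Ψ) + N (1 + Ψ) = 2 + 2 N Ψ = 2 + 2 q` (`mul_cj`: `(1 - Ψ) (1 - cj Ψ) + (1 + Ψ) (1 + cj Ψ) = 2 + 2 Ψ cj Ψ`, cast to `𝓞 K`, injective on `ℕ`). So both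
inequalities are equalities, and the injective map onto a finite set of the same cardinality is surjective (`Set.eq_of_subset_of_ncard_le`). Here `rdW V ((C • E F).map (algebraMap F Kb)) = rdW V (C' • EF Kb)` because `(C • E F).map = C' • (E F).map = C' • EF Kb` (`WeierstrassCurve.map_variableChange`, `EF_eq`).
`loc_good'`: choose an embedding `F →ₐ[K] Kb` (`IsAlgClosed.lift`; `F` is algebraic over `K`), which makes `Kb` an `F`-algebra with the tower `K, F, Kb`, and `V` above `w` (`exists_abv`). `C₁` a good model over `K` (`good_of_f'`), `C₁' = C₁.map (algebraMap K F)` is good at `w` (`GM.good_map`, `GM.val_under`). `locPoly_good hV W (C := C₁' * C)`: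
`(C₁' * C) • W = C₁' • E F` (`mul_smul`, `hC`). `(Sp q).ncard = N (1 - Ψ) - 1`, so the coefficient is `q + 1 - N (1 - Ψ) = Ψ + cj Ψ` in `𝓞 K`, and `q = Ψ * cj Ψ`.
`psi_bad'`: `psi_pow`, `f ≠ 0`, `HC.hd.zero` (`P.asIdeal` is not coprime to `span {f}` because it contains `f`).
-/

set_option autoImplicit false

namespace Pool.Agent.Lib.MP_1a91b9_nuX.GL

open NumberField IsDedekindDomain WeierstrassCurve Pool.Agent.Lib.MP_1a91b9_nuT DB
  Pool.Agent.Lib.MP_1a91b9_nt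

universe u

variable [CD] [HC]

section
variable {F : Type u} [Field F] [NumberField F] [Algebra K F] {w : HeightOneSpectrum (𝓞 F)}

omit [HC] in
private theorem cntd_deg : w.asIdeal.inertiaDeg (𝓞 K) ≠ 0 := by
  have hp : w.asIdeal.IsPrime := w.isPrime
  exact (Ideal.inertiaDeg_pos w.asIdeal (𝓞 K)).ne'

theorem psi_facts (hf : HC.f ∉ (w.under (𝓞 K)).asIdeal) :
    Ideal.absNorm (Ideal.span {psi F w.asIdeal}) = Ideal.absNorm w.asIdeal ∧
    psi F w.asIdeal ∈ (w.under (𝓞 K)).asIdeal ∧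
    Ideal.absNorm w.asIdeal = Ideal.absNorm (w.under (𝓞 K)).asIdeal ^ w.asIdeal.inertiaDeg (𝓞 K) ∧
    w.asIdeal.inertiaDeg (𝓞 K) ≠ 0 := by
  have h0 : (w.under (𝓞 K)).asIdeal.IsMaximal := (w.under (𝓞 K)).isMaximal
  have h1 : w.asIdeal.LiesOver (w.under (𝓞 K)).asIdeal := ⟨rfl⟩
  have hm : w.asIdeal.IsMaximal := w.isMaximal
  have hrel : Ideal.relNorm (𝓞 K) w.asIdeal =
      (w.under (𝓞 K)).asIdeal ^ w.asIdeal.inertiaDeg (𝓞 K) :=
    Ideal.relNorm_eq_pow_of_isMaximal w.asIdeal (w.under (𝓞 K)).asIdeal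
  have hn : Ideal.absNorm w.asIdeal =
      Ideal.absNorm (w.under (𝓞 K)).asIdeal ^ w.asIdeal.inertiaDeg (𝓞 K) := by
    rw [← Ideal.absNorm_relNorm (𝓞 K), hrel, map_pow]
  have hs := ps_span' _ hf
  refine ⟨?_, ?_, hn, cntd_deg⟩
  · rw [hn, psi_pow, ← Ideal.span_singleton_pow, hs, map_pow]
  · rw [psi_pow]
    refine Ideal.pow_mem_of_mem _ ?_ _ (Nat.pos_of_ne_zero cntd_deg)
    have h2 := Ideal.mem_span_singleton_self (ps (w.under (𝓞 K)).asIdeal)
    rwa [hs] at h2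

theorem psi_bad' (h : HC.f ∈ (w.under (𝓞 K)).asIdeal) : psi F w.asIdeal = 0 := by
  rw [psi_pow]
  have h1 : ps (w.under (𝓞 K)).asIdeal = 0 := by
    refine HC.hd.zero _ fun hc => ?_
    rw [Ideal.isCoprime_iff_sup_eq] at hc
    have h2 : Ideal.span {HC.f} ≤ (w.under (𝓞 K)).asIdeal := by
      rw [Ideal.span_singleton_le_iff_mem]
      exact h
    rw [sup_eq_left.2 h2] at hc
    exact (w.under (𝓞 K)).isPrime.ne_top hc
  rw [h1, zero_pow cntd_deg]

end

section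
variable [DecidableEq Kb]

omit [HC] in
/-- an injective map from the nonzero points killed by `a` to a finite set -/
private theorem cntd_half {a : 𝓞 K} (ha : a ≠ 0) {β : Type*} {S : Set β} (hS : S.Finite)
    (r : Pt Kb → β) (hr : ∀ T, sm Kb a T = 0 → T ≠ 0 → r T ∈ S)
    (hi : ∀ T T', sm Kb a T = 0 → T ≠ 0 → sm Kb a T' = 0 → T' ≠ 0 → r T = r T' → T = T') :
    Ideal.absNorm (Ideal.span {a}) ≤ S.ncard + 1 ∧
    (S.ncard + 1 ≤ Ideal.absNorm (Ideal.span {a}) →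
      ∀ z ∈ S, ∃ T, T ≠ 0 ∧ sm Kb a T = 0 ∧ r T = z) := by
  obtain ⟨hfin, hcard⟩ := tors_card ha
  obtain ⟨A, hA⟩ : ∃ A : Set (Pt Kb), A = {T : Pt Kb | sm Kb a T = 0} \ {0} := ⟨_, rfl⟩
  have hA0 : ∀ T, T ∈ A ↔ sm Kb a T = 0 ∧ T ≠ 0 := fun T => by
    rw [hA]
    exact Iff.rfl
  have h1 : A.ncard + 1 = Ideal.absNorm (Ideal.span {a}) := by
    rw [hA, ← hcard]
    exact Set.ncard_diff_singleton_add_one (map_zero _) hfin
  have h2 : (r '' A).ncard = A.ncard := by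
    refine Set.ncard_image_of_injOn fun T hT T' hT' h => ?_
    obtain ⟨h3, h4⟩ := (hA0 T).1 hT
    obtain ⟨h5, h6⟩ := (hA0 T').1 hT'
    exact hi T T' h3 h4 h5 h6 h
  have h3 : r '' A ⊆ S := by
    rintro z ⟨T, hT, rfl⟩
    obtain ⟨h4, h5⟩ := (hA0 T).1 hT
    exact hr T h4 h5
  have h4 := Set.ncard_le_ncard h3 hS
  refine ⟨by omega, fun h5 z hz => ?_⟩
  have h6 : r '' A = S := Set.eq_of_subset_of_ncard_le h3 (by omega) hS
  rw [← h6] at hz
  obtain ⟨T, hT, h7⟩ := hz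
  obtain ⟨h8, h9⟩ := (hA0 T).1 hT
  exact ⟨T, h9, h8, h7⟩

end

omit [HC] in
/-- the sum of the norms of `1 - x` and `1 + x` -/
private theorem cntd_norm (x : 𝓞 K) : Ideal.absNorm (Ideal.span {1 - x}) +
    Ideal.absNorm (Ideal.span {1 + x}) = 2 + 2 * Ideal.absNorm (Ideal.span {x}) := by
  have h : ((Ideal.absNorm (Ideal.span {1 - x}) + Ideal.absNorm (Ideal.span {1 + x}) : ℕ) : 𝓞 K) =
      ((2 + 2 * Ideal.absNorm (Ideal.span {x}) : ℕ) : 𝓞 K) := by
    rw [Nat.cast_add, Nat.cast_add, Nat.cast_mul, ← mul_cj, ← mul_cj, ← mul_cj, map_sub, map_add,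
      map_one]
    push_cast
    ring
  exact Nat.cast_injective h

omit [HC] in
private theorem cntd_map {k F : Type*} [Field k] [Field F] (f : k →+* F) :
    (E k).map f = E F := by
  refine WeierstrassCurve.ext ?_ ?_ ?_ ?_ ?_
  · exact map_zero f
  · exact map_zero f
  · exact map_zero f
  · exact map_intCast f _
  · exact map_intCast f _

omit [HC] in
private theorem cntd_up {F : Type*} [Field F] [Algebra F Kb] {C : VariableChange F} :
    (C • E F).map (algebraMap F Kb) = C.map (algebraMap F Kb) • EF Kb := by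
  rw [EF_eq, ← cntd_map (algebraMap F Kb)]
  exact (WeierstrassCurve.map_variableChange _ _ _).symm

section
variable [DecidableEq Kb] {F : Type u} [Field F] [NumberField F] [Algebra K F] [Algebra F Kb]
  [IsScalarTower K F Kb] {w : HeightOneSpectrum (𝓞 F)} {V : ValuationSubring Kb} (hV : Abv w V)
  {C : VariableChange F} (hC : GM.GoodW (w.valuation F) (C • E F))
include hV hC

omit [HC] in
theorem goodC_up : GoodC V.valuation (C.map (algebraMap F Kb)) := by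
  classical
  have h1 := GM.good_map (F' := Kb) (v' := V.valuation) hV hC
  have h2 := cntd_up (C := C)
  unfold GoodC
  rw [← h2]
  exact h1

omit [HC] in
theorem ph_gk {σ : Kb ≃ₐ[F] Kb} (hσ : IsFr V (Ideal.absNorm w.asIdeal) σ) :
    Ph V (C.map (algebraMap F Kb)) (Ideal.absNorm w.asIdeal) (ga σ) := by
  have hG := goodC_up hV hC
  have hVP := abv_res (k := K) hV
  have hr : (C.map (algebraMap F Kb)).r = algebraMap F Kb C.r := rfl
  have hs : (C.map (algebraMap F Kb)).s = algebraMap F Kb C.s := rfl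
  have ht : (C.map (algebraMap F Kb)).t = algebraMap F Kb C.t := rfl
  have hu : ((C.map (algebraMap F Kb)).u : Kb) = algebraMap F Kb (C.u : F) := rfl
  refine ⟨fun T hT => ta_hom hT (ga σ) (fun a X => gk_sm σ a X), fun T hT => (gk_ne σ).1 hT,
    fun T hT h0 => ?_, fun T hT h0 => ?_⟩
  · have e : cx (C.map (algebraMap F Kb)) (ga σ T) = σ (cx (C.map (algebraMap F Kb)) T) := by
      unfold cx
      rw [hr, hu, xc_gk, map_div₀, map_sub, map_pow, σ.commutes, σ.commutes]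
    rw [e]
    exact hσ _ (ta_le hVP hG hT h0).1
  · have e : cy (C.map (algebraMap F Kb)) (ga σ T) = σ (cy (C.map (algebraMap F Kb)) T) := by
      unfold cy
      rw [hr, hs, ht, hu, xc_gk, yc_gk, map_div₀, map_sub, map_sub, map_mul, map_sub, map_pow,
        σ.commutes, σ.commutes, σ.commutes, σ.commutes]
    rw [e]
    exact hσ _ (ta_le hVP hG hT h0).2

theorem cnt_w (hf : HC.f ∉ (w.under (𝓞 K)).asIdeal) :
    (Sp (Ideal.absNorm w.asIdeal) (rdW V (C.map (algebraMap F Kb) • EF Kb))).ncard + 1 =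
      Ideal.absNorm (Ideal.span {1 - psi F w.asIdeal}) ∧
    ∀ z ∈ Sp (Ideal.absNorm w.asIdeal) (rdW V (C.map (algebraMap F Kb) • EF Kb)), ∃ T : Pt Kb,
      T ≠ 0 ∧ sm Kb (1 - psi F w.asIdeal) T = 0 ∧ rdp V (C.map (algebraMap F Kb)) T = z := by
  have hFK : Algebra.IsAlgebraic F Kb := Algebra.IsAlgebraic.tower_top (K := K) F
  have hG := goodC_up hV hC
  have hVP := abv_res (k := K) hV
  obtain ⟨hp1, hp2, hp3, -⟩ := psi_facts hf
  have hpp := psi_pow F w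
  obtain ⟨Ψ, hΨ⟩ : ∃ Ψ, Ψ = psi F w.asIdeal := ⟨_, rfl⟩
  rw [← hΨ] at hp1 hp2 hpp ⊢
  obtain ⟨hf1, hf2, hf3⟩ := card_two hV (C • E F) hC.toIntW
  rw [cntd_up] at hf1 hf2 hf3
  obtain ⟨σ, hσ⟩ := exists_fr (Ω := Kb) hV
  have hPh := ph_gk hV hC hσ
  have hfr : ∀ T : Pt Kb, Ta V.valuation T → ga σ T = sm Kb Ψ T := by
    intro T hT
    have h1 : IsFr V (Ideal.absNorm (w.under (𝓞 K)).asIdeal ^ w.asIdeal.inertiaDeg (𝓞 K))
        (σ.restrictScalars K) := by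
      rw [← hp3]
      exact hσ
    rw [hpp]
    exact fr_ta hf hVP (w.asIdeal.inertiaDeg (𝓞 K)) h1 hT
  have hone : (1 : 𝓞 K) ∉ (w.under (𝓞 K)).asIdeal := fun h =>
    (w.under (𝓞 K)).isPrime.ne_top ((Ideal.eq_top_iff_one _).2 h)
  have hm1 : (1 - Ψ) ∉ (w.under (𝓞 K)).asIdeal := fun h => hone (by
    have h1 := Ideal.add_mem _ h hp2
    rwa [sub_add_cancel] at h1)
  have hm2 : (1 + Ψ) ∉ (w.under (𝓞 K)).asIdeal := fun h => hone (by
    have h1 := Ideal.sub_mem _ h hp2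
    rwa [add_sub_cancel_right] at h1)
  have hn1 : (1 - Ψ) ≠ 0 := fun h => hm1 (by rw [h]; exact zero_mem _)
  have hn2 : (1 + Ψ) ≠ 0 := fun h => hm2 (by rw [h]; exact zero_mem _)
  have hta1 : ∀ T : Pt Kb, sm Kb (1 - Ψ) T = 0 → Ta V.valuation T := fun T hT =>
    ⟨1 - Ψ, (val_one_iff hVP _).2 hm1, hT⟩
  have hta2 : ∀ T : Pt Kb, sm Kb (1 + Ψ) T = 0 → Ta V.valuation T := fun T hT =>
    ⟨1 + Ψ, (val_one_iff hVP _).2 hm2, hT⟩
  obtain ⟨h1, h2⟩ := cntd_half hn1 hf1 (rdp V (C.map (algebraMap F Kb)))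
    (fun T hT h0 => ph_sp hVP hG hPh (hta1 T hT) h0 (by
      rw [hfr T (hta1 T hT)]
      rw [sm_sub, sm_one, sub_eq_zero] at hT
      exact hT.symm))
    (fun T T' hT h0 hT' h0' h => rdp_inj hVP hG (hta1 T hT) (hta1 T' hT') h0 h0' h)
  obtain ⟨h3, -⟩ := cntd_half hn2 hf2 (rdp V (C.map (algebraMap F Kb)))
    (fun T hT h0 => ph_sm hVP hG hPh (hta2 T hT) h0 (by
      rw [hfr T (hta2 T hT)]
      rw [sm_add, sm_one] at hT
      exact eq_neg_of_add_eq_zero_right hT))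
    (fun T T' hT h0 hT' h0' h => rdp_inj hVP hG (hta2 T hT) (hta2 T' hT') h0 h0' h)
  have h4 := cntd_norm Ψ
  rw [hp1] at h4
  exact ⟨by omega, h2 (by omega)⟩

end

theorem loc_good' {F : Type u} [Field F] [NumberField F] [Algebra K F]
    {w : HeightOneSpectrum (𝓞 F)} (h : HC.f ∉ (w.under (𝓞 K)).asIdeal)
    (W : WeierstrassCurve F) (C : VariableChange F) (hC : C • W = E F) :
    (locPoly W w).map (Int.castRingHom (𝓞 K)) =
      (1 - Polynomial.C (psi F w.asIdeal) * Polynomial.X) *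
        (1 - Polynomial.C (cj (psi F w.asIdeal)) * Polynomial.X) := by
  classical
  have hfin : FiniteDimensional K F := Module.Finite.of_restrictScalars_finite ℚ K F
  have halg : Algebra.IsAlgebraic K F := Algebra.IsAlgebraic.of_finite K F
  let g : F →ₐ[K] Kb := IsAlgClosed.lift
  let iA : Algebra F Kb := g.toRingHom.toAlgebra
  have iT : IsScalarTower K F Kb := IsScalarTower.of_algebraMap_eq fun x => (g.commutes x).symm
  obtain ⟨V, hV⟩ := exists_abv (Ω := Kb) w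
  obtain ⟨C₁, hC₁⟩ := good_of_f' h
  obtain ⟨C₁', hC₁'⟩ : ∃ C₁', C₁' = C₁.map (algebraMap K F) := ⟨_, rfl⟩
  have hg : GM.GoodW (w.valuation F) (C₁' • E F) := by
    have h1 := GM.good_map (F' := F) (v' := w.valuation F) (GM.val_under w) hC₁
    have h2 : (C₁ • E K).map (algebraMap K F) = C₁' • E F := by
      rw [hC₁', ← cntd_map (algebraMap K F)]
      exact (WeierstrassCurve.map_variableChange _ _ _).symm
    rw [← h2]
    exact h1
  have hW : (C₁' * C) • W = C₁' • E F := by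
    rw [mul_smul, hC]
  obtain ⟨-, hl⟩ := locPoly_good hV W (C := C₁' * C) (by rw [hW]; exact hg)
  rw [hW, cntd_up] at hl
  obtain ⟨hc, -⟩ := cnt_w hV hg h
  obtain ⟨hp1, -, -, -⟩ := psi_facts h
  rw [hl]
  obtain ⟨n, hn⟩ : ∃ n, n = (Sp (Ideal.absNorm w.asIdeal)
    (rdW V (C₁'.map (algebraMap F Kb) • EF Kb))).ncard := ⟨_, rfl⟩
  obtain ⟨Ψ, hΨ⟩ : ∃ Ψ, Ψ = psi F w.asIdeal := ⟨_, rfl⟩
  rw [← hn] at hc ⊢
  rw [← hΨ] at hc hp1 ⊢
  have h1 : ((n : ℕ) : 𝓞 K) + 1 = (1 - Ψ) * (1 - cj Ψ) := by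
    have h2 := mul_cj (1 - Ψ)
    rw [← hc, map_sub, map_one] at h2
    rw [h2]
    push_cast
    ring
  have h2 : ((Ideal.absNorm w.asIdeal : ℕ) : 𝓞 K) = Ψ * cj Ψ := by
    rw [← hp1, mul_cj]
  have h3 : (Int.castRingHom (𝓞 K)) ((Ideal.absNorm w.asIdeal : ℤ) - (n : ℤ)) = Ψ + cj Ψ := by
    rw [eq_intCast]
    push_cast
    rw [h2]
    linear_combination -h1
  have h4 : (Int.castRingHom (𝓞 K)) (Ideal.absNorm w.asIdeal : ℤ) = Ψ * cj Ψ := by
    rw [eq_intCast]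
    push_cast
    exact h2
  rw [Polynomial.map_add, Polynomial.map_sub, Polynomial.map_mul, Polynomial.map_mul,
    Polynomial.map_C, Polynomial.map_C, Polynomial.map_X, Polynomial.map_pow, Polynomial.map_X,
    Polynomial.map_one, h3, h4, Polynomial.C_add, Polynomial.C_mul]
  ring

end Pool.Agent.Lib.MP_1a91b9_nuX.GL
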