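import Pool.Agent.Lib.MP_1a91b9_nuX.GL.AbsK

/-!
# Existence of Frobenius automorphisms; conjugate valuation subrings

PROOF. `B = integralClosure (𝓞 k) Ω`, `m = mB hV` (prime, above `P`: `mB_under`).
`exists_fr`: Mathlib `Ideal.Quotient.stabilizerHom_surjective_of_profinite` (Mathlib/RingTheory/Invariant/Profinite.lean) with `A = 𝓞 k`, `B`, `G = Ω ≃ₐ[k] Ω` (Krull topology; compact, totally disconnected; `B` with the discrete topology, the action is continuous since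
stabilisers are open; `Algebra.IsInvariant A B G`: an element of `B` fixed by `G` is in `k` (Galois: `Ω` is algebraic, normal, separable over `k`), integral, so in `𝓞 k`), ideals `P.asIdeal`, `m`: the `q`-th power map is an automorphism of `B ⧸ m` over `𝓞 k ⧸ P`, `q = absNorm P = #(𝓞 k ⧸ P)`
(`FiniteField.frobeniusAlgEquivOfAlgebraic` or similar; `B ⧸ m` is algebraic over the finite field `𝓞 k ⧸ P`). So there is `σ` with `σ m = m` and `σ a - a ^ q ∈ m` for all `a ∈ B`; `fr_of`.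
(Alternative: compactness and the finite level statement `GM.exists_frob` in nuX/GM/Plc.lean.)
`abv_trans`: `m = mB hV`, `m' = mB hV'` have the same trace `P.asIdeal` (`mB_under`): `Algebra.IsInvariant.exists_smul_of_under_eq_of_profinite` gives `ρ` with `m' = ρ • m`, so `V' (ρ a) < 1 ↔ V a < 1` for `a ∈ B`. The valuation subring `V'.comap ρ` (elements `x` with `V' (ρ x) ≤ 1`) is above
`P`; `le_iff_of_ideal`.
-/

set_option autoImplicit false

namespace Pool.Agent.Lib.MP_1a91b9_nuX.GL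

open NumberField IsDedekindDomain

section
variable {k Ω : Type*} [Field k] [NumberField k] [Field Ω] [Algebra k Ω] [IsAlgClosed Ω]
  [Algebra.IsAlgebraic k Ω]

omit [NumberField k] [IsAlgClosed Ω] [Algebra.IsAlgebraic k Ω] in
private theorem absf_comm : SMulCommClass (Ω ≃ₐ[k] Ω) (𝓞 k) Ω := by
  refine ⟨fun g r x => ?_⟩
  rw [Algebra.smul_def, Algebra.smul_def, smul_mul']
  congr 1
  have h : algebraMap (𝓞 k) Ω r = algebraMap k Ω (algebraMap (𝓞 k) k r) :=
    IsScalarTower.algebraMap_apply (𝓞 k) k Ω r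
  rw [h]
  exact g.commutes _

private theorem absf_gal : IsGalois k Ω := by
  have h1 : IsAlgClosure k Ω := ⟨inferInstance, inferInstance⟩
  have h2 : Normal k Ω := IsAlgClosure.normal k Ω
  exact ⟨⟩

attribute [local instance] absf_comm

private theorem absf_inv :
    Algebra.IsInvariant (𝓞 k) (integralClosure (𝓞 k) Ω) (Ω ≃ₐ[k] Ω) := by
  have hg : IsGalois k Ω := absf_gal
  refine ⟨fun b hb => ?_⟩
  have h1 : ∀ g : Ω ≃ₐ[k] Ω, g (b : Ω) = (b : Ω) := fun g => congrArg Subtype.val (hb g)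
  obtain ⟨x, hx⟩ := (InfiniteGalois.mem_range_algebraMap_iff_fixed (b : Ω)).2 h1
  have h2 : IsIntegral (𝓞 k) (algebraMap k Ω x) := by
    rw [hx]
    exact b.2
  have h3 : IsIntegral (𝓞 k) x :=
    (isIntegral_algebraMap_iff (algebraMap k Ω).injective).1 h2
  obtain ⟨y, hy⟩ := IsIntegrallyClosed.isIntegral_iff.1 h3
  refine ⟨y, Subtype.ext ?_⟩
  have h4 : algebraMap (𝓞 k) Ω y = algebraMap k Ω (algebraMap (𝓞 k) k y) :=
    IsScalarTower.algebraMap_apply (𝓞 k) k Ω y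
  rw [hy, hx] at h4
  exact h4

omit [NumberField k] [IsAlgClosed Ω] in
private theorem absf_cont [TopologicalSpace (integralClosure (𝓞 k) Ω)]
    [DiscreteTopology (integralClosure (𝓞 k) Ω)] :
    ContinuousSMul (Ω ≃ₐ[k] Ω) (integralClosure (𝓞 k) Ω) := by
  rw [continuousSMul_iff_stabilizer_isOpen]
  intro b
  have h1 := stabilizer_isOpen_of_isIntegral (K := k) (L := Ω) (b : Ω)
  have h2 : (MulAction.stabilizer (Ω ≃ₐ[k] Ω) b : Set (Ω ≃ₐ[k] Ω)) =
      (MulAction.stabilizer (Ω ≃ₐ[k] Ω) (b : Ω) : Set (Ω ≃ₐ[k] Ω)) := by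
    ext g
    simp only [SetLike.mem_coe, MulAction.mem_stabilizer_iff]
    exact ⟨fun h => congrArg Subtype.val h, fun h => Subtype.ext h⟩
  rw [h2]
  exact h1

/-- existence of a Frobenius automorphism -/
theorem exists_fr {P : HeightOneSpectrum (𝓞 k)} {V : ValuationSubring Ω} (hV : Abv P V) :
    ∃ σ : Ω ≃ₐ[k] Ω, IsFr V (Ideal.absNorm P.asIdeal) σ := by
  have hg : IsGalois k Ω := absf_gal
  let _ : TopologicalSpace (integralClosure (𝓞 k) Ω) := ⊥
  have hdt : DiscreteTopology (integralClosure (𝓞 k) Ω) := ⟨rfl⟩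
  have hct : ContinuousSMul (Ω ≃ₐ[k] Ω) (integralClosure (𝓞 k) Ω) := absf_cont
  have hinv : Algebra.IsInvariant (𝓞 k) (integralClosure (𝓞 k) Ω) (Ω ≃ₐ[k] Ω) := absf_inv
  have hp : (mB hV).IsPrime := mB_prime hV
  have hover : (mB hV).LiesOver P.asIdeal := ⟨(mB_under hV).symm⟩
  have hmax : P.asIdeal.IsMaximal := P.isMaximal
  have hint : Algebra.IsIntegral (𝓞 k) (integralClosure (𝓞 k) Ω) := inferInstance
  have hmaxB : (mB hV).IsMaximal := by
    refine Ideal.isMaximal_of_isIntegral_of_isMaximal_comap (R := 𝓞 k) (mB hV) ?_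
    have h1 := mB_under hV
    unfold Ideal.under at h1
    rw [h1]
    exact hmax
  let _ : Field (𝓞 k ⧸ P.asIdeal) := Ideal.Quotient.field P.asIdeal
  let _ : Field (integralClosure (𝓞 k) Ω ⧸ mB hV) := Ideal.Quotient.field (mB hV)
  have hfin : Finite (𝓞 k ⧸ P.asIdeal) := Ideal.finiteQuotientOfFreeOfNeBot P.asIdeal P.ne_bot
  let _ : Fintype (𝓞 k ⧸ P.asIdeal) := Fintype.ofFinite _
  have halg : Algebra.IsAlgebraic (𝓞 k ⧸ P.asIdeal) (integralClosure (𝓞 k) Ω ⧸ mB hV) := by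
    have h1 : Algebra.IsIntegral (𝓞 k ⧸ P.asIdeal) (integralClosure (𝓞 k) Ω ⧸ mB hV) :=
      inferInstance
    exact h1.isAlgebraic
  obtain ⟨σ, hσ⟩ := Ideal.Quotient.stabilizerHom_surjective_of_profinite (G := Ω ≃ₐ[k] Ω)
    P.asIdeal (mB hV) (FiniteField.frobeniusAlgEquivOfAlgebraic (𝓞 k ⧸ P.asIdeal)
      (integralClosure (𝓞 k) Ω ⧸ mB hV))
  have hq : Fintype.card (𝓞 k ⧸ P.asIdeal) = Ideal.absNorm P.asIdeal := by
    rw [Ideal.absNorm_apply, Submodule.cardQuot_apply, Nat.card_eq_fintype_card]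
  refine ⟨σ.1, fr_of hV fun a => ?_⟩
  have h1 := congrArg (fun f : (integralClosure (𝓞 k) Ω ⧸ mB hV) ≃ₐ[𝓞 k ⧸ P.asIdeal]
    (integralClosure (𝓞 k) Ω ⧸ mB hV) => f (Ideal.Quotient.mk (mB hV) a)) hσ
  rw [Ideal.Quotient.stabilizerHom_apply] at h1
  have h2 : Ideal.Quotient.mk (mB hV) (σ.1 • a) =
      Ideal.Quotient.mk (mB hV) (a ^ Ideal.absNorm P.asIdeal) := by
    rw [map_pow, ← hq]
    exact h1
  rw [Ideal.Quotient.eq] at h2
  exact h2

/-- the valuation subrings above `P` are conjugate -/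
theorem abv_trans {P : HeightOneSpectrum (𝓞 k)} {V V' : ValuationSubring Ω} (hV : Abv P V)
    (hV' : Abv P V') : ∃ ρ : Ω ≃ₐ[k] Ω, ∀ x : Ω, V'.valuation (ρ x) ≤ 1 ↔ V.valuation x ≤ 1 := by
  have hg : IsGalois k Ω := absf_gal
  let _ : TopologicalSpace (integralClosure (𝓞 k) Ω) := ⊥
  have hdt : DiscreteTopology (integralClosure (𝓞 k) Ω) := ⟨rfl⟩
  have hct : ContinuousSMul (Ω ≃ₐ[k] Ω) (integralClosure (𝓞 k) Ω) := absf_cont
  have hinv : Algebra.IsInvariant (𝓞 k) (integralClosure (𝓞 k) Ω) (Ω ≃ₐ[k] Ω) := absf_inv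
  have hp : (mB hV).IsPrime := mB_prime hV
  have hp' : (mB hV').IsPrime := mB_prime hV'
  obtain ⟨g, hgm⟩ := Algebra.IsInvariant.exists_smul_of_under_eq_of_profinite (A := 𝓞 k)
    (G := Ω ≃ₐ[k] Ω) (mB hV) (mB hV') ((mB_under hV).trans (mB_under hV').symm)
  refine ⟨g, fun x => ?_⟩
  have hmem : ∀ y : Ω, (V'.comap (g : Ω →+* Ω)).valuation y ≤ 1 ↔ V'.valuation (g y) ≤ 1 := by
    intro y
    rw [ValuationSubring.valuation_le_one_iff, ValuationSubring.valuation_le_one_iff]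
    rfl
  have hlt : ∀ y : Ω, (V'.comap (g : Ω →+* Ω)).valuation y < 1 ↔ V'.valuation (g y) < 1 := by
    intro y
    let _ : Algebra Ω Ω := (g : Ω →+* Ω).toAlgebra
    exact (GM.val_ext_lt (F := Ω) (F' := Ω) (V'.comap (g : Ω →+* Ω)).valuation V'.valuation
      (fun z => (hmem z).symm) y).symm
  have hA : Abv P (V'.comap (g : Ω →+* Ω)) := by
    intro y
    rw [hmem, g.commutes]
    exact hV' y
  rw [← hmem]
  refine (le_iff_of_ideal hV hA (fun a => ?_) x).symm
  rw [hlt]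
  have h1 : g • a ∈ mB hV' ↔ a ∈ mB hV := by
    rw [hgm]
    exact Ideal.smul_mem_pointwise_smul_iff
  exact h1.symm

end

end Pool.Agent.Lib.MP_1a91b9_nuX.GL
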