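import Pool.Agent.Lib.MP_1a91b9_nuX.GL.AbsU

/-!
# Frobenius and inertia automorphisms preserve the values

PROOF. `x = 0` trivial. `L = k(x)` (`IntermediateField.adjoin k {x}`, finite over `k` as `x` is algebraic) is a number field, `w` the place of `L` below `V` (`abv_under`). `w` contains a prime number `p`. In `ℤᵐ⁰` both `w.valuation L x` and
`w.valuation L p` are powers `exp (-a)`, `exp (-n)`, `n > 0`, so `w.valuation L (x ^ n * p ^ (-a)) = 1` (`zpow`). So `V (x ^ n * p ^ (-a)) = 1` (`abv_eq`). FACT: `V y = 1` implies `V (σ y) = 1`: `fr_le` for `y` and for `y⁻¹`, `σ y * σ y⁻¹ = 1`. Hence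
`V (σ x) ^ n * V p ^ (-a) = 1 = V x ^ n * V p ^ (-a)`, so `V (σ x) ^ n = V x ^ n`, `n > 0`, `V (σ x) = V x` (`pow_left_injective` in a linearly ordered group with zero, `pow_left_inj₀`).
-/

set_option autoImplicit false

namespace Pool.Agent.Lib.MP_1a91b9_nuX.GL

open NumberField IsDedekindDomain

section
variable {k Ω : Type*} [Field k] [NumberField k] [Field Ω] [Algebra k Ω]
  [Algebra.IsAlgebraic k Ω]

/-- an automorphism which preserves the elements of value at most `1` preserves the values -/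
theorem val_of_le {P : HeightOneSpectrum (𝓞 k)} {V : ValuationSubring Ω} (hV : Abv P V)
    {σ : Ω ≃ₐ[k] Ω} (h : ∀ x : Ω, V.valuation x ≤ 1 → V.valuation (σ x) ≤ 1) (x : Ω) :
    V.valuation (σ x) = V.valuation x := by
  rcases eq_or_ne x 0 with rfl | hx0
  · rw [map_zero]
  -- elements of value one
  have fact : ∀ y : Ω, V.valuation y = 1 → V.valuation (σ y) = 1 := by
    intro y hy
    have hy0 : y ≠ 0 := by
      rintro rfl
      rw [map_zero] at hy
      exact zero_ne_one hy
    have h1 := h y hy.le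
    have h2 := h y⁻¹ (by rw [map_inv₀, hy, inv_one])
    have h3 : V.valuation (σ y) * V.valuation (σ y⁻¹) = 1 := by
      rw [← map_mul, ← map_mul, mul_inv_cancel₀ hy0, map_one, map_one]
    refine le_antisymm h1 ?_
    calc (1 : V.ValueGroup) = V.valuation (σ y) * V.valuation (σ y⁻¹) := h3.symm
      _ ≤ V.valuation (σ y) * 1 := mul_le_mul_right h2 _
      _ = V.valuation (σ y) := mul_one _
  -- the number field `k(x)`
  have hint : IsIntegral k x := Algebra.IsIntegral.isIntegral x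
  have hfin : FiniteDimensional k (IntermediateField.adjoin k {x}) :=
    IntermediateField.adjoin.finiteDimensional hint
  have hnf : NumberField (IntermediateField.adjoin k {x}) := NumberField.of_module_finite k _
  obtain ⟨w, _, hw⟩ := abv_under (M := IntermediateField.adjoin k {x}) hV
  obtain ⟨g, hg⟩ : ∃ g : IntermediateField.adjoin k {x},
      algebraMap (IntermediateField.adjoin k {x}) Ω g = x :=
    ⟨⟨x, IntermediateField.mem_adjoin_simple_self k x⟩, rfl⟩
  have hg0 : g ≠ 0 := by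
    rintro rfl
    exact hx0 (by rw [← hg, map_zero])
  obtain ⟨π, hπ⟩ := P.valuation_exists_uniformizer k
  have hπ1 : P.valuation k π < 1 := by
    rw [hπ, ← WithZero.exp_zero, WithZero.exp_lt_exp]
    norm_num
  have hπ0 : π ≠ 0 := by
    rintro rfl
    rw [map_zero] at hπ
    exact WithZero.exp_ne_zero hπ.symm
  obtain ⟨ϖ, hϖ⟩ : ∃ ϖ : IntermediateField.adjoin k {x},
      ϖ = algebraMap k (IntermediateField.adjoin k {x}) π := ⟨_, rfl⟩
  have hϖΩ : algebraMap (IntermediateField.adjoin k {x}) Ω ϖ = algebraMap k Ω π := by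
    rw [hϖ]
    exact (IsScalarTower.algebraMap_apply k (IntermediateField.adjoin k {x}) Ω π).symm
  have hϖ0 : ϖ ≠ 0 := by
    intro h0
    rw [h0, map_zero] at hϖΩ
    exact hπ0 ((map_eq_zero _).1 hϖΩ.symm)
  have hϖ1 : w.valuation (IntermediateField.adjoin k {x}) ϖ < 1 := by
    rw [← abv_lt hw, hϖΩ, abv_lt hV]
    exact hπ1
  obtain ⟨a, ha⟩ : ∃ a : ℤ, w.valuation (IntermediateField.adjoin k {x}) g = WithZero.exp a :=
    ⟨_, (WithZero.exp_log ((Valuation.ne_zero_iff _).2 hg0)).symm⟩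
  obtain ⟨b, hb⟩ : ∃ b : ℤ, w.valuation (IntermediateField.adjoin k {x}) ϖ = WithZero.exp b :=
    ⟨_, (WithZero.exp_log ((Valuation.ne_zero_iff _).2 hϖ0)).symm⟩
  have hb0 : b < 0 := by
    rw [hb, ← WithZero.exp_zero, WithZero.exp_lt_exp] at hϖ1
    exact hϖ1
  obtain ⟨n, hn⟩ : ∃ n : ℕ, (n : ℤ) = -b := ⟨(-b).toNat, Int.toNat_of_nonneg (by omega)⟩
  have hn0 : n ≠ 0 := by omega
  have hone : w.valuation (IntermediateField.adjoin k {x}) (g ^ n * ϖ ^ a) = 1 := by
    rw [map_mul, map_pow, map_zpow₀, ha, hb, ← WithZero.exp_nsmul, ← WithZero.exp_zsmul,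
      ← WithZero.exp_add, ← WithZero.exp_zero]
    congr 1
    rw [nsmul_eq_mul, zsmul_eq_mul, Int.cast_id, hn]
    ring
  have hV1 := (abv_eq hw (g ^ n * ϖ ^ a)).2 hone
  rw [map_mul, map_pow, map_zpow₀, hg, hϖΩ] at hV1
  have hV2 := fact _ hV1
  rw [map_mul, map_pow, map_zpow₀, σ.commutes, map_mul, map_pow, map_zpow₀] at hV2
  rw [map_mul, map_pow, map_zpow₀] at hV1
  have hc : V.valuation (algebraMap k Ω π) ^ a ≠ 0 := by
    refine zpow_ne_zero _ ((Valuation.ne_zero_iff _).2 ?_)
    intro h0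
    exact hπ0 ((map_eq_zero _).1 h0)
  have hpow : V.valuation (σ x) ^ n = V.valuation x ^ n :=
    mul_right_cancel₀ hc (hV2.trans hV1.symm)
  exact (pow_left_inj₀ zero_le zero_le hn0).1 hpow

/-- a Frobenius or inertia automorphism preserves the values -/
theorem fr_val {P : HeightOneSpectrum (𝓞 k)} {V : ValuationSubring Ω} (hV : Abv P V) {q : ℕ}
    {σ : Ω ≃ₐ[k] Ω} (h : IsFr V q σ) (x : Ω) : V.valuation (σ x) = V.valuation x :=
  val_of_le hV (fun _ hx => fr_le h hx) x

end

end Pool.Agent.Lib.MP_1a91b9_nuX.GL
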