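import Pool.Agent.Lib.MP_1a91b9_nuX.GL.PiB
import Pool.Agent.Lib.MP_1a91b9_nuX.GL.Rd

/-!
# The multiplication by a generator of the place is a lift of the Frobenius map

Notation: `v = V.valuation`, `q = Ideal.absNorm P.asIdeal`, `π` with `span {π} = P.asIdeal`, `Rb` with `Ord π Rb`, `T` with `IsRes π T`, `T.card + 1 = q` (`exists_isRes`), `κ0 = π ^ 2 * ∏ a ∈ T, cx C (sm a Rb)`.

PROOF of `pid_one`. All `S = sm a Rb`, `a ∈ T`, are in `KrC` (`pi_kr`, `tors_zero`), not `0` (`tors_ne`), so `v (cx S) > 1`. `X`, `R ∉ KrC`, `X ∓ R ∉ KrC`: `v (cx X - cx R) = 1` (`krc_unit`, `v (cx R) ≤ 1`). `v (cx (X + S) - cx X) < 1` (`krc_near`).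
So the left hand side `L` of `distc` satisfies `v (L - (cx X - cx R) ^ q) < 1` (product of `q` factors of value one, each congruent to `cx X - cx R`: induction on `T`), `v L = 1`. `cx S - cx R = cx S * (1 - cx R / cx S)`, `v (cx R / cx S) < 1`, so
`∏ (cx S - cx R) = (∏ cx S) * (1 + δ)`, `v δ < 1` (induction), and `L = κ0 * (1 + δ) * D` with `D = cx (sm π X) - cx (sm π R)`; so `v (κ0 * D) = 1` and `v (L - κ0 * D) < 1`.
`sm π X ≠ 0` (else `X ∈ KrC` by `pi_kr`), `xc (sm π X) ≠ xc (sm π R)` (else `sm π X = ± sm π R`, `X ∓ R ∈ KrC` by `pi_kr`), so `distc` may be applied; `2 • sm π R ≠ 0` is a hypothesis.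
PROOF of `pid_val`: `v κ0 = 1`. Take primes `l ≥ 5`, `l' ≥ l + 1` of value one, `X`, `R` of order `l`, `l'`: `Tr`, `X ∓ R` are `Tr`, `≠ 0`. `D`: `sm π X`, `sm π R`, `sm π X ∓ sm π R` are `≠ 0` (`sm_inj_on`, the norm of `π` is a power of `p`, `norm_pow`) and `Tr`, so `v D = 1` (`krc_unit`), `v (κ0 D) = 1`.
PROOF of `pid_frob`: `(a - b) ^ q ≡ a ^ q - b ^ q` modulo `v` for `v a, v b ≤ 1`: `q = p ^ n` (`norm_pow`); `GL/Rd.lean`: in the residue field (`rd_sub_pow`: characteristic `p` by `rd_char`, `sub_pow_expChar_pow` / `sub_pow_char_pow`), `rd_eq`.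
PROOF of `frob_lift`. `κ = κ0⁻¹`. `R0` of prime order `l0 ≥ 5`, `R1` of prime order `l1 ≥ l0 + 1` (value one); `e = cx (sm π R0) - κ * cx R0 ^ q`. Let `X ∉ KrC`; `sm π X ≠ 0`. If `X ∓ R0 ∉ KrC`: `pid_one` with `R = R0` (`2 • sm π R0 ≠ 0` as `l0` is odd):
`v (cx (sm π X) - cx (sm π R0) - κ (cx X - cx R0) ^ q) < 1`, so with `pid_frob`: `v (cx (sm π X) - (κ cx X ^ q + e)) < 1`. In particular for `X = R1`. If `X - R0` or `X + R0 ∈ KrC` then `X ∓ R1 ∉ KrC` (otherwise `R0 ± R1 ∈ KrC`, it is `Tr` and `≠ 0`), and `pid_one` with `R = R1`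
and the case `X = R1` give the same congruence. `v (cx (sm π X)) ≤ 1` and `sm π X ≠ 0`, so `sm π X ∉ KrC`.
-/

set_option autoImplicit false

namespace Pool.Agent.Lib.MP_1a91b9_nuX.GL

open NumberField IsDedekindDomain WeierstrassCurve Pool.Agent.Lib.MP_1a91b9_nuT DB

private theorem PiD_prod {ι Γ F : Type*} [Field F] [LinearOrderedCommGroupWithZero Γ]
    (v : Valuation F Γ) (T : Finset ι) (f g : ι → F) (hf : ∀ a ∈ T, v (f a) ≤ 1)
    (hg : ∀ a ∈ T, v (g a) ≤ 1) (h : ∀ a ∈ T, v (f a - g a) < 1) :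
    v (∏ a ∈ T, f a) ≤ 1 ∧ v (∏ a ∈ T, g a) ≤ 1 ∧ v (∏ a ∈ T, f a - ∏ a ∈ T, g a) < 1 := by
  classical
  induction T using Finset.induction_on with
  | empty =>
    rw [Finset.prod_empty, Finset.prod_empty, sub_self, map_zero, map_one]
    exact ⟨le_rfl, le_rfl, zero_lt_one⟩
  | insert a T ha ih =>
    obtain ⟨h1, h2, h3⟩ := ih (fun b hb => hf b (Finset.mem_insert_of_mem hb))
      (fun b hb => hg b (Finset.mem_insert_of_mem hb))
      (fun b hb => h b (Finset.mem_insert_of_mem hb))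
    have ha' := Finset.mem_insert_self a T
    rw [Finset.prod_insert ha, Finset.prod_insert ha]
    refine ⟨?_, ?_, ?_⟩
    · rw [map_mul]
      exact mul_le_one' (hf a ha') h1
    · rw [map_mul]
      exact mul_le_one' (hg a ha') h2
    · have e : f a * ∏ b ∈ T, f b - g a * ∏ b ∈ T, g b =
          f a * (∏ b ∈ T, f b - ∏ b ∈ T, g b) + (f a - g a) * ∏ b ∈ T, g b := by ring
      rw [e]
      refine Valuation.map_add_lt v ?_ ?_
      · rw [map_mul]
        exact (mul_le_mul_left (hf a ha') _).trans_lt (by rw [one_mul]; exact h3)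
      · rw [map_mul]
        exact (mul_le_mul_right h2 _).trans_lt (by rw [mul_one]; exact h a ha')

private theorem PiD_one {Γ F : Type*} [Field F] [LinearOrderedCommGroupWithZero Γ]
    (v : Valuation F Γ) {x y : F} (h : v (x - y) < 1) (hy : v y = 1) : v x = 1 := by
  have h1 : v (x - y) < v y := by rw [hy]; exact h
  rw [Valuation.map_eq_of_sub_lt v h1, hy]

private theorem PiD_cop {G : Type*} [AddCommGroup G] {m n : ℕ} (h : Nat.Coprime m n) {x : G}
    (hm : m • x = 0) (hn : n • x = 0) : x = 0 := by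
  have h1 := addOrderOf_dvd_of_nsmul_eq_zero hm
  have h2 := addOrderOf_dvd_of_nsmul_eq_zero hn
  have h3 := Nat.dvd_gcd h1 h2
  rw [Nat.Coprime.gcd_eq_one h, Nat.dvd_one, AddMonoid.addOrderOf_eq_one_iff] at h3
  exact h3

private theorem PiD_two {G : Type*} [AddCommGroup G] {m n : ℕ} (h : Nat.Coprime m n) {x y : G}
    (hm : m • x = 0) (hn : n • y = 0) (hx : x ≠ 0) : x - y ≠ 0 ∧ x + y ≠ 0 := by
  constructor
  · intro h0
    rw [sub_eq_zero] at h0
    rw [← h0] at hn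
    exact hx (PiD_cop h hm hn)
  · intro h0
    have h1 : x = -y := eq_neg_of_add_eq_zero_left h0
    have h2 : n • x = 0 := by rw [h1, smul_neg, hn, neg_zero]
    exact hx (PiD_cop h hm h2)

variable [CD] [DecidableEq Kb]

section
variable {P : HeightOneSpectrum (𝓞 K)} {V : ValuationSubring Kb} (hV : Abv P V)
include hV

private theorem PiD_sm {π : 𝓞 K} (hπ : Ideal.span {π} = P.asIdeal) {n : ℕ}
    (hn : V.valuation (n : Kb) = 1) {X : Pt Kb} (hX : n • X = 0) (h : sm Kb π X = 0) :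
    X = 0 := by
  obtain ⟨p, hp, hpv, hpn⟩ := res_char hV
  obtain ⟨k, hk, hk2⟩ := norm_pow hV hp hpv
  refine sm_inj_on ?_ h hX
  rw [hπ, hk2]
  refine Nat.Coprime.pow_left k ?_
  rw [hp.coprime_iff_not_dvd]
  exact (hpn n).1 hn

end

section
variable {P : HeightOneSpectrum (𝓞 K)} {V : ValuationSubring Kb} (hV : Abv P V)
  {C : VariableChange Kb} (hC : GoodC V.valuation C) {π : 𝓞 K} (hπ : Ideal.span {π} = P.asIdeal)
include hV hC hπ

omit hV hC [DecidableEq Kb] in
private theorem PiD_ne : π ≠ 0 := by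
  intro h
  apply P.ne_bot
  rw [← hπ, h]
  exact Ideal.span_singleton_eq_bot.2 rfl

theorem pid_one {T : Finset (𝓞 K)} (hT : IsRes π T)
    (hTc : T.card + 1 = Ideal.absNorm P.asIdeal) {Rb : Pt Kb} (hRb : Ord π Rb) {X R : Pt Kb}
    (hX : ¬ KrC V.valuation C X) (hR : ¬ KrC V.valuation C R) (h1 : ¬ KrC V.valuation C (X - R))
    (h2 : ¬ KrC V.valuation C (X + R)) (hR2 : 2 • sm Kb π R ≠ 0) :
    V.valuation (algebraMap K Kb (π : K) ^ 2 * (∏ a ∈ T, cx C (sm Kb a Rb)) *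
      (cx C (sm Kb π X) - cx C (sm Kb π R)) -
      (cx C X - cx C R) ^ Ideal.absNorm P.asIdeal) < 1 := by
  have hπ0 : π ≠ 0 := PiD_ne hπ
  obtain ⟨hR0, hRv⟩ := not_krc hR
  have hRπ0 : sm Kb π R ≠ 0 := by
    intro h
    rw [h, smul_zero] at hR2
    exact hR2 rfl
  have hXπ0 : sm Kb π X ≠ 0 := fun h => hX (pi_kr hV hC hπ h)
  have hne : xc (sm Kb π X) ≠ xc (sm Kb π R) := by
    intro h
    rcases (xc_eq_iff hXπ0 hRπ0).1 h with h | h
    · apply h1
      apply pi_kr hV hC hπ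
      rw [map_sub, h, sub_self]
    · apply h2
      apply pi_kr hV hC hπ
      rw [map_add, h, neg_add_cancel]
  have hd := distc hπ0 hT hRb C hXπ0 hR2 hne
  have hA : V.valuation (cx C X - cx C R) = 1 := by
    rw [krc_unit hC hX hR0 h1 h2, max_eq_left hRv]
  have hS : ∀ a ∈ T, KrC V.valuation C (sm Kb a Rb) := fun a _ =>
    pi_kr hV hC hπ (tors_zero hRb a)
  have hSv : ∀ a ∈ T, 1 < V.valuation (cx C (sm Kb a Rb)) := fun a ha => by
    rcases hS a ha with h | h
    · exact absurd h (tors_ne hT hRb ha)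
    · exact h
  have hS0 : ∀ a ∈ T, cx C (sm Kb a Rb) ≠ 0 := fun a ha h => by
    have h3 := hSv a ha
    rw [h, map_zero] at h3
    exact absurd h3 (not_lt.2 zero_le_one)
  -- the left hand side
  have hL := PiD_prod V.valuation T (fun a => cx C (X + sm Kb a Rb) - cx C R)
    (fun _ => cx C X - cx C R) (fun a ha => by
      have h3 : KrC V.valuation C (X + sm Kb a Rb - X) := by
        rw [add_sub_cancel_left]
        exact hS a ha
      have h4 := (krc_near hC hX h3).1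
      have e : cx C (X + sm Kb a Rb) - cx C R =
        (cx C (X + sm Kb a Rb) - cx C X) + (cx C X - cx C R) := by ring
      rw [e]
      exact Valuation.map_add_le _ h4.le hA.le) (fun a ha => hA.le) (fun a ha => by
      have h3 : KrC V.valuation C (X + sm Kb a Rb - X) := by
        rw [add_sub_cancel_left]
        exact hS a ha
      have h4 := (krc_near hC hX h3).1
      have e : cx C (X + sm Kb a Rb) - cx C R - (cx C X - cx C R) =
        (cx C (X + sm Kb a Rb) - cx C X) := by ring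
      rw [e]
      exact h4)
  obtain ⟨-, -, hL⟩ := hL
  rw [Finset.prod_const] at hL
  -- the right hand side
  have hW := PiD_prod V.valuation T (fun a => 1 - cx C R / cx C (sm Kb a Rb))
    (fun _ => 1) (fun a ha => by
      have h3 : V.valuation (cx C R / cx C (sm Kb a Rb)) ≤ 1 := by
        rw [map_div₀]
        exact div_le_one_of_le₀ (hRv.trans (hSv a ha).le) zero_le
      exact Valuation.map_sub_le _ (map_one V.valuation).le h3) (fun a ha => by rw [map_one])
      (fun a ha => by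
        have e : (1 : Kb) - cx C R / cx C (sm Kb a Rb) - 1 =
          - (cx C R / cx C (sm Kb a Rb)) := by ring
        rw [e, Valuation.map_neg, map_div₀]
        exact (div_lt_one₀ (zero_lt_one.trans (hSv a ha))).2 (hRv.trans_lt (hSv a ha)))
  obtain ⟨-, -, hW⟩ := hW
  rw [Finset.prod_const_one] at hW
  have hprod : ∏ a ∈ T, (cx C (sm Kb a Rb) - cx C R) =
      (∏ a ∈ T, cx C (sm Kb a Rb)) * ∏ a ∈ T, (1 - cx C R / cx C (sm Kb a Rb)) := by
    rw [← Finset.prod_mul_distrib]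
    refine Finset.prod_congr rfl fun a ha => ?_
    rw [mul_sub, mul_one, mul_div_cancel₀ _ (hS0 a ha)]
  rw [hprod] at hd
  generalize (∏ a ∈ T, (cx C (X + sm Kb a Rb) - cx C R)) = F at hL hd
  generalize (∏ a ∈ T, (1 - cx C R / cx C (sm Kb a Rb))) = W at hW hd
  generalize (∏ a ∈ T, cx C (sm Kb a Rb)) = Q at hd ⊢
  generalize (cx C X - cx C R) = A at hA hL hd ⊢
  generalize (cx C (sm Kb π X) - cx C (sm Kb π R)) = D at hd ⊢
  generalize (algebraMap K Kb (π : K)) = b at hd ⊢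
  have hWv : V.valuation W = 1 := PiD_one _ hW (map_one _)
  have hAq : ∀ n : ℕ, V.valuation (A ^ n) = 1 := fun n => by rw [map_pow, hA, one_pow]
  have hFv : V.valuation F = 1 := PiD_one _ hL (hAq _)
  have hk : V.valuation (b ^ 2 * Q * D) = 1 := by
    have e : A * F = (b ^ 2 * Q * D) * W := by
      rw [hd]
      ring
    have h3 := congrArg V.valuation e
    rw [map_mul, map_mul, hA, hFv, hWv, mul_one, mul_one] at h3
    exact h3.symm
  rw [← hTc]
  have e2 : b ^ 2 * Q * D - A ^ (T.card + 1) =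
      A * (F - A ^ T.card) - (b ^ 2 * Q * D) * (W - 1) := by
    have e3 : (b ^ 2 * Q * D) * W = A * F := by
      rw [hd]
      ring
    rw [mul_sub (b ^ 2 * Q * D), e3]
    ring
  rw [e2]
  refine Valuation.map_sub_lt _ ?_ ?_
  · rw [map_mul, hA, one_mul]
    exact hL
  · rw [map_mul, hk, one_mul]
    exact hW

/-- a pair of torsion points of different prime orders -/
private theorem PiD_pair {l l' : ℕ} (hl : l.Prime) (hl' : l'.Prime) (hll : l < l') (h5 : 5 ≤ l)
    (hlv : V.valuation (l : Kb) = 1) (hlv' : V.valuation (l' : Kb) = 1) {X R : Pt Kb}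
    (hX0 : X ≠ 0) (hX : l • X = 0) (hR0 : R ≠ 0) (hR : l' • R = 0) :
    ¬ KrC V.valuation C X ∧ ¬ KrC V.valuation C R ∧ ¬ KrC V.valuation C (X - R) ∧
      ¬ KrC V.valuation C (X + R) ∧ 2 • sm Kb π X ≠ 0 ∧ 2 • sm Kb π R ≠ 0 ∧
      ¬ KrC V.valuation C (sm Kb π X) ∧ ¬ KrC V.valuation C (sm Kb π R) ∧
      ¬ KrC V.valuation C (sm Kb π X - sm Kb π R) ∧
      ¬ KrC V.valuation C (sm Kb π X + sm Kb π R) := by
  have hcop : Nat.Coprime l l' := (Nat.coprime_primes hl hl').2 hll.ne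
  have hTX : Tr V.valuation X := ⟨l, hlv, hX⟩
  have hTR : Tr V.valuation R := ⟨l', hlv', hR⟩
  obtain ⟨hm, hp⟩ := PiD_two hcop hX hR hX0
  have hπX0 : sm Kb π X ≠ 0 := fun h => hX0 (PiD_sm hV hπ hlv hX h)
  have hπR0 : sm Kb π R ≠ 0 := fun h => hR0 (PiD_sm hV hπ hlv' hR h)
  have hπX : l • sm Kb π X = 0 := by rw [← map_nsmul, hX, map_zero]
  have hπR : l' • sm Kb π R = 0 := by rw [← map_nsmul, hR, map_zero]
  obtain ⟨hm', hp'⟩ := PiD_two hcop hπX hπR hπX0
  have h2 : ∀ m : ℕ, m.Prime → 5 ≤ m → Nat.Coprime 2 m := fun m hm h5 =>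
    (Nat.coprime_primes Nat.prime_two hm).2 (by omega)
  refine ⟨tr_not_kr hC hTX hX0, tr_not_kr hC hTR hR0, tr_not_kr hC (tr_sub hTX hTR) hm,
    tr_not_kr hC (tr_add hTX hTR) hp, fun h => hπX0 (PiD_cop (h2 l hl h5) h hπX),
    fun h => hπR0 (PiD_cop (h2 l' hl' (by omega)) h hπR),
    tr_not_kr hC (tr_sm hTX π) hπX0, tr_not_kr hC (tr_sm hTR π) hπR0,
    tr_not_kr hC (tr_sub (tr_sm hTX π) (tr_sm hTR π)) hm',
    tr_not_kr hC (tr_add (tr_sm hTX π) (tr_sm hTR π)) hp'⟩

theorem pid_val {T : Finset (𝓞 K)} (hT : IsRes π T)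
    (hTc : T.card + 1 = Ideal.absNorm P.asIdeal) {Rb : Pt Kb} (hRb : Ord π Rb) :
    V.valuation (algebraMap K Kb (π : K) ^ 2 * (∏ a ∈ T, cx C (sm Kb a Rb))) = 1 := by
  obtain ⟨l, hl, h5, hlv⟩ := exists_prime hV 5
  obtain ⟨l', hl', hll, hlv'⟩ := exists_prime hV (l + 1)
  obtain ⟨X, hX0, hX⟩ := exists_pt_prime hl
  obtain ⟨R, hR0, hR⟩ := exists_pt_prime hl'
  obtain ⟨g1, g2, g3, g4, g5, g6, g7, g8, g9, g10⟩ :=
    PiD_pair hV hC hπ hl hl' (by omega) h5 hlv hlv' hX0 hX hR0 hR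
  have h := pid_one hV hC hπ hT hTc hRb g1 g2 g3 g4 g6
  have hA : V.valuation (cx C X - cx C R) = 1 := by
    rw [krc_unit hC g1 (not_krc g2).1 g3 g4, max_eq_left (not_krc g2).2]
  have hD : V.valuation (cx C (sm Kb π X) - cx C (sm Kb π R)) = 1 := by
    rw [krc_unit hC g7 (not_krc g8).1 g9 g10, max_eq_left (not_krc g8).2]
  have h3 := PiD_one _ h (by rw [map_pow, hA, one_pow])
  rw [map_mul, hD, mul_one] at h3
  exact h3

end

section
variable {P : HeightOneSpectrum (𝓞 K)} {V : ValuationSubring Kb} (hV : Abv P V)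
include hV

omit [DecidableEq Kb] in
theorem pid_frob {a b : Kb} (ha : V.valuation a ≤ 1) (hb : V.valuation b ≤ 1) :
    V.valuation ((a - b) ^ Ideal.absNorm P.asIdeal -
      (a ^ Ideal.absNorm P.asIdeal - b ^ Ideal.absNorm P.asIdeal)) < 1 := by
  obtain ⟨p, hp, hpv, hpn⟩ := res_char hV
  obtain ⟨k, hk, hk2⟩ := norm_pow hV hp hpv
  have hchar : CharP (RF V) p := rd_char hp hpv
  have hfact : Fact p.Prime := ⟨hp⟩
  rw [hk2]
  have hle : ∀ {x : Kb} (n : ℕ), V.valuation x ≤ 1 → V.valuation (x ^ n) ≤ 1 := fun n hx => by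
    rw [map_pow]
    exact pow_le_one' hx n
  have hneg : ∀ {x : Kb}, V.valuation x ≤ 1 → V.valuation (-x) ≤ 1 := fun hx => by
    rw [Valuation.map_neg]
    exact hx
  have hsub : ∀ {x y : Kb}, V.valuation x ≤ 1 → V.valuation y ≤ 1 →
      rd V (x - y) = rd V x - rd V y := fun hx hy => by
    rw [sub_eq_add_neg, rd_add hx (hneg hy), rd_neg hy, sub_eq_add_neg]
  have hab : V.valuation (a - b) ≤ 1 := Valuation.map_sub_le _ ha hb
  have h1 : V.valuation ((a - b) ^ p ^ k) ≤ 1 := hle _ hab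
  have h2 : V.valuation (a ^ p ^ k - b ^ p ^ k) ≤ 1 := Valuation.map_sub_le _ (hle _ ha) (hle _ hb)
  rw [← rd_eq h1 h2, rd_pow hab, hsub ha hb, hsub (hle _ ha) (hle _ hb), rd_pow ha, rd_pow hb]
  exact sub_pow_char_pow (rd V a) (rd V b) k

/-- the multiplication by a generator of `P` is a lift of the Frobenius map -/
theorem frob_lift {C : VariableChange Kb} (hC : GoodC V.valuation C) {π : 𝓞 K}
    (hπ : Ideal.span {π} = P.asIdeal) : ∃ κ e : Kb, V.valuation κ = 1 ∧ V.valuation e ≤ 1 ∧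
      ∀ X : Pt Kb, ¬ KrC V.valuation C X → ¬ KrC V.valuation C (sm Kb π X) ∧
        V.valuation (cx C (sm Kb π X) - (κ * cx C X ^ Ideal.absNorm P.asIdeal + e)) < 1 := by
  have hπ0 : π ≠ 0 := PiD_ne hπ
  obtain ⟨T, hT, hTc⟩ := exists_isRes hπ0
  rw [hπ] at hTc
  obtain ⟨Rb, hRb⟩ := exists_ord hπ0
  obtain ⟨l, hl, h5, hlv⟩ := exists_prime hV 5
  obtain ⟨l', hl', hll, hlv'⟩ := exists_prime hV (l + 1)
  obtain ⟨R0, hR0, hR0l⟩ := exists_pt_prime hl
  obtain ⟨R1, hR1, hR1l⟩ := exists_pt_prime hl'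
  obtain ⟨g1, g2, g3, g4, g5, g6, g7, g8, g9, g10⟩ :=
    PiD_pair hV hC hπ hl hl' (by omega) h5 hlv hlv' hR0 hR0l hR1 hR1l
  have hval := pid_val hV hC hπ hT hTc hRb
  have hkey : ∀ X R : Pt Kb, ¬ KrC V.valuation C X → ¬ KrC V.valuation C R →
      ¬ KrC V.valuation C (X - R) → ¬ KrC V.valuation C (X + R) → 2 • sm Kb π R ≠ 0 →
      V.valuation (cx C (sm Kb π X) - ((algebraMap K Kb (π : K) ^ 2 *
        (∏ a ∈ T, cx C (sm Kb a Rb)))⁻¹ * cx C X ^ Ideal.absNorm P.asIdeal +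
        (cx C (sm Kb π R) - (algebraMap K Kb (π : K) ^ 2 *
        (∏ a ∈ T, cx C (sm Kb a Rb)))⁻¹ * cx C R ^ Ideal.absNorm P.asIdeal))) < 1 := by
    intro X R hX hR h1 h2 h3
    have h4 := pid_one hV hC hπ hT hTc hRb hX hR h1 h2 h3
    have h6 := pid_frob hV (not_krc hX).2 (not_krc hR).2
    generalize (algebraMap K Kb (π : K) ^ 2 * (∏ a ∈ T, cx C (sm Kb a Rb))) = κ0 at hval h4 ⊢
    have hκ : κ0 ≠ 0 := by
      intro h
      rw [h, map_zero] at hval
      exact zero_ne_one hval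
    have h7 := Valuation.map_add_lt _ h4 h6
    have e : cx C (sm Kb π X) - (κ0⁻¹ * cx C X ^ Ideal.absNorm P.asIdeal +
        (cx C (sm Kb π R) - κ0⁻¹ * cx C R ^ Ideal.absNorm P.asIdeal)) =
        κ0⁻¹ * (κ0 * (cx C (sm Kb π X) - cx C (sm Kb π R)) -
          (cx C X - cx C R) ^ Ideal.absNorm P.asIdeal + ((cx C X - cx C R) ^ Ideal.absNorm P.asIdeal -
          (cx C X ^ Ideal.absNorm P.asIdeal - cx C R ^ Ideal.absNorm P.asIdeal))) := by
      field_simp
      ring
    rw [e, map_mul, map_inv₀, hval, inv_one, one_mul]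
    exact h7
  generalize (algebraMap K Kb (π : K) ^ 2 * (∏ a ∈ T, cx C (sm Kb a Rb))) = κ0 at hval hkey
  have hκ1 : V.valuation κ0⁻¹ = 1 := by rw [map_inv₀, hval, inv_one]
  have hpow : ∀ {x : Kb}, V.valuation x ≤ 1 →
      V.valuation (κ0⁻¹ * x ^ Ideal.absNorm P.asIdeal) ≤ 1 := fun hx => by
    rw [map_mul, hκ1, one_mul, map_pow]
    exact pow_le_one' hx _
  have he : V.valuation (cx C (sm Kb π R0) - κ0⁻¹ * cx C R0 ^ Ideal.absNorm P.asIdeal) ≤ 1 :=
    Valuation.map_sub_le _ (not_krc g7).2 (hpow (not_krc g1).2)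
  refine ⟨κ0⁻¹, cx C (sm Kb π R0) - κ0⁻¹ * cx C R0 ^ Ideal.absNorm P.asIdeal, hκ1, he,
    fun X hX => ?_⟩
  have hmain : V.valuation (cx C (sm Kb π X) - (κ0⁻¹ * cx C X ^ Ideal.absNorm P.asIdeal +
      (cx C (sm Kb π R0) - κ0⁻¹ * cx C R0 ^ Ideal.absNorm P.asIdeal))) < 1 := by
    by_cases hcase : ¬ KrC V.valuation C (X - R0) ∧ ¬ KrC V.valuation C (X + R0)
    · exact hkey X R0 hX g1 hcase.1 hcase.2 g5
    · have hor : KrC V.valuation C (X - R0) ∨ KrC V.valuation C (X + R0) := by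
        by_contra hc
        rw [not_or] at hc
        exact hcase hc
      have hm1 : ¬ KrC V.valuation C (X - R1) := by
        intro h
        rcases hor with h3 | h3
        · apply g3
          have h4 := krc_sub hC h h3
          have e : X - R1 - (X - R0) = R0 - R1 := by abel
          rw [e] at h4
          exact h4
        · apply g4
          have h4 := krc_sub hC h3 h
          have e : X + R0 - (X - R1) = R0 + R1 := by abel
          rw [e] at h4
          exact h4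
      have hp1 : ¬ KrC V.valuation C (X + R1) := by
        intro h
        rcases hor with h3 | h3
        · apply g4
          have h4 := krc_sub hC h h3
          have e : X + R1 - (X - R0) = R0 + R1 := by abel
          rw [e] at h4
          exact h4
        · apply g3
          have h4 := krc_sub hC h3 h
          have e : X + R0 - (X + R1) = R0 - R1 := by abel
          rw [e] at h4
          exact h4
      have h8 := hkey X R1 hX g2 hm1 hp1 g6
      have g3' : ¬ KrC V.valuation C (R1 - R0) := by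
        rw [← neg_sub, krc_neg]
        exact g3
      have g4' : ¬ KrC V.valuation C (R1 + R0) := by
        rw [add_comm]
        exact g4
      have h9 := hkey R1 R0 g2 g1 g3' g4' g5
      have h10 := Valuation.map_add_lt _ h8 h9
      have e : cx C (sm Kb π X) - (κ0⁻¹ * cx C X ^ Ideal.absNorm P.asIdeal +
          (cx C (sm Kb π R1) - κ0⁻¹ * cx C R1 ^ Ideal.absNorm P.asIdeal)) +
          (cx C (sm Kb π R1) - (κ0⁻¹ * cx C R1 ^ Ideal.absNorm P.asIdeal +
          (cx C (sm Kb π R0) - κ0⁻¹ * cx C R0 ^ Ideal.absNorm P.asIdeal))) =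
          cx C (sm Kb π X) - (κ0⁻¹ * cx C X ^ Ideal.absNorm P.asIdeal +
          (cx C (sm Kb π R0) - κ0⁻¹ * cx C R0 ^ Ideal.absNorm P.asIdeal)) := by ring
      rw [e] at h10
      exact h10
  refine ⟨fun hk => ?_, hmain⟩
  rcases hk with hk | hk
  · exact hX (pi_kr hV hC hπ hk)
  · have h3 : V.valuation (cx C (sm Kb π X)) ≤ 1 := by
      have e : cx C (sm Kb π X) = (cx C (sm Kb π X) -
          (κ0⁻¹ * cx C X ^ Ideal.absNorm P.asIdeal +
          (cx C (sm Kb π R0) - κ0⁻¹ * cx C R0 ^ Ideal.absNorm P.asIdeal))) +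
          (κ0⁻¹ * cx C X ^ Ideal.absNorm P.asIdeal +
          (cx C (sm Kb π R0) - κ0⁻¹ * cx C R0 ^ Ideal.absNorm P.asIdeal)) := by ring
      rw [e]
      exact Valuation.map_add_le _ hmain.le
        (Valuation.map_add_le _ (hpow (not_krc hX).2) he)
    exact absurd hk (not_lt.2 h3)

end

end Pool.Agent.Lib.MP_1a91b9_nuX.GL
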