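import Pool.Agent.Lib.MP_1a91b9_nuX.GL.LuB
import Pool.Agent.Lib.MP_1a91b9_nuX.GL.AbsV
import Pool.Agent.Lib.MP_1a91b9_nuX.GL.AbsF
import Pool.Agent.Lib.MP_1a91b9_nuX.GL.PiD

/-!
# The Frobenius automorphisms at a place of good reduction

`C₀ : VariableChange K` with `GM.GoodW (P.valuation K) (C₀ • E K)`, `C = C₀.map (algebraMap K Kb)`, `q = Ideal.absNorm P.asIdeal`, `v = V.valuation`.

PROOF.
`goodC_map`: `GM.good_map` (the compatibility is `hV`), `EF Kb = (E K).map (algebraMap K Kb)`, `WeierstrassCurve.map_variableChange`.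
`cx_fix`, `cy_fix`: `σ` fixes the coefficients of `C` (`σ.commutes`), `cx C (ga σ T) = σ (cx C T)`.
`fr_eq` (two Frobenius automorphisms, or two inertia automorphisms, act in the same way): `σ₁, σ₂` with `IsFr V m σᵢ`, `T` with `Ta v T` and `T ≠ 0`: `T ∉ KrC` by the hypothesis `hk`; `ga σᵢ T ∉ KrC` (it is `Ta`, not `0`, `ta_hom`); `cx (σ₁ T) = σ₁ (cx T) ≡ (cx T) ^ m ≡ σ₂ (cx T) = cx (σ₂ T)`, same for `cy` (`cy_le`), so `krc_of`:
`ga σ₁ T - ga σ₂ T ∈ KrC`, it is `Ta` (`ta_sub`), so `0` by `hk`.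
`fr_exists`: `σ` with `IsFr V q σ`, `π` with `span {π} = P.asIdeal` (`exists_gen`), `κ, e` from `frob_lift`. `τ = (sm π).comp (ga σ⁻¹)` is `Af V C τ`: `sm`: clear (`gk_sm`, commutativity); `inj`: `sm π T' = 0` and `Tr T'` with `T' = ga σ⁻¹ T`: `T' ∈ KrC` (`pi_kr`), so `T' = 0` (`tr_kr`), `T = 0`;
`af`: `a = κ`, `b = e`: `cx (τ T) ≡ κ (cx T') ^ q + e` and `(cx T') ^ q ≡ σ (cx T') = cx (ga σ T') = cx T` (`V (cx T') ≤ 1`: `T'` is `Tr`, not `0`). `af_lem`: `sm π (ga σ⁻¹ T) = sm u T`; with `T = ga σ T''`: `sm π T'' = sm u (ga σ T'')`, so `ga σ T'' = sm (u⁻¹ π) T''`. `ψ = u⁻¹ π`.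
`fr_unit'`: `V₀` above `P` (`exists_abv`), `σ₀` (`exists_fr`), `ψ` from `fr_exists`. For `V` above `P` and `σ` with `IsFr V q σ`: `ρ` from `abv_trans` with `V (ρ x) ≤ 1 ↔ V₀ x ≤ 1` (so `< 1` too: `GM.val_ext_lt` or inverses); `σ' = ρ⁻¹ * σ * ρ` satisfies `IsFr V₀ q σ'`; `fr_eq` at `V₀` (`hk`: `tr_kr`): `σ'` and `σ₀` act in the same way
on the `Tr` points, so `ga σ' T' = sm ψ T'`, with `T' = ga ρ⁻¹ T` (`Tr V₀` as `V n = 1 ↔ V₀ n = 1`: both mean `P ∌ n`, `abv_eq`): `ga σ T = ga ρ (ga σ' T') = ga ρ (sm ψ T') = sm ψ T`.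
-/

set_option autoImplicit false

namespace Pool.Agent.Lib.MP_1a91b9_nuX.GL

open NumberField IsDedekindDomain WeierstrassCurve Pool.Agent.Lib.MP_1a91b9_nuT DB

variable [CD]

theorem goodC_map {P : HeightOneSpectrum (𝓞 K)} {V : ValuationSubring Kb} (hV : Abv P V)
    {C₀ : VariableChange K} (h : GM.GoodW (P.valuation K) (C₀ • E K)) :
    GoodC V.valuation (C₀.map (algebraMap K Kb)) := by
  classical
  have h1 := GM.good_map (F' := Kb) (v' := V.valuation) hV h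
  have h2 : (C₀ • E K).map (algebraMap K Kb) = (C₀.map (algebraMap K Kb)) • EF Kb :=
    (WeierstrassCurve.map_variableChange _ _ _).symm
  unfold GoodC
  rw [← h2]
  exact h1

variable [DecidableEq Kb]

theorem cx_fix (C₀ : VariableChange K) (σ : Kb ≃ₐ[K] Kb) (T : Pt Kb) :
    cx (C₀.map (algebraMap K Kb)) (ga σ T) = σ (cx (C₀.map (algebraMap K Kb)) T) := by
  have hr : (C₀.map (algebraMap K Kb)).r = algebraMap K Kb C₀.r := rfl
  have hu : ((C₀.map (algebraMap K Kb)).u : Kb) = algebraMap K Kb (C₀.u : K) := rfl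
  unfold cx
  rw [hr, hu, xc_gk, map_div₀, map_sub, map_pow, σ.commutes, σ.commutes]

theorem cy_fix (C₀ : VariableChange K) (σ : Kb ≃ₐ[K] Kb) (T : Pt Kb) :
    cy (C₀.map (algebraMap K Kb)) (ga σ T) = σ (cy (C₀.map (algebraMap K Kb)) T) := by
  have hr : (C₀.map (algebraMap K Kb)).r = algebraMap K Kb C₀.r := rfl
  have hs : (C₀.map (algebraMap K Kb)).s = algebraMap K Kb C₀.s := rfl
  have ht : (C₀.map (algebraMap K Kb)).t = algebraMap K Kb C₀.t := rfl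
  have hu : ((C₀.map (algebraMap K Kb)).u : Kb) = algebraMap K Kb (C₀.u : K) := rfl
  unfold cy
  rw [hr, hs, ht, hu, xc_gk, yc_gk, map_div₀, map_sub, map_sub, map_mul, map_sub, map_pow,
    σ.commutes, σ.commutes, σ.commutes, σ.commutes]

omit [DecidableEq Kb] in
private theorem fra_diff {V : ValuationSubring Kb} {m : ℕ} {σ₁ σ₂ : Kb ≃ₐ[K] Kb}
    (h1 : IsFr V m σ₁) (h2 : IsFr V m σ₂) {c : Kb} (hc : V.valuation c ≤ 1) :
    V.valuation (σ₁ c - σ₂ c) < 1 := by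
  have e : σ₁ c - σ₂ c = (σ₁ c - c ^ m) - (σ₂ c - c ^ m) := by ring
  rw [e]
  exact (V.valuation.map_sub _ _).trans_lt (max_lt (h1 c hc) (h2 c hc))

private theorem fra_eq {V : ValuationSubring Kb} {C₀ : VariableChange K}
    (hC : GoodC V.valuation (C₀.map (algebraMap K Kb))) {Q : Pt Kb → Prop}
    (hQ : ∀ (σ : Kb ≃ₐ[K] Kb) (X : Pt Kb), Q X → Q (ga σ X))
    (hs : ∀ X Y : Pt Kb, Q X → Q Y → Q (X - Y))
    (hk : ∀ X : Pt Kb, Q X → KrC V.valuation (C₀.map (algebraMap K Kb)) X → X = 0) {m : ℕ}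
    {σ₁ σ₂ : Kb ≃ₐ[K] Kb} (h1 : IsFr V m σ₁) (h2 : IsFr V m σ₂) {T : Pt Kb} (hT : Q T) :
    ga σ₁ T = ga σ₂ T := by
  rcases eq_or_ne T 0 with h0 | h0
  · rw [h0, map_zero, map_zero]
  have hTk : ¬ KrC V.valuation (C₀.map (algebraMap K Kb)) T := fun h => h0 (hk T hT h)
  have hn : ∀ σ : Kb ≃ₐ[K] Kb, ¬ KrC V.valuation (C₀.map (algebraMap K Kb)) (ga σ T) :=
    fun σ h => h0 ((gk_ne σ).1 (hk _ (hQ σ T hT) h))
  have h3 : KrC V.valuation (C₀.map (algebraMap K Kb)) (ga σ₁ T - ga σ₂ T) := by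
    refine krc_of hC (hn σ₁) (hn σ₂) ?_ ?_
    · rw [cx_fix, cx_fix]
      exact fra_diff h1 h2 (not_krc hTk).2
    · rw [cy_fix, cy_fix]
      exact fra_diff h1 h2 (cy_le hC hTk)
  exact sub_eq_zero.1 (hk _ (hs _ _ (hQ σ₁ T hT) (hQ σ₂ T hT)) h3)

section
variable {P : HeightOneSpectrum (𝓞 K)} {V : ValuationSubring Kb} (hV : Abv P V)
  {C₀ : VariableChange K} (h : GM.GoodW (P.valuation K) (C₀ • E K))
include hV h

theorem fr_eq (hk : ∀ X : Pt Kb, Ta V.valuation X →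
      KrC V.valuation (C₀.map (algebraMap K Kb)) X → X = 0) {m : ℕ} {σ₁ σ₂ : Kb ≃ₐ[K] Kb}
    (h1 : IsFr V m σ₁) (h2 : IsFr V m σ₂) {T : Pt Kb} (hT : Ta V.valuation T) :
    ga σ₁ T = ga σ₂ T :=
  fra_eq (Q := fun X => Ta V.valuation X) (goodC_map hV h) (fun σ _ hX => ta_hom hX (ga σ) (fun a X => gk_sm σ a X))
    (fun _ _ hX hY => ta_sub hX hY) hk h1 h2 hT

theorem fr_eq' {m : ℕ} {σ₁ σ₂ : Kb ≃ₐ[K] Kb} (h1 : IsFr V m σ₁) (h2 : IsFr V m σ₂) {T : Pt Kb}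
    (hT : Tr V.valuation T) : ga σ₁ T = ga σ₂ T :=
  fra_eq (Q := fun X => Tr V.valuation X) (goodC_map hV h) (fun σ _ hX => tr_hom hX (ga σ)) (fun _ _ hX hY => tr_sub hX hY)
    (fun _ hX hk => tr_kr (goodC_map hV h) hX hk) h1 h2 hT

theorem fr_exists (hE : EllK) {σ : Kb ≃ₐ[K] Kb} (hσ : IsFr V (Ideal.absNorm P.asIdeal) σ) :
    ∃ ψ : 𝓞 K, Ideal.span {ψ} = P.asIdeal ∧ ∀ T : Pt Kb, Tr V.valuation T →
      ga σ T = sm Kb ψ T := by
  have hC := goodC_map hV h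
  obtain ⟨π, _, hπ⟩ := exists_gen P
  obtain ⟨κ, e, hκ, he, hfr⟩ := frob_lift hV hC hπ
  have hinv : ∀ X : Pt Kb, ga σ (ga σ⁻¹ X) = X := fun X => by
    rw [← gk_mul, mul_inv_cancel, gk_one]
  have hinv' : ∀ X : Pt Kb, ga σ⁻¹ (ga σ X) = X := fun X => by
    rw [← gk_mul, inv_mul_cancel, gk_one]
  have hAf : Af V (C₀.map (algebraMap K Kb)) ((sm Kb π).comp (ga σ⁻¹)) := by
    refine ⟨fun a T => ?_, fun T hT h0 => ?_, κ, e, hκ, he, fun T hT h0 => ?_⟩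
    · show sm Kb π (ga σ⁻¹ (sm Kb a T)) = sm Kb a (sm Kb π (ga σ⁻¹ T))
      rw [gk_sm, ← sm_mul, ← sm_mul, mul_comm]
    · have h1 : sm Kb π (ga σ⁻¹ T) = 0 := h0
      have h2 := tr_kr hC (tr_hom hT (ga σ⁻¹)) (pi_kr hV hC hπ h1)
      exact (gk_ne σ⁻¹).1 h2
    · have h1 : ga σ⁻¹ T ≠ 0 := fun h1 => h0 ((gk_ne σ⁻¹).1 h1)
      have h2 := tr_not_kr hC (tr_hom hT (ga σ⁻¹)) h1
      obtain ⟨_, h3⟩ := hfr _ h2
      have h4 := hσ _ (not_krc h2).2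
      rw [← cx_fix, hinv] at h4
      obtain ⟨c, hc⟩ : ∃ c, c = cx (C₀.map (algebraMap K Kb)) (ga σ⁻¹ T) := ⟨_, rfl⟩
      rw [← hc] at h3 h4
      show V.valuation (cx (C₀.map (algebraMap K Kb)) (sm Kb π (ga σ⁻¹ T)) -
        (κ * cx (C₀.map (algebraMap K Kb)) T + e)) < 1
      have h5 : cx (C₀.map (algebraMap K Kb)) (sm Kb π (ga σ⁻¹ T)) -
          (κ * cx (C₀.map (algebraMap K Kb)) T + e) =
          (cx (C₀.map (algebraMap K Kb)) (sm Kb π (ga σ⁻¹ T)) -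
            (κ * c ^ Ideal.absNorm P.asIdeal + e)) -
          κ * (cx (C₀.map (algebraMap K Kb)) T - c ^ Ideal.absNorm P.asIdeal) := by ring
      rw [h5]
      refine (V.valuation.map_sub _ _).trans_lt (max_lt h3 ?_)
      rw [map_mul, hκ, one_mul]
      exact h4
  obtain ⟨u, hu⟩ := af_lem hE hV hC hAf
  refine ⟨((u⁻¹ : (𝓞 K)ˣ) : 𝓞 K) * π, ?_, fun T hT => ?_⟩
  · rw [Ideal.span_singleton_mul_left_unit (Units.isUnit _), hπ]
  · have h1 : sm Kb π (ga σ⁻¹ (ga σ T)) = sm Kb (u : 𝓞 K) (ga σ T) := hu _ (tr_hom hT (ga σ))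
    rw [hinv'] at h1
    rw [sm_mul, h1, ← sm_mul, ← Units.val_mul, inv_mul_cancel, Units.val_one, sm_one]

end

/-- the Frobenius automorphisms at a place of good reduction -/
theorem fr_unit' (hE : EllK) (P : HeightOneSpectrum (𝓞 K))
    (hg : ∃ C : VariableChange K, GM.GoodW (P.valuation K) (C • E K)) :
    ∃ ψ : 𝓞 K, Ideal.span {ψ} = P.asIdeal ∧ ∀ (V : ValuationSubring Kb), Abv P V →
      ∀ σ : Kb ≃ₐ[K] Kb, IsFr V (Ideal.absNorm P.asIdeal) σ →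
      ∀ T : Pt Kb, Tr V.valuation T → ga σ T = sm Kb ψ T := by
  obtain ⟨C₀, h⟩ := hg
  obtain ⟨V₀, hV₀⟩ := exists_abv (Ω := Kb) P
  obtain ⟨σ₀, hσ₀⟩ := exists_fr hV₀
  obtain ⟨ψ, hψ, hψ'⟩ := fr_exists hV₀ h hE hσ₀
  refine ⟨ψ, hψ, fun V hV σ hσ T hT => ?_⟩
  obtain ⟨ρ, hρ⟩ := abv_trans hV₀ hV
  have hlt : ∀ x : Kb, V.valuation (ρ x) < 1 → V₀.valuation x < 1 := by
    intro x hx
    rcases eq_or_ne x 0 with h0 | h0
    · rw [h0, map_zero]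
      exact zero_lt_one
    by_contra hc
    have h1 : V₀.valuation x⁻¹ ≤ 1 := by
      rw [map_inv₀]
      exact inv_le_one_of_one_le₀ (not_lt.1 hc)
    have h2 := (hρ x⁻¹).2 h1
    rw [map_inv₀, map_inv₀] at h2
    have h3 : V.valuation (ρ x) ≠ 0 := by
      rw [Valuation.ne_zero_iff]
      intro h4
      exact h0 ((map_eq_zero_iff ρ ρ.injective).1 h4)
    have h5 : (V.valuation (ρ x)) * (V.valuation (ρ x))⁻¹ = 1 := mul_inv_cancel₀ h3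
    have h6 : (V.valuation (ρ x)) * (V.valuation (ρ x))⁻¹ < 1 :=
      mul_lt_one_of_lt_of_le hx h2
    rw [h5] at h6
    exact lt_irrefl _ h6
  have hσ' : IsFr V₀ (Ideal.absNorm P.asIdeal) (ρ⁻¹ * σ * ρ) := by
    intro x hx
    apply hlt
    have h1 : ρ ((ρ⁻¹ * σ * ρ) x) = σ (ρ x) := by
      show ρ (ρ.symm (σ (ρ x))) = σ (ρ x)
      exact ρ.apply_symm_apply _
    rw [map_sub, map_pow, h1]
    exact hσ _ ((hρ x).2 hx)
  have hT' : Tr V₀.valuation (ga ρ⁻¹ T) := by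
    obtain ⟨n, hn, h0⟩ := hT
    refine ⟨n, ?_, ?_⟩
    · have h1 : ((n : K) : K) = (n : K) := rfl
      have h2 : algebraMap K Kb (n : K) = (n : Kb) := map_natCast _ n
      rw [← h2] at hn ⊢
      exact (abv_eq hV₀ _).2 ((abv_eq hV _).1 hn)
    · rw [← map_nsmul, h0, map_zero]
  have hinv : ∀ X : Pt Kb, ga ρ (ga ρ⁻¹ X) = X := fun X => by
    rw [← gk_mul, mul_inv_cancel, gk_one]
  have h1 : ga (ρ⁻¹ * σ * ρ) (ga ρ⁻¹ T) = sm Kb ψ (ga ρ⁻¹ T) := by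
    rw [fr_eq' hV₀ h hσ' hσ₀ hT']
    exact hψ' _ hT'
  rw [gk_mul, gk_mul, hinv] at h1
  have h2 := congrArg (fun X => ga ρ X) h1
  rw [hinv, gk_sm, hinv] at h2
  exact h2

end Pool.Agent.Lib.MP_1a91b9_nuX.GL
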