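import Pool.Agent.Lib.MP_1a91b9_nuX.GL.Crit
import Pool.Agent.Lib.MP_1a91b9_nuX.GL.PiC
import Pool.Agent.Lib.MP_1a91b9_nuX.HD

/-!
# The Galois action on the torsion at a place prime to the conductor

`q = Ideal.absNorm P.asIdeal`, `ψ = ps P.asIdeal`.

PROOF.
`in_triv`: `φ` with `IsFr V q φ` (`exists_fr`); `φ * σ` satisfies `IsFr V q` too: `φ (σ x) ≡ (σ x) ^ q ≡ x ^ q` (`fr_le`; `V (a ^ q - b ^ q) < 1` if `V (a - b) < 1`, `V a, V b ≤ 1`: `sub_dvd_pow_sub_pow` or `Commute.mul_geom_sum₂`), so by `HC.hd.frob` (`n • T = 0`, `V n = 1`) `ga (φ * σ) T = sm ψ T = ga φ T`, `gk_mul`, `gk_inj`: `ga σ T = T`.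
`good_of_f'`: `nos_conv` with `F = K` (`Algebra K Kb`, `IsScalarTower K K Kb`) and `in_triv`.
`fr_pow`: `φ ^ f` satisfies `IsFr V (q ^ f)` (induction) and acts as `sm (ψ ^ f)` on `Tr` (induction with `tr_hom` / `gk_sm`); `τ = (φ ^ f)⁻¹ * σ` is in the inertia: `σ x ≡ x ^ (q ^ f) ≡ φ ^ f x`, apply `(φ ^ f)⁻¹`, which preserves the values (`fr_val`); `in_triv`: `ga τ T = T`, so `ga σ T = ga (φ ^ f) T = sm (ψ ^ f) T`.
`fr_ta` (the same for the points of `Ta`): `C₀ : VariableChange K` good (`good_of_f'`), `C = C₀.map (algebraMap K Kb)`, `goodC_map`; `hk : Ta X → KrC X → X = 0` is `ta_kr`. Let `Ψ = ψ ^ f`, `m = q ^ f`.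
Claim: for `X ∉ KrC`: `V (cx (sm Ψ X) - cx X ^ m) < 1` and `sm Ψ X ∉ KrC`. `frob_lift` for `π = ψ` (`span {ψ} = P`, `ps_span'`): `cx (sm ψ X) ≡ κ cx X ^ q + e`. For `X` in `Tr`, not `0`, `sm ψ X = ga φ X` (`HC.hd.frob`), `cx (ga φ X) = φ (cx X) ≡ cx X ^ q` (`cx_fix`), so `(κ - 1) cx X ^ q + e ≡ 0`; two points `X`, `R` of distinct prime orders
`≥ 5` have `V (cx X - cx R) = 1` (`krc_unit`), so `V (cx X ^ q - cx R ^ q) = 1` (`pid_frob`), so `V (κ - 1) < 1` and `V e < 1`. So `cx (sm ψ X) ≡ cx X ^ q` for all `X ∉ KrC`; induction on `f` gives the claim.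
For `X` in `Ta`, `X ≠ 0`: `cx (ga σ X) = σ (cx X) ≡ cx X ^ m ≡ cx (sm Ψ X)`, all the points are not in `KrC`; `krc_of_x`: `ga σ X ∓ sm Ψ X ∈ KrC`, it is `Ta`, so it is `0`: `ga σ X = ± sm Ψ X`. The sign: suppose `ga σ X = - sm Ψ X ≠ sm Ψ X`. Let `T ≠ 0` be `Tr` of odd prime order `l` (`exists_prime 5`): `ga σ T = sm Ψ T` (`fr_pow`), `T + X` is `Ta`:
`ga σ (T + X) = sm Ψ T - sm Ψ X` is `± (sm Ψ T + sm Ψ X)`: `+`: `2 sm Ψ X = 0`, so `sm Ψ X = - sm Ψ X`, excluded; `-`: `2 • sm Ψ T = 0`, `l • sm Ψ T = 0`, so `sm Ψ T = 0`, `ga σ T = 0`, `T = 0`, contradiction.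
-/

set_option autoImplicit false

namespace Pool.Agent.Lib.MP_1a91b9_nuX.GL

open NumberField IsDedekindDomain WeierstrassCurve Pool.Agent.Lib.MP_1a91b9_nuT DB

private theorem frb_pow_sub {F Γ : Type*} [Field F] [LinearOrderedCommGroupWithZero Γ]
    (v : Valuation F Γ) {a b : F} (ha : v a ≤ 1) (hb : v b ≤ 1) (h : v (a - b) < 1) (n : ℕ) :
    v (a ^ n - b ^ n) < 1 := by
  induction n with
  | zero =>
    rw [pow_zero, pow_zero, sub_self, map_zero]
    exact zero_lt_one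
  | succ n ih =>
    have e : a ^ (n + 1) - b ^ (n + 1) = a ^ n * (a - b) + (a ^ n - b ^ n) * b := by ring
    rw [e]
    refine (v.map_add _ _).trans_lt (max_lt ?_ ?_)
    · rw [map_mul, map_pow, mul_comm]
      exact mul_lt_one_of_lt_of_le h (pow_le_one' ha n)
    · rw [map_mul]
      exact mul_lt_one_of_lt_of_le ih hb

private theorem frb_cop {G : Type*} [AddCommGroup G] {m n : ℕ} (h : Nat.Coprime m n) {x : G}
    (hm : m • x = 0) (hn : n • x = 0) : x = 0 := by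
  have h1 := addOrderOf_dvd_of_nsmul_eq_zero hm
  have h2 := addOrderOf_dvd_of_nsmul_eq_zero hn
  have h3 := Nat.dvd_gcd h1 h2
  rw [Nat.Coprime.gcd_eq_one h, Nat.dvd_one, AddMonoid.addOrderOf_eq_one_iff] at h3
  exact h3

variable [CD] [HC] [DecidableEq Kb]

omit [HC] [DecidableEq Kb] in
private theorem frb_comp {V : ValuationSubring Kb} {m n : ℕ} {φ σ : Kb ≃ₐ[K] Kb}
    (hφ : IsFr V m φ) (hσ : IsFr V n σ) : IsFr V (n * m) (φ * σ) := by
  intro x hx
  have hx' : V.valuation (x ^ n) ≤ 1 := by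
    rw [map_pow]
    exact pow_le_one' hx n
  have e : (φ * σ) x - x ^ (n * m) = (φ (σ x) - (σ x) ^ m) + ((σ x) ^ m - (x ^ n) ^ m) := by
    rw [pow_mul]
    show φ (σ x) - _ = _
    ring
  rw [e]
  exact (V.valuation.map_add _ _).trans_lt (max_lt (hφ _ (fr_le hσ hx))
    (frb_pow_sub _ (fr_le hσ hx) hx' (hσ x hx) m))

omit [HC] [DecidableEq Kb] in
private theorem frb_pow {V : ValuationSubring Kb} {q : ℕ} {φ : Kb ≃ₐ[K] Kb}
    (hφ : IsFr V q φ) (f : ℕ) : IsFr V (q ^ f) (φ ^ f) := by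
  induction f with
  | zero =>
    intro x hx
    have e : (φ ^ 0) x - x ^ q ^ 0 = 0 := by
      rw [pow_zero, pow_zero, pow_one]
      show x - x = 0
      exact sub_self x
    rw [e, map_zero]
    exact zero_lt_one
  | succ f ih =>
    rw [pow_succ, pow_succ, mul_comm (q ^ f) q]
    exact frb_comp ih hφ

section
variable {P : HeightOneSpectrum (𝓞 K)} (hf : HC.f ∉ P.asIdeal)
include hf

section
variable {V : ValuationSubring Kb} (hV : Abv P V)
include hV

private theorem frb_frob {φ : Kb ≃ₐ[K] Kb} (hφ : IsFr V (Ideal.absNorm P.asIdeal) φ) {T : Pt Kb}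
    (hT : Tr V.valuation T) : ga φ T = sm Kb (ps P.asIdeal) T := by
  obtain ⟨n, hn, h0⟩ := hT
  exact HC.hd.frob P hf V hV φ hφ n T hn h0

theorem in_triv {σ : Kb ≃ₐ[K] Kb} (hσ : IsFr V 1 σ) {T : Pt Kb} (hT : Tr V.valuation T) :
    ga σ T = T := by
  obtain ⟨φ, hφ⟩ := exists_fr hV
  have h1 : IsFr V (Ideal.absNorm P.asIdeal) (φ * σ) := by
    have h2 := frb_comp hφ hσ
    rwa [one_mul] at h2
  have h3 := frb_frob hf hV h1 hT
  have h4 := frb_frob hf hV hφ hT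
  rw [gk_mul, ← h4] at h3
  exact gk_inj φ h3

theorem fr_pow (f : ℕ) {σ : Kb ≃ₐ[K] Kb} (hσ : IsFr V (Ideal.absNorm P.asIdeal ^ f) σ) {T : Pt Kb}
    (hT : Tr V.valuation T) : ga σ T = sm Kb (ps P.asIdeal ^ f) T := by
  obtain ⟨φ, hφ⟩ := exists_fr hV
  have hB : ∀ g : ℕ, ∀ X : Pt Kb, Tr V.valuation X → ga (φ ^ g) X = sm Kb (ps P.asIdeal ^ g) X := by
    intro g
    induction g with
    | zero =>
      intro X _
      rw [pow_zero, pow_zero, gk_one, sm_one]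
    | succ g ih =>
      intro X hX
      rw [pow_succ, pow_succ, gk_mul, frb_frob hf hV hφ hX, ih _ (tr_sm hX _), ← sm_mul]
  have hφf := frb_pow hφ f
  have hτ : IsFr V 1 ((φ ^ f)⁻¹ * σ) := by
    intro x hx
    have e : (φ ^ f) (((φ ^ f)⁻¹ * σ) x - x ^ 1) = (σ x - x ^ Ideal.absNorm P.asIdeal ^ f) -
        ((φ ^ f) x - x ^ Ideal.absNorm P.asIdeal ^ f) := by
      have e1 : (φ ^ f) (((φ ^ f)⁻¹ * σ) x) = σ x := by
        show ((φ ^ f) * ((φ ^ f)⁻¹ * σ)) x = σ x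
        rw [mul_inv_cancel_left]
      rw [map_sub, e1, pow_one]
      ring
    rw [← fr_val hV hφf, e]
    exact (V.valuation.map_sub _ _).trans_lt (max_lt (hσ x hx) (hφf x hx))
  have h1 := in_triv hf hV hτ hT
  have h2 := congrArg (fun X => ga (φ ^ f) X) h1
  have h3 : ga (φ ^ f) (ga ((φ ^ f)⁻¹ * σ) T) = ga σ T := by
    rw [← gk_mul, mul_inv_cancel_left]
  rw [← h3]
  exact h2.trans (hB f T hT)

end

omit [DecidableEq Kb] in
theorem good_of_f' : ∃ C : VariableChange K, GM.GoodW (P.valuation K) (C • E K) := by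
  classical
  obtain ⟨V, hV⟩ := exists_abv (Ω := Kb) P
  exact nos_conv (F := K) hV fun σ hσ T hT => in_triv hf hV hσ hT

variable {V : ValuationSubring Kb} (hV : Abv P V)
include hV

private theorem frb_lift {C₀ : VariableChange K}
    (h : GM.GoodW (P.valuation K) (C₀ • E K)) {X : Pt Kb}
    (hX : ¬ KrC V.valuation (C₀.map (algebraMap K Kb)) X) :
    ¬ KrC V.valuation (C₀.map (algebraMap K Kb)) (sm Kb (ps P.asIdeal) X) ∧
      V.valuation (cx (C₀.map (algebraMap K Kb)) (sm Kb (ps P.asIdeal) X) -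
        cx (C₀.map (algebraMap K Kb)) X ^ Ideal.absNorm P.asIdeal) < 1 := by
  have hC := goodC_map hV h
  obtain ⟨κ, e, hκ, he, hfr⟩ := frob_lift hV hC (ps_span' P hf)
  obtain ⟨φ, hφ⟩ := exists_fr hV
  have hpow : ∀ Y : Pt Kb, ¬ KrC V.valuation (C₀.map (algebraMap K Kb)) Y →
      V.valuation (cx (C₀.map (algebraMap K Kb)) Y ^ Ideal.absNorm P.asIdeal) ≤ 1 := by
    intro Y hY
    rw [map_pow]
    exact pow_le_one' (not_krc hY).2 _
  have hA : ∀ Y : Pt Kb, Tr V.valuation Y → Y ≠ 0 →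
      V.valuation ((κ - 1) * cx (C₀.map (algebraMap K Kb)) Y ^ Ideal.absNorm P.asIdeal + e) < 1 := by
    intro Y hY hY0
    have hk := tr_not_kr hC hY hY0
    have h1 := (hfr Y hk).2
    have h2 := hφ _ (not_krc hk).2
    rw [← cx_fix, frb_frob hf hV hφ hY] at h2
    obtain ⟨c, hc⟩ : ∃ c, c = cx (C₀.map (algebraMap K Kb)) Y ^ Ideal.absNorm P.asIdeal := ⟨_, rfl⟩
    rw [← hc] at h1 h2 ⊢
    have e1 : (κ - 1) * c + e = (cx (C₀.map (algebraMap K Kb)) (sm Kb (ps P.asIdeal) Y) - c) -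
        (cx (C₀.map (algebraMap K Kb)) (sm Kb (ps P.asIdeal) Y) - (κ * c + e)) := by ring
    rw [e1]
    exact (V.valuation.map_sub _ _).trans_lt (max_lt h2 h1)
  obtain ⟨l, hl, h5, hlv⟩ := exists_prime hV 5
  obtain ⟨l', hl', hll, hlv'⟩ := exists_prime hV (l + 1)
  obtain ⟨A, hA0, hAl⟩ := exists_pt_prime hl
  obtain ⟨B, hB0, hBl⟩ := exists_pt_prime hl'
  have hcop : Nat.Coprime l l' := (Nat.coprime_primes hl hl').2 (by omega)
  have hTA : Tr V.valuation A := ⟨l, hlv, hAl⟩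
  have hTB : Tr V.valuation B := ⟨l', hlv', hBl⟩
  have hm : A - B ≠ 0 := by
    intro h0
    rw [sub_eq_zero] at h0
    rw [← h0] at hBl
    exact hA0 (frb_cop hcop hAl hBl)
  have hp : A + B ≠ 0 := by
    intro h0
    have h1 : A = -B := eq_neg_of_add_eq_zero_left h0
    have h2 : l' • A = 0 := by rw [h1, smul_neg, hBl, neg_zero]
    exact hA0 (frb_cop hcop hAl h2)
  have hkA := tr_not_kr hC hTA hA0
  have hkB := tr_not_kr hC hTB hB0
  have hAB : V.valuation (cx (C₀.map (algebraMap K Kb)) A - cx (C₀.map (algebraMap K Kb)) B) = 1 := by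
    rw [krc_unit hC hkA hB0 (tr_not_kr hC (tr_sub hTA hTB) hm) (tr_not_kr hC (tr_add hTA hTB) hp),
      max_eq_left (not_krc hkB).2]
  have hAq : V.valuation (cx (C₀.map (algebraMap K Kb)) A ^ Ideal.absNorm P.asIdeal -
      cx (C₀.map (algebraMap K Kb)) B ^ Ideal.absNorm P.asIdeal) = 1 := by
    have h1 := pid_frob hV (not_krc hkA).2 (not_krc hkB).2
    have h2 : V.valuation ((cx (C₀.map (algebraMap K Kb)) A - cx (C₀.map (algebraMap K Kb)) B) ^
        Ideal.absNorm P.asIdeal) = 1 := by rw [map_pow, hAB, one_pow]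
    rw [Valuation.map_sub_swap] at h1
    rw [← h2] at h1
    rw [Valuation.map_eq_of_sub_lt _ h1, h2]
  have hκ1 : V.valuation (κ - 1) < 1 := by
    have h1 := hA A hTA hA0
    have h2 := hA B hTB hB0
    have h3 : V.valuation ((κ - 1) * (cx (C₀.map (algebraMap K Kb)) A ^ Ideal.absNorm P.asIdeal -
        cx (C₀.map (algebraMap K Kb)) B ^ Ideal.absNorm P.asIdeal)) < 1 := by
      have e1 : (κ - 1) * (cx (C₀.map (algebraMap K Kb)) A ^ Ideal.absNorm P.asIdeal -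
          cx (C₀.map (algebraMap K Kb)) B ^ Ideal.absNorm P.asIdeal) =
          ((κ - 1) * cx (C₀.map (algebraMap K Kb)) A ^ Ideal.absNorm P.asIdeal + e) -
          ((κ - 1) * cx (C₀.map (algebraMap K Kb)) B ^ Ideal.absNorm P.asIdeal + e) := by ring
      rw [e1]
      exact (V.valuation.map_sub _ _).trans_lt (max_lt h1 h2)
    rw [map_mul, hAq, mul_one] at h3
    exact h3
  have he1 : V.valuation e < 1 := by
    have h1 := hA A hTA hA0
    have e1 : e = ((κ - 1) * cx (C₀.map (algebraMap K Kb)) A ^ Ideal.absNorm P.asIdeal + e) -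
        (κ - 1) * cx (C₀.map (algebraMap K Kb)) A ^ Ideal.absNorm P.asIdeal := by ring
    rw [e1]
    refine (V.valuation.map_sub _ _).trans_lt (max_lt h1 ?_)
    rw [map_mul]
    exact mul_lt_one_of_lt_of_le hκ1 (hpow A hkA)
  refine ⟨(hfr X hX).1, ?_⟩
  have h1 := (hfr X hX).2
  have h2 := hpow X hX
  obtain ⟨c, hc⟩ : ∃ c, c = cx (C₀.map (algebraMap K Kb)) X ^ Ideal.absNorm P.asIdeal := ⟨_, rfl⟩
  rw [← hc] at h1 h2 ⊢
  have e1 : cx (C₀.map (algebraMap K Kb)) (sm Kb (ps P.asIdeal) X) - c =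
      (cx (C₀.map (algebraMap K Kb)) (sm Kb (ps P.asIdeal) X) - (κ * c + e)) +
        ((κ - 1) * c + e) := by ring
  rw [e1]
  refine (V.valuation.map_add _ _).trans_lt (max_lt h1 ?_)
  refine (V.valuation.map_add _ _).trans_lt (max_lt ?_ he1)
  rw [map_mul]
  exact mul_lt_one_of_lt_of_le hκ1 h2

private theorem frb_lift_pow {C₀ : VariableChange K}
    (h : GM.GoodW (P.valuation K) (C₀ • E K)) (f : ℕ) : ∀ {X : Pt Kb},
    ¬ KrC V.valuation (C₀.map (algebraMap K Kb)) X →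
    ¬ KrC V.valuation (C₀.map (algebraMap K Kb)) (sm Kb (ps P.asIdeal ^ f) X) ∧
      V.valuation (cx (C₀.map (algebraMap K Kb)) (sm Kb (ps P.asIdeal ^ f) X) -
        cx (C₀.map (algebraMap K Kb)) X ^ Ideal.absNorm P.asIdeal ^ f) < 1 := by
  induction f with
  | zero =>
    intro X hX
    rw [pow_zero, pow_zero, sm_one, pow_one, sub_self, map_zero]
    exact ⟨hX, zero_lt_one⟩
  | succ f ih =>
    intro X hX
    obtain ⟨h1, h2⟩ := frb_lift hf hV h hX
    obtain ⟨h3, h4⟩ := ih h1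
    rw [pow_succ, sm_mul]
    refine ⟨h3, ?_⟩
    have e1 : cx (C₀.map (algebraMap K Kb)) X ^ Ideal.absNorm P.asIdeal ^ (f + 1) =
        (cx (C₀.map (algebraMap K Kb)) X ^ Ideal.absNorm P.asIdeal) ^
          Ideal.absNorm P.asIdeal ^ f := by
      rw [← pow_mul, pow_succ, mul_comm (Ideal.absNorm P.asIdeal ^ f)]
    have h5 : V.valuation (cx (C₀.map (algebraMap K Kb)) X ^ Ideal.absNorm P.asIdeal) ≤ 1 := by
      rw [map_pow]
      exact pow_le_one' (not_krc hX).2 _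
    have h6 := frb_pow_sub V.valuation (not_krc h1).2 h5 h2 (Ideal.absNorm P.asIdeal ^ f)
    rw [e1]
    have e2 : ∀ a b c : Kb, a - c = (a - b) + (b - c) := fun a b c => by ring
    rw [e2 _ (cx (C₀.map (algebraMap K Kb)) (sm Kb (ps P.asIdeal) X) ^
      Ideal.absNorm P.asIdeal ^ f) _]
    exact (V.valuation.map_add _ _).trans_lt (max_lt h4 h6)

theorem fr_ta (f : ℕ) {σ : Kb ≃ₐ[K] Kb} (hσ : IsFr V (Ideal.absNorm P.asIdeal ^ f) σ) {T : Pt Kb}
    (hT : Ta V.valuation T) : ga σ T = sm Kb (ps P.asIdeal ^ f) T := by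
  obtain ⟨C₀, h⟩ := good_of_f' hf
  have hC := goodC_map hV h
  have hpm : ∀ X : Pt Kb, Ta V.valuation X →
      ga σ X = sm Kb (ps P.asIdeal ^ f) X ∨ ga σ X = -sm Kb (ps P.asIdeal ^ f) X := by
    intro X hX
    rcases eq_or_ne X 0 with h0 | h0
    · left
      rw [h0, map_zero, map_zero]
    have hk : ¬ KrC V.valuation (C₀.map (algebraMap K Kb)) X :=
      fun h1 => h0 (ta_kr hV hC hX h1)
    have hXσ : Ta V.valuation (ga σ X) := ta_hom hX (ga σ) (fun a X => gk_sm σ a X)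
    have hkσ : ¬ KrC V.valuation (C₀.map (algebraMap K Kb)) (ga σ X) :=
      fun h1 => h0 ((gk_ne σ).1 (ta_kr hV hC hXσ h1))
    obtain ⟨h1, h2⟩ := frb_lift_pow hf hV h f hk
    have h3 : V.valuation (cx (C₀.map (algebraMap K Kb)) (ga σ X) -
        cx (C₀.map (algebraMap K Kb)) (sm Kb (ps P.asIdeal ^ f) X)) < 1 := by
      have h4 := hσ _ (not_krc hk).2
      rw [← cx_fix] at h4
      have e2 : ∀ a b c : Kb, a - b = (a - c) - (b - c) := fun a b c => by ring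
      rw [e2 _ _ (cx (C₀.map (algebraMap K Kb)) X ^ Ideal.absNorm P.asIdeal ^ f)]
      exact (V.valuation.map_sub _ _).trans_lt (max_lt h4 h2)
    rcases krc_of_x hC hkσ h1 h3 with h4 | h4
    · left
      exact sub_eq_zero.1 (ta_kr hV hC (ta_sub hXσ (ta_sm hX _)) h4)
    · right
      exact eq_neg_of_add_eq_zero_left (ta_kr hV hC (ta_add hXσ (ta_sm hX _)) h4)
  rcases hpm T hT with h1 | h1
  · exact h1
  obtain ⟨l, hl, h5, hlv⟩ := exists_prime hV 5
  obtain ⟨A, hA0, hAl⟩ := exists_pt_prime hl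
  have hTA : Tr V.valuation A := ⟨l, hlv, hAl⟩
  have h2 := fr_pow hf hV f hσ hTA
  rcases hpm (A + T) (ta_add (tr_ta hTA) hT) with h3 | h3
  · rw [map_add, map_add, h2] at h3
    exact add_left_cancel h3
  · exfalso
    rw [map_add, map_add, h2, h1, neg_add] at h3
    have h4 := add_right_cancel h3
    have h6 : 2 • sm Kb (ps P.asIdeal ^ f) A = 0 := by
      rw [two_nsmul]
      nth_rewrite 1 [h4]
      exact neg_add_cancel _
    have h7 : l • sm Kb (ps P.asIdeal ^ f) A = 0 := by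
      rw [← map_nsmul, hAl, map_zero]
    have h8 := frb_cop ((Nat.coprime_primes Nat.prime_two hl).2 (by omega)) h6 h7
    rw [h8] at h2
    exact hA0 ((gk_ne σ).1 h2)

end

end Pool.Agent.Lib.MP_1a91b9_nuX.GL
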