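import Pool.Agent.Lib.MP_1a91b9_nuX.GL.ConjA
import Pool.Agent.Lib.MP_1a91b9_nuX.GL.FrB
import Pool.Agent.Lib.MP_1a91b9_nuX.GL.FrA
import Pool.Agent.Lib.MP_1a91b9_nuX.UF.Ell

/-!
# The conjugate of the Hecke character; the ramified places

PROOF.
`conj_norm`: `Ideal.absNorm (P.asIdeal.map cj) = Ideal.absNorm P.asIdeal` (`P.asIdeal = span {π}` (`exists_gen`), `Ideal.map_span`, `absNorm_cj`).
`conj_good`: let `τ` from `exists_semi'`, `V` above `P` (`exists_abv`), `V' = Vt τ V` above `P'` (`abv_vt`). If `f ∉ P` and `f ∈ P'`: every `σ` in the inertia at `V'` acts trivially on `Tr V'`: `T = rp τ T'` (`rp_surj`), `σ'` from `fr_vt` (`m = 1`) acts trivially on `T'` (`in_triv`, `tr_vt`), `ga σ T = rp τ (ga σ' T') = T`; so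
`nos_conv` (for `F = K`) gives a good model at `P'`, against `HC.hd.bad P'`.
`ps_conj_prime`: `f ∉ P`, so `f ∉ P'` (`conj_good`): `φ` with `IsFr V' (N P') φ` (`exists_fr`), `φ'` from `fr_vt` (`N P' = N P`): for `T'` in `Tr V`: `rp τ (ga φ' T') = ga φ (rp τ T')`, the left hand side is `rp τ (sm (ps P) T') = sm (cj (ps P)) (rp τ T')` (`HC.hd.frob`, `semi_sm'`), the right hand side is `sm (ps P') (rp τ T')`
(`HC.hd.frob`). So `cj (ps P)` and `ps P'` act in the same way on `Tr V'` (`rp_surj`, `tr_vt`), `eq_of_tr`.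
`ps_conj'`: `I = ⊥`: `ps_bot`, `map_bot`, `cj 0 = 0`. Otherwise induction on the factorisation of `I` (`UniqueFactorizationMonoid.induction_on_prime`): `I` a unit, `I = 1`: `HC.hd.one`, `Ideal.map_top`; `I = P J` with `P` prime: `Ideal.map_mul`, `HC.hd.mul`; for `P` prime with `f ∈ P`: both sides are `0`: `f ∈ P'` (otherwise by `conj_good` applied to `P'`, whose conjugate is `P`
(`cj_cj`), `f ∉ P`), `HC.hd.zero` (not coprime to `span {f}`).
`ram_bad'`: suppose a good model exists; `fr_unit' hE P` gives `ψ`, `span {ψ} = P.asIdeal`. `τ`, `V`, `V' = Vt τ V`, which is above `P` too (`P.asIdeal.map cj = P.asIdeal`, `abv_vt`). `φ` with `IsFr V' (N P) φ`, `φ'` from `fr_vt` with `IsFr V (N P) φ'`. For `T'` in `Tr V`: `sm (cj ψ) (rp τ T') = rp τ (sm ψ T') = rp τ (ga φ' T') = ga φ (rp τ T') = sm ψ (rp τ T')`, so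
`cj ψ = ψ` (`eq_of_tr` for `V'`). Then `ψ` is an integer `n` (`exists_coords`, `cj_coords'`: `cj (m + n ta) = m + n tr - n ta`, so `2 n ta = n tr`, `n = 0`), `p = N P = N ψ = n²`, impossible.
`rt_prime`: `s = UF.rt = 2 ta - tr ∈ P.asIdeal`: then `P.asIdeal.map cj = P.asIdeal` (`UF.rt_dvd_sub_cj`: `a - cj a ∈ P`) and `Ideal.absNorm P.asIdeal` is prime: `p` the prime number in `P` (`𝓞 K ⧸ P` is a finite field of characteristic `p`): every `a ∈ 𝓞 K` is congruent to an integer modulo `P`: `a = m + n ta`, so it is enough for `ta`: if `p` is odd: `2 ta ≡ tr` and `2` is invertible modulo `p`; if `p = 2`: `tr ∈ P`,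
so `tr` is even, `ta ^ 2 ≡ - nm ≡ nm` and `(ta - nm) ^ 2 ≡ ta ^ 2 + nm ^ 2 ≡ nm + nm ^ 2 ≡ 0`, so `ta ≡ nm`. So `ℤ → 𝓞 K ⧸ P` is surjective and `𝓞 K ⧸ P` has `p` elements.
`rt_not_mem`: `f ∉ P` implies `s ∉ P`: otherwise `P' = P`, `ps_conj_prime`: `cj (ps P) = ps P`, an integer `n`, `span {n} = P` (`ps_span'`), `N P = n²` is not prime.
-/

set_option autoImplicit false

namespace Pool.Agent.Lib.MP_1a91b9_nuX.GL

open NumberField IsDedekindDomain WeierstrassCurve Pool.Agent.Lib.MP_1a91b9_nuT DB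

variable [CD]

theorem conj_norm (P : HeightOneSpectrum (𝓞 K)) :
    Ideal.absNorm (P.asIdeal.map cj) = Ideal.absNorm P.asIdeal := by
  obtain ⟨π, _, hπ⟩ := exists_gen P
  rw [← hπ, Ideal.map_span, Set.image_singleton, absNorm_cj]

private theorem conjB_int {ψ : 𝓞 K} (h : cj ψ = ψ) : ∃ m : ℤ, ψ = (m : 𝓞 K) := by
  obtain ⟨m, n, rfl⟩ := exists_coords ψ
  rw [cj_coords'] at h
  obtain ⟨-, h2⟩ := coords_inj h
  have h3 : n = 0 := by omega
  refine ⟨m, ?_⟩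
  rw [h3]
  push_cast
  ring

private theorem conjB_not_prime {m : ℤ} : ¬ (Ideal.absNorm (Ideal.span {(m : 𝓞 K)})).Prime := by
  intro hp
  have h1 := absNorm_form m 0
  have h2 : (m : 𝓞 K) + ((0 : ℤ) : 𝓞 K) * ta = (m : 𝓞 K) := by
    push_cast
    ring
  rw [h2] at h1
  have h3 : Ideal.absNorm (Ideal.span {(m : 𝓞 K)}) = m.natAbs ^ 2 := by
    have h4 : ((Ideal.absNorm (Ideal.span {(m : 𝓞 K)}) : ℕ) : ℤ) = ((m.natAbs ^ 2 : ℕ) : ℤ) := by
      rw [h1]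
      push_cast
      rw [sq_abs]
      ring
    exact_mod_cast h4
  rw [h3] at hp
  exact Nat.Prime.not_prime_pow le_rfl hp

/-- the ramified places of `K` are places of bad reduction -/
theorem ram_bad' (hE : EllK) (P : HeightOneSpectrum (𝓞 K)) {p : ℕ} (hp : p.Prime)
    (hN : Ideal.absNorm P.asIdeal = p) (hc : P.asIdeal.map cj = P.asIdeal) :
    ¬ ∃ C : VariableChange K, GM.GoodW (P.valuation K) (C • E K) := by
  classical
  intro hg
  obtain ⟨ψ, hψ, hfr⟩ := fr_unit' hE P hg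
  obtain ⟨τ, hτ⟩ := exists_semi'
  obtain ⟨V, hV⟩ := exists_abv (Ω := Kb) P
  have hV' : Abv P (Vt τ V) := abv_vt hτ hc.symm hV
  obtain ⟨φ, hφ⟩ := exists_fr hV'
  obtain ⟨φ', hφ', hcomm⟩ := fr_vt hτ hφ
  have h1 : cj ψ = ψ := by
    refine eq_of_tr hV' fun T hT => ?_
    obtain ⟨T', rfl⟩ := rp_surj (τ := τ) T
    have hT' := tr_vt.1 hT
    rw [← semi_sm' hτ, ← hfr V hV φ' hφ' T' hT', hcomm]
    exact hfr _ hV' φ hφ _ hT
  obtain ⟨m, hm⟩ := conjB_int h1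
  refine conjB_not_prime (m := m) ?_
  rw [← hm, hψ, hN]
  exact hp

theorem rt_prime {P : HeightOneSpectrum (𝓞 K)} (h : (UF.rt : 𝓞 K) ∈ P.asIdeal) :
    P.asIdeal.map cj = P.asIdeal ∧ (Ideal.absNorm P.asIdeal).Prime := by
  have hmem : ∀ a : 𝓞 K, cj a ∈ P.asIdeal ↔ a ∈ P.asIdeal := by
    intro a
    have h1 : a - cj a ∈ P.asIdeal := P.asIdeal.mem_of_dvd (UF.rt_dvd_sub_cj a) h
    constructor
    · intro h2
      have h3 := P.asIdeal.add_mem h1 h2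
      rwa [sub_add_cancel] at h3
    · intro h2
      have h3 := P.asIdeal.sub_mem h2 h1
      rwa [sub_sub_cancel] at h3
  refine ⟨Ideal.ext fun a => by rw [mem_map_cj, hmem], ?_⟩
  obtain ⟨V, hV⟩ := exists_abv (Ω := Kb) P
  obtain ⟨p, hp, hVp, -⟩ := res_char hV
  rcases norm_cases hV hp hVp with h1 | h1
  · rw [h1]
    exact hp
  · exfalso
    have hd : ∀ a b : ℤ, (a : 𝓞 K) + (b : 𝓞 K) * ta ∈ P.asIdeal → (p : ℤ) ∣ a ∧ (p : ℤ) ∣ b := by
      intro a b hab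
      rw [h1, Ideal.mem_span_singleton] at hab
      obtain ⟨d, hd⟩ := hab
      obtain ⟨x, y, rfl⟩ := exists_coords d
      have h2 : (a : 𝓞 K) + (b : 𝓞 K) * ta =
          (((p : ℤ) * x : ℤ) : 𝓞 K) + (((p : ℤ) * y : ℤ) : 𝓞 K) * ta := by
        push_cast
        linear_combination hd
      obtain ⟨h3, h4⟩ := coords_inj h2
      exact ⟨⟨x, h3⟩, ⟨y, h4⟩⟩
    rw [UF.rt_eq] at h
    obtain ⟨h2, h3⟩ := hd _ _ h
    have h4 : p = 2 := by
      have h5 : p ∣ 2 := by exact_mod_cast h3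
      exact (Nat.prime_dvd_prime_iff_eq hp Nat.prime_two).1 h5
    subst h4
    obtain ⟨t, ht⟩ := (dvd_neg.1 h2)
    have ht' : CD.tr = 2 * t := by exact_mod_cast ht
    obtain ⟨s, hs⟩ : ∃ s : ℤ, CD.nm ^ 2 - CD.nm = 2 * s := by
      rcases Int.even_or_odd' CD.nm with ⟨c, hc | hc⟩
      · exact ⟨2 * c ^ 2 - c, by rw [hc]; ring⟩
      · exact ⟨2 * c ^ 2 + c, by rw [hc]; ring⟩
    have h5 : (ta - (CD.nm : 𝓞 K)) ^ 2 ∈ P.asIdeal := by
      rw [h1, Ideal.mem_span_singleton]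
      refine ⟨(t : 𝓞 K) * ta - (CD.nm : 𝓞 K) * ta + (s : 𝓞 K), ?_⟩
      have hs' : (CD.nm : 𝓞 K) ^ 2 - (CD.nm : 𝓞 K) = 2 * (s : 𝓞 K) := by
        have h6 := congrArg (fun z : ℤ => (z : 𝓞 K)) hs
        push_cast at h6
        exact h6
      have ht2 : (CD.tr : 𝓞 K) = 2 * (t : 𝓞 K) := by
        have h6 := congrArg (fun z : ℤ => (z : 𝓞 K)) ht'
        push_cast at h6
        exact h6
      have hq := ta_quad
      push_cast
      linear_combination hq + hs' + ta * ht2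
    have h6 := P.isPrime.mem_of_pow_mem _ h5
    have h7 : (ta - (CD.nm : 𝓞 K) : 𝓞 K) = ((-CD.nm : ℤ) : 𝓞 K) + ((1 : ℤ) : 𝓞 K) * ta := by
      push_cast
      ring
    rw [h7] at h6
    obtain ⟨-, h8⟩ := hd _ _ h6
    have h9 := Int.le_of_dvd one_pos h8
    norm_num at h9

variable [HC]

theorem conj_good {P P' : HeightOneSpectrum (𝓞 K)} (hP : P'.asIdeal = P.asIdeal.map cj)
    (hf : HC.f ∉ P.asIdeal) : HC.f ∉ P'.asIdeal := by
  classical
  intro hf'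
  obtain ⟨τ, hτ⟩ := exists_semi'
  obtain ⟨V, hV⟩ := exists_abv (Ω := Kb) P
  have hV' : Abv P' (Vt τ V) := abv_vt hτ hP hV
  refine HC.hd.bad P' hf' (nos_conv (F := K) hV' fun σ hσ T hT => ?_)
  obtain ⟨σ', hσ', hcomm⟩ := fr_vt hτ hσ
  obtain ⟨T', rfl⟩ := rp_surj (τ := τ) T
  rw [← hcomm, in_triv hf hV hσ' (tr_vt.1 hT)]

theorem ps_conj_prime {P P' : HeightOneSpectrum (𝓞 K)} (hP : P'.asIdeal = P.asIdeal.map cj)
    (hf : HC.f ∉ P.asIdeal) : ps P'.asIdeal = cj (ps P.asIdeal) := by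
  classical
  have hf' := conj_good hP hf
  obtain ⟨τ, hτ⟩ := exists_semi'
  obtain ⟨V, hV⟩ := exists_abv (Ω := Kb) P
  have hV' : Abv P' (Vt τ V) := abv_vt hτ hP hV
  obtain ⟨φ, hφ⟩ := exists_fr hV'
  obtain ⟨φ', hφ', hcomm⟩ := fr_vt hτ hφ
  rw [hP, conj_norm] at hφ'
  refine eq_of_tr hV' fun T hT => ?_
  obtain ⟨T', rfl⟩ := rp_surj (τ := τ) T
  obtain ⟨n', hn', h0'⟩ := tr_vt.1 hT
  obtain ⟨n, hn, h0⟩ := hT
  rw [← semi_sm' hτ, ← HC.hd.frob P hf V hV φ' hφ' n' T' hn' h0', hcomm]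
  exact (HC.hd.frob P' hf' _ hV' φ hφ n _ hn h0).symm

theorem ps_conj' (I : Ideal (𝓞 K)) : ps (I.map cj) = cj (ps I) := by
  refine UniqueFactorizationMonoid.induction_on_prime
    (P := fun I : Ideal (𝓞 K) => ps (I.map cj) = cj (ps I)) I ?_ ?_ ?_
  · rw [Ideal.zero_eq_bot, Ideal.map_bot, ps_bot, map_zero]
  · intro x hx
    rw [Ideal.isUnit_iff] at hx
    have h1 : ps (⊤ : Ideal (𝓞 K)) = 1 := by
      rw [← Ideal.one_eq_top]
      exact HC.hd.one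
    rw [hx, Ideal.map_top, h1, map_one]
  · intro J p _ hp hJ
    rw [Ideal.map_mul]
    have e1 : ps (p.map cj * J.map cj) = ps (p.map cj) * ps (J.map cj) := HC.hd.mul _ _
    have e2 : ps (p * J) = ps p * ps J := HC.hd.mul _ _
    rw [e1, e2, map_mul, hJ]
    congr 1
    obtain ⟨P, hPp⟩ : ∃ P : HeightOneSpectrum (𝓞 K), P.asIdeal = p :=
      ⟨⟨p, Ideal.isPrime_of_prime hp, hp.ne_zero⟩, rfl⟩
    obtain ⟨P', hP'⟩ := exists_cjP P
    have hP'' : P.asIdeal = P'.asIdeal.map cj := by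
      ext a
      rw [mem_map_cj, hP', mem_map_cj, cj_cj]
    rw [← hPp, ← hP']
    have h0 : ∀ R : HeightOneSpectrum (𝓞 K), HC.f ∈ R.asIdeal → ps R.asIdeal = 0 := by
      intro R hR
      refine HC.hd.zero _ fun hcop => ?_
      rw [Ideal.isCoprime_iff_sup_eq, sup_eq_left.2 ((Ideal.span_singleton_le_iff_mem _).2 hR)]
        at hcop
      exact R.isPrime.ne_top hcop
    by_cases hf : HC.f ∈ P.asIdeal
    · have hf' : HC.f ∈ P'.asIdeal := by
        by_contra h1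
        exact conj_good hP'' h1 hf
      rw [h0 P hf, h0 P' hf', map_zero]
    · exact ps_conj_prime hP' hf

theorem rt_not_mem {P : HeightOneSpectrum (𝓞 K)} (hf : HC.f ∉ P.asIdeal) :
    (UF.rt : 𝓞 K) ∉ P.asIdeal := by
  intro h
  obtain ⟨h1, h2⟩ := rt_prime h
  have h3 := ps_conj_prime h1.symm hf
  obtain ⟨m, hm⟩ := conjB_int h3.symm
  rw [← ps_span' P hf, hm] at h2
  exact conjB_not_prime h2

end Pool.Agent.Lib.MP_1a91b9_nuX.GL
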