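import Pool.Agent.Lib.MP_1a91b9_nuX.GL.TorC
import Pool.Agent.Lib.MP_1a91b9_nuX.UF.Ell

/-!
# The fixed points of a semilinear endomorphism whose square is a multiplication

PROOF of `fix_card`. `M = taG V`; `φ` restricts to `φM : M →+ M` (`hta`). `s = UF.rt`, `cj s = - s` (`UF.cj_rt`). For `T` in `M`: `φ (sm s T) + sm s T = sm s (T - φ T)` (`hsemi`): `(1 + φM) ∘ smG s = smG s ∘ (1 - φM)`. `(1 - φM) ∘ (1 + φM) = smG (1 - Ψ)` (`hsq`), also `(1 + φM) ∘ (1 - φM) = smG (1 - Ψ)`.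
`smG (1 - Ψ)` and `smG s` are surjective (`smG_surj`), so `1 - φM` and `1 + φM` are surjective. `card_comp`: with `A = Nat.card (1 - φM).ker`, `B = Nat.card (1 + φM).ker`: `B * N s = N s * A` (`card_comp (1 + φM) (smG s)`, `card_comp (smG s) (1 - φM)`, `smG_ker`), `N s ≠ 0`, so `A = B`; `A * B = N (1 - Ψ)`.
The sets in the statement are the images of the kernels in `Pt Kb` (`Set.ncard` of the image of an injective map: `Nat.card_coe_set_eq`, `Nat.card_congr`); they are finite since `N (1 - Ψ) ≠ 0`.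
-/

set_option autoImplicit false

namespace Pool.Agent.Lib.MP_1a91b9_nuX.GL

open NumberField IsDedekindDomain WeierstrassCurve Pool.Agent.Lib.MP_1a91b9_nuT DB

variable [CD] [DecidableEq Kb]

omit [DecidableEq Kb] in
private theorem InrB_norm {V : ValuationSubring Kb} {a : 𝓞 K}
    (ha : V.valuation (algebraMap K Kb (a : K)) = 1) : Ideal.absNorm (Ideal.span {a}) ≠ 0 := by
  intro h
  rw [Ideal.absNorm_eq_zero_iff, Ideal.span_singleton_eq_bot] at h
  rw [h] at ha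
  have h1 : (((0 : 𝓞 K)) : K) = 0 := rfl
  rw [h1, map_zero, map_zero] at ha
  exact zero_ne_one ha

private theorem InrB_ncard {V : ValuationSubring Kb} (f : taG V →+ taG V) (S : Set (Pt Kb))
    (h1 : ∀ T ∈ S, Ta V.valuation T) (h2 : ∀ T : taG V, f T = 0 ↔ (T : Pt Kb) ∈ S) :
    Nat.card f.ker = S.ncard := by
  rw [← Nat.card_coe_set_eq]
  exact Nat.card_congr
    { toFun := fun T => ⟨T.1.1, (h2 T.1).1 T.2⟩
      invFun := fun T => ⟨⟨T.1, h1 T.1 T.2⟩, (h2 ⟨T.1, h1 T.1 T.2⟩).2 T.2⟩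
      left_inv := fun T => rfl
      right_inv := fun T => rfl }

theorem fix_card {V : ValuationSubring Kb} {φ : Pt Kb →+ Pt Kb}
    (hta : ∀ T : Pt Kb, Ta V.valuation T → Ta V.valuation (φ T))
    (hsemi : ∀ (a : 𝓞 K) (T : Pt Kb), φ (sm Kb a T) = sm Kb (cj a) (φ T)) {Ψ : 𝓞 K}
    (hsq : ∀ T : Pt Kb, Ta V.valuation T → φ (φ T) = sm Kb Ψ T)
    (hs : V.valuation (algebraMap K Kb ((UF.rt : 𝓞 K) : K)) = 1)
    (hΨ : V.valuation (algebraMap K Kb ((1 - Ψ : 𝓞 K) : K)) = 1) :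
    {T : Pt Kb | Ta V.valuation T ∧ φ T = T}.Finite ∧
    {T : Pt Kb | Ta V.valuation T ∧ φ T = -T}.Finite ∧
    {T : Pt Kb | Ta V.valuation T ∧ φ T = T}.ncard = {T : Pt Kb | Ta V.valuation T ∧ φ T = -T}.ncard ∧
    {T : Pt Kb | Ta V.valuation T ∧ φ T = T}.ncard ^ 2 = Ideal.absNorm (Ideal.span {1 - Ψ}) := by
  obtain ⟨φM, hφM⟩ : ∃ φM : taG V →+ taG V, ∀ T : taG V, ((φM T : taG V) : Pt Kb) = φ T :=
    ⟨{ toFun := fun T => ⟨φ T.1, hta _ T.2⟩
       map_zero' := Subtype.ext (map_zero φ)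
       map_add' := fun T T' => Subtype.ext (map_add φ T.1 T'.1) }, fun T => rfl⟩
  obtain ⟨A₁, hA₁⟩ : ∃ A₁ : taG V →+ taG V, ∀ T : taG V, A₁ T = T - φM T :=
    ⟨AddMonoidHom.id _ - φM, fun T => rfl⟩
  obtain ⟨B₁, hB₁⟩ : ∃ B₁ : taG V →+ taG V, ∀ T : taG V, B₁ T = T + φM T :=
    ⟨AddMonoidHom.id _ + φM, fun T => rfl⟩
  have hsq' : ∀ T : taG V, φM (φM T) = smG V Ψ T := by
    intro T
    apply Subtype.ext
    rw [hφM, hφM]
    exact hsq T.1 T.2
  have hsub : ∀ T : taG V, T - smG V Ψ T = smG V (1 - Ψ) T := by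
    intro T
    apply Subtype.ext
    change (T : Pt Kb) - sm Kb Ψ T = sm Kb (1 - Ψ) T
    rw [sm_sub, sm_one]
  have e1 : B₁.comp (smG V UF.rt) = (smG V UF.rt).comp A₁ := by
    ext T
    rw [AddMonoidHom.comp_apply, AddMonoidHom.comp_apply, hB₁, hA₁]
    have h1 : φM (smG V UF.rt T) = -smG V UF.rt (φM T) := by
      apply Subtype.ext
      rw [hφM]
      change φ (sm Kb UF.rt T) = -sm Kb UF.rt (φM T)
      rw [hsemi, UF.cj_rt, hφM, map_neg]
      rfl
    rw [h1, map_sub, sub_eq_add_neg]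
  have e2 : A₁.comp B₁ = smG V (1 - Ψ) := by
    ext T
    rw [AddMonoidHom.comp_apply, hB₁, hA₁, map_add, hsq', ← hsub]
    congr 1
    abel
  have e3 : B₁.comp A₁ = smG V (1 - Ψ) := by
    ext T
    rw [AddMonoidHom.comp_apply, hB₁, hA₁, map_sub, hsq', ← hsub]
    congr 1
    abel
  have hΨs := smG_surj hΨ
  have hss := smG_surj hs
  have hAs : Function.Surjective A₁ := by
    rw [← e2] at hΨs
    exact Function.Surjective.of_comp hΨs
  have hBs : Function.Surjective B₁ := by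
    have hΨs := smG_surj hΨ
    rw [← e3] at hΨs
    exact Function.Surjective.of_comp hΨs
  have c1 := card_comp A₁ B₁ hBs
  have c2 := card_comp B₁ (smG V UF.rt) hss
  have c3 := card_comp (smG V UF.rt) A₁ hAs
  rw [e2, smG_ker hΨ] at c1
  rw [e1, c3, smG_ker hs, mul_comm] at c2
  have c4 := Nat.eq_of_mul_eq_mul_right (Nat.pos_of_ne_zero (InrB_norm hs)) c2
  have n1 : Nat.card A₁.ker = {T : Pt Kb | Ta V.valuation T ∧ φ T = T}.ncard := by
    refine InrB_ncard A₁ _ (fun T hT => hT.1) fun T => ?_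
    rw [hA₁, sub_eq_zero]
    constructor
    · intro h
      refine ⟨T.2, ?_⟩
      rw [← hφM, ← h]
    · intro h
      apply Subtype.ext
      rw [hφM]
      exact h.2.symm
  have n2 : Nat.card B₁.ker = {T : Pt Kb | Ta V.valuation T ∧ φ T = -T}.ncard := by
    refine InrB_ncard B₁ _ (fun T hT => hT.1) fun T => ?_
    rw [hB₁, add_comm, add_eq_zero_iff_eq_neg]
    constructor
    · intro h
      refine ⟨T.2, ?_⟩
      rw [← hφM, h]
      rfl
    · intro h
      apply Subtype.ext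
      rw [hφM, h.2]
      rfl
  have hN := InrB_norm hΨ
  rw [← n1, ← n2, ← c4]
  rw [← c4] at c1
  refine ⟨Set.finite_of_ncard_ne_zero ?_, Set.finite_of_ncard_ne_zero ?_, rfl, ?_⟩
  · rw [← n1]
    intro h0
    rw [h0, mul_zero] at c1
    exact hN c1
  · rw [← n2, ← c4]
    intro h0
    rw [h0, mul_zero] at c1
    exact hN c1
  · rw [c1, sq]

end Pool.Agent.Lib.MP_1a91b9_nuX.GL
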