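import Pool.Agent.Lib.MP_1a91b9_nuX.GL.InrA
import Pool.Agent.Lib.MP_1a91b9_nuX.GL.InrB
import Pool.Agent.Lib.MP_1a91b9_nuX.GL.CntD
import Pool.Agent.Lib.MP_1a91b9_nuX.GL.ConjB

/-!
# The number of points at an inert place

`W'` is a curve over `N`, good at the place `v` below `w`, which over `L` is the model `D • E` of the curve; `σ` is a Frobenius automorphism at `v` which induces the conjugation on `K`; `q = N v`, `N w = q ^ 2`.

PROOF. `D' = D.map (algebraMap L Kb)`, `D' • EF Kb = W'.map (algebraMap N Kb)` (`WeierstrassCurve.map_variableChange`, `map_map`, `IsScalarTower.algebraMap_eq`, `EF_eq`). `P = w.under (𝓞 K)`, `Abv P V` (`abv_res`), `Abv v V` (`abv_res`, `v = w.under (𝓞 N)`). `Ψ = psi L w.asIdeal = ps P.asIdeal ^ f` (`psi_pow`), `psi_facts`.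
`φ` from `exists_phi` (for `W'`, `D'`, `σ`), `phi_semi`, `phi_ph` (`goodC_up`): `Ph V D' q φ`.
`phi_sq`: for `T` in `Ta`: `φ (φ T) = sm Ψ T`: the ring automorphism `σ ∘ σ` is `K`-linear (`σ (σ a) = cj (cj a) = a` for `a : 𝓞 K`, quotients), call it `σ₂ : Kb ≃ₐ[K] Kb`; it fixes `L` pointwise by the hypothesis `hσL`, so the coefficients of `D'`: `cx D' (ga σ₂ T) = σ (σ (cx D' T)) = cx D' (φ (φ T))`, same for `cy`, so the points are equal (`pt_ext`,
`xc T = u² cx T + r`, ...). `σ₂` satisfies `IsFr V (q ^ 2)`: `σ (σ x) ≡ (σ x) ^ q ≡ x ^ (q * q)` (`fr_le`), and `q ^ 2 = N w = N P ^ f` (`psi_facts`): `fr_ta`: `ga σ₂ T = sm (ps P ^ f) T`.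
`fix_card` (`V rt = 1`: `rt_not_mem`, `val_one_iff`; `V (1 - Ψ) = 1`: `psi_facts`, `val_one_iff`): `A = #{T : Ta, φ T = T} = #{T : Ta, φ T = -T}`, `A ^ 2 = N (1 - Ψ)`.
`rdp V D'` is a bijection from `{T ≠ 0, Ta, φ T = T}` to `Sp q`: into and injective by `ph_sp`, `rdp_inj`; onto: `z ∈ Sp q` satisfies `z.1 ^ (q ^ 2) = z.1`, so `z ∈ Sp (q ^ 2) = Sp (N w)`, `cnt_w`: `T ≠ 0` with `sm (1 - Ψ) T = 0` (so `Ta`) and `rdp T = z`; `rdp (φ T) = (z.1 ^ q, z.2 ^ q) = z` (`rdp_phi`), so `φ T = T` (`rdp_inj`, `Ph.inj`).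
In the same way from `{T ≠ 0, Ta, φ T = -T}` to `Sm q`: `z ∈ Sm q`: `z.2 ^ (q ^ 2) = (- z.2 - a₁ z.1 - a₃) ^ q = - z.2 ^ q - a₁ z.1 - a₃ = z.2`, using that the coefficients of the reduced curve are fixed by the `q`-th power map (`rd_fix`, they come from `N`) and `q` is a power of the characteristic (or: `z = rdp T` is not known yet; use the
characteristic `p` of `RF V` (`rd_char`, `norm_pow`/`q = p ^ n`: `add_pow_char_pow`)); then `T` with `rdp T = z`, `rdp (φ T) = (z.1 ^ q, z.2 ^ q) = (z.1, - z.2 - a₁ z.1 - a₃) = rdp (-T)` (`rdp_neg`), so `φ T = -T`.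
So `(Sp q).ncard + 1 = A = (Sm q).ncard + 1`; `card_two` for `W'` (`v`, `V`): `(Sp q).ncard + (Sm q).ncard = 2 q`, so `(Sp q).ncard = q` and `A = q + 1`, `N (1 - Ψ) = (q + 1) ^ 2`. In `𝓞 K`: `(1 - Ψ) (1 - cj Ψ) = (q + 1) ^ 2` and `Ψ cj Ψ = q ^ 2` (`mul_cj`), so `Ψ + cj Ψ = - 2 q` and `(Ψ + q) (cj Ψ + q) = 0`; `cj (Ψ + q) = cj Ψ + q`, so `Ψ = - q`.
-/

set_option autoImplicit false

namespace Pool.Agent.Lib.MP_1a91b9_nuX.GL

open NumberField IsDedekindDomain WeierstrassCurve Pool.Agent.Lib.MP_1a91b9_nuT DB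

universe u

private theorem inrc_pow_sub {F Γ : Type*} [Field F] [LinearOrderedCommGroupWithZero Γ]
    (v : Valuation F Γ) {a b : F} (ha : v a ≤ 1) (hb : v b ≤ 1) (h : v (a - b) < 1) (n : ℕ) :
    v (a ^ n - b ^ n) < 1 := by
  induction n with
  | zero =>
    rw [pow_zero, pow_zero, sub_self, map_zero]
    exact zero_lt_one
  | succ n ih =>
    have e : a ^ (n + 1) - b ^ (n + 1) = a ^ n * (a - b) + (a ^ n - b ^ n) * b := by ring
    rw [e]
    refine (v.map_add _ _).trans_lt (max_lt ?_ ?_)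
    · rw [map_mul, map_pow, mul_comm]
      exact mul_lt_one_of_lt_of_le h (pow_le_one' ha n)
    · rw [map_mul]
      exact mul_lt_one_of_lt_of_le ih hb

variable [CD] [HC] [DecidableEq Kb]

omit [HC] [DecidableEq Kb] in
private theorem inrc_model {N L : Type*} [Field N] [Field L] [Algebra K L]
    [Algebra N L] [Algebra L Kb] [Algebra N Kb] [IsScalarTower K L Kb] [IsScalarTower N L Kb]
    {D : VariableChange L} {W' : WeierstrassCurve N} (hDW : D • E L = W'.map (algebraMap N L)) :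
    D.map (algebraMap L Kb) • EF Kb = W'.map (algebraMap N Kb) := by
  have h1 : (E L).map (algebraMap L Kb) = EF Kb := by
    rw [← EF_eq L, WeierstrassCurve.map_map, ← IsScalarTower.algebraMap_eq]
  rw [← h1, WeierstrassCurve.map_variableChange, hDW, WeierstrassCurve.map_map,
    ← IsScalarTower.algebraMap_eq]

omit [HC] [DecidableEq Kb] in
/-- coordinates in a model are injective -/
private theorem inrc_ext {D : VariableChange Kb} {P Q : Pt Kb} (hP : P ≠ 0) (hQ : Q ≠ 0)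
    (hx : cx D P = cx D Q) (hy : cy D P = cy D Q) : P = Q := by
  have hu : (D.u : Kb) ≠ 0 := D.u.ne_zero
  unfold cx at hx
  unfold cy at hy
  have h1 : xc P = xc Q := by
    have h2 := (div_left_inj' (pow_ne_zero 2 hu)).1 hx
    linear_combination h2
  rw [div_left_inj' (pow_ne_zero 3 hu), h1] at hy
  exact pt_ext hP hQ h1 (by linear_combination hy)


section
variable {N L : Type u} [Field N] [NumberField N] [Field L] [NumberField L] [Algebra K L]
  [Algebra N L] [Algebra L Kb] [Algebra N Kb] [IsScalarTower K L Kb] [IsScalarTower N L Kb]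
  {w : HeightOneSpectrum (𝓞 L)} {V : ValuationSubring Kb} (hV : Abv w V)
  (hf : HC.f ∉ (w.under (𝓞 K)).asIdeal) {D : VariableChange L}
  (hD : GM.GoodW (w.valuation L) (D • E L)) {W' : WeierstrassCurve N}
  (hW : GM.GoodW ((w.under (𝓞 N)).valuation N) W') (hDW : D • E L = W'.map (algebraMap N L))
  {q : ℕ} (hq : Ideal.absNorm (w.under (𝓞 N)).asIdeal = q) (hq2 : Ideal.absNorm w.asIdeal = q ^ 2)
  {σ : Kb ≃ₐ[N] Kb} (hσ : IsFr V q σ)
  (hσ' : ∀ a : 𝓞 K, σ (algebraMap K Kb (a : K)) = algebraMap K Kb ((cj a : 𝓞 K) : K))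
  (hσL : ∀ x : L, σ (σ (algebraMap L Kb x)) = algebraMap L Kb x)
include hV hf hD hDW hσ hσ' hσL hq2

theorem phi_sq {φ : Pt Kb →+ Pt Kb} (hφ : ∀ T : Pt Kb, T ≠ 0 → φ T ≠ 0 ∧
      cx (D.map (algebraMap L Kb)) (φ T) = σ (cx (D.map (algebraMap L Kb)) T) ∧
      cy (D.map (algebraMap L Kb)) (φ T) = σ (cy (D.map (algebraMap L Kb)) T)) {T : Pt Kb}
    (hT : Ta V.valuation T) : φ (φ T) = sm Kb (psi L w.asIdeal) T := by
  rcases eq_or_ne T 0 with rfl | h0
  · rw [map_zero, map_zero, map_zero]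
  have hPV : Abv (w.under (𝓞 K)) V := abv_res hV
  have hfix : ∀ x : K, (σ.toRingEquiv.trans σ.toRingEquiv) (algebraMap K Kb x) =
      algebraMap K Kb x := by
    intro x
    rw [IsScalarTower.algebraMap_apply K L Kb]
    exact hσL _
  let τ : Kb ≃ₐ[K] Kb := AlgEquiv.ofRingEquiv (f := σ.toRingEquiv.trans σ.toRingEquiv) hfix
  have hτ : ∀ x, τ x = σ (σ x) := fun x => rfl
  obtain ⟨hne1, hx1, hy1⟩ := hφ T h0
  obtain ⟨hne2, hx2, hy2⟩ := hφ (φ T) hne1
  have hne3 : ga τ T ≠ 0 := fun h => h0 ((gk_ne τ).1 h)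
  have hτL : ∀ x : L, τ (algebraMap L Kb x) = algebraMap L Kb x := hσL
  have ecx : cx (D.map (algebraMap L Kb)) (ga τ T) = τ (cx (D.map (algebraMap L Kb)) T) := by
    have hr : (D.map (algebraMap L Kb)).r = algebraMap L Kb D.r := rfl
    have hu : ((D.map (algebraMap L Kb)).u : Kb) = algebraMap L Kb (D.u : L) := rfl
    unfold cx
    rw [hr, hu, xc_gk, map_div₀, map_sub, map_pow, hτL, hτL]
  have ecy : cy (D.map (algebraMap L Kb)) (ga τ T) = τ (cy (D.map (algebraMap L Kb)) T) := by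
    have hr : (D.map (algebraMap L Kb)).r = algebraMap L Kb D.r := rfl
    have hs : (D.map (algebraMap L Kb)).s = algebraMap L Kb D.s := rfl
    have ht : (D.map (algebraMap L Kb)).t = algebraMap L Kb D.t := rfl
    have hu : ((D.map (algebraMap L Kb)).u : Kb) = algebraMap L Kb (D.u : L) := rfl
    unfold cy
    rw [hr, hs, ht, hu, xc_gk, yc_gk, map_div₀, map_sub, map_sub, map_mul, map_sub, map_pow,
      hτL, hτL, hτL, hτL]
  have e1 : φ (φ T) = ga τ T := by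
    refine inrc_ext (D := D.map (algebraMap L Kb)) hne2 hne3 ?_ ?_
    · rw [ecx, hx2, hx1, hτ]
    · rw [ecy, hy2, hy1, hτ]
  have hfr : IsFr V (Ideal.absNorm (w.under (𝓞 K)).asIdeal ^ w.asIdeal.inertiaDeg (𝓞 K)) τ := by
    rw [← (psi_facts hf).2.2.1, hq2]
    intro x hx
    have hx' : V.valuation (x ^ q) ≤ 1 := by
      rw [map_pow]
      exact pow_le_one' hx q
    have e : τ x - x ^ (q ^ 2) = (σ (σ x) - (σ x) ^ q) + ((σ x) ^ q - (x ^ q) ^ q) := by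
      rw [hτ, sq q, pow_mul]
      ring
    rw [e]
    exact (V.valuation.map_add _ _).trans_lt (max_lt (hσ _ (fr_le hσ hx))
      (inrc_pow_sub _ (fr_le hσ hx) hx' (hσ x hx) q))
  rw [e1, psi_pow]
  exact fr_ta hf hPV _ hfr hT

include hW hq

theorem inr_core : (Sp q (rdW V (W'.map (algebraMap N Kb)))).ncard = q ∧
    psi L w.asIdeal = -(q : 𝓞 K) := by
  have hPV : Abv (w.under (𝓞 K)) V := abv_res hV
  have hvV : Abv (w.under (𝓞 N)) V := abv_res hV
  have hDW' := inrc_model (N := N) (L := L) hDW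
  have hG : GoodC V.valuation (D.map (algebraMap L Kb)) := goodC_up hV hD
  obtain ⟨φ, hφ⟩ := exists_phi hDW' σ
  have hsemi := phi_semi hDW' hφ hσ'
  have hPh : Ph V (D.map (algebraMap L Kb)) q φ := by
    rw [← hq] at hσ ⊢
    exact phi_ph hDW' hφ hσ' hPV hvV hG hσ
  have hsq : ∀ T : Pt Kb, Ta V.valuation T → φ (φ T) = sm Kb (psi L w.asIdeal) T :=
    fun T hT => phi_sq hV hf hD hDW hq2 hσ hσ' hσL hφ hT
  obtain ⟨hf1, hf2, hf3, hf4⟩ := psi_facts hf
  rw [hq2] at hf1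
  have hΨ : V.valuation (algebraMap K Kb ((1 - psi L w.asIdeal : 𝓞 K) : K)) = 1 := by
    rw [val_one_iff hPV]
    intro h
    apply (w.under (𝓞 K)).isPrime.ne_top
    rw [Ideal.eq_top_iff_one]
    have h2 := Ideal.add_mem _ h hf2
    rwa [sub_add_cancel] at h2
  have hrt : V.valuation (algebraMap K Kb ((UF.rt : 𝓞 K) : K)) = 1 := by
    rw [val_one_iff hPV]
    exact rt_not_mem hf
  obtain ⟨hAf, hBf, hAB, hA2⟩ := fix_card hPh.ta hsemi hsq hrt hΨ
  obtain ⟨-, honto⟩ := cnt_w hV hD hf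
  rw [hq2] at honto
  -- the residue field
  obtain ⟨p, hp, hpV, -⟩ := res_char hPV
  have hch : CharP (RF V) p := rd_char hp hpV
  have : Fact p.Prime := ⟨hp⟩
  obtain ⟨n, -, hn⟩ := GL.norm_pow hPV hp hpV
  obtain ⟨m, -, hm⟩ : ∃ m ≤ n * w.asIdeal.inertiaDeg (𝓞 K), q = p ^ m := by
    rw [← Nat.dvd_prime_pow hp, pow_mul, ← hn, ← hf3, hq2]
    exact Dvd.intro_left _ (by rw [sq])
  have hExp : ExpChar (RF V) p := ExpChar.prime hp
  have hfrob : ∃ ρ : RF V →+* RF V, ∀ z, ρ z = z ^ q :=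
    ⟨iterateFrobenius (RF V) p m, fun z => by rw [iterateFrobenius_def, hm]⟩
  obtain ⟨ρ, hρ⟩ := hfrob
  have ha1 : (rdW V (D.map (algebraMap L Kb) • EF Kb)).a₁ ^ q =
      (rdW V (D.map (algebraMap L Kb) • EF Kb)).a₁ := by
    rw [hDW', ← hq]
    exact rd_fix hvV hW.toIntW.a1
  have ha3 : (rdW V (D.map (algebraMap L Kb) • EF Kb)).a₃ ^ q =
      (rdW V (D.map (algebraMap L Kb) • EF Kb)).a₃ := by
    rw [hDW', ← hq]
    exact rd_fix hvV hW.toIntW.a3
  have hTa : ∀ T : Pt Kb, sm Kb (1 - psi L w.asIdeal) T = 0 → Ta V.valuation T :=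
    fun T hT => ⟨_, hΨ, hT⟩
  -- the fixed points
  have hSp : rdp V (D.map (algebraMap L Kb)) '' ({T : Pt Kb | Ta V.valuation T ∧ φ T = T} \ {0}) =
      Sp q (rdW V (D.map (algebraMap L Kb) • EF Kb)) := by
    ext z
    constructor
    · rintro ⟨T, ⟨⟨hT, hTe⟩, hT0⟩, rfl⟩
      exact ph_sp hPV hG hPh hT hT0 hTe
    · intro hz
      obtain ⟨hz1, hz2, hz3⟩ := hz
      obtain ⟨T, hT0, hTk, hTz⟩ := honto z ⟨by rw [sq, pow_mul, hz1, hz1],
        by rw [sq, pow_mul, hz2, hz2], hz3⟩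
      refine ⟨T, ⟨⟨hTa T hTk, ?_⟩, hT0⟩, hTz⟩
      refine rdp_inj hPV hG (hPh.ta _ (hTa T hTk)) (hTa T hTk) (fun h => hT0 (hPh.inj _ h)) hT0 ?_
      rw [rdp_phi hPV hG hPh (hTa T hTk) hT0, hTz, hz1, hz2]
  have hSm : rdp V (D.map (algebraMap L Kb)) '' ({T : Pt Kb | Ta V.valuation T ∧ φ T = -T} \ {0}) =
      Sm q (rdW V (D.map (algebraMap L Kb) • EF Kb)) := by
    ext z
    constructor
    · rintro ⟨T, ⟨⟨hT, hTe⟩, hT0⟩, rfl⟩
      exact ph_sm hPV hG hPh hT hT0 hTe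
    · intro hz
      obtain ⟨hz1, hz2, hz3⟩ := hz
      have hz4 : z.2 ^ (q ^ 2) = z.2 := by
        rw [sq, pow_mul, hz2, ← hρ, map_sub, map_sub, map_neg, map_mul, hρ, hρ, hρ, hρ, ha1, ha3,
          hz1, hz2]
        ring
      obtain ⟨T, hT0, hTk, hTz⟩ := honto z ⟨by rw [sq, pow_mul, hz1, hz1], hz4, hz3⟩
      refine ⟨T, ⟨⟨hTa T hTk, ?_⟩, hT0⟩, hTz⟩
      refine rdp_inj hPV hG (hPh.ta _ (hTa T hTk)) (ta_neg (hTa T hTk))
        (fun h => hT0 (hPh.inj _ h)) (neg_ne_zero.2 hT0) ?_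
      rw [rdp_phi hPV hG hPh (hTa T hTk) hT0, rdp_neg hPV hG (hTa T hTk) hT0, hTz, hz1, hz2]
  have hinj : ∀ S : Set (Pt Kb), (∀ T ∈ S, Ta V.valuation T ∧ T ≠ 0) →
      Set.InjOn (rdp V (D.map (algebraMap L Kb))) S := by
    intro S hS T hT T' hT' h
    exact rdp_inj hPV hG (hS T hT).1 (hS T' hT').1 (hS T hT).2 (hS T' hT').2 h
  have hc1 : (Sp q (rdW V (D.map (algebraMap L Kb) • EF Kb))).ncard + 1 =
      {T : Pt Kb | Ta V.valuation T ∧ φ T = T}.ncard := by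
    rw [← hSp, (hinj _ fun T hT => ⟨hT.1.1, hT.2⟩).ncard_image]
    exact Set.ncard_sdiff_singleton_add_one ⟨ta_zero, map_zero φ⟩ hAf
  have hc2 : (Sm q (rdW V (D.map (algebraMap L Kb) • EF Kb))).ncard + 1 =
      {T : Pt Kb | Ta V.valuation T ∧ φ T = -T}.ncard := by
    rw [← hSm, (hinj _ fun T hT => ⟨hT.1.1, hT.2⟩).ncard_image]
    exact Set.ncard_sdiff_singleton_add_one ⟨ta_zero, by rw [map_zero, neg_zero]⟩ hBf
  obtain ⟨-, -, hc3⟩ := card_two hvV W' hW.toIntW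
  rw [hq, ← hDW'] at hc3
  have hSpq : (Sp q (rdW V (D.map (algebraMap L Kb) • EF Kb))).ncard = q := by omega
  refine ⟨by rw [← hDW']; exact hSpq, ?_⟩
  rw [← hc1, hSpq] at hA2
  have e1 := mul_cj (1 - psi L w.asIdeal)
  have e2 := mul_cj (psi L w.asIdeal)
  rw [← hA2, map_sub, map_one] at e1
  rw [hf1] at e2
  push_cast at e1 e2
  have e3 : (psi L w.asIdeal + (q : 𝓞 K)) * (cj (psi L w.asIdeal) + (q : 𝓞 K)) = 0 := by
    linear_combination (1 + (q : 𝓞 K)) * e2 - (q : 𝓞 K) * e1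
  rcases mul_eq_zero.1 e3 with h | h
  · exact eq_neg_of_add_eq_zero_left h
  · have h2 := congrArg cj (eq_neg_of_add_eq_zero_left h)
    rw [cj_cj, map_neg, map_natCast] at h2
    exact h2

end

end Pool.Agent.Lib.MP_1a91b9_nuX.GL
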