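import Pool.Agent.Lib.MP_1a91b9_nuX.GL.LocA
import Pool.Agent.Lib.MP_1a91b9_nuX.GL.InrC

/-!
# The local factor at an inert place

PROOF. Choose an embedding `L →ₐ[K] Kb` (`IsAlgClosed.lift`, `L` is algebraic over `K`), which makes `Kb` an `L`-algebra (tower `K, L, Kb`) and an `N`-algebra (tower `N, L, Kb`). `V` above `w` (`exists_abv` for `k = L`), `v = w.under (𝓞 N)`, `Abv v V` (`abv_res`). `q = N v`; `N w = q ^ 2` (`inertiaDeg = 2`,
`Ideal.absNorm_eq_pow_inertiaDeg'` or the relative norm as in `CntD.psi_facts`).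
`Cv : VariableChange N` good at `v` for `W` (`good_v`), `W' = Cv • W`; `CL • W.map = E L` (`cls_L`); `D = Cv.map (algebraMap N L) * CL⁻¹`: `D • E L = Cv.map • W.map = W'.map (algebraMap N L)`, good at `w` (`GM.good_map`, `GM.val_under w`).
`σ : Kb ≃ₐ[N] Kb` with `IsFr V q σ` (`exists_fr` for `k = N`). `σ ta = cj ta`: otherwise (`ta_or`) `σ ta = ta`, so `σ` fixes the image of `L` (`gen_L`), so `x ^ q ≡ x` modulo `w` for all `x ∈ 𝓞 L` (`hσ`, `abv_lt`, `GM.val_lt_mem`), but the residue field `𝓞 L ⧸ w.asIdeal` is a field with `q ^ 2 > q` elements, and `X ^ q - X` has at most `q` roots.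
So for `a = m + n ta : 𝓞 K` (`exists_coords`): `σ a = cj a`; `σ (σ x) = x` for `x` in the image of `L` (`gen_L`: `σ (cj ta) = ta` since `cj ta = tr - ta`).
`inr_core`: `(Sp q (rdW V (W'.map (algebraMap N Kb)))).ncard = q` and `psi L w = - q`. `locPoly_good` for `(v, V, W, Cv)`: `locPoly W v = 1 - C (q - q) X + C q X ^ 2`.
-/

set_option autoImplicit false

namespace Pool.Agent.Lib.MP_1a91b9_nuX.GL

open NumberField IsDedekindDomain WeierstrassCurve Pool.Agent.Lib.MP_1a91b9_nuT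
  Pool.Agent.Lib.MP_1a91b9_nt

universe u

variable [CD] [HC]

omit [CD] [HC] in
private theorem locc_card {L : Type*} [Field L] [NumberField L] (w : HeightOneSpectrum (𝓞 L))
    {q : ℕ} (hq : 1 < q) (h : ∀ x : 𝓞 L, x - x ^ q ∈ w.asIdeal) :
    Ideal.absNorm w.asIdeal ≤ q := by
  classical
  have hp : w.asIdeal.IsPrime := w.isPrime
  have hmax : w.asIdeal.IsMaximal := w.isMaximal
  let _ : Field (𝓞 L ⧸ w.asIdeal) := Ideal.Quotient.field w.asIdeal
  have hfin : Finite (𝓞 L ⧸ w.asIdeal) := by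
    rw [← Ideal.absNorm_ne_zero_iff]
    exact fun h0 => w.ne_bot (Ideal.absNorm_eq_zero_iff.1 h0)
  have := Fintype.ofFinite (𝓞 L ⧸ w.asIdeal)
  have hne : (Polynomial.X ^ q - Polynomial.X : Polynomial (𝓞 L ⧸ w.asIdeal)) ≠ 0 :=
    FiniteField.X_pow_card_sub_X_ne_zero _ hq
  have h1 : ∀ y : 𝓞 L ⧸ w.asIdeal, y ^ q = y := by
    intro y
    obtain ⟨x, rfl⟩ := Ideal.Quotient.mk_surjective y
    rw [← map_pow]
    exact ((Ideal.Quotient.eq).2 (h x)).symm
  have h2 : (Finset.univ : Finset (𝓞 L ⧸ w.asIdeal)).card ≤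
      (Polynomial.X ^ q - Polynomial.X : Polynomial (𝓞 L ⧸ w.asIdeal)).natDegree := by
    apply Polynomial.card_le_degree_of_subset_roots
    intro y _
    rw [Polynomial.mem_roots hne, Polynomial.IsRoot.def, Polynomial.eval_sub,
      Polynomial.eval_pow, Polynomial.eval_X, h1, sub_self]
  rw [FiniteField.X_pow_card_sub_X_natDegree_eq _ hq, Finset.card_univ,
    ← Nat.card_eq_fintype_card] at h2
  rw [Ideal.absNorm_apply, Submodule.cardQuot_apply]
  exact h2

private theorem locc_main [DecidableEq Kb] {N L : Type u} [Field N] [NumberField N] [Field L]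
    [NumberField L] [Algebra K L] [Algebra N L] [Algebra L Kb] [Algebra N Kb]
    [IsScalarTower K L Kb] [IsScalarTower N L Kb] [Algebra.IsAlgebraic N Kb]
    (h2 : Module.finrank N L = 2)
    (hn : ∀ x : N, algebraMap N L x ≠ algebraMap K L (ta : K)) {w : HeightOneSpectrum (𝓞 L)}
    (hf : HC.f ∉ (w.under (𝓞 K)).asIdeal) (W : WeierstrassCurve N)
    (hW : (∃ C : VariableChange N, C • W = LF.crv (cA N) (cB N)) ∨
      ∃ C : VariableChange N, C • W = LF.crv ((LF.tA : ℤ) : N) ((LF.tB : ℤ) : N))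
    (hi : w.asIdeal.inertiaDeg (𝓞 N) = 2) :
    locPoly W (w.under (𝓞 N)) = 1 + Polynomial.C (Ideal.absNorm (w.under (𝓞 N)).asIdeal : ℤ) *
        Polynomial.X ^ 2 ∧
      psi L w.asIdeal = -(Ideal.absNorm (w.under (𝓞 N)).asIdeal : 𝓞 K) := by
  obtain ⟨V, hV⟩ := exists_abv (Ω := Kb) w
  have hV' : Abv (w.under (𝓞 N)) V := abv_res hV
  obtain ⟨Cv, hCv⟩ := good_v hf h2 hn W hW
  obtain ⟨CL, hCL⟩ := cls_L (L := L) W hW
  obtain ⟨D, hD⟩ : ∃ D : VariableChange L, D = Cv.map (algebraMap N L) * CL⁻¹ := ⟨_, rfl⟩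
  have hDW : D • E L = (Cv • W).map (algebraMap N L) := by
    rw [hD, mul_smul, ← hCL, inv_smul_smul, WeierstrassCurve.map_variableChange]
  have hgD : GM.GoodW (w.valuation L) (D • E L) := by
    let _ : DecidableEq N := Classical.decEq N
    rw [hDW]
    exact GM.good_map (GM.val_under w) hCv
  obtain ⟨q, hq⟩ : ∃ q, Ideal.absNorm (w.under (𝓞 N)).asIdeal = q := ⟨_, rfl⟩
  have hq2 : Ideal.absNorm w.asIdeal = q ^ 2 := by
    have hp : w.asIdeal.IsPrime := w.isPrime
    have hl : w.asIdeal.LiesOver (w.under (𝓞 N)).asIdeal := ⟨rfl⟩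
    rw [← hq, ← Ideal.absNorm_pow_inertiaDeg (w.under (𝓞 N)).asIdeal w.asIdeal, hi]
  have hq1 : 1 < q := by
    rw [← hq]
    have h0 : Ideal.absNorm (w.under (𝓞 N)).asIdeal ≠ 0 := fun h =>
      (w.under (𝓞 N)).ne_bot (Ideal.absNorm_eq_zero_iff.1 h)
    have h1 : Ideal.absNorm (w.under (𝓞 N)).asIdeal ≠ 1 := fun h =>
      (w.under (𝓞 N)).isPrime.ne_top (Ideal.absNorm_eq_one_iff.1 h)
    omega
  obtain ⟨σ, hσ⟩ := exists_fr hV'
  rw [hq] at hσ
  have htw : ∀ x : N, algebraMap L Kb (algebraMap N L x) = algebraMap N Kb x := fun x =>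
    (IsScalarTower.algebraMap_apply N L Kb x).symm
  have htk : ∀ x : K, algebraMap L Kb (algebraMap K L x) = algebraMap K Kb x := fun x =>
    (IsScalarTower.algebraMap_apply K L Kb x).symm
  have hta : σ (algebraMap K Kb (ta : K)) = algebraMap K Kb ((cj (ta : 𝓞 K) : 𝓞 K) : K) := by
    rcases ta_or ((σ : Kb →ₐ[N] Kb) : Kb →+* Kb) with h | h
    · exfalso
      have h' : σ (algebraMap K Kb (ta : K)) = algebraMap K Kb (ta : K) := h
      have hfix : ∀ x : L, σ (algebraMap L Kb x) = algebraMap L Kb x := by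
        intro x
        obtain ⟨a, b, rfl⟩ := gen_L h2 hn x
        rw [map_add, map_mul, htw, htw, htk, map_add, map_mul, σ.commutes, σ.commutes, h']
      have hle := locc_card w hq1 fun x => by
        have h3 := hσ (algebraMap L Kb (x : L)) ((hV _).2 (w.valuation_le_one x))
        rw [hfix, ← map_pow, ← map_sub, abv_lt hV] at h3
        have e : (x : L) - (x : L) ^ q = ((x - x ^ q : 𝓞 L) : L) := by
          change _ = algebraMap (𝓞 L) L (x - x ^ q)
          rw [map_sub, map_pow]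
        rw [e, GM.val_lt_mem] at h3
        exact h3
      rw [hq2] at hle
      nlinarith
    · exact h
  have hσ' : ∀ a : 𝓞 K, σ (algebraMap K Kb (a : K)) = algebraMap K Kb ((cj a : 𝓞 K) : K) := by
    intro a
    obtain ⟨m, n, rfl⟩ := exists_coords a
    have e1 : algebraMap K Kb (((m : 𝓞 K) + (n : 𝓞 K) * ta : 𝓞 K) : K) =
        (m : Kb) + (n : Kb) * algebraMap K Kb (ta : K) := by
      change algebraMap K Kb (algebraMap (𝓞 K) K ((m : 𝓞 K) + (n : 𝓞 K) * ta)) = _
      rw [map_add, map_mul, map_intCast, map_intCast, map_add, map_mul, map_intCast,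
        map_intCast]
    have e2 : algebraMap K Kb ((cj ((m : 𝓞 K) + (n : 𝓞 K) * ta) : 𝓞 K) : K) =
        (m : Kb) + (n : Kb) * algebraMap K Kb ((cj (ta : 𝓞 K) : 𝓞 K) : K) := by
      rw [map_add, map_mul, map_intCast, map_intCast]
      change algebraMap K Kb (algebraMap (𝓞 K) K ((m : 𝓞 K) + (n : 𝓞 K) * cj ta)) = _
      rw [map_add, map_mul, map_intCast, map_intCast, map_add, map_mul, map_intCast,
        map_intCast]
    rw [e1, e2, map_add, map_mul, map_intCast, map_intCast, hta]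
  have hσL : ∀ x : L, σ (σ (algebraMap L Kb x)) = algebraMap L Kb x := by
    intro x
    obtain ⟨a, b, rfl⟩ := gen_L h2 hn x
    rw [map_add, map_mul, htw, htw, htk, map_add, map_mul, σ.commutes, σ.commutes, hσ',
      map_add, map_mul, σ.commutes, σ.commutes, hσ', cj_cj]
  obtain ⟨hc, hpsi⟩ := inr_core hV hf hgD hCv hDW hq hq2 hσ hσ' hσL
  obtain ⟨-, hloc⟩ := locPoly_good hV' W hCv
  rw [hq, hc] at hloc
  rw [hq]
  refine ⟨?_, hpsi⟩
  rw [hloc, sub_self, map_zero, zero_mul, sub_zero]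

theorem loc_inert' {N L : Type u} [Field N] [NumberField N] [Field L] [NumberField L]
    [Algebra K L] [Algebra N L] (h2 : Module.finrank N L = 2)
    (hn : ∀ x : N, algebraMap N L x ≠ algebraMap K L (ta : K)) {w : HeightOneSpectrum (𝓞 L)}
    (hf : HC.f ∉ (w.under (𝓞 K)).asIdeal) (W : WeierstrassCurve N)
    (hW : (∃ C : VariableChange N, C • W = LF.crv (cA N) (cB N)) ∨
      ∃ C : VariableChange N, C • W = LF.crv ((LF.tA : ℤ) : N) ((LF.tB : ℤ) : N))
    (hi : w.asIdeal.inertiaDeg (𝓞 N) = 2) :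
    locPoly W (w.under (𝓞 N)) = 1 + Polynomial.C (Ideal.absNorm (w.under (𝓞 N)).asIdeal : ℤ) *
        Polynomial.X ^ 2 ∧
      psi L w.asIdeal = -(Ideal.absNorm (w.under (𝓞 N)).asIdeal : 𝓞 K) := by
  classical
  have hKL : Algebra.IsAlgebraic K L := Algebra.IsAlgebraic.tower_top (K := ℚ) K
  let i : L →ₐ[K] Kb := IsAlgClosed.lift
  let _ : Algebra L Kb := i.toRingHom.toAlgebra
  have ht1 : IsScalarTower K L Kb := IsScalarTower.of_algebraMap_eq' i.comp_algebraMap.symm
  let _ : Algebra N Kb := ((algebraMap L Kb).comp (algebraMap N L)).toAlgebra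
  have ht2 : IsScalarTower N L Kb := IsScalarTower.of_algebraMap_eq' rfl
  have h1 : Algebra.IsAlgebraic L Kb := Algebra.IsAlgebraic.tower_top (K := K) L
  have h3 : Algebra.IsAlgebraic N L := by
    have := Module.finite_of_finrank_pos (R := N) (M := L) (by omega)
    infer_instance
  have h4 : Algebra.IsAlgebraic N Kb := Algebra.IsAlgebraic.trans N L Kb
  exact locc_main h2 hn hf W hW hi

end Pool.Agent.Lib.MP_1a91b9_nuX.GL
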