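import Pool.Agent.Lib.MP_1a91b9_nuX.GL.Api
import Pool.Agent.Lib.MP_1a91b9_nuX.GL.LocC
import Pool.Agent.Lib.MP_1a91b9_nuX.GL.CntC

/-!
# The local factors in terms of the Hecke character
-/

set_option autoImplicit false

namespace Pool.Agent.Lib.MP_1a91b9_nuX.GL

open NumberField IsDedekindDomain WeierstrassCurve Pool.Agent.Lib.MP_1a91b9_nuT
  Pool.Agent.Lib.MP_1a91b9_nt

variable [CD] [HC]

universe u

/-- a place which does not divide the conductor is a place of good reduction -/
theorem good_of_f {P : HeightOneSpectrum (𝓞 K)} (h : HC.f ∉ P.asIdeal) :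
    ∃ C : VariableChange K, GM.GoodW (P.valuation K) (C • E K) := good_of_f' h

theorem ps_conj (I : Ideal (𝓞 K)) : ps (I.map cj) = cj (ps I) := ps_conj' I

section
variable {F : Type u} [Field F] [NumberField F] [Algebra K F]

theorem psi_bad {w : HeightOneSpectrum (𝓞 F)} (h : HC.f ∈ (w.under (𝓞 K)).asIdeal) :
    psi F w.asIdeal = 0 := psi_bad' h

theorem loc_good {w : HeightOneSpectrum (𝓞 F)} (h : HC.f ∉ (w.under (𝓞 K)).asIdeal)
    (W : WeierstrassCurve F) (C : VariableChange F) (hC : C • W = E F) :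
    (locPoly W w).map (Int.castRingHom (𝓞 K)) =
      (1 - Polynomial.C (psi F w.asIdeal) * Polynomial.X) *
        (1 - Polynomial.C (cj (psi F w.asIdeal)) * Polynomial.X) := loc_good' h W C hC

end

section
variable {N L : Type u} [Field N] [NumberField N] [Field L] [NumberField L] [Algebra K L]
  [Algebra N L] (h2 : Module.finrank N L = 2)
  (hn : ∀ x : N, algebraMap N L x ≠ algebraMap K L (ta : K))
  {v : HeightOneSpectrum (𝓞 N)} {w : HeightOneSpectrum (𝓞 L)} (hw : w.under (𝓞 N) = v)
  (hf : HC.f ∉ (w.under (𝓞 K)).asIdeal)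
  (W : WeierstrassCurve N) (hW : (∃ C : VariableChange N, C • W = LF.crv (cA N) (cB N)) ∨
    ∃ C : VariableChange N, C • W = LF.crv ((LF.tA : ℤ) : N) ((LF.tB : ℤ) : N))
include h2 hn hw hf

/-- a ramified place divides the conductor -/
theorem ram_f : w.asIdeal.ramificationIdx (𝓞 N) = 1 := ram_f' hf h2 hn

include hW

/-- a place which splits -/
theorem loc_split (hi : w.asIdeal.inertiaDeg (𝓞 N) = 1) :
    locPoly W v = locPoly (W.map (algebraMap N L)) w := by
  subst hw
  exact loc_split' hf h2 hn W hW hi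

/-- an inert place -/
theorem loc_inert (hi : w.asIdeal.inertiaDeg (𝓞 N) = 2) :
    locPoly W v = 1 + Polynomial.C (Ideal.absNorm v.asIdeal : ℤ) * Polynomial.X ^ 2 ∧
      psi L w.asIdeal = -(Ideal.absNorm v.asIdeal : 𝓞 K) := by
  subst hw
  exact loc_inert' h2 hn hf W hW hi

end

end Pool.Agent.Lib.MP_1a91b9_nuX.GL
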