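import Pool.Agent.Lib.MP_1a91b9_nuX.GL.Env
import Pool.Agent.Lib.MP_1a91b9_nuX.UF.Ell

/-!
# The auxiliary prime numbers for the units of `K`

PROOF. `core`: let `α` with `Ideal.absNorm (Ideal.span {α}) = l` prime, `g = Nat.gcd (l - 1) 48`. If `α ∣ c ^ 48 - 1` then `α ∤ c`; `𝓞 K ⧸ span {α}` is a finite field with `l` elements
(`Ideal.isPrime_of_irreducible_absNorm`, maximal since nonzero prime; or take an integer `k` with `α ∣ c - k`: `Deg1.exists_int` of `nuT/DB/Bas.lean` (imported), `α ∣ (n : 𝓞 K) ↔ (l : ℤ) ∣ n`: `Deg1.dvd_int_iff`,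
so `k ^ 48 ≡ 1` modulo `l`, Fermat `k ^ (l - 1) ≡ 1`, so `k ^ g ≡ 1` (in `(ZMod l)ˣ`: `orderOf_dvd_of_pow_eq_one`, `Nat.dvd_gcd`), hence `α ∣ c ^ g - 1`.
`ellK_two`: `UF.exists_ell h`: `l % 12 = 11`, so `l - 1 ≡ 10` modulo `12`: `Nat.gcd (l - 1) 48 = 2` (`l - 1 = 12 m + 10 = 2 (6 m + 5)`, `6 m + 5` is prime to `2` and `3`): `c ^ 2 - 1 = (c - 1) (c + 1)`, `α` is prime, `u = 1` or `u = -1`. `5 ≤ l` as `l % 12 = 11`.
`ellK_four`: `UF.exists_ell_four`: `l % 24 = 5`: `l - 1 = 24 m + 4 = 4 (6 m + 1)`, gcd with `48` is `4`. `ta ^ 2 = -1` (`UF.ta_sq_four`): `c ^ 4 - 1 = (c - 1) (c + 1) (c - ta) (c + ta)`, `ta` is a unit (`ta * (-ta) = 1`).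
`ellK_six`: `UF.exists_ell_six`: `l % 12 = 7`: `l - 1 = 12 m + 6 = 6 (2 m + 1)`; the gcd with `48` is `6` (`2 m + 1` may be divisible by `3`: `gcd (6 (2 m + 1)) 48 = 6 * gcd (2 m + 1) 8 = 6`). `ta ^ 2 = ta - 1` (from `CD.quad` with `tr = nm = 1`):
`c ^ 6 - 1 = (c - 1) (c + 1) (c ^ 2 + c + 1) (c ^ 2 - c + 1)`, `c ^ 2 - c + 1 = (c - ta) (c - (1 - ta))`, `c ^ 2 + c + 1 = (c + ta) (c + (1 - ta))`; `ta * (1 - ta) = 1`, so `ta`, `1 - ta` are units.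
-/

set_option autoImplicit false

namespace Pool.Agent.Lib.MP_1a91b9_nuX.GL

open NumberField IsDedekindDomain WeierstrassCurve Pool.Agent.Lib.MP_1a91b9_nuT DB

variable [CD]

theorem ellA_core {l : ℕ} (hl : l.Prime) {α : 𝓞 K} (hα : Ideal.absNorm (Ideal.span {α}) = l) {g : ℕ}
    (hg : Nat.gcd (l - 1) 48 = g) {c : 𝓞 K} (hc : α ∣ c ^ 48 - 1) : α ∣ c ^ g - 1 := by
  have := Fact.mk hl
  have hD : Deg1 α l := ⟨hl, hα⟩
  obtain ⟨k, -, hck⟩ := hD.exists_int c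
  have hpow : ∀ n : ℕ, α ∣ c ^ n - (k : 𝓞 K) ^ n := fun n =>
    hck.trans (sub_dvd_pow_sub_pow _ _ n)
  have h1 : α ∣ (((k : ℤ) ^ 48 - 1 : ℤ) : 𝓞 K) := by
    have e : (((k : ℤ) ^ 48 - 1 : ℤ) : 𝓞 K) = (c ^ 48 - 1) - (c ^ 48 - (k : 𝓞 K) ^ 48) := by
      push_cast
      ring
    rw [e]
    exact dvd_sub hc (hpow 48)
  rw [hD.dvd_int_iff, ← ZMod.intCast_zmod_eq_zero_iff_dvd] at h1
  have h2 : (k : ZMod l) ^ 48 = 1 := by
    push_cast at h1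
    exact sub_eq_zero.1 h1
  have h0 : (k : ZMod l) ≠ 0 := by
    intro h
    rw [h, zero_pow (by norm_num)] at h2
    exact zero_ne_one h2
  have h4 : (k : ZMod l) ^ (l - 1) = 1 := ZMod.pow_card_sub_one_eq_one h0
  have h5 : (k : ZMod l) ^ g = 1 := by
    rw [← hg]
    exact orderOf_dvd_iff_pow_eq_one.1
      (Nat.dvd_gcd (orderOf_dvd_of_pow_eq_one h4) (orderOf_dvd_of_pow_eq_one h2))
  have h6 : α ∣ (((k : ℤ) ^ g - 1 : ℤ) : 𝓞 K) := by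
    rw [hD.dvd_int_iff, ← ZMod.intCast_zmod_eq_zero_iff_dvd]
    push_cast
    rw [h5, sub_self]
  have h7 : c ^ g - 1 = (c ^ g - (k : 𝓞 K) ^ g) + (((k : ℤ) ^ g - 1 : ℤ) : 𝓞 K) := by
    push_cast
    ring
  rw [h7]
  exact dvd_add (hpow g) h6

private theorem ellA_two {l : ℕ} (hl : l.Prime) (hm : l % 12 = 11) {α : 𝓞 K}
    (hα : Ideal.absNorm (Ideal.span {α}) = l) (c : 𝓞 K) (hc : α ∣ c ^ 48 - 1) :
    ∃ u : (𝓞 K)ˣ, α ∣ c - u := by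
  have hg : Nat.gcd (l - 1) 48 = 2 := by
    rw [Nat.gcd_comm, Nat.gcd_rec]
    have h : (l - 1) % 48 = 10 ∨ (l - 1) % 48 = 22 ∨ (l - 1) % 48 = 34 ∨ (l - 1) % 48 = 46 := by
      omega
    rcases h with h | h | h | h <;> rw [h] <;> norm_num
  have h1 := ellA_core hl hα hg hc
  have hP : Prime α := (⟨hl, hα⟩ : Deg1 α l).isPrime
  have h2 : α ∣ (c - 1) * (c + 1) := by
    have e : (c - 1) * (c + 1) = c ^ 2 - 1 := by ring
    rw [e]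
    exact h1
  rcases hP.dvd_or_dvd h2 with h3 | h3
  · exact ⟨1, by rwa [Units.val_one]⟩
  · exact ⟨-1, by rwa [Units.val_neg, Units.val_one, sub_neg_eq_add]⟩

private theorem ellA_four (h1 : CD.tr = 0) (h2 : CD.nm = 1) {l : ℕ} (hl : l.Prime)
    (hm : l % 24 = 5) {α : 𝓞 K} (hα : Ideal.absNorm (Ideal.span {α}) = l) (c : 𝓞 K)
    (hc : α ∣ c ^ 48 - 1) : ∃ u : (𝓞 K)ˣ, α ∣ c - u := by
  have hg : Nat.gcd (l - 1) 48 = 4 := by
    rw [Nat.gcd_comm, Nat.gcd_rec]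
    have h : (l - 1) % 48 = 4 ∨ (l - 1) % 48 = 28 := by omega
    rcases h with h | h <;> rw [h] <;> norm_num
  have h3 := ellA_core hl hα hg hc
  have hP : Prime α := (⟨hl, hα⟩ : Deg1 α l).isPrime
  have hs := UF.ta_sq_four h1 h2
  have hu1 : (CD.ta : 𝓞 K) * -CD.ta = 1 := by linear_combination -hs
  have hu2 : -(CD.ta : 𝓞 K) * CD.ta = 1 := by linear_combination -hs
  have h4 : α ∣ ((c - 1) * (c + 1)) * ((c - CD.ta) * (c + CD.ta)) := by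
    have e : ((c - 1) * (c + 1)) * ((c - CD.ta) * (c + CD.ta)) = c ^ 4 - 1 := by
      linear_combination -(c ^ 2 - 1) * hs
    rw [e]
    exact h3
  rcases hP.dvd_or_dvd h4 with h5 | h5 <;> rcases hP.dvd_or_dvd h5 with h6 | h6
  · exact ⟨1, by rwa [Units.val_one]⟩
  · exact ⟨-1, by rwa [Units.val_neg, Units.val_one, sub_neg_eq_add]⟩
  · exact ⟨⟨CD.ta, -CD.ta, hu1, hu2⟩, h6⟩
  · refine ⟨⟨-CD.ta, CD.ta, hu2, hu1⟩, ?_⟩
    rw [Units.val_mk, sub_neg_eq_add]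
    exact h6

private theorem ellA_six (h1 : CD.tr = 1) (h2 : CD.nm = 1) {l : ℕ} (hl : l.Prime)
    (hm : l % 12 = 7) {α : 𝓞 K} (hα : Ideal.absNorm (Ideal.span {α}) = l) (c : 𝓞 K)
    (hc : α ∣ c ^ 48 - 1) : ∃ u : (𝓞 K)ˣ, α ∣ c - u := by
  have hg : Nat.gcd (l - 1) 48 = 6 := by
    rw [Nat.gcd_comm, Nat.gcd_rec]
    have h : (l - 1) % 48 = 6 ∨ (l - 1) % 48 = 18 ∨ (l - 1) % 48 = 30 ∨ (l - 1) % 48 = 42 := by
      omega
    rcases h with h | h | h | h <;> rw [h] <;> norm_num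
  have h3 := ellA_core hl hα hg hc
  have hP : Prime α := (⟨hl, hα⟩ : Deg1 α l).isPrime
  have hs : (CD.ta : 𝓞 K) ^ 2 = CD.ta - 1 := by
    have hq := CD.quad
    rw [h1, h2] at hq
    rw [hq]
    push_cast
    ring
  have hu1 : (CD.ta : 𝓞 K) * (1 - CD.ta) = 1 := by linear_combination -hs
  have hu2 : (1 - CD.ta : 𝓞 K) * CD.ta = 1 := by linear_combination -hs
  have hv1 : -(CD.ta : 𝓞 K) * -(1 - CD.ta) = 1 := by linear_combination -hs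
  have hv2 : -(1 - CD.ta : 𝓞 K) * -CD.ta = 1 := by linear_combination -hs
  have h4 : α ∣ ((c - 1) * (c + 1)) * (((c - CD.ta) * (c - (1 - CD.ta))) *
      ((c + CD.ta) * (c + (1 - CD.ta)))) := by
    have e : ((c - 1) * (c + 1)) * (((c - CD.ta) * (c - (1 - CD.ta))) *
        ((c + CD.ta) * (c + (1 - CD.ta)))) = c ^ 6 - 1 := by
      have a1 : (c - CD.ta) * (c - (1 - CD.ta)) = c ^ 2 - c + 1 := by linear_combination -hs
      have a2 : (c + CD.ta) * (c + (1 - CD.ta)) = c ^ 2 + c + 1 := by linear_combination -hs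
      rw [a1, a2]
      ring
    rw [e]
    exact h3
  rcases hP.dvd_or_dvd h4 with h5 | h5
  · rcases hP.dvd_or_dvd h5 with h6 | h6
    · exact ⟨1, by rwa [Units.val_one]⟩
    · exact ⟨-1, by rwa [Units.val_neg, Units.val_one, sub_neg_eq_add]⟩
  · rcases hP.dvd_or_dvd h5 with h6 | h6 <;> rcases hP.dvd_or_dvd h6 with h7 | h7
    · exact ⟨⟨CD.ta, 1 - CD.ta, hu1, hu2⟩, h7⟩
    · exact ⟨⟨1 - CD.ta, CD.ta, hu2, hu1⟩, h7⟩
    · refine ⟨⟨-CD.ta, -(1 - CD.ta), hv1, hv2⟩, ?_⟩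
      rw [Units.val_mk, sub_neg_eq_add]
      exact h7
    · refine ⟨⟨-(1 - CD.ta), -CD.ta, hv2, hv1⟩, ?_⟩
      rw [Units.val_mk, sub_neg_eq_add]
      exact h7

theorem ellK_two (h : ((CD.tr, CD.nm) : ℤ × ℤ) ∈ UF.qList) : EllK := by
  obtain ⟨l₁, l₂, α₁, α₂, hp1, hp2, hne, hm1, hm2, hn1, hn2⟩ := UF.exists_ell h
  exact ⟨l₁, l₂, α₁, α₂, hp1, hp2, hne, by omega, by omega, hn1, hn2,
    ellA_two hp1 hm1 hn1, ellA_two hp2 hm2 hn2⟩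

theorem ellK_four (h1 : CD.tr = 0) (h2 : CD.nm = 1) : EllK := by
  obtain ⟨l₁, l₂, α₁, α₂, hp1, hp2, hne, hm1, hm2, hn1, hn2⟩ := UF.exists_ell_four h1 h2
  exact ⟨l₁, l₂, α₁, α₂, hp1, hp2, hne, by omega, by omega, hn1, hn2,
    ellA_four h1 h2 hp1 hm1 hn1, ellA_four h1 h2 hp2 hm2 hn2⟩

theorem ellK_six (h1 : CD.tr = 1) (h2 : CD.nm = 1) : EllK := by
  obtain ⟨l₁, l₂, α₁, α₂, hp1, hp2, hne, hm1, hm2, hn1, hn2⟩ := UF.exists_ell_six h1 h2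
  exact ⟨l₁, l₂, α₁, α₂, hp1, hp2, hne, by omega, by omega, hn1, hn2,
    ellA_six h1 h2 hp1 hm1 hn1, ellA_six h1 h2 hp2 hm2 hn2⟩

end Pool.Agent.Lib.MP_1a91b9_nuX.GL
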