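import Pool.Agent.Lib.MP_1a91b9_nuX.GL.InA
import Pool.Agent.Lib.MP_1a91b9_nuX.GL.ConjB

/-!
# The theorems on the local Galois action which identify the Hecke datum of the curve
-/

set_option autoImplicit false

namespace Pool.Agent.Lib.MP_1a91b9_nuX.GL

open NumberField IsDedekindDomain WeierstrassCurve Pool.Agent.Lib.MP_1a91b9_nuT DB

variable [CD]

/-- the Frobenius automorphisms at a place of good reduction -/
theorem fr_unit (hE : EllK) (P : HeightOneSpectrum (𝓞 K))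
    (hg : ∃ C : VariableChange K, GM.GoodW (P.valuation K) (C • E K)) :
    ∃ ψ : 𝓞 K, Ideal.span {ψ} = P.asIdeal ∧ ∀ [DecidableEq Kb] (V : ValuationSubring Kb), Abv P V →
      ∀ σ : Kb ≃ₐ[K] Kb, IsFr V (Ideal.absNorm P.asIdeal) σ →
      ∀ T : Pt Kb, Tr V.valuation T → ga σ T = sm Kb ψ T := by
  let d : DecidableEq Kb := Classical.decEq _
  obtain ⟨ψ, h1, h2⟩ := fr_unit' hE P hg
  refine ⟨ψ, h1, ?_⟩
  intro d'
  have e : d' = d := Subsingleton.elim _ _
  subst e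
  exact h2

/-- the inertia automorphisms -/
theorem in_unit [DecidableEq Kb] (hE : EllK) {P : HeightOneSpectrum (𝓞 K)}
    {V : ValuationSubring Kb} (hV : Abv P V) {σ : Kb ≃ₐ[K] Kb} (hσ : IsFr V 1 σ) :
    ∃ ζ : (𝓞 K)ˣ, ∀ T : Pt Kb, Tr V.valuation T → ga σ T = sm Kb (ζ : 𝓞 K) T :=
  in_unit' hV hE hσ

/-- the criterion of Néron, Ogg and Shafarevich -/
theorem good_iff [DecidableEq Kb] {P : HeightOneSpectrum (𝓞 K)} {V : ValuationSubring Kb}
    (hV : Abv P V) : (∃ C : VariableChange K, GM.GoodW (P.valuation K) (C • E K)) ↔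
      ∀ σ : Kb ≃ₐ[K] Kb, IsFr V 1 σ → ∀ T : Pt Kb, Tr V.valuation T → ga σ T = T :=
  ⟨fun h _ hσ _ hT => nos_triv hV h hσ hT, fun h => nos_conv hV h⟩

/-- the ramified places of `K` are places of bad reduction -/
theorem ram_bad (hE : EllK) (P : HeightOneSpectrum (𝓞 K)) {p : ℕ} (hp : p.Prime)
    (hN : Ideal.absNorm P.asIdeal = p) (hc : P.asIdeal.map cj = P.asIdeal) :
    ¬ ∃ C : VariableChange K, GM.GoodW (P.valuation K) (C • E K) :=
  ram_bad' hE P hp hN hc

/-- there is an automorphism of the algebraic closure over the conjugation of `K` -/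
theorem exists_semi : ∃ τ : Kb ≃+* Kb, ∀ a : 𝓞 K,
    τ (algebraMap K Kb (a : K)) = algebraMap K Kb ((cj a : 𝓞 K) : K) := exists_semi'

/-- the automorphisms over the conjugation of `K` act semilinearly on the points -/
theorem semi_sm [DecidableEq Kb] {τ : Kb ≃+* Kb} (hτ : ∀ a : 𝓞 K,
      τ (algebraMap K Kb (a : K)) = algebraMap K Kb ((cj a : 𝓞 K) : K)) (a : 𝓞 K) (T : Pt Kb) :
    rp (τ : Kb →+* Kb) (sm Kb a T) = sm Kb (cj a) (rp (τ : Kb →+* Kb) T) := semi_sm' hτ a T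

end Pool.Agent.Lib.MP_1a91b9_nuX.GL
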