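import Pool.Agent.Lib.MP_1a91b9_nuX.GL.Abs
import Pool.Agent.Lib.MP_1a91b9_nuX.GM.Plc

/-!
# The place below a valuation subring

PROOF.
`abv_unique`: `P.valuation k` and `P'.valuation k` have the same valuation ring, so the same elements of value `< 1`, `x ∈ P.asIdeal ↔ x ∈ P'.asIdeal` for `x ∈ 𝓞 k` (`HeightOneSpectrum.valuation_lt_one_iff_mem`), `HeightOneSpectrum.ext`.
`abv_res`: `GM.val_under`-like: `w.valuation M (algebraMap k M x) ≤ 1 ↔ (w.under (𝓞 k)).valuation k x ≤ 1` follows from `GM.val_base` (`= (...) ^ ramificationIdx`, `ramificationIdx ≠ 0`); `algebraMap k Ω = algebraMap M Ω ∘ algebraMap k M`.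
`abv_under`: `𝓞 M ⊆ V`: `x ∈ 𝓞 M` is integral over `ℤ`, `V` is integrally closed (a valuation ring; `ValuationSubring` contains every element integral over it: if `V x > 1` an equation `x ^ n = Σ a_i x ^ i` with integer coefficients (`V a_i ≤ 1`) is impossible).
`𝔴 = {x ∈ 𝓞 M | V x < 1}` is a prime ideal, not zero (it contains the image of a nonzero element of `P.asIdeal`, `abv_lt`). `w = ⟨𝔴, _, _⟩`. `Abv w V`: for `x ∈ 𝓞 M`: `w.valuation M x < 1 ↔ x ∈ 𝔴 ↔ V x < 1`. For `y : M`, `y ≠ 0`: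
if `w.valuation M y ≤ 1` there are `a, b ∈ 𝓞 M`, `b ∉ 𝔴`, `y = a / b` (localisation at the prime; e.g. from `GM.exists_int` or: `y = a / b` with arbitrary `a, b`, and an element `c` with `c b ∈ ...`; Mathlib: `HeightOneSpectrum` `exists_..`, `IsLocalization.AtPrime`, `valuation_le_one ↔ mem localization`), so
`V y = V a / V b ≤ 1`. If `w.valuation M y > 1` then `w.valuation M y⁻¹ < 1`, `y⁻¹ = a / b`, `b ∉ 𝔴`, `a ∈ 𝔴`: `V y⁻¹ < 1`, `V y > 1`. `w.under (𝓞 k) = P`: `abv_res` and `abv_unique`.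
-/

set_option autoImplicit false

namespace Pool.Agent.Lib.MP_1a91b9_nuX.GL

open NumberField IsDedekindDomain

section
variable {k Ω : Type*} [Field k] [NumberField k] [Field Ω] [Algebra k Ω]

/-- the place below is unique -/
theorem abv_unique {P P' : HeightOneSpectrum (𝓞 k)} {V : ValuationSubring Ω} (hV : Abv P V)
    (hV' : Abv P' V) : P = P' := by
  apply HeightOneSpectrum.ext
  ext x
  rw [← GM.val_lt_mem, ← GM.val_lt_mem, ← abv_lt hV, ← abv_lt hV']

variable {M : Type*} [Field M] [NumberField M] [Algebra k M] [Algebra M Ω] [IsScalarTower k M Ω]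

/-- restriction to a subfield -/
theorem abv_res {w : HeightOneSpectrum (𝓞 M)} {V : ValuationSubring Ω} (hV : Abv w V) :
    Abv (w.under (𝓞 k)) V := by
  intro x
  rw [IsScalarTower.algebraMap_apply k M Ω, hV (algebraMap k M x), GM.val_base]
  have hl : w.asIdeal.LiesOver (w.under (𝓞 k)).asIdeal := ⟨rfl⟩
  have hm : (w.under (𝓞 k)).asIdeal.IsMaximal := (w.under (𝓞 k)).isMaximal
  have hp : w.asIdeal.IsPrime := w.isPrime
  have h0 : w.asIdeal.ramificationIdx (𝓞 k) ≠ 0 := by
    rw [← Ideal.ramificationIdx'_eq_ramificationIdx _ _ (w.under (𝓞 k)).ne_bot]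
    exact Ideal.IsDedekindDomain.ramificationIdx'_ne_zero_of_liesOver _ (w.under (𝓞 k)).ne_bot
  exact pow_le_one_iff h0

/-- the place below -/
theorem abv_under {P : HeightOneSpectrum (𝓞 k)} {V : ValuationSubring Ω} (hV : Abv P V) :
    ∃ w : HeightOneSpectrum (𝓞 M), w.under (𝓞 k) = P ∧ Abv w V := by
  classical
  -- the integers of `M` are in `V`
  have hint : ∀ x : 𝓞 M, algebraMap M Ω (x : M) ∈ V := by
    intro x
    have h1 : IsIntegral ℤ (algebraMap M Ω (x : M)) :=
      (RingOfIntegers.isIntegral_coe x).map (algebraMap M Ω).toIntAlgHom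
    have h2 : IsIntegral V (algebraMap M Ω (x : M)) := h1.tower_top
    obtain ⟨y, hy⟩ := IsIntegrallyClosed.isIntegral_iff.1 h2
    rw [← hy]
    exact y.2
  let f : 𝓞 M →+* V := ((algebraMap M Ω).comp (algebraMap (𝓞 M) M)).codRestrict V.toSubring hint
  have hf : ∀ x : 𝓞 M, ((f x : V) : Ω) = algebraMap M Ω (x : M) := fun x => rfl
  let 𝔴 : Ideal (𝓞 M) := (IsLocalRing.maximalIdeal V).comap f
  have h𝔴 : ∀ x : 𝓞 M, x ∈ 𝔴 ↔ V.valuation (algebraMap M Ω (x : M)) < 1 := by
    intro x
    rw [Ideal.mem_comap, ValuationSubring.valuation_lt_one_iff, hf]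
  have hprime : 𝔴.IsPrime := Ideal.IsPrime.comap f
  have hbot : 𝔴 ≠ ⊥ := by
    obtain ⟨a, ha, ha0⟩ := Submodule.exists_mem_ne_zero_of_ne_bot P.ne_bot
    intro h0
    have h1 : algebraMap (𝓞 k) (𝓞 M) a ∈ 𝔴 := by
      rw [h𝔴]
      have h2 : algebraMap M Ω ((algebraMap (𝓞 k) (𝓞 M) a : 𝓞 M) : M) =
          algebraMap k Ω (a : k) := by
        rw [IsScalarTower.algebraMap_apply k M Ω]
        rfl
      rw [h2, abv_lt hV, GM.val_lt_mem]
      exact ha
    rw [h0, Ideal.mem_bot] at h1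
    exact ha0 ((FaithfulSMul.algebraMap_injective (𝓞 k) (𝓞 M)) (by rw [h1, map_zero]))
  let w : HeightOneSpectrum (𝓞 M) := ⟨𝔴, hprime, hbot⟩
  -- integral elements of the place are in `V`
  have hone : ∀ d : w.asIdeal.primeCompl,
      V.valuation (algebraMap M Ω (algebraMap (𝓞 M) M d)) = 1 := by
    intro d
    refine le_antisymm ((V.valuation_le_one_iff _).2 (hint d)) ?_
    by_contra h1
    rw [not_le] at h1
    exact d.2 ((h𝔴 d).2 h1)
  have hle : ∀ y : M, w.valuation M y ≤ 1 → V.valuation (algebraMap M Ω y) ≤ 1 := by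
    intro y hy
    obtain ⟨n, d, hab⟩ := w.exists_primeCompl_mul_eq_of_integer y hy
    have h1 : V.valuation (algebraMap M Ω y) * V.valuation (algebraMap M Ω (algebraMap (𝓞 M) M d))
        = V.valuation (algebraMap M Ω (algebraMap (𝓞 M) M n)) := by
      rw [← map_mul, ← map_mul, hab]
    rw [hone d, mul_one] at h1
    rw [h1]
    exact (V.valuation_le_one_iff _).2 (hint n)
  have hlt : ∀ y : M, w.valuation M y < 1 → V.valuation (algebraMap M Ω y) < 1 := by
    intro y hy
    obtain ⟨n, d, hab⟩ := w.exists_primeCompl_mul_eq_of_integer y hy.le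
    have h1 : V.valuation (algebraMap M Ω y) * V.valuation (algebraMap M Ω (algebraMap (𝓞 M) M d))
        = V.valuation (algebraMap M Ω (algebraMap (𝓞 M) M n)) := by
      rw [← map_mul, ← map_mul, hab]
    rw [hone d, mul_one] at h1
    rw [h1]
    refine (h𝔴 n).1 ?_
    have h2 : w.valuation M y * w.valuation M (algebraMap (𝓞 M) M d)
        = w.valuation M (algebraMap (𝓞 M) M n) := by
      rw [← map_mul, hab]
    have h3 : w.valuation M (algebraMap (𝓞 M) M d) ≤ 1 := w.valuation_le_one _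
    have h4 : w.valuation M (algebraMap (𝓞 M) M n) < 1 := by
      rw [← h2]
      exact mul_lt_one_of_lt_of_le hy h3
    exact (GM.val_lt_mem (w := w) n).1 h4
  have hw : Abv w V := by
    intro y
    refine ⟨fun h => ?_, hle y⟩
    by_contra h1
    rw [not_le] at h1
    have hy : y ≠ 0 := by
      rintro rfl
      rw [map_zero] at h1
      exact not_lt_of_ge zero_le h1
    have h2 : w.valuation M y⁻¹ < 1 := by
      rw [map_inv₀]
      exact inv_lt_one_of_one_lt₀ h1
    have h3 := hlt _ h2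
    rw [map_inv₀, map_inv₀] at h3
    have h4 : V.valuation (algebraMap M Ω y) ≠ 0 := by
      rw [Valuation.ne_zero_iff]
      exact (map_ne_zero _).2 hy
    have h5 : 1 < V.valuation (algebraMap M Ω y) := by
      by_contra h6
      rw [not_lt] at h6
      exact not_lt_of_ge ((one_le_inv₀ (zero_lt_iff.2 h4)).2 h6) h3
    exact not_lt_of_ge h h5
  exact ⟨w, abv_unique (abv_res hw) hV, hw⟩

end

end Pool.Agent.Lib.MP_1a91b9_nuX.GL
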