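import Pool.Agent.Lib.MP_1a91b9_nuX.GM.Nos

/-!
# Descent of a good model along an unramified quadratic extension

PROOF. `L / N` is Galois of degree `2` (characteristic zero: `Algebra.IsQuadraticExtension`, `IsGalois.of_...`, or normal because of degree two (`Algebra.IsQuadraticExtension.normal`) and separable). `e(w/v) = 1`: the inertia group `w.asIdeal.inertia Gal(L/N)` has `e = 1` elements (`Ideal.card_inertia_eq_ramificationIdxIn`,
`Ideal.ramificationIdxIn_eq_ramificationIdx`), see the use in `GM/Plc.lean` (`inert_unr`), so `σ = 1` for every `σ` with `∀ y, σ • y - y ∈ w.asIdeal`. Apply `GM.desc_good` to `u = C.u`, `r = C.r`, `s = C.s`, `t = C.t` (its hypothesis on the inertia is trivial, its second hypothesis is `hC`), see `GM.desc_inert` for the shape.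
-/

set_option autoImplicit false

namespace Pool.Agent.Lib.MP_1a91b9_nuX.GL

open WeierstrassCurve NumberField IsDedekindDomain

universe u

/-- descent of a good model along an unramified quadratic extension -/
theorem desc_unr {N L : Type u} [Field N] [NumberField N] [Field L] [NumberField L] [Algebra N L]
    (h2 : Module.finrank N L = 2) {w : HeightOneSpectrum (𝓞 L)}
    (he : w.asIdeal.ramificationIdx (𝓞 N) = 1) {W : WeierstrassCurve N}
    (h : ∃ C : VariableChange L, GM.GoodW (w.valuation L) (C • W.map (algebraMap N L))) :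
    ∃ C : VariableChange N, GM.GoodW ((w.under (𝓞 N)).valuation N) (C • W) := by
  have hq : Algebra.IsQuadraticExtension N L := ⟨h2⟩
  have hgal : IsGalois N L := { }
  obtain ⟨C, hC⟩ := h
  have hp : w.asIdeal.IsPrime := w.isPrime
  have hfin1 : Finite (𝓞 N ⧸ w.asIdeal.under (𝓞 N)) :=
    Ideal.finiteQuotientOfFreeOfNeBot _ (w.under (𝓞 N)).ne_bot
  have h1 := Ideal.card_inertia_eq_ramificationIdxIn (G := Gal(L/N)) (w.asIdeal.under (𝓞 N))
    w.asIdeal
  rw [Ideal.ramificationIdxIn_eq_ramificationIdx _ w.asIdeal Gal(L/N), he] at h1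
  have h3 : w.asIdeal.inertia Gal(L/N) = ⊥ := Subgroup.eq_bot_of_card_eq _ h1
  refine GM.desc_good (u := (C.u : L)) (r := C.r) (s := C.s) (t := C.t) C.u.ne_zero ?_ ?_
  · intro σ hσ
    have h4 : σ ∈ w.asIdeal.inertia Gal(L/N) := hσ
    rw [h3, Subgroup.mem_bot] at h4
    rw [h4]
    exact ⟨rfl, rfl, rfl, rfl⟩
  · have e1 : (⟨Units.mk0 (C.u : L) C.u.ne_zero, C.r, C.s, C.t⟩ : VariableChange L) = C := by
      ext
      · rfl
      · rfl
      · rfl
      · rfl
    rw [e1]
    exact hC

end Pool.Agent.Lib.MP_1a91b9_nuX.GL
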