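import Pool.Agent.Lib.MP_1a91b9_nuX.GL.Abs
import Pool.Agent.Lib.MP_1a91b9_nuX.GM.Chg
import Pool.Agent.Lib.MP_1a91b9_nuX.DB.Tor2

/-!
# The local theory of the curve of `CD` over an algebraic closure of `K`: definitions

`cx C`, `cy C`: the coordinates in the model `C • E`; `KrC v C`: the kernel of reduction of this model;
`Tr v`: the torsion points of order prime to the residue characteristic.
-/

set_option autoImplicit false

namespace Pool.Agent.Lib.MP_1a91b9_nuX.GL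

open NumberField IsDedekindDomain WeierstrassCurve Pool.Agent.Lib.MP_1a91b9_nuT DB

variable [CD]

/-- the algebraic closure of `K` -/
abbrev Kb : Type := AlgebraicClosure K

/-- the curve over `F` -/
abbrev EF (F : Type*) [Field F] [Algebra K F] : WeierstrassCurve F := (E K).map (algebraMap K F)

/-- auxiliary prime numbers for the units of `K` -/
def EllK : Prop := ∃ (l₁ l₂ : ℕ) (α₁ α₂ : 𝓞 K), l₁.Prime ∧ l₂.Prime ∧ l₁ ≠ l₂ ∧ 5 ≤ l₁ ∧ 5 ≤ l₂ ∧
  Ideal.absNorm (Ideal.span {α₁}) = l₁ ∧ Ideal.absNorm (Ideal.span {α₂}) = l₂ ∧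
  (∀ c : 𝓞 K, α₁ ∣ c ^ 48 - 1 → ∃ u : (𝓞 K)ˣ, α₁ ∣ c - u) ∧
  (∀ c : 𝓞 K, α₂ ∣ c ^ 48 - 1 → ∃ u : (𝓞 K)ˣ, α₂ ∣ c - u)

noncomputable section

section
variable {F : Type*} [Field F] [Algebra K F]

/-- the abscissa in the model `C • E` -/
def cx (C : VariableChange F) (P : Pt F) : F := (xc P - C.r) / (C.u : F) ^ 2

/-- the ordinate in the model `C • E` -/
def cy (C : VariableChange F) (P : Pt F) : F :=
  (yc P - C.s * (xc P - C.r) - C.t) / (C.u : F) ^ 3

variable {Γ : Type*} [LinearOrderedCommGroupWithZero Γ] (v : Valuation F Γ)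
  (C : VariableChange F)

/-- the model `C • E` is good at `v` -/
def GoodC : Prop := GM.GoodW v (C • EF F)

/-- the kernel of reduction of the model `C • E` -/
def KrC (P : Pt F) : Prop := P = 0 ∨ 1 < v (cx C P)

/-- a torsion point of order prime to the residue characteristic -/
def Tr [DecidableEq F] (P : Pt F) : Prop := ∃ n : ℕ, v (n : F) = 1 ∧ n • P = 0

/-- a point killed by an element of `𝓞 K` of value one -/
def Ta [DecidableEq F] (P : Pt F) : Prop :=
  ∃ a : 𝓞 K, v (algebraMap K F (a : K)) = 1 ∧ sm F a P = 0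

end

section
variable {k F : Type*} [Field k] [Algebra K k] [Field F] [Algebra K F] [Algebra k F]
  [IsScalarTower K k F] [DecidableEq F]

theorem gk_sm (σ : F ≃ₐ[k] F) (a : 𝓞 K) (P : Pt F) : ga σ (sm F a P) = sm F a (ga σ P) :=
  pm_sm _ a P

theorem xc_gk (σ : F ≃ₐ[k] F) (P : Pt F) : xc (ga σ P) = σ (xc P) := xc_pm _ P

theorem yc_gk (σ : F ≃ₐ[k] F) (P : Pt F) : yc (ga σ P) = σ (yc P) := yc_pm _ P

theorem gk_inj (σ : F ≃ₐ[k] F) : Function.Injective (ga σ : Pt F →+ Pt F) := pm_inj _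

theorem gk_ne (σ : F ≃ₐ[k] F) {P : Pt F} : ga σ P = 0 ↔ P = 0 :=
  ⟨fun h => gk_inj σ (h.trans (map_zero _).symm), fun h => by rw [h, map_zero]⟩

theorem gk_mul (σ τ : F ≃ₐ[k] F) (P : Pt F) : ga (σ * τ) P = ga σ (ga τ P) := by
  rcases cases_pt P with rfl | ⟨x, y, h, rfl⟩
  · rw [map_zero, map_zero, map_zero]
  · rfl

theorem gk_one (P : Pt F) : ga (1 : F ≃ₐ[k] F) P = P := by
  rcases cases_pt P with rfl | ⟨x, y, h, rfl⟩
  · rw [map_zero]
  · rfl

theorem gk_res (σ : F ≃ₐ[k] F) (P : Pt F) : ga (σ.restrictScalars K) P = ga σ P := rfl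

end

theorem sm_sub {F : Type*} [Field F] [Algebra K F] [DecidableEq F] (a b : 𝓞 K) (P : Pt F) :
    sm F (a - b) P = sm F a P - sm F b P := by
  rw [map_sub]
  rfl

theorem sm_add {F : Type*} [Field F] [Algebra K F] [DecidableEq F] (a b : 𝓞 K) (P : Pt F) :
    sm F (a + b) P = sm F a P + sm F b P := by
  rw [map_add]
  rfl

theorem sm_mul {F : Type*} [Field F] [Algebra K F] [DecidableEq F] (a b : 𝓞 K) (P : Pt F) :
    sm F (a * b) P = sm F a (sm F b P) := by
  rw [map_mul]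
  rfl

theorem sm_one {F : Type*} [Field F] [Algebra K F] [DecidableEq F] (P : Pt F) :
    sm F 1 P = P := by
  rw [map_one]
  rfl

end

end Pool.Agent.Lib.MP_1a91b9_nuX.GL
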