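import Pool.Agent.Lib.MP_1a91b9_nuX.GL.Env
import Pool.Agent.Lib.MP_1a91b9_nuT.Nrm

/-!
# The residue characteristic, the generator of a place

PROOF.
`val_ok`: `Abv` and `P.valuation_le_one`. `val_lt_iff`: `abv_lt` and `HeightOneSpectrum.valuation_lt_one_iff_mem`. `val_one_iff`: from the two.
`res_char`: `P.asIdeal` contains a prime number `p` (it contains `Ideal.absNorm P.asIdeal`, `Ideal.absNorm_mem`, not zero (`Ideal.absNorm_eq_zero_iff`), so one of its prime factors: induction or `Nat.prod_primeFactorsList`, `IsPrime.prod_mem_iff`; or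
the comap of `P.asIdeal` to `ℤ` is a nonzero prime). `V n < 1 ↔ (n : 𝓞 K) ∈ P.asIdeal ↔ p ∣ n`: if `p ∣ n` clear; otherwise a Bezout relation `a n + b p = 1` in `ℤ` shows `n ∉ P.asIdeal`. (`(n : Kb) = algebraMap K Kb ((n : 𝓞 K) : K)`, `map_natCast`.)
`exists_gen`: `𝓞 K` is a principal ideal ring (`IsPrincipalIdealRing.principal P.asIdeal`), `Ideal.span_singleton_prime`. `gen_dvd_iff`: `Ideal.mem_span_singleton`, `val_lt_iff`.
`norm_pow`: `Ideal.absNorm P.asIdeal = p ^ n`, `n ≠ 0`: the norm of `π` divides the norm of `(p)`, which is `p ^ 2` (`absNorm_form p 0` of `nuT/Nrm.lean`), `Nat.dvd_prime_pow`; it is not one since `P.asIdeal ≠ ⊤` (`Ideal.absNorm_eq_one_iff`).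
`norm_cases`: `n = 1` or `n = 2`; in the case `n = 2`, `p = π c` and `N(p) = N(π) N(c)` gives `N(c) = 1`, `c` is a unit.
`exists_prime`: infinitely many primes: `Nat.exists_infinite_primes (max N (p + 1))`.
-/

set_option autoImplicit false

namespace Pool.Agent.Lib.MP_1a91b9_nuX.GL

open NumberField IsDedekindDomain WeierstrassCurve Pool.Agent.Lib.MP_1a91b9_nuT DB

variable [CD]

private theorem resa_nat (n : ℕ) : (n : Kb) = algebraMap K Kb (((n : 𝓞 K) : 𝓞 K) : K) := by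
  have h1 : (((n : 𝓞 K) : 𝓞 K) : K) = (n : K) := map_natCast (algebraMap (𝓞 K) K) n
  rw [h1, map_natCast]

private theorem resa_min (P : HeightOneSpectrum (𝓞 K)) : ∃ p : ℕ, p.Prime ∧
    ∀ n : ℕ, (n : 𝓞 K) ∈ P.asIdeal ↔ p ∣ n := by
  classical
  have hex : ∃ n : ℕ, 0 < n ∧ (n : 𝓞 K) ∈ P.asIdeal := by
    refine ⟨Ideal.absNorm P.asIdeal, Nat.pos_of_ne_zero ?_, Ideal.absNorm_mem _⟩
    intro h
    exact P.ne_bot (Ideal.absNorm_eq_zero_iff.1 h)
  set p := Nat.find hex with hp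
  obtain ⟨hp0, hpm⟩ := Nat.find_spec hex
  rw [← hp] at hp0 hpm
  have hmin : ∀ n : ℕ, n < p → (n : 𝓞 K) ∈ P.asIdeal → n = 0 := by
    intro n hn hm
    by_contra h0
    exact Nat.find_min hex hn ⟨Nat.pos_of_ne_zero h0, hm⟩
  have hdvd : ∀ n : ℕ, (n : 𝓞 K) ∈ P.asIdeal ↔ p ∣ n := by
    intro n
    constructor
    · intro h
      have h1 : ((n % p : ℕ) : 𝓞 K) ∈ P.asIdeal := by
        have h2 : ((n % p : ℕ) : 𝓞 K) = (n : 𝓞 K) - (p : 𝓞 K) * ((n / p : ℕ) : 𝓞 K) := by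
          have h3 : ((n % p + p * (n / p) : ℕ) : 𝓞 K) = (n : 𝓞 K) := by rw [Nat.mod_add_div]
          rw [← h3]
          push_cast
          ring
        rw [h2]
        exact P.asIdeal.sub_mem h (P.asIdeal.mul_mem_right _ hpm)
      exact Nat.dvd_of_mod_eq_zero (hmin _ (Nat.mod_lt _ hp0) h1)
    · rintro ⟨c, rfl⟩
      rw [Nat.cast_mul]
      exact P.asIdeal.mul_mem_right _ hpm
  refine ⟨p, ?_, hdvd⟩
  have hp1 : p ≠ 1 := by
    intro h
    rw [h, Nat.cast_one] at hpm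
    exact P.isPrime.ne_top ((Ideal.eq_top_iff_one _).2 hpm)
  rw [Nat.prime_def]
  refine ⟨by omega, fun m hm => ?_⟩
  obtain ⟨c, hc⟩ := hm
  have h1 : (m : 𝓞 K) * (c : 𝓞 K) ∈ P.asIdeal := by
    rw [← Nat.cast_mul, ← hc]
    exact hpm
  rcases P.isPrime.mem_or_mem h1 with h2 | h2
  · exact Or.inr (Nat.dvd_antisymm ⟨c, hc⟩ ((hdvd m).1 h2))
  · left
    have h3 : p = c := Nat.dvd_antisymm ((hdvd c).1 h2) ⟨m, by rw [hc, mul_comm]⟩
    rw [← h3] at hc
    exact Nat.eq_of_mul_eq_mul_right hp0 (by rw [one_mul]; exact hc.symm)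

private theorem resa_norm (p : ℕ) : Ideal.absNorm (Ideal.span {(p : 𝓞 K)}) = p ^ 2 := by
  have h1 := absNorm_form (p : ℤ) 0
  have h2 : (((p : ℤ) : 𝓞 K) + ((0 : ℤ) : 𝓞 K) * ta) = (p : 𝓞 K) := by
    push_cast
    ring
  rw [h2] at h1
  have h3 : ((Ideal.absNorm (Ideal.span {(p : 𝓞 K)}) : ℕ) : ℤ) = ((p ^ 2 : ℕ) : ℤ) := by
    rw [h1]
    push_cast
    ring
  exact_mod_cast h3

section
variable {P : HeightOneSpectrum (𝓞 K)} {V : ValuationSubring Kb} (hV : Abv P V)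
include hV

theorem val_ok (a : 𝓞 K) : V.valuation (algebraMap K Kb (a : K)) ≤ 1 := by
  exact (hV (a : K)).2 (P.valuation_le_one a)

theorem val_lt_iff (a : 𝓞 K) : V.valuation (algebraMap K Kb (a : K)) < 1 ↔ a ∈ P.asIdeal := by
  exact (abv_lt hV (a : K)).trans (P.valuation_lt_one_iff_mem a)

theorem val_one_iff (a : 𝓞 K) : V.valuation (algebraMap K Kb (a : K)) = 1 ↔ a ∉ P.asIdeal := by
  rw [← val_lt_iff hV a, not_lt]
  exact ⟨fun h => h.ge, fun h => le_antisymm (val_ok hV a) h⟩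

theorem res_char : ∃ p : ℕ, p.Prime ∧ V.valuation (p : Kb) < 1 ∧
    ∀ n : ℕ, V.valuation (n : Kb) = 1 ↔ ¬ p ∣ n := by
  obtain ⟨p, hp, h⟩ := resa_min P
  refine ⟨p, hp, ?_, fun n => ?_⟩
  · rw [resa_nat, val_lt_iff hV]
    exact (h p).2 dvd_rfl
  · rw [resa_nat, val_one_iff hV, h]

/-- arbitrarily large prime numbers of value one -/
theorem exists_prime (N : ℕ) : ∃ l : ℕ, l.Prime ∧ N ≤ l ∧ V.valuation (l : Kb) = 1 := by
  obtain ⟨p, hp, -, h⟩ := res_char hV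
  obtain ⟨l, hl, hlp⟩ := Nat.exists_infinite_primes (max N (p + 1))
  have h1 : N ≤ l := (le_max_left _ _).trans hl
  have h2 : p + 1 ≤ l := (le_max_right _ _).trans hl
  refine ⟨l, hlp, h1, (h l).2 fun hd => ?_⟩
  have := (Nat.prime_dvd_prime_iff_eq hp hlp).1 hd
  omega

theorem norm_pow {p : ℕ} (hp : p.Prime) (h : V.valuation (p : Kb) < 1) :
    ∃ n : ℕ, n ≠ 0 ∧ Ideal.absNorm P.asIdeal = p ^ n := by
  have hm : (p : 𝓞 K) ∈ P.asIdeal := by
    rw [resa_nat, val_lt_iff hV] at h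
    exact h
  have h1 : Ideal.absNorm P.asIdeal ∣ p ^ 2 := by
    rw [← resa_norm p]
    exact Ideal.absNorm_dvd_absNorm_of_le ((Ideal.span_singleton_le_iff_mem _).2 hm)
  obtain ⟨n, -, hn⟩ := (Nat.dvd_prime_pow hp).1 h1
  refine ⟨n, ?_, hn⟩
  rintro rfl
  rw [pow_zero, Ideal.absNorm_eq_one_iff] at hn
  exact P.isPrime.ne_top hn

theorem norm_cases {p : ℕ} (hp : p.Prime) (h : V.valuation (p : Kb) < 1) :
    Ideal.absNorm P.asIdeal = p ∨ P.asIdeal = Ideal.span {(p : 𝓞 K)} := by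
  have hm : (p : 𝓞 K) ∈ P.asIdeal := by
    rw [resa_nat, val_lt_iff hV] at h
    exact h
  have h1 : Ideal.absNorm P.asIdeal ∣ p ^ 2 := by
    rw [← resa_norm p]
    exact Ideal.absNorm_dvd_absNorm_of_le ((Ideal.span_singleton_le_iff_mem _).2 hm)
  obtain ⟨n, hn2, hn⟩ := (Nat.dvd_prime_pow hp).1 h1
  have hn0 : n ≠ 0 := by
    rintro rfl
    rw [pow_zero, Ideal.absNorm_eq_one_iff] at hn
    exact P.isPrime.ne_top hn
  have hcase : n = 1 ∨ n = 2 := by omega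
  rcases hcase with rfl | rfl
  · left
    rw [hn, pow_one]
  · right
    have h2 : P.asIdeal ∣ Ideal.span {(p : 𝓞 K)} :=
      Ideal.dvd_iff_le.2 ((Ideal.span_singleton_le_iff_mem _).2 hm)
    obtain ⟨I, hI⟩ := h2
    have h3 : Ideal.absNorm (Ideal.span {(p : 𝓞 K)}) = Ideal.absNorm P.asIdeal * Ideal.absNorm I := by
      rw [hI, map_mul]
    rw [resa_norm p, hn] at h3
    have h4 : Ideal.absNorm I = 1 := by
      have h5 : 0 < p ^ 2 := pow_pos hp.pos 2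
      exact Nat.eq_of_mul_eq_mul_left h5 (by rw [← h3, mul_one])
    rw [Ideal.absNorm_eq_one_iff] at h4
    rw [hI, h4, Ideal.mul_top]

end

theorem exists_gen (P : HeightOneSpectrum (𝓞 K)) : ∃ π : 𝓞 K, Prime π ∧ Ideal.span {π} = P.asIdeal := by
  obtain ⟨π, hπ⟩ := (IsPrincipalIdealRing.principal P.asIdeal).principal
  have h1 : P.asIdeal = Ideal.span {π} := hπ
  have h0 : π ≠ 0 := by
    rintro rfl
    apply P.ne_bot
    rw [h1, Ideal.span_singleton_eq_bot]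
  refine ⟨π, (Ideal.span_singleton_prime h0).1 ?_, h1.symm⟩
  rw [← h1]
  exact P.isPrime

end Pool.Agent.Lib.MP_1a91b9_nuX.GL
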