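import Pool.Agent.Lib.MP_1a91b9_nuX.GL.ChgA
import Pool.Agent.Lib.MP_1a91b9_nuX.GL.ResA
import Pool.Agent.Lib.MP_1a91b9_nuX.DB.Ext

/-!
# Torsion points of order prime to the residue characteristic

PROOF. Elementary: for sums take the product of the two integers (elements of `𝓞 K`); `sm_nat`, `gk_sm`, `sm_mul`, `mul_comm`. `tr_ta`: `a = n`.
`exists_ord`: `ext_point Kb`. `sm_inj_on`: if `sm a X = 0` and `n • X = 0` with `N(a)` prime to `n` then `N(a) • X = 0` (`N(a) = a * cj a`: `mul_cj` of `nuT/Nrm.lean`) and a Bezout relation.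
`cases_Kb`: `ord_cases` with a homomorphism `Kb →ₐ[K] ℂ` (`IsAlgClosed.lift`).
-/

set_option autoImplicit false

namespace Pool.Agent.Lib.MP_1a91b9_nuX.GL

open NumberField IsDedekindDomain WeierstrassCurve Pool.Agent.Lib.MP_1a91b9_nuT DB

variable [CD]

section
variable {F : Type*} [Field F] [Algebra K F] [DecidableEq F] {Γ : Type*}
  [LinearOrderedCommGroupWithZero Γ] {v : Valuation F Γ}

theorem tr_zero : Tr v (0 : Pt F) := by
  exact ⟨1, by rw [Nat.cast_one, map_one], smul_zero 1⟩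

theorem tr_neg {P : Pt F} (h : Tr v P) : Tr v (-P) := by
  obtain ⟨n, hn, h0⟩ := h
  exact ⟨n, hn, by rw [smul_neg, h0, neg_zero]⟩

theorem tr_add {P Q : Pt F} (hP : Tr v P) (hQ : Tr v Q) : Tr v (P + Q) := by
  obtain ⟨n, hn, h0⟩ := hP
  obtain ⟨m, hm, h1⟩ := hQ
  refine ⟨n * m, by rw [Nat.cast_mul, map_mul, hn, hm, one_mul], ?_⟩
  rw [smul_add, mul_smul n m Q, h1, smul_zero, mul_comm n m, mul_smul m n P, h0, smul_zero,
    add_zero]

theorem tr_sub {P Q : Pt F} (hP : Tr v P) (hQ : Tr v Q) : Tr v (P - Q) := by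
  rw [sub_eq_add_neg]
  exact tr_add hP (tr_neg hQ)

theorem tr_nsmul {P : Pt F} (h : Tr v P) (n : ℕ) : Tr v (n • P) := by
  obtain ⟨k, hk, h0⟩ := h
  exact ⟨k, hk, by rw [smul_comm, h0, smul_zero]⟩

theorem tr_sm {P : Pt F} (h : Tr v P) (a : 𝓞 K) : Tr v (sm F a P) := by
  obtain ⟨k, hk, h0⟩ := h
  exact ⟨k, hk, by rw [← map_nsmul, h0, map_zero]⟩

theorem tr_hom {P : Pt F} (h : Tr v P) (τ : Pt F →+ Pt F) : Tr v (τ P) := by
  obtain ⟨k, hk, h0⟩ := h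
  exact ⟨k, hk, by rw [← map_nsmul, h0, map_zero]⟩

theorem tr_ta {P : Pt F} (h : Tr v P) : Ta v P := by
  obtain ⟨n, hn, h0⟩ := h
  refine ⟨(n : 𝓞 K), ?_, by rw [sm_nat, h0]⟩
  have e : algebraMap K F (((n : 𝓞 K)) : K) = (n : F) := by
    change algebraMap K F (algebraMap (𝓞 K) K (n : 𝓞 K)) = (n : F)
    rw [map_natCast, map_natCast]
  rw [e, hn]

theorem ta_zero : Ta v (0 : Pt F) := by
  refine ⟨1, ?_, map_zero _⟩
  change v (algebraMap K F (algebraMap (𝓞 K) K 1)) = 1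
  rw [map_one, map_one, map_one]

theorem ta_neg {P : Pt F} (h : Ta v P) : Ta v (-P) := by
  obtain ⟨a, ha, h0⟩ := h
  exact ⟨a, ha, by rw [map_neg, h0, neg_zero]⟩

theorem ta_add {P Q : Pt F} (hP : Ta v P) (hQ : Ta v Q) : Ta v (P + Q) := by
  obtain ⟨a, ha, h0⟩ := hP
  obtain ⟨b, hb, h1⟩ := hQ
  refine ⟨a * b, ?_, ?_⟩
  · change v (algebraMap K F (algebraMap (𝓞 K) K (a * b))) = 1
    rw [map_mul, map_mul, map_mul]
    change v (algebraMap K F (a : K)) * v (algebraMap K F (b : K)) = 1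
    rw [ha, hb, one_mul]
  · rw [map_add, sm_mul a b Q, h1, map_zero, mul_comm a b, sm_mul b a P, h0, map_zero, add_zero]

theorem ta_sub {P Q : Pt F} (hP : Ta v P) (hQ : Ta v Q) : Ta v (P - Q) := by
  rw [sub_eq_add_neg]
  exact ta_add hP (ta_neg hQ)

theorem ta_sm {P : Pt F} (h : Ta v P) (a : 𝓞 K) : Ta v (sm F a P) := by
  obtain ⟨b, hb, h0⟩ := h
  exact ⟨b, hb, by rw [← sm_mul, mul_comm, sm_mul, h0, map_zero]⟩

theorem ta_hom {P : Pt F} (h : Ta v P) (τ : Pt F →+ Pt F) (hτ : ∀ (a : 𝓞 K) (T : Pt F),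
    τ (sm F a T) = sm F a (τ T)) : Ta v (τ P) := by
  obtain ⟨b, hb, h0⟩ := h
  exact ⟨b, hb, by rw [← hτ, h0, map_zero]⟩

variable {C : VariableChange F}

theorem tr_kr (hC : GoodC v C) {P : Pt F} (h : Tr v P) (hk : KrC v C P) : P = 0 := by
  obtain ⟨n, hn, h0⟩ := h
  exact krc_tors hC hk hn h0

theorem tr_not_kr (hC : GoodC v C) {P : Pt F} (h : Tr v P) (h0 : P ≠ 0) : ¬ KrC v C P :=
  fun hk => h0 (tr_kr hC h hk)

/-- a point killed by `a` and by `n`, prime to the norm of `a` -/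
theorem sm_inj_on {a : 𝓞 K} {n : ℕ} (ha : Nat.Coprime (Ideal.absNorm (Ideal.span {a})) n) {X : Pt F}
    (h : sm F a X = 0) (hn : n • X = 0) : X = 0 := by
  have h1 : (Ideal.absNorm (Ideal.span {a})) • X = 0 := by
    rw [← sm_nat, ← mul_cj, mul_comm, sm_mul, h, map_zero]
  have h2 := addOrderOf_dvd_iff_nsmul_eq_zero.2 h1
  have h3 := addOrderOf_dvd_iff_nsmul_eq_zero.2 hn
  have h4 : addOrderOf X = 1 := Nat.dvd_one.1 (ha ▸ Nat.dvd_gcd h2 h3)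
  exact AddMonoid.addOrderOf_eq_one_iff.1 h4

end

section
variable [DecidableEq Kb]

/-- a point with a given annihilator -/
theorem exists_ord {β : 𝓞 K} (hβ : β ≠ 0) : ∃ R : Pt Kb, Ord β R := ext_point Kb hβ

theorem cases_Kb {β : 𝓞 K} (hβ : β ≠ 0) {R Q : Pt Kb} (hR : Ord β R) (hQ : sm Kb β Q = 0) :
    ∃ c : 𝓞 K, Q = sm Kb c R := by
  exact ord_cases (IsAlgClosed.lift : Kb →ₐ[K] ℂ) hβ hR hQ

/-- a point of prime order -/
theorem exists_pt_prime {l : ℕ} (hl : l.Prime) : ∃ T : Pt Kb, T ≠ 0 ∧ l • T = 0 := by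
  have hl0 : (l : 𝓞 K) ≠ 0 := Nat.cast_ne_zero.2 hl.ne_zero
  obtain ⟨R, hR⟩ := exists_ord hl0
  refine ⟨R, ?_, ?_⟩
  · rintro rfl
    obtain ⟨d, hd⟩ := (hR 1).1 (map_zero _)
    obtain ⟨m, n, rfl⟩ := exists_coords d
    have h1 : (((1 : ℤ) : ℤ) : 𝓞 K) + ((0 : ℤ) : 𝓞 K) * ta =
        (((l : ℤ) * m : ℤ) : 𝓞 K) + (((l : ℤ) * n : ℤ) : 𝓞 K) * ta := by
      push_cast
      linear_combination hd
    have h2 := (coords_inj h1).1
    have h3 : (l : ℤ) ∣ 1 := ⟨m, h2⟩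
    exact hl.one_lt.ne' (by exact_mod_cast Int.eq_one_of_dvd_one (by positivity) h3)
  · rw [← sm_nat]
    exact (hR _).2 dvd_rfl

end

end Pool.Agent.Lib.MP_1a91b9_nuX.GL
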