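import Pool.Agent.Lib.MP_1a91b9_nuX.GL.SemA
import Pool.Agent.Lib.MP_1a91b9_nuX.GL.TrA
import Pool.Agent.Lib.MP_1a91b9_nuX.GL.AbsF

/-!
# Transport of places, of Frobenius and of inertia automorphisms by an automorphism over the conjugation

PROOF.
`exists_cjP`: `P.asIdeal.map cj` is the image under the ring automorphism `cjE` (`nuT/Nrm.lean`), so it is prime and not zero (`Ideal.map_isPrime_of_equiv`); `mem_map_cj`: `a ∈ I.map cj ↔ cj a ∈ I` (`cj_cj`, surjectivity).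
`Vt τ V = V.comap (τ⁻¹)`: `x ∈ Vt τ V ↔ τ⁻¹ x ∈ V`. `vt_le`: `(Vt τ V).valuation (τ x) ≤ 1 ↔ V.valuation x ≤ 1`, `vt_lt` (`< 1`: `x = 0` or `V.valuation x⁻¹` not `≤ 1`).
`abv_vt`: for `x = a / b` in `K` (`a, b : 𝓞 K`): `Vt τ V (x) ≤ 1 ↔ V (τ⁻¹ x) ≤ 1`, `τ⁻¹` maps `algebraMap K Kb a` to `algebraMap K Kb (cj a)` (from `hτ`, `cj_cj`); `P'.valuation K (a / b) ≤ 1 ↔ P.valuation K (cj a / cj b) ≤ 1`: the two valuations `P'.valuation K` and (`P.valuation K` composed with the automorphism of `K`) have the same integral elements: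
compare through `Ideal` multiplicities, or simply: it is enough to show `Abv P'' (Vt τ V)` for the place `P''` below `Vt τ V`: define `P''` as the place of `K` below: (the prime ideal `{a ∈ 𝓞 K | Vt τ V a < 1}` is `{a | V (cj a) < 1} = {a | cj a ∈ P.asIdeal} = P'.asIdeal`); a valuation ring of `K` which contains `𝓞 K` and whose maximal ideal meets `𝓞 K` in `P'.asIdeal` is the valuation ring of `P'`
(as in `GL/AbsU.lean`, proof of `abv_under`: `HeightOneSpectrum.exists_primeCompl_mul_eq_of_integer`).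
`cjσ`: for `σ : Kb ≃ₐ[K] Kb` the map `τ⁻¹ σ τ` is again `K`-linear (on `algebraMap K Kb x`, `x = a / b`). `fr_vt`: `IsFr (Vt τ V) m σ → IsFr V m (τ⁻¹ σ τ)`: `V (τ⁻¹ (σ (τ x)) - x ^ m) < 1 ↔ Vt (σ (τ x) - (τ x) ^ m) < 1` (`vt_lt`). On points: `rp τ (ga (τ⁻¹ σ τ) T) = ga σ (rp τ T)` (coordinates, `pt_ext`).
`tr_vt`: `n • rp τ T = rp τ (n • T)`, `τ n = n`.
`eq_of_tr`: if `a ≠ b` take a prime `l > Ideal.absNorm (span {a - b})` with `V l = 1` (`exists_prime`) and `T ≠ 0` with `l • T = 0`: `sm (a - b) T = 0`, `sm_inj_on` gives `T = 0`.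
-/

set_option autoImplicit false

namespace Pool.Agent.Lib.MP_1a91b9_nuX.GL

open NumberField IsDedekindDomain WeierstrassCurve Pool.Agent.Lib.MP_1a91b9_nuT DB

variable [CD]

theorem mem_map_cj (I : Ideal (𝓞 K)) (a : 𝓞 K) : a ∈ I.map cj ↔ cj a ∈ I := by
  constructor
  · intro h
    have h1 : I.map cj ≤ I.comap cj := by
      rw [Ideal.map_le_iff_le_comap]
      intro x hx
      rw [Ideal.mem_comap, Ideal.mem_comap, cj_cj]
      exact hx
    exact h1 h
  · intro h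
    rw [← cj_cj a]
    exact Ideal.mem_map_of_mem cj h

theorem exists_cjP (P : HeightOneSpectrum (𝓞 K)) :
    ∃ P' : HeightOneSpectrum (𝓞 K), P'.asIdeal = P.asIdeal.map cj := by
  have e : P.asIdeal.map cj = P.asIdeal.comap cj := Ideal.ext fun a => mem_map_cj _ a
  have hp : P.asIdeal.IsPrime := P.isPrime
  have h1 : (P.asIdeal.map cj).IsPrime := by
    rw [e]
    exact Ideal.comap_isPrime cj P.asIdeal
  have h2 : P.asIdeal.map cj ≠ ⊥ := by
    obtain ⟨a, ha, ha0⟩ := Submodule.exists_mem_ne_zero_of_ne_bot P.ne_bot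
    intro h0
    have h3 : cj a ∈ P.asIdeal.map cj := Ideal.mem_map_of_mem cj ha
    rw [h0, Ideal.mem_bot] at h3
    exact ha0 (by rw [← cj_cj a, h3, map_zero])
  exact ⟨⟨_, h1, h2⟩, rfl⟩

/-- the image of a valuation subring under an automorphism -/
noncomputable def Vt (τ : Kb ≃+* Kb) (V : ValuationSubring Kb) : ValuationSubring Kb :=
  V.comap (τ.symm : Kb →+* Kb)

theorem vt_le (τ : Kb ≃+* Kb) (V : ValuationSubring Kb) (x : Kb) :
    (Vt τ V).valuation (τ x) ≤ 1 ↔ V.valuation x ≤ 1 := by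
  rw [ValuationSubring.valuation_le_one_iff, ValuationSubring.valuation_le_one_iff, Vt,
    ValuationSubring.mem_comap]
  change τ.symm (τ x) ∈ V ↔ x ∈ V
  rw [RingEquiv.symm_apply_apply]

private theorem conja_lt {Γ : Type*} [LinearOrderedCommGroupWithZero Γ] (v : Valuation Kb Γ)
    {x : Kb} (hx : x ≠ 0) : v x < 1 ↔ ¬ v x⁻¹ ≤ 1 := by
  have a1 : v x ≠ 0 := (Valuation.ne_zero_iff v).2 hx
  rw [map_inv₀, inv_le_one₀ (zero_lt_iff.2 a1), not_le]

theorem vt_lt (τ : Kb ≃+* Kb) (V : ValuationSubring Kb) (x : Kb) :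
    (Vt τ V).valuation (τ x) < 1 ↔ V.valuation x < 1 := by
  rcases eq_or_ne x 0 with rfl | hx
  · rw [map_zero, map_zero, map_zero]
    exact ⟨fun _ => zero_lt_one, fun _ => zero_lt_one⟩
  · have h1 : τ x ≠ 0 := by rwa [Ne, map_eq_zero]
    rw [conja_lt _ h1, conja_lt _ hx, ← map_inv₀, vt_le]

/-- the conjugation of `K` -/
private theorem conja_K : ∃ κ : K →+* K, (∀ a : 𝓞 K, κ (a : K) = ((cj a : 𝓞 K) : K)) ∧
    ∀ x, κ (κ x) = x := by
  have h1 : ∀ a : 𝓞 K, (IsFractionRing.ringEquivOfRingEquiv (K := K) (L := K) cjE : K ≃+* K) (a : K)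
      = ((cj a : 𝓞 K) : K) := fun a => IsFractionRing.ringEquivOfRingEquiv_algebraMap _ _
  refine ⟨((IsFractionRing.ringEquivOfRingEquiv (K := K) (L := K) cjE : K ≃+* K) : K →+* K), h1,
    fun x => ?_⟩
  have h2 : (((IsFractionRing.ringEquivOfRingEquiv (K := K) (L := K) cjE : K ≃+* K) : K →+* K).comp
      ((IsFractionRing.ringEquivOfRingEquiv (K := K) (L := K) cjE : K ≃+* K) : K →+* K)) =
      RingHom.id K := by
    refine IsLocalization.ringHom_ext (nonZeroDivisors (𝓞 K)) (RingHom.ext fun a => ?_)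
    show (IsFractionRing.ringEquivOfRingEquiv (K := K) (L := K) cjE : K ≃+* K)
      ((IsFractionRing.ringEquivOfRingEquiv (K := K) (L := K) cjE : K ≃+* K) (a : K)) = (a : K)
    rw [h1, h1, cj_cj]
  exact DFunLike.congr_fun h2 x

private theorem conja_le {P P' : HeightOneSpectrum (𝓞 K)}
    (h : ∀ a : 𝓞 K, a ∈ P'.asIdeal ↔ cj a ∈ P.asIdeal) {κ : K →+* K}
    (hκ : ∀ a : 𝓞 K, κ (a : K) = ((cj a : 𝓞 K) : K)) {x : K} (hx : P'.valuation K x ≤ 1) :
    P.valuation K (κ x) ≤ 1 := by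
  obtain ⟨n, d, hnd⟩ := P'.exists_primeCompl_mul_eq_of_integer x hx
  have h1 : κ x * ((cj d : 𝓞 K) : K) = ((cj n : 𝓞 K) : K) := by
    rw [← hκ, ← hκ, ← map_mul]
    exact congrArg κ hnd
  have h2 : P.valuation K ((cj d : 𝓞 K) : K) = 1 := by
    have h3 : (cj d : 𝓞 K) ∉ P.asIdeal := fun h4 => d.2 ((h _).2 h4)
    exact (HeightOneSpectrum.valuation_eq_one_iff_notMem (K := K) P).2 h3
  have h5 : P.valuation K ((cj n : 𝓞 K) : K) ≤ 1 := P.valuation_le_one (cj n)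
  rwa [← h1, map_mul, h2, mul_one] at h5

section
variable {τ : Kb ≃+* Kb} (hτ : ∀ a : 𝓞 K,
  τ (algebraMap K Kb (a : K)) = algebraMap K Kb ((cj a : 𝓞 K) : K))
include hτ

theorem abv_vt {P P' : HeightOneSpectrum (𝓞 K)} (hP : P'.asIdeal = P.asIdeal.map cj)
    {V : ValuationSubring Kb} (hV : Abv P V) : Abv P' (Vt τ V) := by
  obtain ⟨κ, hκ, hκ2⟩ := conja_K
  have hτκ : ∀ x : K, τ (algebraMap K Kb x) = algebraMap K Kb (κ x) := by
    have h1 : ((τ : Kb →+* Kb).comp (algebraMap K Kb)) = (algebraMap K Kb).comp κ := by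
      refine IsLocalization.ringHom_ext (nonZeroDivisors (𝓞 K)) (RingHom.ext fun a => ?_)
      show τ (algebraMap K Kb (a : K)) = algebraMap K Kb (κ (a : K))
      rw [hτ, hκ]
    exact fun x => DFunLike.congr_fun h1 x
  have h2 : ∀ a : 𝓞 K, a ∈ P'.asIdeal ↔ cj a ∈ P.asIdeal := by
    intro a
    rw [hP, mem_map_cj]
  have h3 : ∀ a : 𝓞 K, a ∈ P.asIdeal ↔ cj a ∈ P'.asIdeal := by
    intro a
    rw [h2, cj_cj]
  intro x
  have e1 : algebraMap K Kb x = τ (algebraMap K Kb (κ x)) := by rw [hτκ, hκ2]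
  rw [e1, vt_le, hV]
  constructor
  · intro h4
    have h5 := conja_le h3 hκ h4
    rwa [hκ2] at h5
  · exact fun h4 => conja_le h2 hκ h4

/-- conjugation of an automorphism -/
theorem fr_vt [DecidableEq Kb] {V : ValuationSubring Kb} {m : ℕ} {σ : Kb ≃ₐ[K] Kb}
    (hσ : IsFr (Vt τ V) m σ) : ∃ σ' : Kb ≃ₐ[K] Kb, IsFr V m σ' ∧
      ∀ T : Pt Kb, rp (τ : Kb →+* Kb) (ga σ' T) = ga σ (rp (τ : Kb →+* Kb) T) := by
  obtain ⟨κ, hκ, hκ2⟩ := conja_K
  have hτκ : ∀ x : K, τ (algebraMap K Kb x) = algebraMap K Kb (κ x) := by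
    have h1 : ((τ : Kb →+* Kb).comp (algebraMap K Kb)) = (algebraMap K Kb).comp κ := by
      refine IsLocalization.ringHom_ext (nonZeroDivisors (𝓞 K)) (RingHom.ext fun a => ?_)
      show τ (algebraMap K Kb (a : K)) = algebraMap K Kb (κ (a : K))
      rw [hτ, hκ]
    exact fun x => DFunLike.congr_fun h1 x
  have hc : ∀ x : K, ((τ.trans (σ : Kb ≃+* Kb)).trans τ.symm) (algebraMap K Kb x) =
      algebraMap K Kb x := by
    intro x
    show τ.symm (σ (τ (algebraMap K Kb x))) = algebraMap K Kb x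
    rw [RingEquiv.symm_apply_eq, hτκ, AlgEquiv.commutes]
  let σ' : Kb ≃ₐ[K] Kb := AlgEquiv.ofRingEquiv (f := (τ.trans (σ : Kb ≃+* Kb)).trans τ.symm) hc
  have hσ' : ∀ x : Kb, τ (σ' x) = σ (τ x) := by
    intro x
    show τ (τ.symm (σ (τ x))) = σ (τ x)
    rw [RingEquiv.apply_symm_apply]
  refine ⟨σ', fun x hx => ?_, fun T => ?_⟩
  · rw [← vt_lt τ V, map_sub, map_pow, hσ']
    exact hσ (τ x) ((vt_le τ V x).2 hx)
  · by_cases hT : T = 0
    · rw [hT, map_zero, map_zero, map_zero]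
    · refine pt_ext (rp_ne _ fun h => hT ((gk_ne σ').1 h)) (fun h => rp_ne _ hT ((gk_ne σ).1 h)) ?_ ?_
      · rw [xc_rph, xc_gk, xc_gk, xc_rph]
        exact hσ' _
      · rw [yc_rph, yc_gk, yc_gk, yc_rph]
        exact hσ' _

omit hτ in
theorem tr_vt [DecidableEq Kb] {V : ValuationSubring Kb} {T : Pt Kb} :
    Tr (Vt τ V).valuation (rp (τ : Kb →+* Kb) T) ↔ Tr V.valuation T := by
  have h1 : ∀ n : ℕ, (Vt τ V).valuation (n : Kb) = 1 ↔ V.valuation (n : Kb) = 1 := by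
    intro n
    have e : (n : Kb) = τ (n : Kb) := (map_natCast τ n).symm
    have h2 := vt_le τ V (n : Kb)
    have h3 := vt_lt τ V (n : Kb)
    rw [← e] at h2 h3
    constructor
    · intro h4
      refine le_antisymm (h2.1 h4.le) (not_lt.1 fun h5 => ?_)
      exact (h3.2 h5).ne h4
    · intro h4
      refine le_antisymm (h2.2 h4.le) (not_lt.1 fun h5 => ?_)
      exact (h3.1 h5).ne h4
  have h6 : ∀ n : ℕ, n • rp (τ : Kb →+* Kb) T = 0 ↔ n • T = 0 := by
    intro n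
    rw [← map_nsmul]
    constructor
    · intro h
      exact rp_inj _ (h.trans (map_zero _).symm)
    · intro h
      rw [h, map_zero]
  constructor
  · rintro ⟨n, hn, h0⟩
    exact ⟨n, (h1 n).1 hn, (h6 n).1 h0⟩
  · rintro ⟨n, hn, h0⟩
    exact ⟨n, (h1 n).2 hn, (h6 n).2 h0⟩

omit hτ in
theorem rp_surj [DecidableEq Kb] (T : Pt Kb) : ∃ T' : Pt Kb, rp (τ : Kb →+* Kb) T' = T := by
  by_cases hT : T = 0
  · exact ⟨0, by rw [hT, map_zero]⟩
  · refine ⟨rp (τ.symm : Kb →+* Kb) T, pt_ext (rp_ne _ (rp_ne _ hT)) hT ?_ ?_⟩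
    · rw [xc_rph, xc_rph]
      exact τ.apply_symm_apply _
    · rw [yc_rph, yc_rph]
      exact τ.apply_symm_apply _

end

/-- elements of `𝓞 K` which act in the same way on the torsion are equal -/
theorem eq_of_tr [DecidableEq Kb] {P : HeightOneSpectrum (𝓞 K)} {V : ValuationSubring Kb}
    (hV : Abv P V) {a b : 𝓞 K} (h : ∀ T : Pt Kb, Tr V.valuation T → sm Kb a T = sm Kb b T) :
    a = b := by
  by_contra hab
  have h0 : a - b ≠ 0 := sub_ne_zero.2 hab
  have h1 : Ideal.absNorm (Ideal.span {a - b}) ≠ 0 := by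
    rw [Ne, Ideal.absNorm_eq_zero_iff, Ideal.span_singleton_eq_bot]
    exact h0
  obtain ⟨l, hl, hlN, hlV⟩ := exists_prime hV (Ideal.absNorm (Ideal.span {a - b}) + 1)
  obtain ⟨T, hT, hT0⟩ := exists_pt_prime hl
  have h2 := h T ⟨l, hlV, hT0⟩
  have h3 : sm Kb (a - b) T = 0 := by
    rw [sm_sub, h2, sub_self]
  have h4 : Nat.Coprime (Ideal.absNorm (Ideal.span {a - b})) l := by
    rw [Nat.coprime_comm, hl.coprime_iff_not_dvd]
    intro h5
    have h6 := Nat.le_of_dvd (Nat.pos_of_ne_zero h1) h5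
    omega
  exact hT (sm_inj_on h4 h3 hT0)

end Pool.Agent.Lib.MP_1a91b9_nuX.GL
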