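import Pool.Agent.Lib.MP_1a91b9_nuX.GM.VExt

/-!
# Valuation subrings of an algebraic closure: Frobenius and inertia automorphisms

`Abv P V`: the valuation subring `V` of `Ω` is above the place `P` of `k`. `IsFr V q σ`: `σ` acts on the residue field of `V` as `x ↦ x ^ q` (`q = 1`: inertia).
-/

set_option autoImplicit false

namespace Pool.Agent.Lib.MP_1a91b9_nuX.GL

open NumberField IsDedekindDomain

section
variable {k Ω : Type*} [Field k] [NumberField k] [Field Ω] [Algebra k Ω]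

/-- the valuation subring `V` is above the place `P` -/
def Abv (P : HeightOneSpectrum (𝓞 k)) (V : ValuationSubring Ω) : Prop :=
  ∀ x : k, V.valuation (algebraMap k Ω x) ≤ 1 ↔ P.valuation k x ≤ 1

theorem abv_lt {P : HeightOneSpectrum (𝓞 k)} {V : ValuationSubring Ω} (hV : Abv P V) (x : k) :
    V.valuation (algebraMap k Ω x) < 1 ↔ P.valuation k x < 1 :=
  GM.val_ext_lt _ _ hV x

theorem abv_eq {P : HeightOneSpectrum (𝓞 k)} {V : ValuationSubring Ω} (hV : Abv P V) (x : k) :
    V.valuation (algebraMap k Ω x) = 1 ↔ P.valuation k x = 1 :=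
  GM.val_ext_eq _ _ hV x

theorem exists_abv (P : HeightOneSpectrum (𝓞 k)) : ∃ V : ValuationSubring Ω, Abv P V :=
  GM.exists_val_ext (P.valuation k)

/-- `σ` acts on the residue field of `V` as `x ↦ x ^ q`; for `q = 1` it is in the inertia group -/
def IsFr (V : ValuationSubring Ω) (q : ℕ) (σ : Ω ≃ₐ[k] Ω) : Prop :=
  ∀ x : Ω, V.valuation x ≤ 1 → V.valuation (σ x - x ^ q) < 1

theorem fr_le {V : ValuationSubring Ω} {q : ℕ} {σ : Ω ≃ₐ[k] Ω} (h : IsFr V q σ) {x : Ω}
    (hx : V.valuation x ≤ 1) : V.valuation (σ x) ≤ 1 := by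
  have h1 := h x hx
  have e : σ x = (σ x - x ^ q) + x ^ q := by ring
  rw [e]
  refine (V.valuation.map_add _ _).trans (max_le h1.le ?_)
  rw [map_pow]
  exact pow_le_one' hx q

theorem fr_lt {V : ValuationSubring Ω} {q : ℕ} (hq : q ≠ 0) {σ : Ω ≃ₐ[k] Ω} (h : IsFr V q σ)
    {x : Ω} (hx : V.valuation x < 1) : V.valuation (σ x) < 1 := by
  have h1 := h x hx.le
  have e : σ x = (σ x - x ^ q) + x ^ q := by ring
  rw [e]
  refine (V.valuation.map_add _ _).trans_lt (max_lt h1 ?_)
  rw [map_pow]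
  exact pow_lt_one₀ zero_le hx hq

end

end Pool.Agent.Lib.MP_1a91b9_nuX.GL
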