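import Pool.Agent.Lib.MP_1a91b9_nuX.GL.AbsU

/-!
# The prime ideal of the ring of integers of `Ω` defined by a valuation subring

`B = integralClosure (𝓞 k) Ω`, `mB hV = {a ∈ B | V a < 1}`.

PROOF. `int_le`: as in AbsU: an element integral over `𝓞 k` (whose elements have value `≤ 1` by `hV`) has value `≤ 1`. `mB_under`: `abv_lt` and `HeightOneSpectrum.valuation_lt_one_iff_mem`.
`rep`: `L = k(x)` (`IntermediateField.adjoin k {x}`, a number field), `w` the place of `L` below `V` (`abv_under`), `w.valuation L x ≤ 1`, so `x = a / b` with `a, b ∈ 𝓞 L`, `b ∉ w` (see AbsU); they are elements of `B`.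
`fr_of`: `x = a / b` (`rep`): `σ x - x ^ q = (σ a * b ^ q - a ^ q * σ b) / (σ b * b ^ q)`, the numerator is `(σ a - a ^ q) b ^ q - a ^ q (σ b - b ^ q)` of value `< 1`, `V (σ b) = 1` since `V (σ b - b ^ q) < 1 = V (b ^ q)`.
`le_iff_of_ideal`: `V b < 1 ↔ V' b < 1` for `b ∈ B` so also `V b = 1 ↔ V' b = 1` (`int_le`); if `V x ≤ 1`, `x = a / b` with `V b = 1`, `V' x = V' a ≤ 1`; and symmetrically.
-/

set_option autoImplicit false

namespace Pool.Agent.Lib.MP_1a91b9_nuX.GL

open NumberField IsDedekindDomain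

section
variable {k Ω : Type*} [Field k] [NumberField k] [Field Ω] [Algebra k Ω]

theorem int_le {P : HeightOneSpectrum (𝓞 k)} {V : ValuationSubring Ω} (hV : Abv P V)
    (a : integralClosure (𝓞 k) Ω) : V.valuation (a : Ω) ≤ 1 := by
  have hle : ∀ c : 𝓞 k, V.valuation (algebraMap (𝓞 k) Ω c) ≤ 1 := by
    intro c
    rw [IsScalarTower.algebraMap_apply (𝓞 k) k Ω]
    exact (hV _).2 (P.valuation_le_one c)
  obtain ⟨f, hm, hf⟩ := a.2
  by_contra hc
  rw [not_le] at hc
  rw [Polynomial.eval₂_eq_sum_range, Finset.sum_range_succ, hm.coeff_natDegree, map_one, one_mul,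
    add_eq_zero_iff_eq_neg] at hf
  have h1 : V.valuation (∑ i ∈ Finset.range f.natDegree,
      algebraMap (𝓞 k) Ω (f.coeff i) * (a : Ω) ^ i) = V.valuation (a : Ω) ^ f.natDegree := by
    rw [hf, Valuation.map_neg, map_pow]
  refine ne_of_lt (V.valuation.map_sum_lt ?_ ?_) h1
  · exact pow_ne_zero _ (zero_lt_one.trans hc).ne'
  · intro i hi
    rw [map_mul, map_pow]
    exact mul_lt_of_le_one_of_lt (hle _) (pow_lt_pow_right₀ hc (Finset.mem_range.1 hi))

/-- the prime ideal of the ring of integers of `Ω` defined by `V` -/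
def mB {P : HeightOneSpectrum (𝓞 k)} {V : ValuationSubring Ω} (hV : Abv P V) :
    Ideal (integralClosure (𝓞 k) Ω) where
  carrier := {a | V.valuation (a : Ω) < 1}
  zero_mem' := by simp
  add_mem' := by
    intro a b ha hb
    exact (V.valuation.map_add _ _).trans_lt (max_lt ha hb)
  smul_mem' := by
    intro c a ha
    have h : V.valuation ((c : Ω) * (a : Ω)) < 1 := by
      rw [map_mul]
      exact mul_lt_one_of_nonneg_of_lt_one_right (int_le hV c) zero_le ha
    exact h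

theorem mem_mB {P : HeightOneSpectrum (𝓞 k)} {V : ValuationSubring Ω} (hV : Abv P V)
    (a : integralClosure (𝓞 k) Ω) : a ∈ mB hV ↔ V.valuation (a : Ω) < 1 := Iff.rfl

theorem mB_prime {P : HeightOneSpectrum (𝓞 k)} {V : ValuationSubring Ω} (hV : Abv P V) :
    (mB hV).IsPrime := by
  refine ⟨?_, ?_⟩
  · rw [Ne, Ideal.eq_top_iff_one, mem_mB]
    intro h
    have h1 : ((1 : integralClosure (𝓞 k) Ω) : Ω) = 1 := rfl
    rw [h1, map_one] at h
    exact lt_irrefl _ h
  · intro a b hab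
    rw [mem_mB] at hab ⊢
    rw [mem_mB]
    have h1 : ((a * b : integralClosure (𝓞 k) Ω) : Ω) = (a : Ω) * (b : Ω) := rfl
    rw [h1, map_mul] at hab
    by_contra hc
    push Not at hc
    have ha := le_antisymm (int_le hV a) hc.1
    have hb := le_antisymm (int_le hV b) hc.2
    rw [ha, hb, one_mul] at hab
    exact lt_irrefl _ hab

theorem mB_under {P : HeightOneSpectrum (𝓞 k)} {V : ValuationSubring Ω} (hV : Abv P V) :
    (mB hV).under (𝓞 k) = P.asIdeal := by
  ext c
  rw [Ideal.mem_comap, mem_mB, ← HeightOneSpectrum.valuation_lt_one_iff_mem (K := k)]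
  have h1 : ((algebraMap (𝓞 k) (integralClosure (𝓞 k) Ω) c : integralClosure (𝓞 k) Ω) : Ω) =
      algebraMap k Ω (algebraMap (𝓞 k) k c) := by
    rw [← IsScalarTower.algebraMap_apply (𝓞 k) k Ω]
    rfl
  rw [h1]
  exact abv_lt hV _

variable [Algebra.IsAlgebraic k Ω]

/-- elements of value at most one are quotients of integers -/
theorem rep {P : HeightOneSpectrum (𝓞 k)} {V : ValuationSubring Ω} (hV : Abv P V) {x : Ω}
    (hx : V.valuation x ≤ 1) : ∃ a b : integralClosure (𝓞 k) Ω, V.valuation (b : Ω) = 1 ∧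
      x = (a : Ω) / (b : Ω) := by
  have hx' : IsIntegral k x := (Algebra.IsAlgebraic.isAlgebraic (R := k) x).isIntegral
  obtain ⟨L, hL⟩ : ∃ L, L = IntermediateField.adjoin k {x} := ⟨_, rfl⟩
  have hfin : FiniteDimensional k L := by
    rw [hL]
    exact IntermediateField.adjoin.finiteDimensional hx'
  have hnf : NumberField L := NumberField.of_module_finite k L
  have hxL : x ∈ L := by
    rw [hL]
    exact IntermediateField.mem_adjoin_simple_self k x
  obtain ⟨w, -, hw⟩ := abv_under (M := L) hV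
  have hy : w.valuation L ⟨x, hxL⟩ ≤ 1 := (hw ⟨x, hxL⟩).1 hx
  obtain ⟨n, d, hnd⟩ := w.exists_primeCompl_mul_eq_of_integer (⟨x, hxL⟩ : L) hy
  have hint : ∀ c : 𝓞 L, algebraMap L Ω (algebraMap (𝓞 L) L c) ∈ integralClosure (𝓞 k) Ω := by
    intro c
    have h1 : IsIntegral ℤ (algebraMap L Ω (algebraMap (𝓞 L) L c)) :=
      (RingOfIntegers.isIntegral_coe c).map (algebraMap L Ω).toIntAlgHom
    exact h1.tower_top
  have hb : V.valuation (algebraMap L Ω (algebraMap (𝓞 L) L (d : 𝓞 L))) = 1 := by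
    rw [abv_eq hw, HeightOneSpectrum.valuation_eq_one_iff_notMem]
    exact d.2
  refine ⟨⟨_, hint n⟩, ⟨_, hint (d : 𝓞 L)⟩, hb, ?_⟩
  have h2 := congrArg (algebraMap L Ω) hnd
  rw [map_mul] at h2
  have hb0 : algebraMap L Ω (algebraMap (𝓞 L) L (d : 𝓞 L)) ≠ 0 := by
    intro h0
    rw [h0, map_zero] at hb
    exact zero_ne_one hb
  rw [eq_div_iff hb0]
  exact h2

theorem fr_of {P : HeightOneSpectrum (𝓞 k)} {V : ValuationSubring Ω} (hV : Abv P V) {q : ℕ}
    {σ : Ω ≃ₐ[k] Ω}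
    (h : ∀ a : integralClosure (𝓞 k) Ω, V.valuation (σ (a : Ω) - (a : Ω) ^ q) < 1) :
    IsFr V q σ := by
  intro x hx
  obtain ⟨a, b, hb, rfl⟩ := rep hV hx
  have hbq : V.valuation ((b : Ω) ^ q) = 1 := by
    rw [map_pow, hb, one_pow]
  have hσb : V.valuation (σ (b : Ω)) = 1 := by
    rw [← hbq]
    refine Valuation.map_eq_of_sub_lt _ ?_
    rw [hbq]
    exact h b
  have hb0 : (b : Ω) ≠ 0 := by
    intro h0
    rw [h0, map_zero] at hb
    exact zero_ne_one hb
  have hσb0 : σ (b : Ω) ≠ 0 := by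
    intro h0
    rw [h0, map_zero] at hσb
    exact zero_ne_one hσb
  have e : σ ((a : Ω) / (b : Ω)) - ((a : Ω) / (b : Ω)) ^ q =
      ((σ (a : Ω) - (a : Ω) ^ q) * (b : Ω) ^ q - (a : Ω) ^ q * (σ (b : Ω) - (b : Ω) ^ q)) /
        (σ (b : Ω) * (b : Ω) ^ q) := by
    rw [map_div₀, div_pow]
    field_simp
    ring
  rw [e, map_div₀, map_mul _ (σ (b : Ω)), hσb, hbq, one_mul, div_one]
  refine Valuation.map_sub_lt _ ?_ ?_
  · rw [map_mul, hbq, mul_one]
    exact h a
  · rw [map_mul, map_pow]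
    exact mul_lt_of_le_one_of_lt (pow_le_one' (int_le hV a) q) (h b)

private theorem absk_le {P : HeightOneSpectrum (𝓞 k)} {V V' : ValuationSubring Ω}
    (hV : Abv P V) (hV' : Abv P V')
    (h : ∀ a : integralClosure (𝓞 k) Ω, V.valuation (a : Ω) < 1 ↔ V'.valuation (a : Ω) < 1)
    {x : Ω} (hx : V.valuation x ≤ 1) : V'.valuation x ≤ 1 := by
  obtain ⟨a, b, hb, rfl⟩ := rep hV hx
  have hb' : V'.valuation (b : Ω) = 1 := by
    refine le_antisymm (int_le hV' b) (not_lt.1 fun h1 => ?_)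
    have h2 := (h b).2 h1
    rw [hb] at h2
    exact lt_irrefl _ h2
  rw [map_div₀, hb', div_one]
  exact int_le hV' a

theorem le_iff_of_ideal {P : HeightOneSpectrum (𝓞 k)} {V V' : ValuationSubring Ω}
    (hV : Abv P V) (hV' : Abv P V')
    (h : ∀ a : integralClosure (𝓞 k) Ω, V.valuation (a : Ω) < 1 ↔ V'.valuation (a : Ω) < 1)
    (x : Ω) : V.valuation x ≤ 1 ↔ V'.valuation x ≤ 1 :=
  ⟨fun hx => absk_le hV hV' h hx, fun hx => absk_le hV' hV (fun a => (h a).symm) hx⟩

end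

end Pool.Agent.Lib.MP_1a91b9_nuX.GL
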