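import Pool.Agent.Lib.MP_1a91b9_nuX.GL.AbsF

/-!
# Lifting elements of inertia groups

PROOF. `B = integralClosure (𝓞 k) Ω` (it is also the integral closure of `𝓞 M`), `m = {a ∈ B | V a < 1}`. Lift `σ` to `τ₁ : Ω ≃ₐ[k] Ω` (`AlgEquiv.liftNormal` or `IsAlgClosed.lift` twice; `Ω` is an algebraic closure of `M`). `V₁ = ` the valuation subring of the `x` with `V (τ₁ x) ≤ 1`: it is above `w`
as `V` is and `w.valuation M (σ x) ≤ 1 ↔ w.valuation M x ≤ 1` for `x : M` (`GM.inert_mem`, `GM.val_gal`). By `abv_trans` (with `k := M`) there is `ρ : Ω ≃ₐ[M] Ω` with `V (τ₁ (ρ x)) ≤ 1 ↔ V x ≤ 1`. So `τ₂ = τ₁ ρ` preserves `V`, restricts to `σ` on `M`, and acts on `B ⧸ m` as an automorphism over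
`𝓞 M ⧸ w` (for `x ∈ 𝓞 M`: `σ x - x ∈ w`). By `Ideal.Quotient.stabilizerHom_surjective_of_profinite` (for `A = 𝓞 M`, `G = Ω ≃ₐ[M] Ω`) there is `ρ' : Ω ≃ₐ[M] Ω` which preserves `m` and acts on `B ⧸ m` as `τ₂`. `τ = τ₂ ρ'⁻¹`: `τ a - a ∈ m` for `a ∈ B`; `fr_of` (`q = 1`, `pow_one`).
-/

set_option autoImplicit false

namespace Pool.Agent.Lib.MP_1a91b9_nuX.GL

open NumberField IsDedekindDomain

section
variable {M Ω : Type*} [Field M] [NumberField M] [Field Ω] [Algebra M Ω] [IsAlgClosed Ω]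
  [Algebra.IsAlgebraic M Ω]

private theorem absL_galois : IsGalois M Ω := by
  have : IsAlgClosure M Ω := ⟨inferInstance, inferInstance⟩
  have : Normal M Ω := IsAlgClosure.normal M Ω
  exact { }

private theorem absL_invariant :
    Algebra.IsInvariant (𝓞 M) (integralClosure (𝓞 M) Ω) (Ω ≃ₐ[M] Ω) := by
  have : IsGalois M Ω := absL_galois
  refine ⟨fun b hb => ?_⟩
  have h1 : (b : Ω) ∈ (⊥ : IntermediateField M Ω) :=
    (InfiniteGalois.mem_bot_iff_fixed (b : Ω)).2 fun g => congrArg Subtype.val (hb g)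
  obtain ⟨y, hy⟩ := IntermediateField.mem_bot.1 h1
  have h2 : IsIntegral (𝓞 M) (b : Ω) := b.2
  rw [← hy] at h2
  have h3 : IsIntegral (𝓞 M) y :=
    (isIntegral_algebraMap_iff (algebraMap M Ω).injective).1 h2
  obtain ⟨a, ha⟩ := IsIntegrallyClosed.isIntegral_iff.1 h3
  refine ⟨a, Subtype.ext ?_⟩
  rw [← hy, ← ha]
  exact IsScalarTower.algebraMap_apply (𝓞 M) M Ω a

private theorem absL_surj (P : Ideal (𝓞 M)) (Q : Ideal (integralClosure (𝓞 M) Ω)) [Q.IsPrime]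
    [Q.LiesOver P] :
    Function.Surjective (Ideal.Quotient.stabilizerHom Q P (Ω ≃ₐ[M] Ω)) := by
  have : IsGalois M Ω := absL_galois
  have := absL_invariant (M := M) (Ω := Ω)
  let : TopologicalSpace (integralClosure (𝓞 M) Ω) := ⊥
  have : DiscreteTopology (integralClosure (𝓞 M) Ω) := ⟨rfl⟩
  have : Algebra.IsIntegral M Ω := inferInstance
  have : ContinuousSMul (Ω ≃ₐ[M] Ω) (integralClosure (𝓞 M) Ω) := by
    refine continuousSMul_iff_stabilizer_isOpen.2 fun x => ?_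
    have h1 := stabilizer_isOpen_of_isIntegral (K := M) (x : Ω)
    have h2 : MulAction.stabilizer (Ω ≃ₐ[M] Ω) x = MulAction.stabilizer (Ω ≃ₐ[M] Ω) (x : Ω) := by
      ext g
      rw [MulAction.mem_stabilizer_iff, MulAction.mem_stabilizer_iff]
      exact Subtype.ext_iff
    rw [h2]
    exact h1
  exact Ideal.Quotient.stabilizerHom_surjective_of_profinite P Q

/-- a field automorphism which preserves `V` and acts trivially on the residue field of the place
can be corrected by an automorphism over `M` to an element of the inertia group -/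
private theorem absL_main {w : HeightOneSpectrum (𝓞 M)} {V : ValuationSubring Ω} (hV : Abv w V)
    (T : Ω ≃+* Ω) (hT : ∀ x : Ω, V.valuation (T x) ≤ 1 ↔ V.valuation x ≤ 1)
    (hw : ∀ x : 𝓞 M, V.valuation (T (algebraMap (𝓞 M) Ω x) - algebraMap (𝓞 M) Ω x) < 1) :
    ∃ g : Ω ≃ₐ[M] Ω, ∀ x : Ω, IsIntegral ℤ x → V.valuation (g x - T x) < 1 := by
  have hTi : ∀ (S : Ω ≃+* Ω) (x : Ω), IsIntegral ℤ x → IsIntegral ℤ (S x) := fun S x hx =>
    hx.map (S : Ω →+* Ω).toIntAlgHom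
  have hZ : ∀ x : Ω, IsIntegral (𝓞 M) x ↔ IsIntegral ℤ x := by
    intro x
    constructor
    · intro h
      exact isIntegral_trans x h
    · intro h
      exact h.tower_top
  have hTlt : ∀ x : Ω, V.valuation (T x) < 1 ↔ V.valuation x < 1 := by
    intro x
    rcases eq_or_ne x 0 with rfl | hx
    · rw [map_zero]
    · have h1 := hT x⁻¹
      have h2 : 0 < V.valuation x := (Valuation.pos_iff _).2 hx
      have h3 : 0 < V.valuation (T x) :=
        (Valuation.pos_iff _).2 ((map_ne_zero_iff T T.injective).2 hx)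
      rw [map_inv₀, map_inv₀, map_inv₀, inv_le_one₀ h3, inv_le_one₀ h2] at h1
      rw [← not_le, ← not_le, h1]
  -- the automorphism of the ring of integers
  obtain ⟨TB, hTB⟩ : ∃ TB : integralClosure (𝓞 M) Ω ≃+* integralClosure (𝓞 M) Ω,
      ∀ b : integralClosure (𝓞 M) Ω, ((TB b : integralClosure (𝓞 M) Ω) : Ω) = T (b : Ω) :=
    ⟨{  toFun := fun b => ⟨T (b : Ω), (hZ _).2 (hTi T _ ((hZ _).1 b.2))⟩
        invFun := fun b => ⟨T.symm (b : Ω), (hZ _).2 (hTi T.symm _ ((hZ _).1 b.2))⟩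
        left_inv := fun b => Subtype.ext (T.symm_apply_apply _)
        right_inv := fun b => Subtype.ext (T.apply_symm_apply _)
        map_mul' := fun b c => Subtype.ext (map_mul T _ _)
        map_add' := fun b c => Subtype.ext (map_add T _ _) }, fun b => rfl⟩
  have := mB_prime hV
  have : (mB hV).LiesOver w.asIdeal := ⟨(mB_under hV).symm⟩
  have hmap : mB hV = (mB hV).map (TB : integralClosure (𝓞 M) Ω →+* integralClosure (𝓞 M) Ω) := by
    ext b
    constructor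
    · intro hb
      have h1 : TB.symm b ∈ mB hV := by
        rw [mem_mB, ← hTlt, ← hTB, TB.apply_symm_apply]
        exact hb
      have h2 := Ideal.mem_map_of_mem
        (TB : integralClosure (𝓞 M) Ω →+* integralClosure (𝓞 M) Ω) h1
      have h3 : (TB : integralClosure (𝓞 M) Ω →+* integralClosure (𝓞 M) Ω) (TB.symm b) = b :=
        TB.apply_symm_apply b
      rwa [h3] at h2
    · intro hb
      obtain ⟨c, hc, rfl⟩ := (Ideal.mem_map_iff_of_surjective _ TB.surjective).1 hb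
      show TB c ∈ mB hV
      rw [mem_mB, hTB, hTlt]
      exact hc
  obtain ⟨q, hq⟩ : ∃ q : (integralClosure (𝓞 M) Ω ⧸ mB hV) ≃ₐ[𝓞 M ⧸ w.asIdeal]
      (integralClosure (𝓞 M) Ω ⧸ mB hV), ∀ b : integralClosure (𝓞 M) Ω,
        q (Ideal.Quotient.mk _ b) = Ideal.Quotient.mk _ (TB b) := by
    refine ⟨AlgEquiv.ofRingEquiv (f := Ideal.quotientEquiv (mB hV) (mB hV) TB hmap) ?_,
      fun b => Ideal.quotientEquiv_mk _ _ TB hmap b⟩
    intro x
    obtain ⟨a, rfl⟩ := Ideal.Quotient.mk_surjective x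
    have h1 : algebraMap (𝓞 M ⧸ w.asIdeal) (integralClosure (𝓞 M) Ω ⧸ mB hV)
        (Ideal.Quotient.mk _ a) =
          Ideal.Quotient.mk _ (algebraMap (𝓞 M) (integralClosure (𝓞 M) Ω) a) := rfl
    rw [h1, Ideal.quotientEquiv_mk, Ideal.Quotient.eq, mem_mB]
    have h2 := hw a
    have h3 : ((TB (algebraMap (𝓞 M) (integralClosure (𝓞 M) Ω) a) -
        algebraMap (𝓞 M) (integralClosure (𝓞 M) Ω) a : integralClosure (𝓞 M) Ω) : Ω) =
        T (algebraMap (𝓞 M) Ω a) - algebraMap (𝓞 M) Ω a := by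
      rw [AddSubgroupClass.coe_sub, hTB]
      rfl
    rw [h3]
    exact h2
  obtain ⟨g, hg⟩ := absL_surj w.asIdeal (mB hV) q
  refine ⟨g.1, fun x hx => ?_⟩
  have h1 := hq ⟨x, (hZ x).2 hx⟩
  rw [← hg, Ideal.Quotient.stabilizerHom_apply] at h1
  have h2 := Ideal.Quotient.eq.1 h1
  rw [mem_mB, AddSubgroupClass.coe_sub, hTB] at h2
  exact h2

end

section
variable {k Ω : Type*} [Field k] [NumberField k] [Field Ω] [Algebra k Ω] [IsAlgClosed Ω]
  [Algebra.IsAlgebraic k Ω]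

/-- lifting an element of the inertia group of a finite extension -/
theorem in_lift {M : Type*} [Field M] [NumberField M] [Algebra k M] [IsGalois k M] [Algebra M Ω]
    [IsScalarTower k M Ω] {w : HeightOneSpectrum (𝓞 M)} {V : ValuationSubring Ω} (hV : Abv w V)
    {σ : Gal(M/k)} (hσ : ∀ x : 𝓞 M, σ • x - x ∈ w.asIdeal) :
    ∃ τ : Ω ≃ₐ[k] Ω, IsFr V 1 τ ∧ ∀ x : M, τ (algebraMap M Ω x) = algebraMap M Ω (σ x) := by
  have : IsAlgClosure k Ω := ⟨inferInstance, inferInstance⟩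
  have : Normal k Ω := IsAlgClosure.normal k Ω
  have : Algebra.IsAlgebraic M Ω := Algebra.IsAlgebraic.tower_top (K := k) M
  have hinert := GM.inert_mem hσ
  -- a lift of `σ`
  obtain ⟨τ₁, hτ₁⟩ : ∃ τ₁ : Ω ≃ₐ[k] Ω, ∀ x : M, τ₁ (algebraMap M Ω x) = algebraMap M Ω (σ x) :=
    ⟨σ.liftNormal Ω, fun x => σ.liftNormal_commutes Ω x⟩
  obtain ⟨V₁, hV₁⟩ : ∃ V₁ : ValuationSubring Ω, ∀ x : Ω, V₁.valuation x ≤ 1 ↔
      V.valuation (τ₁ x) ≤ 1 := by
    refine ⟨V.comap (τ₁ : Ω →+* Ω), fun x => ?_⟩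
    rw [ValuationSubring.valuation_le_one_iff, ValuationSubring.valuation_le_one_iff,
      ValuationSubring.mem_comap]
    rfl
  have hV₁' : Abv w V₁ := by
    intro x
    rw [hV₁, hτ₁, hV (σ x), GM.val_gal hinert]
  obtain ⟨ρ, hρ⟩ := abv_trans hV hV₁'
  -- the automorphism preserving `V`
  obtain ⟨T, hTd⟩ : ∃ T : Ω ≃ₐ[k] Ω, ∀ x, T x = τ₁ (ρ x) :=
    ⟨(ρ.restrictScalars k).trans τ₁, fun x => rfl⟩
  have hTM : ∀ x : M, T (algebraMap M Ω x) = algebraMap M Ω (σ x) := by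
    intro x
    rw [hTd, ρ.commutes, hτ₁]
  obtain ⟨g, hg⟩ := absL_main hV (T : Ω ≃+* Ω)
    (by
      intro x
      have h1 : (T : Ω ≃+* Ω) x = τ₁ (ρ x) := hTd x
      rw [h1, ← hV₁, hρ])
    (by
      intro x
      have h1 : (T : Ω ≃+* Ω) (algebraMap (𝓞 M) Ω x) = algebraMap M Ω (σ (x : M)) := hTM x
      have h2 : algebraMap (𝓞 M) Ω x = algebraMap M Ω (x : M) :=
        IsScalarTower.algebraMap_apply (𝓞 M) M Ω x
      rw [h1, h2, ← map_sub, abv_lt hV]
      exact (HeightOneSpectrum.valuation_lt_one_iff_mem w (σ • x - x)).2 (hσ x))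
  -- correction
  obtain ⟨τ, hτ⟩ : ∃ τ : Ω ≃ₐ[k] Ω, ∀ x, τ x = T (g.symm x) :=
    ⟨(g.symm.restrictScalars k).trans T, fun x => rfl⟩
  refine ⟨τ, fr_of (abv_res (k := k) hV) fun a => ?_, fun x => ?_⟩
  · have h1 : IsIntegral ℤ (a : Ω) := isIntegral_trans (a : Ω) a.2
    have h2 : IsIntegral ℤ (g.symm (a : Ω)) :=
      h1.map ((g.symm : Ω ≃+* Ω) : Ω →+* Ω).toIntAlgHom
    have h3 := hg _ h2
    rw [g.apply_symm_apply] at h3
    rw [pow_one, hτ, Valuation.map_sub_swap]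
    exact h3
  · rw [hτ, g.symm.commutes, hTM]

end

end Pool.Agent.Lib.MP_1a91b9_nuX.GL
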