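import Pool.Agent.Lib.MP_1a91b9_nuX.GL.TrA

/-!
# Endomorphisms of the torsion which act on the reduced abscissae by affine maps

`Af V C τ`: `τ` commutes with `𝓞 K`, is injective on the torsion prime to the residue characteristic, and `cx (τ T) ≡ a cx T + b` for these points.

PROOF (`v = V.valuation`).
`af_comp`: `cx (τ (τ' T)) ≡ a (a' cx T + b') + b`; `τ' T` is `Tr` (`tr_hom`), not `0`. `af_pow`: induction (`af_id` for `0`).
`af_id`: `a = 1`, `b = 0`. `af_unit` (`sm Kb ζ` for a unit `ζ`): `xc (sm ζ T) = ζ⁻² xc T` in `Kb`: this is `xc_unit` below; `a = ζ⁻²`, `b = (ζ⁻² - 1) r / u²`, `v b ≤ 1`: `b = cx (ζ T) - a cx T` for one nonzero `Tr` point `T` (`exists_prime`, `exists_pt_prime`; both abscissae have value `≤ 1`, `tr_not_kr`); `v a = 1` as `ζ` is a unit.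
`xc_unit`: transport to `ℂ` by `f : Kb →ₐ[K] ℂ` (`pm f`, `xc_pm`, `pm_sm`), `pm f T = u z` for the uniformisation (`exists_uni` of `nuX/DB/Uni.lean`: `u : ℂ →+ Pt ℂ` surjective, kernel the lattice, coordinates `X z = ℘ z / Om ^ 2`, `sm ℂ a (u z) = u (embK a * z)`), and
`℘ (ε z) = ε⁻² ℘ z` if `ε * PP.lattice = PP.lattice` (`ε = embK ζ`): from the definition of `PeriodPair.weierstrassP` as a sum over the lattice (reindex by `l ↦ ε l`), or by the homogeneity lemmas of Mathlib / `nuT/S3/Lat.lean`, `nuT/S3/*` (search `weierstrassP` with `smul`/`mul`; `distX_*`, e.g. the lemma used for the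
automorphisms). Another way: `distx`/`mulx` for `β = ζ` (`T = ∅`): `(xc P - xc R) = ζ ^ 2 * (xc (ζ P) - xc (ζ R))` (`DistX.distx` with `IsRes ζ ∅`, `Ord ζ 0`), so `ζ ^ 2 xc (ζ P) - xc P` is a constant `k`; take two more points: it is enough to show `k = 0`: `y² = x³ + A x + B` and
`ζ P` on the curve with `x' = ζ⁻² (x + k)`: (`y' = ± ...`): comparing `x'^3 + A x' + B` and `x^3 + A x + B`: the 2-torsion points are permuted: the three roots `x_i` of `x^3 + A x + B` have sum `0` and `ζ` permutes the points of order two, so `Σ x_i = ζ⁻² (Σ x_i + 3 k)`, `k = 0`. (Choose the simplest way.)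
`af_two`: `T₁, T₂` are `Tr`, not `0`, `T₁ ∓ T₂ ≠ 0`, `τ Tᵢ = ± Tᵢ`: `cx Tᵢ ≡ a cx Tᵢ + b` (`cx_neg`), so `(a - 1) (cx T₁ - cx T₂) ≡ 0`, `v (cx T₁ - cx T₂) = 1` (`krc_unit`, `v (cx T₂) ≤ 1`), `v (a - 1) < 1`, `v b < 1`. So `cx (τ T) ≡ cx T` for all `T`: `krc_of_x`: `τ T ∓ T ∈ KrC`, it is `Tr`, so `0` (`tr_kr`).
`af_sign`: let `T` with `τ T = - T`, `T ≠ -T`: `τ (T + T₁) = - T + T₁` is `± (T + T₁)`: `+` gives `2 T = 0`, `-` gives `2 T₁ = 0`.
-/

set_option autoImplicit false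

namespace Pool.Agent.Lib.MP_1a91b9_nuX.GL

open NumberField IsDedekindDomain WeierstrassCurve Pool.Agent.Lib.MP_1a91b9_nuT DB

variable [CD] [DecidableEq Kb]

/-- an endomorphism which acts on the reduced abscissae of the torsion points prime to the residue
characteristic by an affine map -/
structure Af (V : ValuationSubring Kb) (C : VariableChange Kb) (τ : Pt Kb →+ Pt Kb) : Prop where
  sm : ∀ (a : 𝓞 K) (T : Pt Kb), τ (sm Kb a T) = sm Kb a (τ T)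
  inj : ∀ T : Pt Kb, Tr V.valuation T → τ T = 0 → T = 0
  af : ∃ a b : Kb, V.valuation a = 1 ∧ V.valuation b ≤ 1 ∧ ∀ T : Pt Kb, Tr V.valuation T → T ≠ 0 →
    V.valuation (cx C (τ T) - (a * cx C T + b)) < 1

omit [DecidableEq Kb] in
private theorem af_emb_mul (a b : 𝓞 K) :
    embK ((a * b : 𝓞 K) : K) = embK (a : K) * embK (b : K) := by
  change embK (algebraMap (𝓞 K) K (a * b)) = _
  rw [map_mul, map_mul]

private theorem af_emb_inv (ζ : (𝓞 K)ˣ) :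
    embK (((ζ⁻¹ : (𝓞 K)ˣ) : 𝓞 K) : K) * embK ((ζ : 𝓞 K) : K) = 1 := by
  rw [← af_emb_mul, Units.inv_mul]
  change embK (algebraMap (𝓞 K) K 1) = _
  rw [map_one, map_one]

omit [DecidableEq Kb] in
private theorem af_emb_mem (a : 𝓞 K) : embK (a : K) ∈ PP.lattice := S3.mem_PP_iff.2 ⟨a, rfl⟩

/-- the multiplication by a unit on the lattice -/
private noncomputable def af_equiv (ζ : (𝓞 K)ˣ) : PP.lattice ≃ PP.lattice where
  toFun l := ⟨embK ((ζ : 𝓞 K) : K) * (l : ℂ), S3.mul_mem (af_emb_mem _) l.2⟩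
  invFun l := ⟨embK (((ζ⁻¹ : (𝓞 K)ˣ) : 𝓞 K) : K) * (l : ℂ), S3.mul_mem (af_emb_mem _) l.2⟩
  left_inv l := by
    apply Subtype.ext
    change embK (((ζ⁻¹ : (𝓞 K)ˣ) : 𝓞 K) : K) * (embK ((ζ : 𝓞 K) : K) * (l : ℂ)) = l
    rw [← mul_assoc, af_emb_inv, one_mul]
  right_inv l := by
    apply Subtype.ext
    change embK ((ζ : 𝓞 K) : K) * (embK (((ζ⁻¹ : (𝓞 K)ˣ) : 𝓞 K) : K) * (l : ℂ)) = l
    rw [← mul_assoc, mul_comm (embK ((ζ : 𝓞 K) : K)), af_emb_inv, one_mul]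

private theorem af_P (ζ : (𝓞 K)ˣ) (z : ℂ) :
    embK ((ζ : 𝓞 K) : K) ^ 2 * PP.weierstrassP (embK ((ζ : 𝓞 K) : K) * z) =
      PP.weierstrassP z := by
  have hε : embK ((ζ : 𝓞 K) : K) ≠ 0 := fun h => by
    have h1 := af_emb_inv ζ
    rw [h, mul_zero] at h1
    exact zero_ne_one h1
  set ε := embK ((ζ : 𝓞 K) : K) with hεd
  have hsq : ∀ w : ℂ, ε ^ 2 * (1 / (ε * w) ^ 2) = 1 / w ^ 2 := by
    intro w
    rw [mul_pow, one_div, mul_inv, ← mul_assoc, mul_inv_cancel₀ (pow_ne_zero 2 hε), one_mul,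
      one_div]
  unfold PeriodPair.weierstrassP
  rw [← tsum_mul_left, ← (af_equiv ζ).tsum_eq]
  refine tsum_congr fun l => ?_
  have h1 : ((af_equiv ζ l : PP.lattice) : ℂ) = ε * (l : ℂ) := rfl
  rw [h1, ← mul_sub, mul_sub, hsq, hsq]

theorem xc_unit (ζ : (𝓞 K)ˣ) (T : Pt Kb) :
    algebraMap K Kb ((ζ : 𝓞 K) : K) ^ 2 * xc (sm Kb (ζ : 𝓞 K) T) = xc T := by
  classical
  let f : Kb →ₐ[K] ℂ := IsAlgClosed.lift
  apply f.toRingHom.injective
  change f _ = f _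
  rw [map_mul, map_pow, AlgHom.commutes, algebraMap_eq, ← xc_pm, ← xc_pm, pm_sm]
  obtain ⟨u, hs, h0, h1, h2⟩ := exists_uni
  obtain ⟨z, hz⟩ := hs (pm f T)
  rw [← hz, ← h2]
  have hinj : embK ((ζ : 𝓞 K) : K) * z ∈ PP.lattice ↔ z ∈ PP.lattice := by
    constructor
    · intro h
      have h3 := S3.mul_mem (af_emb_mem ((ζ⁻¹ : (𝓞 K)ˣ) : 𝓞 K)) h
      rwa [← mul_assoc, af_emb_inv, one_mul] at h3
    · exact fun h => S3.mul_mem (af_emb_mem _) h
  by_cases hzl : z ∈ PP.lattice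
  · rw [(h0 _).2 (hinj.2 hzl), (h0 _).2 hzl, xc_zero, mul_zero]
  · rw [(h1 _ fun h => hzl (hinj.1 h)).1, (h1 _ hzl).1, S3.X, S3.X, ← mul_div_assoc, af_P]

section
variable {P : HeightOneSpectrum (𝓞 K)} {V : ValuationSubring Kb} (hV : Abv P V)
  {C : VariableChange Kb} (hC : GoodC V.valuation C)

theorem af_id : Af V C (AddMonoidHom.id (Pt Kb)) := by
  refine ⟨fun a T => rfl, fun T _ h => h, 1, 0, map_one _, ?_, fun T _ _ => ?_⟩
  · rw [map_zero]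
    exact zero_le
  · have e : cx C ((AddMonoidHom.id (Pt Kb)) T) - (1 * cx C T + 0) = 0 := by
      rw [AddMonoidHom.id_apply]
      ring
    rw [e, map_zero]
    exact zero_lt_one

theorem af_comp {τ τ' : Pt Kb →+ Pt Kb} (h : Af V C τ) (h' : Af V C τ') : Af V C (τ.comp τ') := by
  obtain ⟨a, b, ha, hb, hf⟩ := h.af
  obtain ⟨a', b', ha', hb', hf'⟩ := h'.af
  refine ⟨fun c T => ?_, fun T hT h0 => ?_, a * a', a * b' + b, ?_, ?_, fun T hT h0 => ?_⟩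
  · rw [AddMonoidHom.comp_apply, AddMonoidHom.comp_apply, h'.sm, h.sm]
  · exact h'.inj T hT (h.inj _ (tr_hom hT τ') h0)
  · rw [map_mul, ha, ha', one_mul]
  · refine (V.valuation.map_add _ _).trans (max_le ?_ hb)
    rw [map_mul, ha, one_mul]
    exact hb'
  · have h1 := hf' T hT h0
    have h2 := hf (τ' T) (tr_hom hT τ') fun h3 => h0 (h'.inj T hT h3)
    have e : cx C ((τ.comp τ') T) - (a * a' * cx C T + (a * b' + b)) =
        (cx C (τ (τ' T)) - (a * cx C (τ' T) + b)) + a * (cx C (τ' T) - (a' * cx C T + b')) := by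
      rw [AddMonoidHom.comp_apply]
      ring
    rw [e]
    refine (V.valuation.map_add _ _).trans_lt (max_lt h2 ?_)
    rw [map_mul, ha, one_mul]
    exact h1

include hV hC

theorem af_unit (ζ : (𝓞 K)ˣ) : Af V C (DB.sm Kb (ζ : 𝓞 K)) := by
  have hz : algebraMap K Kb (((ζ⁻¹ : (𝓞 K)ˣ) : 𝓞 K) : K) *
      algebraMap K Kb ((ζ : 𝓞 K) : K) = 1 := by
    rw [← map_mul]
    have h1 : (((ζ⁻¹ : (𝓞 K)ˣ) : 𝓞 K) : K) * ((ζ : 𝓞 K) : K) =
        ((((ζ⁻¹ : (𝓞 K)ˣ) : 𝓞 K) * (ζ : 𝓞 K) : 𝓞 K) : K) :=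
      (map_mul (algebraMap (𝓞 K) K) _ _).symm
    rw [h1, Units.inv_mul]
    change algebraMap K Kb (algebraMap (𝓞 K) K 1) = 1
    rw [map_one, map_one]
  have hv : V.valuation (algebraMap K Kb ((ζ : 𝓞 K) : K)) = 1 := by
    refine le_antisymm (val_ok hV _) ?_
    have h1 := congrArg V.valuation hz
    rw [map_mul, map_one] at h1
    rw [← h1]
    exact mul_le_of_le_one_left' (val_ok hV _)
  set z : Kb := algebraMap K Kb ((ζ : 𝓞 K) : K) with hzd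
  have hz0 : z ≠ 0 := fun h => by
    rw [h, map_zero] at hv
    exact zero_ne_one hv
  have hu : (C.u : Kb) ≠ 0 := C.u.ne_zero
  have hinj : ∀ T : Pt Kb, DB.sm Kb (ζ : 𝓞 K) T = 0 → T = 0 := by
    intro T h
    have h1 : DB.sm Kb (((ζ⁻¹ : (𝓞 K)ˣ) : 𝓞 K) * (ζ : 𝓞 K)) T = T := by
      rw [Units.inv_mul, sm_one]
    rw [← h1, sm_mul, h, map_zero]
  have hex : ∀ T : Pt Kb, cx C (DB.sm Kb (ζ : 𝓞 K) T) =
      (z ^ 2)⁻¹ * cx C T + ((z ^ 2)⁻¹ - 1) * C.r / (C.u : Kb) ^ 2 := by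
    intro T
    have h1 := xc_unit ζ T
    rw [← hzd] at h1
    rw [cx, cx, ← h1]
    field_simp
    ring
  refine ⟨fun a T => ?_, fun T _ h => hinj T h, (z ^ 2)⁻¹, ((z ^ 2)⁻¹ - 1) * C.r / (C.u : Kb) ^ 2,
    ?_, ?_, fun T _ _ => ?_⟩
  · change DB.sm Kb (ζ : 𝓞 K) (DB.sm Kb a T) = DB.sm Kb a (DB.sm Kb (ζ : 𝓞 K) T)
    rw [← sm_mul, ← sm_mul, mul_comm]
  · rw [map_inv₀, map_pow, hv, one_pow, inv_one]
  · obtain ⟨l, hl, -, hlv⟩ := exists_prime hV 0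
    obtain ⟨T, hT0, hTl⟩ := exists_pt_prime hl
    have hT : Tr V.valuation T := ⟨l, hlv, hTl⟩
    have h1 := hex T
    have e : ((z ^ 2)⁻¹ - 1) * C.r / (C.u : Kb) ^ 2 =
        cx C (DB.sm Kb (ζ : 𝓞 K) T) - (z ^ 2)⁻¹ * cx C T := by
      rw [h1]
      ring
    rw [e]
    refine (V.valuation.map_sub _ _).trans (max_le ?_ ?_)
    · exact (not_krc (tr_not_kr hC (tr_sm hT (ζ : 𝓞 K)) fun h => hT0 (hinj T h))).2
    · rw [map_mul, map_inv₀, map_pow, hv, one_pow, inv_one, one_mul]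
      exact (not_krc (tr_not_kr hC hT hT0)).2
  · change V.valuation (cx C (DB.sm Kb (ζ : 𝓞 K) T) -
      ((z ^ 2)⁻¹ * cx C T + ((z ^ 2)⁻¹ - 1) * C.r / (C.u : Kb) ^ 2)) < 1
    rw [hex, sub_self, map_zero]
    exact zero_lt_one

theorem af_two {τ : Pt Kb →+ Pt Kb} (h : Af V C τ) {T₁ T₂ : Pt Kb} (h1 : Tr V.valuation T₁)
    (h2 : Tr V.valuation T₂) (h10 : T₁ ≠ 0) (h20 : T₂ ≠ 0) (hd : T₁ - T₂ ≠ 0) (hs : T₁ + T₂ ≠ 0)
    (e1 : τ T₁ = T₁ ∨ τ T₁ = -T₁) (e2 : τ T₂ = T₂ ∨ τ T₂ = -T₂) :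
    ∀ T : Pt Kb, Tr V.valuation T → τ T = T ∨ τ T = -T := by
  obtain ⟨a, b, ha, hb, hf⟩ := h.af
  have hsg : ∀ T : Pt Kb, (τ T = T ∨ τ T = -T) → cx C (τ T) = cx C T := by
    rintro T (e | e)
    · rw [e]
    · rw [e, cx_neg]
  have E1 := hf T₁ h1 h10
  have E2 := hf T₂ h2 h20
  rw [hsg T₁ e1] at E1
  rw [hsg T₂ e2] at E2
  have hk1 := tr_not_kr hC h1 h10
  have hk2 := tr_not_kr hC h2 h20
  have hun : V.valuation (cx C T₁ - cx C T₂) = 1 := by
    rw [krc_unit hC hk1 h20 (tr_not_kr hC (tr_sub h1 h2) hd) (tr_not_kr hC (tr_add h1 h2) hs)]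
    exact max_eq_left (not_krc hk2).2
  have ha1 : V.valuation (1 - a) < 1 := by
    have e : (1 - a) * (cx C T₁ - cx C T₂) =
        (cx C T₁ - (a * cx C T₁ + b)) - (cx C T₂ - (a * cx C T₂ + b)) := by ring
    have h3 : V.valuation ((1 - a) * (cx C T₁ - cx C T₂)) < 1 := by
      rw [e]
      exact (V.valuation.map_sub _ _).trans_lt (max_lt E1 E2)
    rw [map_mul, hun, mul_one] at h3
    exact h3
  have hlt : ∀ x : Kb, V.valuation x ≤ 1 → V.valuation ((1 - a) * x) < 1 := by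
    intro x hx
    rw [map_mul]
    exact mul_lt_one_of_lt_of_le ha1 hx
  have hb1 : V.valuation b < 1 := by
    have e : b = (1 - a) * cx C T₁ - (cx C T₁ - (a * cx C T₁ + b)) := by ring
    rw [e]
    exact (V.valuation.map_sub _ _).trans_lt (max_lt (hlt _ (not_krc hk1).2) E1)
  intro T hT
  by_cases hT0 : T = 0
  · left
    rw [hT0, map_zero]
  have hk := tr_not_kr hC hT hT0
  have hτ0 : τ T ≠ 0 := fun h3 => hT0 (h.inj T hT h3)
  have hτT : Tr V.valuation (τ T) := tr_hom hT τ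
  have hx : V.valuation (cx C (τ T) - cx C T) < 1 := by
    have e : cx C (τ T) - cx C T = ((cx C (τ T) - (a * cx C T + b)) - (1 - a) * cx C T) + b := by
      ring
    rw [e]
    refine (V.valuation.map_add _ _).trans_lt (max_lt ?_ hb1)
    exact (V.valuation.map_sub _ _).trans_lt (max_lt (hf T hT hT0) (hlt _ (not_krc hk).2))
  rcases krc_of_x hC (tr_not_kr hC hτT hτ0) hk hx with h3 | h3
  · left
    exact sub_eq_zero.1 (tr_kr hC (tr_sub hτT hT) h3)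
  · right
    exact eq_neg_of_add_eq_zero_left (tr_kr hC (tr_add hτT hT) h3)

omit hV hC in
theorem af_sign {τ : Pt Kb →+ Pt Kb}
    (h : ∀ T : Pt Kb, Tr V.valuation T → τ T = T ∨ τ T = -T) {T₁ : Pt Kb}
    (h1 : Tr V.valuation T₁) (e1 : τ T₁ = T₁) (h2 : 2 • T₁ ≠ 0) :
    ∀ T : Pt Kb, Tr V.valuation T → τ T = T := by
  intro T hT
  rcases h T hT with h3 | h3
  · exact h3
  · rcases h (T + T₁) (tr_add hT h1) with h4 | h4
    · rw [map_add, h3, e1, add_right_cancel_iff] at h4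
      rw [h3, h4]
    · rw [map_add, h3, e1, neg_add, add_right_inj] at h4
      exfalso
      apply h2
      rw [two_nsmul]
      nth_rewrite 1 [h4]
      exact neg_add_cancel T₁

end

end Pool.Agent.Lib.MP_1a91b9_nuX.GL
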