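import Pool.Agent.Lib.MP_1a91b9_nuX.GL.Env

/-!
# The kernel of reduction of a good model

PROOF. `obtain ⟨e, he⟩ := GM.exists_chg (EF F) C` : `e : (EF F).toAffine.Point ≃+ (C • EF F).toAffine.Point`, `Pt F` is by definition `(EF F).toAffine.Point` and `xc = GM.px`, `yc = GM.py` by cases (`rfl` on `.some`);
from `he P hP`: `GM.px (e P) = cx C P`, `GM.py (e P) = cy C P` for `P ≠ 0` (`C.u ≠ 0`, `field_simp`). First prove `chgA_e : ∃ e : Pt F ≃+ (C • EF F).toAffine.Point, ∀ P ≠ 0, GM.px (e P) = cx C P ∧ GM.py (e P) = cy C P`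
and `KrC v C P ↔ GM.Kr v (e P)`. Then everything is a theorem of `GM`: `GM.kr_zero`, `GM.kr_neg`, `GM.kr_add_kr`, `GM.kr_nsmul`, `GM.not_kr_add`, `GM.py_le`, `GM.kr_sub`, `GM.kr_of_x`, `GM.x_of_kr`, `GM.tors_kr`, `GM.v_px_sub`.
`cx_neg`: `xc (-P) = xc P` (cases; `neg_mk`). `exists_cx`: `GM.exists_pt_x` for `C • EF F` (its discriminant has value one, so is not zero), `P = e.symm Q`.
`mul_of`: the multiple of a point of `KrC` is in `KrC` (`krc_nsmul`), `krc_tors`.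
-/

set_option autoImplicit false

namespace Pool.Agent.Lib.MP_1a91b9_nuX.GL

open NumberField IsDedekindDomain WeierstrassCurve Pool.Agent.Lib.MP_1a91b9_nuT DB

variable [CD]

section
variable {F : Type*} [Field F] [Algebra K F] [DecidableEq F] {Γ : Type*}
  [LinearOrderedCommGroupWithZero Γ] {v : Valuation F Γ} {C : VariableChange F}

omit [DecidableEq F] in
private theorem chgA_px (P : (EF F).toAffine.Point) : GM.px P = xc (F := F) P := by
  rcases P with _ | ⟨x, y, h⟩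
  · rfl
  · rfl

omit [DecidableEq F] in
private theorem chgA_py (P : (EF F).toAffine.Point) : GM.py P = yc (F := F) P := by
  rcases P with _ | ⟨x, y, h⟩
  · rfl
  · rfl

omit [CD] [Algebra K F] [DecidableEq F] in
private theorem chgA_alg {u r s t x y X Y : F} (hu : u ≠ 0) (h1 : x = u ^ 2 * X + r)
    (h2 : y = u ^ 3 * Y + u ^ 2 * s * X + t) :
    X = (x - r) / u ^ 2 ∧ Y = (y - s * (x - r) - t) / u ^ 3 := by
  rw [eq_div_iff (pow_ne_zero 2 hu), eq_div_iff (pow_ne_zero 3 hu), h1, h2]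
  constructor <;> ring

variable (C) in
private theorem chgA_e : ∃ e : Pt F ≃+ (C • EF F).toAffine.Point, ∀ P : Pt F, P ≠ 0 →
    GM.px (e P) = cx C P ∧ GM.py (e P) = cy C P := by
  obtain ⟨e, he⟩ := GM.exists_chg (EF F) C
  refine ⟨e, fun P hP => ?_⟩
  obtain ⟨h1, h2⟩ := he P hP
  rw [chgA_px P] at h1
  rw [chgA_py P] at h2
  exact chgA_alg C.u.ne_zero h1 h2

private theorem chgA_kr {e : Pt F ≃+ (C • EF F).toAffine.Point} (he : ∀ P : Pt F, P ≠ 0 →
    GM.px (e P) = cx C P ∧ GM.py (e P) = cy C P) (P : Pt F) :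
    KrC v C P ↔ GM.Kr v (e P) := by
  unfold KrC GM.Kr
  by_cases hP : P = 0
  · subst hP
    exact ⟨fun _ => Or.inl (map_zero e), fun _ => Or.inl rfl⟩
  · rw [(he P hP).1]
    exact or_congr ⟨fun h => absurd h hP, fun h => (map_eq_zero_iff e e.injective).1 h⟩ Iff.rfl

omit [DecidableEq F] in
theorem krc_zero : KrC v C (0 : Pt F) := Or.inl rfl

theorem cx_neg (P : Pt F) : cx C (-P) = cx C P := by
  have h : xc (-P) = xc P := by
    rcases cases_pt P with rfl | ⟨x, y, h, rfl⟩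
    · rw [neg_zero]
    · rw [neg_mk, xc_mk, xc_mk]
  rw [cx, cx, h]

omit [DecidableEq F] in
theorem cx_sub (P Q : Pt F) : cx C P - cx C Q = (xc P - xc Q) / (C.u : F) ^ 2 := by
  rw [cx, cx, ← sub_div]
  congr 1
  ring

theorem krc_neg {P : Pt F} : KrC v C (-P) ↔ KrC v C P := by
  unfold KrC
  rw [cx_neg, neg_eq_zero]

omit [DecidableEq F] in
theorem not_krc {P : Pt F} (h : ¬ KrC v C P) : P ≠ 0 ∧ v (cx C P) ≤ 1 := by
  unfold KrC at h
  rw [not_or, not_lt] at h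
  exact h

variable (hC : GoodC v C)
include hC

theorem krc_add {P Q : Pt F} (hP : KrC v C P) (hQ : KrC v C Q) : KrC v C (P + Q) := by
  obtain ⟨e, he⟩ := chgA_e (F := F) C
  rw [chgA_kr he, map_add]
  exact GM.kr_add_kr hC.toIntW ((chgA_kr he P).1 hP) ((chgA_kr he Q).1 hQ)

theorem krc_sub {P Q : Pt F} (hP : KrC v C P) (hQ : KrC v C Q) : KrC v C (P - Q) := by
  rw [sub_eq_add_neg]
  exact krc_add hC hP (krc_neg.2 hQ)

theorem krc_nsmul {P : Pt F} (hP : KrC v C P) (n : ℕ) : KrC v C (n • P) := by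
  obtain ⟨e, he⟩ := chgA_e (F := F) C
  rw [chgA_kr he, map_nsmul]
  exact GM.kr_nsmul hC.toIntW ((chgA_kr he P).1 hP) n

theorem krc_zsmul {P : Pt F} (hP : KrC v C P) (n : ℤ) : KrC v C (n • P) := by
  obtain ⟨m, rfl | rfl⟩ := Int.eq_nat_or_neg n
  · rw [natCast_zsmul]
    exact krc_nsmul hC hP m
  · rw [neg_smul, natCast_zsmul]
    exact krc_neg.2 (krc_nsmul hC hP m)

theorem not_krc_add {P Q : Pt F} (hP : ¬ KrC v C P) (hQ : KrC v C Q) : ¬ KrC v C (P + Q) := by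
  intro h
  have h1 := krc_sub hC h hQ
  rw [add_sub_cancel_right] at h1
  exact hP h1

theorem cy_le {P : Pt F} (h : ¬ KrC v C P) : v (cy C P) ≤ 1 := by
  obtain ⟨e, he⟩ := chgA_e (F := F) C
  rw [← (he P (not_krc h).1).2]
  exact GM.py_le hC.toIntW (fun h1 => h ((chgA_kr he P).2 h1))

/-- two points with the same reduction differ by an element of the kernel of reduction -/
theorem krc_of {P Q : Pt F} (hP : ¬ KrC v C P) (hQ : ¬ KrC v C Q) (hx : v (cx C P - cx C Q) < 1)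
    (hy : v (cy C P - cy C Q) < 1) : KrC v C (P - Q) := by
  obtain ⟨e, he⟩ := chgA_e (F := F) C
  rw [← (he P (not_krc hP).1).1, ← (he Q (not_krc hQ).1).1] at hx
  rw [← (he P (not_krc hP).1).2, ← (he Q (not_krc hQ).1).2] at hy
  rw [chgA_kr he, map_sub]
  exact GM.kr_sub hC (fun h1 => hP ((chgA_kr he P).2 h1)) (fun h1 => hQ ((chgA_kr he Q).2 h1)) hx hy

theorem krc_of_x {P Q : Pt F} (hP : ¬ KrC v C P) (hQ : ¬ KrC v C Q)
    (hx : v (cx C P - cx C Q) < 1) : KrC v C (P - Q) ∨ KrC v C (P + Q) := by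
  obtain ⟨e, he⟩ := chgA_e (F := F) C
  rw [← (he P (not_krc hP).1).1, ← (he Q (not_krc hQ).1).1] at hx
  rw [chgA_kr he, chgA_kr he, map_sub, map_add]
  exact GM.kr_of_x hC (fun h1 => hP ((chgA_kr he P).2 h1)) (fun h1 => hQ ((chgA_kr he Q).2 h1)) hx

theorem krc_near {P Q : Pt F} (hQ : ¬ KrC v C Q) (h : KrC v C (P - Q)) :
    v (cx C P - cx C Q) < 1 ∧ v (cy C P - cy C Q) < 1 := by
  obtain ⟨e, he⟩ := chgA_e (F := F) C
  have hP : P ≠ 0 := by
    rintro rfl
    rw [zero_sub, krc_neg] at h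
    exact hQ h
  rw [← (he P hP).1, ← (he Q (not_krc hQ).1).1, ← (he P hP).2, ← (he Q (not_krc hQ).1).2]
  rw [chgA_kr he, map_sub] at h
  exact GM.x_of_kr hC.toIntW (fun h1 => hQ ((chgA_kr he Q).2 h1)) h

/-- no torsion prime to the residue characteristic in the kernel of reduction -/
theorem krc_tors {P : Pt F} (h : KrC v C P) {n : ℕ} (hn : v (n : F) = 1) (h0 : n • P = 0) :
    P = 0 := by
  obtain ⟨e, he⟩ := chgA_e (F := F) C
  have h1 : n • e P = 0 := by rw [← map_nsmul, h0, map_zero]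
  have h2 := GM.tors_kr hC ((chgA_kr he P).1 h) hn h1
  exact (map_eq_zero_iff e e.injective).1 h2

/-- the value of the difference of two abscissae -/
theorem krc_unit {P Q : Pt F} (hP : ¬ KrC v C P) (hQ : Q ≠ 0) (h1 : ¬ KrC v C (P - Q))
    (h2 : ¬ KrC v C (P + Q)) : v (cx C P - cx C Q) = max 1 (v (cx C Q)) := by
  obtain ⟨e, he⟩ := chgA_e (F := F) C
  rw [chgA_kr he, map_sub] at h1
  rw [chgA_kr he, map_add] at h2
  rw [← (he P (not_krc hP).1).1, ← (he Q hQ).1]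
  exact GM.v_px_sub hC (fun h3 => hP ((chgA_kr he P).2 h3))
    (fun h3 => hQ ((map_eq_zero_iff e e.injective).1 h3)) h1 h2

theorem exists_cx [IsAlgClosed F] (x : F) (hx : v x ≤ 1) : ∃ P : Pt F, ¬ KrC v C P ∧ cx C P = x := by
  obtain ⟨e, he⟩ := chgA_e (F := F) C
  have hΔ : (C • EF F).Δ ≠ 0 := by
    intro h
    have h1 := hC.disc
    rw [h, map_zero] at h1
    exact zero_ne_one h1
  obtain ⟨Q, hQ, hx1⟩ := GM.exists_pt_x hΔ x
  have hP : e.symm Q ≠ 0 := fun h => hQ ((map_eq_zero_iff e.symm e.symm.injective).1 h)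
  have h2 := (he (e.symm Q) hP).1
  rw [AddEquiv.apply_symm_apply, hx1] at h2
  refine ⟨e.symm Q, ?_, h2.symm⟩
  rintro (h | h)
  · exact hP h
  · rw [← h2] at h
    exact absurd hx (not_le.2 h)

/-- a point with a nonzero multiple of order prime to the residue characteristic -/
theorem not_krc_of_mul {X : Pt F} {m n : ℕ} (hn : v (n : F) = 1) (h : n • m • X = 0)
    (h0 : m • X ≠ 0) : ¬ KrC v C X := fun hX => h0 (krc_tors hC (krc_nsmul hC hX m) hn h)

end

end Pool.Agent.Lib.MP_1a91b9_nuX.GL
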