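import Pool.Agent.Lib.MP_1a91b9_nuX.GL.FrA
import Pool.Agent.Lib.MP_1a91b9_nuX.GL.AbsU
import Pool.Agent.Lib.MP_1a91b9_nuX.GL.AbsL
import Pool.Agent.Lib.MP_1a91b9_nuX.GM.Nos

/-!
# The criterion of Néron, Ogg and Shafarevich for the curve of `CD`

`F` is a number field between `K` and `Kb`.

PROOF.
`EF_eq`: `(E K).map (algebraMap K F) = E F` (`map_intCast`). `jint_val`: `(E F).c₄ ^ 3 = (E F).Δ * m` with an integer `m` (`CD.jint`: `(E F).c₄ = -48 A`, `Δ = -16 (4 A³ + 27 B²)`, `-110592 A³ = -16 * 6912 A³`); `v m ≤ 1` for an integer `m` (any valuation).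
`nos_triv`: `C : VariableChange F` good, `C' = C.map (algebraMap F Kb)`: `GoodC V.valuation C'` (`GM.good_map` with `hV`, `EF Kb = (E F).map (algebraMap F Kb)`). `σ` fixes the coefficients of `C'`, so `cx C' (ga σ T) = σ (cx C' T)` and same for `cy` (`xc_gk`, `yc_gk`); `T ≠ 0` is `Tr`, not in `KrC`, so the values are `≤ 1` (`cy_le`) and
`hσ` (`m = 1`, `pow_one`) and `krc_of` give `ga σ T - T ∈ KrC`; it is `Tr` (`tr_sub`, `tr_hom`), so it is `0` (`tr_kr`).
`point_transfer`: if `W₁ = W₂` (as Weierstrass curves over a field) there is an additive bijection of the points which preserves `GM.px` and `GM.py` (`subst`, the identity).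
`nos_conv`: `n = 3` if `V 3 = 1`, otherwise `n = 4` (`V 3 < 1` implies `V 2 = 1`, `3 - 2 = 1`). `L`, `R : Pt L` with `Ord (n : 𝓞 K) R` from `exists_ext F F` (`DB/Ext.lean`), `IsGalois F L`. `L` is algebraic over `F`: an `F`-homomorphism `L →ₐ[F] Kb` (`IsAlgClosed.lift`), which makes `Kb` an `L`-algebra with towers (`F, L, Kb`, `K, L, Kb`).
`w'` the place of `L` below `V` (`abv_under`), `w'.under = w`. For `σ : Gal(L/F)` with `∀ y, σ • y - y ∈ w'.asIdeal`: `in_lift` gives `τ : Kb ≃ₐ[F] Kb`, `IsFr V 1 τ`, which extends `σ`; so `ga τ` is the identity on `Tr`, in particular on the images (`pm`) of the points of `Pt L` killed by `n` (`V n = 1`), so `σ` fixes the coordinates of these points.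
Apply `GM.conv_three` to `W = E F`, `M = L`, the points `P = R`, `Q = sm L ta R` (`Q ≠ 0`, `Q ≠ ± P`: `3 ∤ ta`, `3 ∤ ta ∓ 1`, coordinates `coords_inj`), or `GM.conv_two` to `Q = R`, `T = 2 • sm L ta R` (`4 ∤ 2`, `4 ∤ 2 (ta - 1)`, ...), transported by `point_transfer` to the points of `(E F).map (algebraMap F L)`
(`Pt L = ((E K).map (algebraMap K L)).toAffine.Point`); `GM.px_gact`, `GM.py_gact` and `GM.p_ext` show that `gact σ` fixes them.
-/

set_option autoImplicit false

namespace Pool.Agent.Lib.MP_1a91b9_nuX.GL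

open NumberField IsDedekindDomain WeierstrassCurve Pool.Agent.Lib.MP_1a91b9_nuT DB

universe u

theorem point_transfer {F : Type*} [Field F] [DecidableEq F] {W₁ W₂ : WeierstrassCurve F}
    (h : W₁ = W₂) : ∃ e : W₁.toAffine.Point ≃+ W₂.toAffine.Point,
      ∀ P, GM.px (e P) = GM.px P ∧ GM.py (e P) = GM.py P := by
  subst h
  exact ⟨AddEquiv.refl _, fun _ => ⟨rfl, rfl⟩⟩

variable [CD]

private theorem crit_map {k F : Type*} [Field k] [Field F] (f : k →+* F) :
    (E k).map f = E F := by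
  refine WeierstrassCurve.ext ?_ ?_ ?_ ?_ ?_
  · exact map_zero f
  · exact map_zero f
  · exact map_zero f
  · exact map_intCast f _
  · exact map_intCast f _

theorem EF_eq (F : Type*) [Field F] [Algebra K F] : EF F = E F :=
  crit_map _

private theorem crit_disc (F : Type*) [Field F] :
    (E F).Δ = -16 * (4 * cA F ^ 3 + 27 * cB F ^ 2) := by
  simp only [WeierstrassCurve.Δ, WeierstrassCurve.b₂, WeierstrassCurve.b₄, WeierstrassCurve.b₆,
    WeierstrassCurve.b₈, E]
  ring

private theorem crit_c4 (F : Type*) [Field F] : (E F).c₄ = -48 * cA F := by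
  simp only [WeierstrassCurve.c₄, WeierstrassCurve.b₂, WeierstrassCurve.b₄, E]
  ring

theorem jint_val {F : Type*} [Field F] {Γ : Type*} [LinearOrderedCommGroupWithZero Γ]
    (v : Valuation F Γ) : v ((E F).c₄ ^ 3) ≤ v (E F).Δ := by
  obtain ⟨m, hm⟩ := CD.jint
  have h1 := congrArg (fun z : ℤ => (z : F)) hm
  have h2 : (6912 : F) * cA F ^ 3 = (4 * cA F ^ 3 + 27 * cB F ^ 2) * (m : F) := by
    push_cast at h1
    exact h1
  have h3 : (E F).c₄ ^ 3 = (E F).Δ * (m : F) := by
    rw [crit_disc, crit_c4]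
    linear_combination (-16) * h2
  have h4 : v (m : F) ≤ 1 := intCast_mem v.integer m
  rw [h3, map_mul]
  exact mul_le_of_le_one_right' h4

private theorem crit_disc_ne (F : Type*) [Field F] [Algebra K F] : (E F).Δ ≠ 0 := by
  have : CharZero F := charZero_of_injective_algebraMap (algebraMap K F).injective
  rw [crit_disc]
  exact mul_ne_zero (by norm_num) dsc_ne

/-- divisibility by a natural number in terms of the coordinates -/
private theorem crit_dvd {n : ℕ} {a b : ℤ} (h : (n : 𝓞 K) ∣ (a : 𝓞 K) + (b : 𝓞 K) * ta) :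
    (n : ℤ) ∣ a ∧ (n : ℤ) ∣ b := by
  obtain ⟨d, hd⟩ := h
  obtain ⟨x, y, rfl⟩ := exists_coords d
  have h1 : (a : 𝓞 K) + (b : 𝓞 K) * ta =
      (((n : ℤ) * x : ℤ) : 𝓞 K) + (((n : ℤ) * y : ℤ) : 𝓞 K) * ta := by
    push_cast
    linear_combination hd
  obtain ⟨h2, h3⟩ := coords_inj h1
  exact ⟨⟨x, h2⟩, ⟨y, h3⟩⟩

private theorem crit_px {F : Type*} [Field F] [Algebra K F] (P : (EF F).toAffine.Point) :
    GM.px P = xc (F := F) P := by
  rcases P with _ | ⟨x, y, h⟩
  · rfl
  · rfl

private theorem crit_py {F : Type*} [Field F] [Algebra K F] (P : (EF F).toAffine.Point) :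
    GM.py P = yc (F := F) P := by
  rcases P with _ | ⟨x, y, h⟩
  · rfl
  · rfl

/-- a multiple of a point with annihilator `n` which is not zero -/
private theorem crit_ne {L : Type*} [Field L] [Algebra K L] [DecidableEq L] {n : ℕ} {R : Pt L}
    (hR : Ord (n : 𝓞 K) R) {c : 𝓞 K} {a b : ℤ} (hc : c = (a : 𝓞 K) + (b : 𝓞 K) * ta)
    (h : ¬ (n : ℤ) ∣ a ∨ ¬ (n : ℤ) ∣ b) : sm L c R ≠ 0 := by
  intro h0
  have h1 := (hR c).1 h0
  rw [hc] at h1
  obtain ⟨h2, h3⟩ := crit_dvd h1
  rcases h with h | h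
  · exact h h2
  · exact h h3

/-- the points of the curve over an extension, with the action of an automorphism -/
private theorem crit_pts {F L : Type*} [Field F] [NumberField F] [Algebra K F] [Field L]
    [NumberField L] [Algebra K L] [Algebra F L] [IsScalarTower K F L] [DecidableEq L] :
    ∃ e : Pt L →+ ((E F).map (algebraMap F L)).toAffine.Point, Function.Injective e ∧
      ∀ (σ : Gal(L/F)) (P : Pt L), σ (xc P) = xc P → σ (yc P) = yc P →
        GM.gact σ (e P) = e P := by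
  obtain ⟨e, he⟩ := point_transfer (show EF L = (E F).map (algebraMap F L) by
    rw [EF_eq, crit_map])
  refine ⟨e.toAddMonoidHom, e.injective, fun σ P hx hy => ?_⟩
  rcases eq_or_ne P 0 with h0 | h0
  · rw [h0, map_zero, map_zero]
  have h1 : e P ≠ 0 := fun h => h0 ((map_eq_zero_iff e e.injective).1 h)
  refine GM.p_ext (GM.gact_ne σ h1) h1 ?_ ?_
  · rw [GM.px_gact]
    show σ (GM.px (e P)) = GM.px (e P)
    rw [(he P).1, crit_px, hx]
  · rw [GM.py_gact]
    show σ (GM.py (e P)) = GM.py (e P)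
    rw [(he P).2, crit_py, hy]

variable [DecidableEq Kb]

section
variable {F : Type u} [Field F] [NumberField F] [Algebra K F] [Algebra F Kb]
  [IsScalarTower K F Kb] {w : HeightOneSpectrum (𝓞 F)} {V : ValuationSubring Kb} (hV : Abv w V)
include hV

theorem nos_triv (h : ∃ C : VariableChange F, GM.GoodW (w.valuation F) (C • E F))
    {σ : Kb ≃ₐ[F] Kb} (hσ : IsFr V 1 σ) {T : Pt Kb} (hT : Tr V.valuation T) : ga σ T = T := by
  rcases eq_or_ne T 0 with hT0 | hT0
  · rw [hT0, map_zero]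
  obtain ⟨C, hC⟩ := h
  obtain ⟨C', hC'⟩ : ∃ C', C' = C.map (algebraMap F Kb) := ⟨_, rfl⟩
  have hG : GoodC V.valuation C' := by
    classical
    have h1 := GM.good_map (F' := Kb) (v' := V.valuation) hV hC
    have h2 : (C • E F).map (algebraMap F Kb) = C' • EF Kb := by
      rw [hC', EF_eq, ← crit_map (algebraMap F Kb)]
      exact (WeierstrassCurve.map_variableChange _ _ _).symm
    unfold GoodC
    rw [← h2]
    exact h1
  have hr : C'.r = algebraMap F Kb C.r := by rw [hC']; rfl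
  have hs : C'.s = algebraMap F Kb C.s := by rw [hC']; rfl
  have ht : C'.t = algebraMap F Kb C.t := by rw [hC']; rfl
  have hu : (C'.u : Kb) = algebraMap F Kb (C.u : F) := by rw [hC']; rfl
  have ex : cx C' (ga σ T) = σ (cx C' T) := by
    unfold cx
    rw [hr, hu, xc_gk, map_div₀, map_sub, map_pow, σ.commutes, σ.commutes]
  have ey : cy C' (ga σ T) = σ (cy C' T) := by
    unfold cy
    rw [hr, hs, ht, hu, xc_gk, yc_gk, map_div₀, map_sub, map_sub, map_mul, map_sub, map_pow,
      σ.commutes, σ.commutes, σ.commutes, σ.commutes]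
  have hk1 : ¬ KrC V.valuation C' T := tr_not_kr hG hT hT0
  have hk2 : ¬ KrC V.valuation C' (ga σ T) :=
    tr_not_kr hG (tr_hom hT (ga σ)) (fun h0 => hT0 ((gk_ne σ).1 h0))
  have h3 : KrC V.valuation C' (ga σ T - T) := by
    refine krc_of hG hk2 hk1 ?_ ?_
    · rw [ex]
      have h4 := hσ _ (not_krc hk1).2
      rwa [pow_one] at h4
    · rw [ey]
      have h4 := hσ _ (cy_le hG hk1)
      rwa [pow_one] at h4
  exact sub_eq_zero.1 (tr_kr hG (tr_sub (tr_hom hT (ga σ)) hT) h3)

omit [DecidableEq Kb] [Algebra F Kb] [IsScalarTower K F Kb] hV in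
open scoped Classical in
variable (F) in
/-- a Galois extension with a point of given annihilator -/
private theorem crit_ext {β : 𝓞 K} (hβ : β ≠ 0) :
    ∃ (L : Type u) (_ : Field L) (_ : NumberField L) (_ : Algebra K L) (_ : Algebra F L)
      (_ : IsScalarTower K F L), IsGalois F L ∧ ∃ R : Pt L, Ord β R := by
  obtain ⟨L, i1, i2, i3, _, i5, _, i7, _, _, i8, R, hR, _⟩ := exists_ext F F hβ
  exact ⟨L, i1, i2, i3, i5, i7, i8, R, hR⟩

/-- the inertia at a place of an extension fixes the coordinates of the torsion points -/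
private theorem crit_fix (h : ∀ σ : Kb ≃ₐ[F] Kb, IsFr V 1 σ → ∀ T : Pt Kb, Tr V.valuation T →
    ga σ T = T) {n : ℕ} (hn : V.valuation (n : Kb) = 1) {L : Type u} [Field L] [NumberField L]
    [Algebra K L] [Algebra F L] [IsScalarTower K F L] [IsGalois F L] [DecidableEq L] :
    ∃ w' : HeightOneSpectrum (𝓞 L), w'.under (𝓞 F) = w ∧
      ∀ σ : Gal(L/F), (∀ y : 𝓞 L, σ • y - y ∈ w'.asIdeal) → ∀ P : Pt L, n • P = 0 →
        σ (xc P) = xc P ∧ σ (yc P) = yc P := by
  have hFK : Algebra.IsAlgebraic F Kb := Algebra.IsAlgebraic.tower_top (K := K) F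
  have hLF : Algebra.IsAlgebraic F L := inferInstance
  let g : L →ₐ[F] Kb := IsAlgClosed.lift
  let iA : Algebra L Kb := g.toRingHom.toAlgebra
  have iT : IsScalarTower F L Kb := IsScalarTower.of_algebraMap_eq fun x => (g.commutes x).symm
  have iT' : IsScalarTower K L Kb := by
    refine IsScalarTower.of_algebraMap_eq fun x => ?_
    rw [IsScalarTower.algebraMap_apply K F Kb, IsScalarTower.algebraMap_apply F L Kb,
      ← IsScalarTower.algebraMap_apply K F L]
  obtain ⟨w', hw1, hw2⟩ := abv_under (M := L) hV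
  refine ⟨w', hw1, fun σ hσ P hP => ?_⟩
  obtain ⟨τ, hτ1, hτ2⟩ := in_lift (k := F) hw2 hσ
  let f : L →ₐ[K] Kb := IsScalarTower.toAlgHom K L Kb
  have h1 : ga τ (pm f P) = pm f P := by
    refine h τ hτ1 _ ⟨n, hn, ?_⟩
    rw [← map_nsmul, hP, map_zero]
  have hx := congrArg xc h1
  have hy := congrArg yc h1
  rw [xc_gk, xc_pm] at hx
  rw [yc_gk, yc_pm] at hy
  have hx2 : algebraMap L Kb (σ (xc P)) = algebraMap L Kb (xc P) := by
    rw [← hτ2]
    exact hx
  have hy2 : algebraMap L Kb (σ (yc P)) = algebraMap L Kb (yc P) := by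
    rw [← hτ2]
    exact hy
  exact ⟨(algebraMap L Kb).injective hx2, (algebraMap L Kb).injective hy2⟩

theorem nos_conv (h : ∀ σ : Kb ≃ₐ[F] Kb, IsFr V 1 σ → ∀ T : Pt Kb, Tr V.valuation T →
    ga σ T = T) : ∃ C : VariableChange F, GM.GoodW (w.valuation F) (C • E F) := by
  classical
  by_cases h3 : V.valuation (3 : Kb) = 1
  · -- the points of order three
    have hn : V.valuation ((3 : ℕ) : Kb) = 1 := h3
    have h30 : ((3 : ℕ) : 𝓞 K) ≠ 0 := Nat.cast_ne_zero.2 (by norm_num)
    obtain ⟨L, _, _, _, _, _, _, R, hR⟩ := crit_ext F h30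
    obtain ⟨w', rfl, hw⟩ := crit_fix hV h hn (L := L)
    obtain ⟨e, he, hfix⟩ := crit_pts (F := F) (L := L)
    have h31 : (w'.under (𝓞 F)).valuation F 3 = 1 := by
      rw [← abv_eq hV, map_ofNat]
      exact h3
    have hR3 : 3 • R = 0 := by
      rw [← sm_nat]
      exact (hR _).2 dvd_rfl
    have hk : ∀ c : 𝓞 K, 3 • sm L c R = 0 := fun c => by rw [← map_nsmul, hR3, map_zero]
    have hI : ∀ c : 𝓞 K, ∀ σ : Gal(L/F), (∀ y : 𝓞 L, σ • y - y ∈ w'.asIdeal) →
        GM.gact σ (e (sm L c R)) = e (sm L c R) := fun c σ hσ =>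
      hfix σ _ (hw σ hσ _ (hk c)).1 (hw σ hσ _ (hk c)).2
    have hinj : ∀ X : Pt L, X ≠ 0 → e X ≠ 0 := fun X hX h0 =>
      hX (he (h0.trans (map_zero e).symm))
    refine GM.conv_three (M := L) (w := w') (P := e (sm L 1 R)) (Q := e (sm L ta R))
      (crit_disc_ne F) (jint_val _) h31 ?_ ?_ ?_ ?_ ?_ ?_ (hI 1) (hI ta)
    · exact hinj _ (crit_ne hR (a := 1) (b := 0) (by push_cast; ring) (Or.inl (by norm_num)))
    · exact hinj _ (crit_ne hR (a := 0) (b := 1) (by push_cast; ring) (Or.inr (by norm_num)))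
    · rw [← map_nsmul, hk, map_zero]
    · rw [← map_nsmul, hk, map_zero]
    · intro h0
      have h1 := he h0
      refine crit_ne hR (c := ta - 1) (a := -1) (b := 1) (by push_cast; ring)
        (Or.inr (by norm_num)) ?_
      rw [sm_sub, h1, sub_self]
    · intro h0
      rw [← map_neg] at h0
      have h1 := he h0
      refine crit_ne hR (c := ta + 1) (a := 1) (b := 1) (by push_cast; ring)
        (Or.inr (by norm_num)) ?_
      rw [sm_add, h1, neg_add_cancel]
  · -- the points of order four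
    have h3' : V.valuation (3 : Kb) < 1 := lt_of_le_of_ne GM.v_three_le h3
    have h2 : V.valuation (2 : Kb) = 1 := by
      refine le_antisymm GM.v_two_le ?_
      have h4 := V.valuation.map_sub (3 : Kb) 2
      have h5 : (3 : Kb) - 2 = 1 := by norm_num
      rw [h5, map_one] at h4
      rcases le_max_iff.1 h4 with h6 | h6
      · exact absurd h6 (not_le.2 h3')
      · exact h6
    have hn : V.valuation ((4 : ℕ) : Kb) = 1 := by
      have h4 : ((4 : ℕ) : Kb) = 2 * 2 := by norm_num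
      rw [h4, map_mul, h2, one_mul]
    have h40 : ((4 : ℕ) : 𝓞 K) ≠ 0 := Nat.cast_ne_zero.2 (by norm_num)
    obtain ⟨L, _, _, _, _, _, _, R, hR⟩ := crit_ext F h40
    obtain ⟨w', rfl, hw⟩ := crit_fix hV h hn (L := L)
    obtain ⟨e, he, hfix⟩ := crit_pts (F := F) (L := L)
    have h21 : (w'.under (𝓞 F)).valuation F 2 = 1 := by
      rw [← abv_eq hV, map_ofNat]
      exact h2
    have hR4 : 4 • R = 0 := by
      rw [← sm_nat]
      exact (hR _).2 dvd_rfl
    have hk : ∀ c : 𝓞 K, 4 • sm L c R = 0 := fun c => by rw [← map_nsmul, hR4, map_zero]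
    have hI : ∀ c : 𝓞 K, ∀ σ : Gal(L/F), (∀ y : 𝓞 L, σ • y - y ∈ w'.asIdeal) →
        GM.gact σ (e (sm L c R)) = e (sm L c R) := fun c σ hσ =>
      hfix σ _ (hw σ hσ _ (hk c)).1 (hw σ hσ _ (hk c)).2
    have hinj : ∀ X : Pt L, X ≠ 0 → e X ≠ 0 := fun X hX h0 =>
      hX (he (h0.trans (map_zero e).symm))
    have h22 : ∀ X : Pt L, 2 • X = sm L 2 X := fun X => by
      rw [← sm_nat]
      rfl
    refine GM.conv_two (M := L) (w := w') (Q := e (sm L 1 R)) (T := e (sm L (2 * ta) R))
      (crit_disc_ne F) (jint_val _) h21 ?_ ?_ ?_ ?_ ?_ (hI 1) (hI (2 * ta))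
    · exact hinj _ (crit_ne hR (a := 0) (b := 2) (by push_cast; ring) (Or.inr (by norm_num)))
    · rw [← map_nsmul, h22, ← sm_mul, ← mul_assoc]
      have h5 : (2 * 2 * ta : 𝓞 K) = ta * ((4 : ℕ) : 𝓞 K) := by push_cast; ring
      rw [h5, sm_mul, (hR _).2 dvd_rfl, map_zero, map_zero]
    · rw [← map_nsmul, h22, ← sm_mul]
      exact hinj _ (crit_ne hR (a := 2) (b := 0) (by push_cast; ring) (Or.inl (by norm_num)))
    · rw [← map_nsmul, hk, map_zero]
    · intro h0
      rw [← map_nsmul, h22, ← sm_mul] at h0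
      have h1 := he h0
      refine crit_ne hR (c := 2 * ta - 2 * 1) (a := -2) (b := 2) (by push_cast; ring)
        (Or.inr (by norm_num)) ?_
      rw [sm_sub, h1, sub_self]

end

end Pool.Agent.Lib.MP_1a91b9_nuX.GL
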