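import Pool.Agent.Lib.MP_1a91b9_nuX.GL.TrA
import Pool.Agent.Lib.MP_1a91b9_nuX.DB.DistX

/-!
# The distribution relation in the coordinates of a model

PROOF. `distc`: `distx f hβ hT hRb hP hR hne` with `f : Kb →ₐ[K] ℂ` (`IsAlgClosed.lift`); all the differences `cx - cx` are `(xc - xc) / u ^ 2` (`cx_sub`); the number of factors is `T.card + 1` on both sides
(`Finset.prod_div_distrib`, `Finset.prod_const`; `u ≠ 0`).
`tors_list`: `IsRes` and `Ord`: the multiples `sm a Rb`, `a ∈ T`, are not zero and every nonzero point killed by `β` is one of them (`cases_Kb`, `hT.ex`, `Ord.sm_eq_iff`).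
-/

set_option autoImplicit false

namespace Pool.Agent.Lib.MP_1a91b9_nuX.GL

open NumberField IsDedekindDomain WeierstrassCurve Pool.Agent.Lib.MP_1a91b9_nuT DB

variable [CD] [DecidableEq Kb]

theorem distc {β : 𝓞 K} (hβ : β ≠ 0) {T : Finset (𝓞 K)} (hT : IsRes β T) {Rb : Pt Kb}
    (hRb : Ord β Rb) (C : VariableChange Kb) {P R : Pt Kb} (hP : sm Kb β P ≠ 0)
    (hR : 2 • sm Kb β R ≠ 0) (hne : xc (sm Kb β P) ≠ xc (sm Kb β R)) :
    (cx C P - cx C R) * ∏ a ∈ T, (cx C (P + sm Kb a Rb) - cx C R) =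
      algebraMap K Kb (β : K) ^ 2 * (∏ a ∈ T, (cx C (sm Kb a Rb) - cx C R)) *
        (cx C (sm Kb β P) - cx C (sm Kb β R)) := by
  have hu : (C.u : Kb) ≠ 0 := C.u.ne_zero
  have h1 := distx (IsAlgClosed.lift (R := K) (S := Kb) (M := ℂ)) hβ hT hRb hP hR hne
  simp only [cx_sub]
  rw [Finset.prod_div_distrib, Finset.prod_div_distrib, Finset.prod_const, div_mul_div_comm, h1]
  field_simp

theorem tors_ne {β : 𝓞 K} {T : Finset (𝓞 K)} (hT : IsRes β T) {Rb : Pt Kb} (hRb : Ord β Rb)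
    {a : 𝓞 K} (ha : a ∈ T) : sm Kb a Rb ≠ 0 := by
  rw [Ne, hRb a]
  exact hT.nz a ha

theorem tors_zero {β : 𝓞 K} {Rb : Pt Kb} (hRb : Ord β Rb) (a : 𝓞 K) :
    sm Kb β (sm Kb a Rb) = 0 := by
  rw [← sm_mul, hRb]
  exact dvd_mul_right β a

theorem tors_mem {β : 𝓞 K} (hβ : β ≠ 0) {T : Finset (𝓞 K)} (hT : IsRes β T) {Rb : Pt Kb}
    (hRb : Ord β Rb) {S : Pt Kb} (hS : sm Kb β S = 0) (h0 : S ≠ 0) :
    ∃ a ∈ T, S = sm Kb a Rb := by
  obtain ⟨c, rfl⟩ := cases_Kb hβ hRb hS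
  obtain ⟨a, ha, hd⟩ := hT.ex c fun hd => h0 ((hRb c).2 hd)
  exact ⟨a, ha, (hRb.sm_eq_iff c a).2 hd⟩

/-- equal or opposite points -/
theorem xc_eq_iff {X Y : Pt Kb} (hX : X ≠ 0) (hY : Y ≠ 0) : xc X = xc Y ↔ X = Y ∨ X = -Y := by
  obtain ⟨x, y, h, rfl⟩ := (cases_pt X).resolve_left hX
  obtain ⟨x', y', h', rfl⟩ := (cases_pt Y).resolve_left hY
  rw [xc_mk, xc_mk]
  constructor
  · rintro rfl
    have h1 : (y - y') * (y + y') = 0 := by linear_combination h - h'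
    rcases mul_eq_zero.1 h1 with h2 | h2
    · left
      rw [mk_inj]
      exact ⟨rfl, sub_eq_zero.1 h2⟩
    · right
      rw [neg_mk, mk_inj]
      exact ⟨rfl, eq_neg_of_add_eq_zero_left h2⟩
  · rintro (h1 | h1)
    · exact (mk_inj.1 h1).1
    · rw [neg_mk, mk_inj] at h1
      exact h1.1

end Pool.Agent.Lib.MP_1a91b9_nuX.GL
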