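import Pool.Agent.Lib.MP_1a91b9_nuX.GL.AbsL
import Pool.Agent.Lib.MP_1a91b9_nuX.GL.Env
import Pool.Agent.Lib.MP_1a91b9_nuX.LF.NiceB

/-!
# The criterion of Néron, Ogg and Shafarevich over `K`

The torsion points of a given order are defined over a finite Galois extension `M` of `K`; the restriction of an inertia automorphism is an inertia element (`nos_pt`), and the inertia elements of `M` lift
(`in_lift`, `good_three`, `good_two`).
-/

set_option autoImplicit false

namespace Pool.Agent.Lib.MP_1a91b9_nuX.GL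

open NumberField IsDedekindDomain WeierstrassCurve Pool.Agent.Lib.MP_1a91b9_nuT DB

variable [CD]

theorem two_of_three {M : Type*} [Field M] [NumberField M] (v : HeightOneSpectrum (𝓞 M))
    (h3 : v.valuation M (3 : M) ≠ 1) : v.valuation M (2 : M) = 1 := by
  have hle : ∀ n : ℕ, v.valuation M (n : M) ≤ 1 := by
    intro n
    have h1 : v.valuation M (algebraMap (𝓞 M) M (n : 𝓞 M)) ≤ 1 := v.valuation_le_one _
    rwa [map_natCast] at h1
  have h3' : v.valuation M (3 : M) < 1 := lt_of_le_of_ne (hle 3) h3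
  refine le_antisymm (hle 2) (not_lt.1 fun h2 => ?_)
  have h4 : v.valuation M ((3 : M) - 2) < 1 := (v.valuation M).map_sub_lt h3' h2
  have e : (3 : M) - 2 = 1 := by norm_num
  rw [e, map_one] at h4
  exact lt_irrefl _ h4

/-- Points of order three or four in a Galois extension. -/
theorem good_of_ord {N M : Type*} [Field N] [NumberField N] [Field M] [NumberField M]
    [Algebra N M] [Algebra K M] [IsGalois N M] [DecidableEq M] {w : HeightOneSpectrum (𝓞 M)}
    {n : ℕ} (hn : n = 3 ∧ (w.under (𝓞 N)).valuation N (3 : N) = 1 ∨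
      n = 4 ∧ (w.under (𝓞 N)).valuation N (2 : N) = 1) {R : Pt M} (hR : Ord (n : 𝓞 K) R)
    (key : ∀ σ : Gal(M/N), (∀ y : 𝓞 M, σ • y - y ∈ w.asIdeal) → ∀ T : Pt M, n • T = 0 →
      σ (xc T) = xc T ∧ σ (yc T) = yc T) : LF.GoodE (w.under (𝓞 N)) := by
  have hn0 : n • R = 0 := by
    rw [← sm_nat]
    exact (hR _).2 dvd_rfl
  have hsm : ∀ c : 𝓞 K, n • sm M c R = 0 := by
    intro c
    rw [← map_nsmul, hn0, map_zero]
  have kx : ∀ σ : Gal(M/N), (∀ y : 𝓞 M, σ • y - y ∈ w.asIdeal) → ∀ c : 𝓞 K,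
      σ (xc (sm M c R)) = xc (sm M c R) ∧ σ (yc (sm M c R)) = yc (sm M c R) :=
    fun σ hσ c => key σ hσ _ (hsm c)
  have nd : ∀ a b : ℤ, (¬ (n : ℤ) ∣ a ∨ ¬ (n : ℤ) ∣ b) →
      sm M ((a : 𝓞 K) + (b : 𝓞 K) * CD.ta) R ≠ 0 := by
    intro a b hab h0
    have h1 := (hR _).1 h0
    have h2 : ((n : ℤ) : 𝓞 K) ∣ (a : 𝓞 K) + (b : 𝓞 K) * CD.ta := by
      rw [Int.cast_natCast]
      exact h1
    obtain ⟨h3, h4⟩ := LF.dvd_lin h2
    rcases hab with h | h
    · exact h h3
    · exact h h4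
  have hadd : ∀ a b : 𝓞 K, sm M (a + b) R = sm M a R + sm M b R := fun a b => sm_add a b R
  rcases hn with ⟨rfl, h3⟩ | ⟨rfl, h2⟩
  · refine LF.good_three (k := N) (w := w) h3 (P := sm M 1 R) (Q := sm M CD.ta R) ?_ ?_ (hsm _)
      (hsm _) ?_ ?_ (fun σ hσ => ⟨kx σ hσ _, kx σ hσ _⟩)
    · have h := nd 1 0 (Or.inl (by norm_num))
      rwa [Int.cast_one, Int.cast_zero, zero_mul, add_zero] at h
    · have h := nd 0 1 (Or.inr (by norm_num))
      rwa [Int.cast_one, Int.cast_zero, zero_add, one_mul] at h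
    · intro he
      refine nd (-1) 1 (Or.inr (by norm_num)) ?_
      rw [hadd, Int.cast_one, one_mul, he, Int.cast_neg, Int.cast_one, ← hadd, neg_add_cancel,
        map_zero]
      rfl
    · intro he
      refine nd 1 1 (Or.inr (by norm_num)) ?_
      rw [hadd, Int.cast_one, one_mul, he, add_neg_cancel]
  · have e2 : (2 : ℕ) • sm M 1 R = sm M 2 R := by
      rw [two_nsmul, ← hadd, one_add_one_eq_two]
    refine LF.good_two (k := N) (w := w) h2 (Q := sm M 1 R) (T := sm M (2 * CD.ta) R) ?_ ?_ ?_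
      (hsm _) ?_ (fun σ hσ => ⟨kx σ hσ _, kx σ hσ _⟩)
    · have h := nd 0 2 (Or.inr (by norm_num))
      rwa [Int.cast_zero, zero_add, Int.cast_ofNat] at h
    · rw [two_nsmul, ← hadd]
      refine (hR _).2 ⟨CD.ta, ?_⟩
      push_cast
      ring
    · rw [e2]
      have h := nd 2 0 (Or.inl (by norm_num))
      rwa [Int.cast_zero, zero_mul, add_zero, Int.cast_ofNat] at h
    · rw [e2]
      intro he
      refine nd (-2) 2 (Or.inr (by norm_num)) ?_
      rw [hadd, Int.cast_ofNat, he, Int.cast_neg, Int.cast_ofNat, ← hadd, neg_add_cancel,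
        map_zero]
      rfl

/-- the criterion of Néron, Ogg and Shafarevich -/
theorem good_iff [DecidableEq Kb] {P : HeightOneSpectrum (𝓞 K)} {V : ValuationSubring Kb}
    (hV : Abv P V) : (∃ C : VariableChange K, GM.GoodW (P.valuation K) (C • E K)) ↔
      ∀ σ : Kb ≃ₐ[K] Kb, IsFr V 1 σ → ∀ T : Pt Kb, Tr V.valuation T → ga σ T = T := by
  classical
  have setup : ∀ n : ℕ, n ≠ 0 → ∃ (M : Type) (_ : Field M) (_ : NumberField M) (_ : Algebra K M)
      (_ : Algebra M Kb) (_ : IsScalarTower K M Kb) (w : HeightOneSpectrum (𝓞 M)),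
      IsGalois K M ∧ w.under (𝓞 K) = P ∧ Abv w V ∧
      ∃ R : Pt M, Ord (n : 𝓞 K) R := by
    intro n hn
    obtain ⟨M, iM, nM, aKM, aNM, akM, t1, t2, -, g1, -, R, hR, -⟩ :=
      exists_ext K K (β := (n : 𝓞 K)) (Nat.cast_ne_zero.2 hn)
    have e1 : aNM = aKM := Algebra.algebra_ext _ _ fun x => by
      have h1 := @IsScalarTower.algebraMap_apply K K M _ _ _ _ aNM aKM t1 x
      exact h1.symm
    have e2 : akM = aKM := Algebra.algebra_ext _ _ fun x => by
      have h1 := @IsScalarTower.algebraMap_apply K K M _ _ _ _ akM aKM t2 x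
      exact h1.symm
    clear t1 t2
    subst e2
    subst e1
    have fK : FiniteDimensional K M := Module.Finite.of_restrictScalars_finite ℚ K M
    have aM : Algebra.IsAlgebraic K M := Algebra.IsAlgebraic.of_finite K M
    let f : M →ₐ[K] Kb := IsAlgClosed.lift
    let algM : Algebra M Kb := f.toRingHom.toAlgebra
    have tM : IsScalarTower K M Kb := IsScalarTower.of_algebraMap_eq fun x => (f.commutes x).symm
    obtain ⟨w, hw1, hw2⟩ := abv_under (M := M) hV
    exact ⟨M, iM, nM, _, algM, tM, w, g1, hw1, hw2, R, hR⟩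
  constructor
  · intro hg σ hσ T ⟨n, hn, hT⟩
    have hn0 : n ≠ 0 := by
      rintro rfl
      rw [Nat.cast_zero, map_zero] at hn
      exact zero_ne_one hn
    obtain ⟨M, iM, nM, aKM, algM, tM, w, gM, hw1, hw2, R, hR⟩ := setup n hn0
    have hN : Normal K M := IsGalois.to_normal
    obtain ⟨σ₀, hσ₀⟩ : ∃ σ₀ : Gal(M/K), ∀ x : M, algebraMap M Kb (σ₀ x) = σ (algebraMap M Kb x) :=
      ⟨AlgEquiv.restrictNormal σ M, AlgEquiv.restrictNormal_commutes σ M⟩
    have hin : ∀ y : 𝓞 M, σ₀ • y - y ∈ w.asIdeal := by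
      intro y
      rw [← GM.val_lt_mem, ← abv_lt hw2]
      have e : ((σ₀ • y - y : 𝓞 M) : M) = σ₀ (y : M) - (y : M) := rfl
      rw [e, map_sub, hσ₀]
      have h1 := hσ (algebraMap M Kb (y : M)) ((hw2 _).2 (GM.val_le w y))
      rwa [pow_one] at h1
    let f : M →ₐ[K] Kb := IsScalarTower.toAlgHom K M Kb
    have hR' : Ord (n : 𝓞 K) (pm f R) := (Ord.map f).2 hR
    have aK : Algebra.IsAlgebraic K Kb := inferInstance
    let g : Kb →ₐ[K] ℂ := IsAlgClosed.lift
    obtain ⟨c, hc⟩ := ord_cases g (Nat.cast_ne_zero.2 hn0) hR' (Q := T) (by rw [sm_nat, hT])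
    have hT0 : T = pm f (sm M c R) := by rw [hc, pm_sm]
    have hn0' : n • sm M c R = 0 := by
      rw [← map_nsmul, ← sm_nat n R, (hR _).2 dvd_rfl, map_zero]
    have hwn : w.valuation M (n : M) = 1 := by
      rw [← abv_eq hw2, map_natCast, hn]
    rw [← hw1] at hg
    obtain ⟨hx, hy⟩ := LF.nos_pt (k := K) (w := w) hg hin hwn hn0'
    by_cases h0 : T = 0
    · rw [h0, map_zero]
    refine pt_ext (fun h => h0 ((gk_ne σ).1 h)) h0 ?_ ?_
    · rw [xc_gk, hT0, xc_pm]
      change σ (algebraMap M Kb _) = algebraMap M Kb _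
      rw [← hσ₀, hx]
    · rw [yc_gk, hT0, yc_pm]
      change σ (algebraMap M Kb _) = algebraMap M Kb _
      rw [← hσ₀, hy]
  · intro h
    obtain ⟨n, hn3, hβ⟩ : ∃ n : ℕ, (n = 3 ∧ P.valuation K (3 : K) = 1 ∨
        n = 4 ∧ P.valuation K (2 : K) = 1) ∧ n ≠ 0 := by
      by_cases h3 : P.valuation K (3 : K) = 1
      · exact ⟨3, Or.inl ⟨rfl, h3⟩, by norm_num⟩
      · exact ⟨4, Or.inr ⟨rfl, two_of_three _ h3⟩, by norm_num⟩
    obtain ⟨M, iM, nM, aKM, algM, tM, w, gM, hw1, hw2, R, hR⟩ := setup n hβ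
    rw [← hw1] at hn3 ⊢
    refine good_of_ord (N := K) hn3 hR fun σ hσ T hT => ?_
    obtain ⟨τ, hτ, hτM⟩ := in_lift (k := K) (Ω := Kb) hw2 hσ
    let f : M →ₐ[K] Kb := IsScalarTower.toAlgHom K M Kb
    have hnV : V.valuation (n : Kb) = 1 := by
      have h1 : w.valuation M (n : M) = 1 := by
        rcases hn3 with ⟨rfl, h⟩ | ⟨rfl, h⟩
        · have h1 := GM.one_up h
          rwa [map_ofNat] at h1
        · have h1 := GM.one_up h
          rw [map_ofNat] at h1
          have e : ((4 : ℕ) : M) = 2 * 2 := by norm_num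
          rw [e, map_mul, h1, one_mul]
      have h2 := (abv_eq hw2 (n : M)).2 h1
      rwa [map_natCast] at h2
    have hfix := h τ hτ (pm f T) ⟨n, hnV, by rw [← map_nsmul, hT, map_zero]⟩
    have hx := congrArg xc hfix
    have hy := congrArg yc hfix
    rw [xc_gk, xc_pm] at hx
    rw [yc_gk, yc_pm] at hy
    exact ⟨f.injective ((hτM _).symm.trans hx), f.injective ((hτM _).symm.trans hy)⟩

end Pool.Agent.Lib.MP_1a91b9_nuX.GL
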