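import Pool.Agent.Lib.MP_1a91b9_nuX.GL.LuB
import Pool.Agent.Lib.MP_1a91b9_nuX.GL.AbsV

/-!
# The inertia automorphisms

PROOF.
`exists_goodC`: `GM.exists_good` for `EF Kb` (`Kb` algebraically closed of characteristic zero; `Δ = -16 (4 A³ + 27 B²) ≠ 0` (`CD.disc`); `c₄ = -48 A`, `c₄ ^ 3 = -110592 A³ = -16 * 6912 A³`, and `4 A³ + 27 B² ∣ 6912 A³` (`CD.jint`), so `c₄ ^ 3 = Δ * m` with `m` an integer of value `≤ 1`).
`cx_gk`: `cx C (ga σ T)` in terms of `σ (cx C T)`: `xc (ga σ T) = σ (xc T)` (`xc_gk`), `xc T = u² cx T + r`: `cx (ga σ T) = (σ u / u)² σ (cx T) + (σ r - r) / u²`.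
`in_af`: `σ` in the inertia (`IsFr V 1 σ`), `V (σ u) = V u` (`fr_val`), so `a = (σ u / u)²` has value one; `σ (cx T) ≡ cx T` for `V (cx T) ≤ 1` (`T` is `Tr`, not `0`: `tr_not_kr`); `b = (σ r - r)/u²`, `V b ≤ 1`: `b = cx (ga σ T) - a σ (cx T)` for one nonzero `Tr` point (`exists_prime`, `exists_pt_prime`), `ga σ T` is `Tr` and not `0`.
`Af.sm`: `gk_sm`; `Af.inj`: `gk_ne`. `in_exp`: `af_exp`. `in_unit`: `af_lem`.
-/

set_option autoImplicit false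

namespace Pool.Agent.Lib.MP_1a91b9_nuX.GL

open NumberField IsDedekindDomain WeierstrassCurve Pool.Agent.Lib.MP_1a91b9_nuT DB

variable [CD]

private theorem ina_disc : (EF Kb).Δ = -16 * (4 * cA Kb ^ 3 + 27 * cB Kb ^ 2) := by
  simp [EF, E, WeierstrassCurve.Δ, WeierstrassCurve.b₂, WeierstrassCurve.b₄, WeierstrassCurve.b₆,
    WeierstrassCurve.b₈]
  ring

private theorem ina_c4 : (EF Kb).c₄ = -48 * cA Kb := by
  simp [EF, E, WeierstrassCurve.c₄, WeierstrassCurve.b₂, WeierstrassCurve.b₄]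
  ring

theorem exists_goodC (V : ValuationSubring Kb) : ∃ C : VariableChange Kb, GoodC V.valuation C := by
  have h2 : (2 : Kb) ≠ 0 := two_ne
  have h3 : (3 : Kb) ≠ 0 := three_ne
  have hD : (EF Kb).Δ ≠ 0 := by
    rw [ina_disc]
    refine mul_ne_zero ?_ (dsc_ne (F := Kb))
    have h16 : (-16 : Kb) = -(2 * 2 * 2 * 2) := by norm_num
    rw [h16]
    exact neg_ne_zero.2 (mul_ne_zero (mul_ne_zero (mul_ne_zero h2 h2) h2) h2)
  have hj : V.valuation ((EF Kb).c₄ ^ 3) ≤ V.valuation (EF Kb).Δ := by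
    obtain ⟨m, hm⟩ := CD.jint
    have hm' : (6912 : Kb) * cA Kb ^ 3 = (4 * cA Kb ^ 3 + 27 * cB Kb ^ 2) * (m : Kb) := by
      have h4 := congrArg (Int.cast : ℤ → Kb) hm
      push_cast at h4
      exact h4
    have e : (EF Kb).c₄ ^ 3 = (EF Kb).Δ * (m : Kb) := by
      rw [ina_c4, ina_disc]
      linear_combination -16 * hm'
    rw [e, map_mul]
    have h5 : V.valuation (m : Kb) ≤ 1 := (V.valuation_le_one_iff _).2 (intCast_mem V m)
    exact mul_le_of_le_one_right' h5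
  exact GM.exists_good h2 h3 hD hj

variable [DecidableEq Kb]

theorem cx_gk (C : VariableChange Kb) (σ : Kb ≃ₐ[K] Kb) (T : Pt Kb) :
    cx C (ga σ T) = (σ (C.u : Kb) / (C.u : Kb)) ^ 2 * σ (cx C T) +
      (σ C.r - C.r) / (C.u : Kb) ^ 2 := by
  have hu : (C.u : Kb) ≠ 0 := C.u.ne_zero
  have hu' : σ (C.u : Kb) ≠ 0 := (map_ne_zero σ).2 hu
  rw [cx, cx, xc_gk, map_div₀, map_sub, map_pow]
  field_simp
  ring

section
variable {P : HeightOneSpectrum (𝓞 K)} {V : ValuationSubring Kb} (hV : Abv P V)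
include hV

theorem in_af {C : VariableChange Kb} (hC : GoodC V.valuation C) {σ : Kb ≃ₐ[K] Kb}
    (hσ : IsFr V 1 σ) : Af V C (ga σ) := by
  have hu : (C.u : Kb) ≠ 0 := C.u.ne_zero
  have hvu : V.valuation (C.u : Kb) ≠ 0 := (Valuation.ne_zero_iff _).2 hu
  have ha : V.valuation ((σ (C.u : Kb) / (C.u : Kb)) ^ 2) = 1 := by
    rw [map_pow, map_div₀, fr_val hV hσ, div_self hvu, one_pow]
  have hx : ∀ T : Pt Kb, Tr V.valuation T → T ≠ 0 → V.valuation (cx C T) ≤ 1 := fun T hT h0 =>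
    (not_krc (tr_not_kr hC hT h0)).2
  refine ⟨fun a T => gk_sm σ a T, fun T _ h => (gk_ne σ).1 h, (σ (C.u : Kb) / (C.u : Kb)) ^ 2,
    (σ C.r - C.r) / (C.u : Kb) ^ 2, ha, ?_, fun T hT h0 => ?_⟩
  · obtain ⟨l, hl, -, hl1⟩ := exists_prime hV 0
    obtain ⟨T, hT0, hT⟩ := exists_pt_prime hl
    have hTr : Tr V.valuation T := ⟨l, hl1, hT⟩
    have h1 := hx _ (tr_hom hTr (ga σ)) (fun h => hT0 ((gk_ne σ).1 h))
    have h2 := fr_le hσ (hx T hTr hT0)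
    have e : (σ C.r - C.r) / (C.u : Kb) ^ 2 =
        cx C (ga σ T) - (σ (C.u : Kb) / (C.u : Kb)) ^ 2 * σ (cx C T) := by
      rw [cx_gk]
      ring
    rw [e]
    refine (V.valuation.map_sub _ _).trans (max_le h1 ?_)
    rw [map_mul, ha, one_mul]
    exact h2
  · have h1 := hσ (cx C T) (hx T hT h0)
    rw [pow_one] at h1
    have e : cx C (ga σ T) - ((σ (C.u : Kb) / (C.u : Kb)) ^ 2 * cx C T +
        (σ C.r - C.r) / (C.u : Kb) ^ 2) =
        (σ (C.u : Kb) / (C.u : Kb)) ^ 2 * (σ (cx C T) - cx C T) := by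
      rw [cx_gk]
      ring
    rw [e, map_mul, ha, one_mul]
    exact h1

/-- the exponent of an inertia automorphism on the torsion -/
theorem in_exp {σ : Kb ≃ₐ[K] Kb} (hσ : IsFr V 1 σ) {T : Pt Kb} (hT : Tr V.valuation T) :
    (ga σ : Pt Kb →+ Pt Kb)^[48] T = T := by
  obtain ⟨C, hC⟩ := exists_goodC V
  exact af_exp hV hC (in_af hV hC hσ) T hT

theorem in_unit' (hE : EllK) {σ : Kb ≃ₐ[K] Kb} (hσ : IsFr V 1 σ) :
    ∃ ζ : (𝓞 K)ˣ, ∀ T : Pt Kb, Tr V.valuation T → ga σ T = sm Kb (ζ : 𝓞 K) T := by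
  obtain ⟨C, hC⟩ := exists_goodC V
  exact af_lem hE hV hC (in_af hV hC hσ)

end

end Pool.Agent.Lib.MP_1a91b9_nuX.GL
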