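import Pool.Agent.Lib.MP_1a91b9_nuX.GL.SemB
import Pool.Agent.Lib.MP_1a91b9_nuX.GL.CntE
import Pool.Agent.Lib.MP_1a91b9_nuX.GL.AbsV

/-!
# The Frobenius endomorphism of a form of the curve over a field which does not contain `K`

`W'` is a curve over `N` which becomes the model `D • E` over `Kb`; `σ` is an automorphism of `Kb` over `N` which induces the conjugation on `K`.

PROOF. `exists_phi`: `e : Pt Kb ≃+ (D • EF Kb).toAffine.Point` (`GM.exists_chg`, see `GL/ChgA.lean`) with `GM.px (e T) = cx D T`, `GM.py (e T) = cy D T`; `g : (W'.map (algebraMap N Kb)).toAffine.Point →+ (W'.map (algebraMap N Kb)).toAffine.Point`, `g = Affine.Point.map (W' := W') (σ : Kb →ₐ[N] Kb)` (injective, `GM.px (g Q) = σ (GM.px Q)`, as `GM.gact`);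
since `D • EF Kb = W'.map (algebraMap N Kb)` transport `g` (generalise the curve and `subst`, or use `point_transfer` of `GL/Crit.lean`): `φ = e.symm ∘ g ∘ e` is additive, `cx D (φ T) = σ (cx D T)`, `cy D (φ T) = σ (cy D T)`, `φ T ≠ 0` for `T ≠ 0`.
`phi_semi`: `τ = σ` as a ring automorphism; `R T = rp τ T` (`GL/Sem.lean`) has coordinates `σ (xc T)`, `σ (yc T)`. Let `D' = D.map σ` (the image of the coefficients under `σ`): `D' • EF Kb = (D • EF Kb).map σ = (W'.map (algebraMap N Kb)).map σ = W'.map (algebraMap N Kb) = D • EF Kb` (`σ` fixes `N`; `EF Kb` has integer coefficients).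
`cx D' (R T) = σ (cx D T) = cx D (φ T)`, same for `cy`: `aut_short` gives `ρ` with `xc (φ T) = ρ² xc (R T)`, `yc (φ T) = ρ³ yc (R T)` for `T ≠ 0`. Let `θ = φ ∘ (rp τ⁻¹)`: `θ : Pt Kb →+ Pt Kb`, `xc (θ T) = ρ² xc T`, `yc (θ T) = ρ³ yc T` (`rp τ (rp τ⁻¹ T) = T`), so `aut_sm` gives `θ (sm a T) = sm a (θ T)`;
`φ T = θ (rp τ T)`, `rp τ (sm a T) = sm (cj a) (rp τ T)` (`semi_sm'`), so `φ (sm a T) = sm (cj a) (φ T)`.
`phi_ph`: `Ta`: `sm a T = 0` gives `sm (cj a) (φ T) = 0`; `V (cj a) = 1`: `V (cj a) = V (σ a) = V a` (`hσ'`, the values are preserved by `σ`: `fr_val`). `cx D (φ T) = σ (cx D T) ≡ cx D T ^ q` (`hσ`, `ta_le`).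
-/

set_option autoImplicit false

namespace Pool.Agent.Lib.MP_1a91b9_nuX.GL

open NumberField IsDedekindDomain WeierstrassCurve Pool.Agent.Lib.MP_1a91b9_nuT DB

universe u

variable [CD] [DecidableEq Kb]

omit [DecidableEq Kb] in
private theorem inrA_px (P : (EF Kb).toAffine.Point) : GM.px P = xc (F := Kb) P := by
  rcases P with _ | ⟨x, y, h⟩
  · rfl
  · rfl

omit [DecidableEq Kb] in
private theorem inrA_py (P : (EF Kb).toAffine.Point) : GM.py P = yc (F := Kb) P := by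
  rcases P with _ | ⟨x, y, h⟩
  · rfl
  · rfl

omit [CD] [DecidableEq Kb] in
private theorem inrA_alg {F : Type*} [Field F] {u r s t x y X Y : F} (hu : u ≠ 0)
    (h1 : x = u ^ 2 * X + r) (h2 : y = u ^ 3 * Y + u ^ 2 * s * X + t) :
    X = (x - r) / u ^ 2 ∧ Y = (y - s * (x - r) - t) / u ^ 3 := by
  rw [eq_div_iff (pow_ne_zero 2 hu), eq_div_iff (pow_ne_zero 3 hu), h1, h2]
  constructor <;> ring

private theorem inrA_e (D : VariableChange Kb) : ∃ e : Pt Kb ≃+ (D • EF Kb).toAffine.Point,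
    ∀ P : Pt Kb, P ≠ 0 → GM.px (e P) = cx D P ∧ GM.py (e P) = cy D P := by
  obtain ⟨e, he⟩ := GM.exists_chg (EF Kb) D
  refine ⟨e, fun P hP => ?_⟩
  obtain ⟨h1, h2⟩ := he P hP
  rw [inrA_px P] at h1
  rw [inrA_py P] at h2
  exact inrA_alg D.u.ne_zero h1 h2

omit [CD] [DecidableEq Kb] in
private theorem inrA_transfer {F : Type*} [Field F] [DecidableEq F] {W₁ W₂ : WeierstrassCurve F}
    (h : W₁ = W₂) : ∃ e : W₁.toAffine.Point ≃+ W₂.toAffine.Point,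
      ∀ P, GM.px (e P) = GM.px P ∧ GM.py (e P) = GM.py P := by
  subst h
  exact ⟨AddEquiv.refl _, fun _ => ⟨rfl, rfl⟩⟩

omit [DecidableEq Kb] in
private theorem inrA_EF : EF Kb = E Kb := by
  refine WeierstrassCurve.ext ?_ ?_ ?_ ?_ ?_
  · exact map_zero (algebraMap K Kb)
  · exact map_zero (algebraMap K Kb)
  · exact map_zero (algebraMap K Kb)
  · exact map_intCast (algebraMap K Kb) _
  · exact map_intCast (algebraMap K Kb) _

omit [DecidableEq Kb] in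
private theorem inrA_map (f : Kb →+* Kb) : (EF Kb).map f = EF Kb := by
  rw [inrA_EF]
  refine WeierstrassCurve.ext ?_ ?_ ?_ ?_ ?_
  · exact map_zero f
  · exact map_zero f
  · exact map_zero f
  · exact map_intCast f _
  · exact map_intCast f _

section
variable {N : Type u} [Field N] [NumberField N] [Algebra N Kb] {W' : WeierstrassCurve N}
  {D : VariableChange Kb} (hD : D • EF Kb = W'.map (algebraMap N Kb)) (σ : Kb ≃ₐ[N] Kb)
include hD

theorem exists_phi : ∃ φ : Pt Kb →+ Pt Kb, ∀ T : Pt Kb, T ≠ 0 → φ T ≠ 0 ∧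
    cx D (φ T) = σ (cx D T) ∧ cy D (φ T) = σ (cy D T) := by
  obtain ⟨e, he⟩ := inrA_e D
  obtain ⟨e', he'⟩ := inrA_transfer hD
  obtain ⟨g, hg0, hgx, hgy⟩ : ∃ g : (W'.map (algebraMap N Kb)).toAffine.Point →+
      (W'.map (algebraMap N Kb)).toAffine.Point, (∀ Q, Q ≠ 0 → g Q ≠ 0) ∧
      (∀ Q, GM.px (g Q) = σ (GM.px Q)) ∧ ∀ Q, GM.py (g Q) = σ (GM.py Q) := by
    refine ⟨Affine.Point.map (W' := W') (σ : Kb →ₐ[N] Kb), fun Q hQ h => hQ
      (Affine.Point.map_injective (W' := W') (σ : Kb →ₐ[N] Kb) (h.trans (map_zero _).symm)),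
      fun Q => ?_, fun Q => ?_⟩
    · rcases Q with _ | ⟨x, y, h⟩
      · exact (map_zero σ).symm
      · rfl
    · rcases Q with _ | ⟨x, y, h⟩
      · exact (map_zero σ).symm
      · rfl
  obtain ⟨ee, hee⟩ : ∃ ee : Pt Kb ≃+ (W'.map (algebraMap N Kb)).toAffine.Point,
      ∀ P : Pt Kb, P ≠ 0 → GM.px (ee P) = cx D P ∧ GM.py (ee P) = cy D P :=
    ⟨e.trans e', fun P hP => ⟨(he' (e P)).1.trans (he P hP).1, (he' (e P)).2.trans (he P hP).2⟩⟩
  refine ⟨(ee.symm.toAddMonoidHom.comp g).comp ee.toAddMonoidHom, fun T hT => ?_⟩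
  obtain ⟨S, hS⟩ : ∃ S : Pt Kb,
      S = ((ee.symm.toAddMonoidHom.comp g).comp ee.toAddMonoidHom) T := ⟨_, rfl⟩
  rw [← hS]
  have h1 : ee S = g (ee T) := by
    rw [hS]
    exact ee.apply_symm_apply _
  have hT1 : ee T ≠ 0 := fun h => hT ((map_eq_zero_iff ee ee.injective).1 h)
  have hS0 : S ≠ 0 := by
    intro h
    rw [h, map_zero] at h1
    exact hg0 _ hT1 h1.symm
  refine ⟨hS0, ?_, ?_⟩
  · rw [← (hee S hS0).1, ← (hee T hT).1, h1, hgx]
  · rw [← (hee S hS0).2, ← (hee T hT).2, h1, hgy]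

variable {σ} {φ : Pt Kb →+ Pt Kb} (hφ : ∀ T : Pt Kb, T ≠ 0 → φ T ≠ 0 ∧
    cx D (φ T) = σ (cx D T) ∧ cy D (φ T) = σ (cy D T))
  (hσ' : ∀ a : 𝓞 K, σ (algebraMap K Kb (a : K)) = algebraMap K Kb ((cj a : 𝓞 K) : K))
include hφ hσ'

theorem phi_semi (a : 𝓞 K) (T : Pt Kb) : φ (sm Kb a T) = sm Kb (cj a) (φ T) := by
  obtain ⟨τ, hτ⟩ : ∃ τ : Kb ≃+* Kb, ∀ x, τ x = σ x := ⟨(σ : Kb ≃+* Kb), fun _ => rfl⟩
  have hτ' : ∀ a : 𝓞 K, τ (algebraMap K Kb (a : K)) = algebraMap K Kb ((cj a : 𝓞 K) : K) :=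
    fun a => (hτ _).trans (hσ' a)
  obtain ⟨D', hD'⟩ : ∃ D' : VariableChange Kb, D' = D.map (τ : Kb →+* Kb) := ⟨_, rfl⟩
  have h1 : D • EF Kb = D' • EF Kb := by
    have e1 : D' • EF Kb = (D • EF Kb).map (τ : Kb →+* Kb) := by
      rw [hD']
      conv_lhs => rw [← inrA_map (τ : Kb →+* Kb)]
      exact WeierstrassCurve.map_variableChange _ _ _
    rw [e1, hD, WeierstrassCurve.map_map]
    congr 1
    refine RingHom.ext fun x => ?_
    show algebraMap N Kb x = τ (algebraMap N Kb x)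
    rw [hτ, σ.commutes]
  obtain ⟨ρ, hρ, hA, hB, hρ2⟩ := aut_short h1
  have hu : (D'.u : Kb) = τ (D.u : Kb) := by
    rw [hD']
    rfl
  have hr : D'.r = τ D.r := by
    rw [hD']
    rfl
  have hs : D'.s = τ D.s := by
    rw [hD']
    rfl
  have ht : D'.t = τ D.t := by
    rw [hD']
    rfl
  have hR : ∀ S : Pt Kb, S ≠ 0 → xc (φ S) = ρ ^ 2 * τ (xc S) ∧ yc (φ S) = ρ ^ 3 * τ (yc S) := by
    intro S hS
    obtain ⟨-, g2, g3⟩ := hφ S hS
    have k1 := hρ2 (rp (τ : Kb →+* Kb) S) (φ S) (by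
      rw [g2, ← hτ, cx, cx, xc_rph, hu, hr, map_div₀, map_sub, map_pow]
      rfl) (by
      rw [g3, ← hτ, cy, cy, xc_rph, yc_rph, hu, hr, hs, ht, map_div₀, map_sub, map_sub, map_mul,
        map_sub, map_pow]
      rfl)
    rw [xc_rph, yc_rph] at k1
    exact k1
  obtain ⟨θ, hθ⟩ : ∃ θ : Pt Kb →+ Pt Kb, ∀ S, θ S = φ (rp (τ.symm : Kb →+* Kb) S) :=
    ⟨φ.comp (rp (τ.symm : Kb →+* Kb)), fun _ => rfl⟩
  have hθ1 : ∀ S, S ≠ 0 → θ S ≠ 0 ∧ xc (θ S) = ρ ^ 2 * xc S ∧ yc (θ S) = ρ ^ 3 * yc S := by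
    intro S hS
    have h2 : rp (τ.symm : Kb →+* Kb) S ≠ 0 := rp_ne _ hS
    obtain ⟨k1, k2⟩ := hR _ h2
    rw [xc_rph] at k1
    rw [yc_rph] at k2
    rw [hθ]
    refine ⟨(hφ _ h2).1, k1.trans ?_, k2.trans ?_⟩
    · congr 1
      exact τ.apply_symm_apply _
    · congr 1
      exact τ.apply_symm_apply _
  have hθ2 : ∀ S, φ S = θ (rp (τ : Kb →+* Kb) S) := by
    intro S
    rw [hθ]
    congr 1
    by_cases hS : S = 0
    · rw [hS, map_zero, map_zero]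
    · refine pt_ext hS (rp_ne _ (rp_ne _ hS)) ?_ ?_
      · rw [xc_rph, xc_rph]
        exact (τ.symm_apply_apply _).symm
      · rw [yc_rph, yc_rph]
        exact (τ.symm_apply_apply _).symm
  rw [hθ2, hθ2, semi_sm' hτ', aut_sm hρ hA hB hθ1]

theorem phi_ph {P : HeightOneSpectrum (𝓞 K)} {v : HeightOneSpectrum (𝓞 N)}
    {V : ValuationSubring Kb} (hP : Abv P V) (hV : Abv v V) (hG : GoodC V.valuation D)
    (hσ : IsFr V (Ideal.absNorm v.asIdeal) σ) : Ph V D (Ideal.absNorm v.asIdeal) φ := by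
  have hQ : Algebra.IsAlgebraic ℚ Kb := Algebra.IsAlgebraic.trans ℚ K Kb
  have hN : Algebra.IsAlgebraic N Kb := Algebra.IsAlgebraic.tower_top (K := ℚ) N
  refine ⟨fun T hT => ?_, fun T hT => ?_, fun T hT h0 => ?_, fun T hT h0 => ?_⟩
  · obtain ⟨a, ha, hsm⟩ := hT
    refine ⟨cj a, ?_, ?_⟩
    · rw [← hσ' a, fr_val hV hσ, ha]
    · rw [← phi_semi hD hφ hσ', hsm, map_zero]
  · by_contra h
    exact (hφ T h).1 hT
  · rw [(hφ T h0).2.1]
    exact hσ _ (ta_le hP hG hT h0).1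
  · rw [(hφ T h0).2.2]
    exact hσ _ (ta_le hP hG hT h0).2

end

end Pool.Agent.Lib.MP_1a91b9_nuX.GL
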