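import Pool.Agent.Lib.MP_1a91b9_nuX.GL.DescU
import Pool.Agent.Lib.MP_1a91b9_nuX.GL.ConjB
import Pool.Agent.Lib.MP_1a91b9_nuX.GL.CntB
import Pool.Agent.Lib.MP_1a91b9_nuX.LF.Cls

/-!
# Places of a field which does not contain `K`

`N` is a number field, `L / N` a quadratic extension which contains `K`, `ta ∉ N`; `w` is a place of `L`, `v = w.under (𝓞 N)`.

PROOF.
`cls_L`: first class: `C.map (algebraMap N L)` (`LF.crv_map`, `LF.E_eq_crv`, `map_intCast`); second class: in addition `LF.crv_tw L` of `LF/Cls.lean`; compose (`mul_smul`).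
`good_w`: `good_of_f'` at `P = w.under (𝓞 K)`, `GM.good_map` with `GM.val_under w` and `(E K).map (algebraMap K L) = E L`.
`aut_ta`: `ρ : L ≃ₐ[N] L` with `ρ ta = ta` is the identity: `L = N(ta)`: `1, ta` is a basis of `L` over `N` (`h2`, `hn`). For a ring automorphism `ρ` of a field containing `ta`: `ρ ta` is a root of `X ^ 2 - tr X + nm = (X - ta) (X - cj ta)`, so `ρ ta = ta` or `ρ ta = cj ta` (`ta + cj ta = tr`, `ta * cj ta = nm`: `cj_coords'`, `CD.quad`).
`ram_f'`: `L / N` is Galois of degree two; if `e ≠ 1` then the inertia group of `w` in `Gal(L/N)` (which has `e` elements, `Ideal.card_inertia_eq_ramificationIdxIn`, see `GM/Plc.lean` `inert_unr`) contains `ρ ≠ 1`, `ρ ta = cj ta`, `ρ ta - ta ∈ w`, so `UF.rt = ta - cj ta` is in `w`, so in `w.under (𝓞 K)`: against `rt_not_mem`.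
`good_v`: `cls_L`, `good_w`, `desc_unr` (`C • W.map = E L`, so the good model `C₁ • E L = (C₁ * C) • W.map`), `ram_f'`.
`loc_split'`: choose an embedding `L →ₐ[K] Kb` (`IsAlgClosed.lift`), `Kb` is an `L`-algebra and an `N`-algebra (through `L`), towers; `V` above `w` (`exists_abv`), `Abv v V` (`abv_res`). `C` good at `v` for `W` (`good_v`), `C.map (algebraMap N L)` is good at `w` for `W.map` (`GM.good_map`, `GM.val_under`). `N w = N v` (`inertiaDeg = 1`).
`locPoly_good` for `(v, V, W, C)` and for `(w, V, W.map, C.map)`: the two reduced curves are equal, since `((C.map) • W.map).map (algebraMap L Kb) = (C • W).map (algebraMap N Kb)`; so the two polynomials are equal.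
-/

set_option autoImplicit false

namespace Pool.Agent.Lib.MP_1a91b9_nuX.GL

open NumberField IsDedekindDomain WeierstrassCurve Pool.Agent.Lib.MP_1a91b9_nuT
  Pool.Agent.Lib.MP_1a91b9_nt

universe u

variable [CD]

section
variable {N L : Type u} [Field N] [NumberField N] [Field L] [NumberField L] [Algebra K L]
  [Algebra N L]

theorem cls_L (W : WeierstrassCurve N) (hW : (∃ C : VariableChange N, C • W = LF.crv (cA N) (cB N)) ∨
    ∃ C : VariableChange N, C • W = LF.crv ((LF.tA : ℤ) : N) ((LF.tB : ℤ) : N)) :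
    ∃ C : VariableChange L, C • W.map (algebraMap N L) = E L := by
  have hmap : ∀ (a b : ℤ) (C : VariableChange N), C • W = LF.crv (a : N) (b : N) →
      C.map (algebraMap N L) • W.map (algebraMap N L) = LF.crv (a : L) (b : L) := by
    intro a b C hC
    rw [WeierstrassCurve.map_variableChange, hC, LF.crv_map, map_intCast, map_intCast]
  rcases hW with ⟨C, hC⟩ | ⟨C, hC⟩
  · exact ⟨C.map (algebraMap N L), (hmap CD.A CD.B C hC).trans (LF.E_eq_crv L).symm⟩
  · obtain ⟨D, hD⟩ := LF.crv_tw L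
    refine ⟨D * C.map (algebraMap N L), ?_⟩
    rw [mul_smul, hmap _ _ C hC, hD]

/-- the conjugate of `ta` -/
theorem ta_or {Ω : Type*} [Field Ω] [Algebra K Ω] (ρ : Ω →+* Ω) :
    ρ (algebraMap K Ω (ta : K)) = algebraMap K Ω (ta : K) ∨
    ρ (algebraMap K Ω (ta : K)) = algebraMap K Ω ((cj (ta : 𝓞 K) : 𝓞 K) : K) := by
  obtain ⟨t, ht⟩ : ∃ t, t = algebraMap K Ω (ta : K) := ⟨_, rfl⟩
  obtain ⟨c, hc⟩ : ∃ c, c = algebraMap K Ω ((cj (ta : 𝓞 K) : 𝓞 K) : K) := ⟨_, rfl⟩
  rw [← ht, ← hc]
  have hcj : cj (ta : 𝓞 K) = (CD.tr : 𝓞 K) - ta := by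
    have h := cj_coords 0 1
    rw [Int.cast_zero, Int.cast_one, zero_add, one_mul] at h
    rw [h]
    push_cast
    ring
  have hq : t ^ 2 = (CD.tr : Ω) * t - (CD.nm : Ω) := by
    have h := congrArg (fun a : 𝓞 K => algebraMap K Ω (a : K)) ta_quad
    have e1 : algebraMap K Ω (((ta : 𝓞 K) ^ 2 : 𝓞 K) : K) = t ^ 2 := by
      rw [ht, ← map_pow]
      rfl
    have e2 : algebraMap K Ω (((CD.tr : 𝓞 K) * ta - (CD.nm : 𝓞 K) : 𝓞 K) : K) =
        (CD.tr : Ω) * t - (CD.nm : Ω) := by
      have e3 : (((CD.tr : 𝓞 K) * ta - (CD.nm : 𝓞 K) : 𝓞 K) : K) =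
          (CD.tr : K) * (ta : K) - (CD.nm : K) := by
        change algebraMap (𝓞 K) K _ = _
        rw [map_sub, map_mul, map_intCast, map_intCast]
      rw [e3, map_sub, map_mul, map_intCast, map_intCast, ht]
    rw [← e1, ← e2]
    exact h
  have hct : c = (CD.tr : Ω) - t := by
    have e3 : (((CD.tr : 𝓞 K) - ta : 𝓞 K) : K) = (CD.tr : K) - (ta : K) := by
      change algebraMap (𝓞 K) K _ = _
      rw [map_sub, map_intCast]
    rw [hc, hcj, e3, map_sub, map_intCast, ht]
  have hr := congrArg ρ hq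
  rw [map_pow, map_sub, map_mul, map_intCast, map_intCast] at hr
  have h0 : (ρ t - t) * (ρ t - c) = 0 := by
    rw [hct]
    linear_combination hr - hq
  rcases mul_eq_zero.1 h0 with h | h
  · exact Or.inl (sub_eq_zero.1 h)
  · exact Or.inr (sub_eq_zero.1 h)

/-- `L` is generated by `ta` over `N` -/
theorem gen_L (h2 : Module.finrank N L = 2)
    (hn : ∀ x : N, algebraMap N L x ≠ algebraMap K L (ta : K)) (x : L) :
    ∃ a b : N, x = algebraMap N L a + algebraMap N L b * algebraMap K L (ta : K) := by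
  have hli : LinearIndependent N ![(1 : L), algebraMap K L (ta : K)] := by
    rw [LinearIndependent.pair_iff]
    intro a b h
    have hb : b = 0 := by
      by_contra hb
      apply hn (-(a / b))
      have hb' : algebraMap N L b ≠ 0 := by
        rw [Ne, map_eq_zero]
        exact hb
      rw [Algebra.smul_def, Algebra.smul_def, mul_one] at h
      rw [map_neg, map_div₀]
      field_simp
      linear_combination -h
    rw [hb, zero_smul, add_zero, Algebra.smul_def, mul_one, map_eq_zero] at h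
    exact ⟨h, hb⟩
  have hspan := hli.span_eq_top_of_card_eq_finrank' (by rw [h2]; rfl)
  have hx : x ∈ Submodule.span N (Set.range ![(1 : L), algebraMap K L (ta : K)]) := by
    rw [hspan]
    exact Submodule.mem_top
  rw [Matrix.range_cons, Matrix.range_cons, Matrix.range_empty, Set.union_empty,
    Set.singleton_union, Submodule.mem_span_pair] at hx
  obtain ⟨a, b, hab⟩ := hx
  refine ⟨a, b, ?_⟩
  rw [← hab, Algebra.smul_def, Algebra.smul_def, mul_one]

variable [HC] {w : HeightOneSpectrum (𝓞 L)} (hf : HC.f ∉ (w.under (𝓞 K)).asIdeal)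
include hf

theorem good_w : ∃ C : VariableChange L, GM.GoodW (w.valuation L) (C • E L) := by
  classical
  obtain ⟨C, hC⟩ := good_of_f' hf
  refine ⟨C.map (algebraMap K L), ?_⟩
  have e : C.map (algebraMap K L) • E L = (C • E K).map (algebraMap K L) := by
    rw [← EF_eq L, WeierstrassCurve.map_variableChange]
  rw [e]
  exact GM.good_map (fun x => GM.val_under w x) hC

variable (h2 : Module.finrank N L = 2)
  (hn : ∀ x : N, algebraMap N L x ≠ algebraMap K L (ta : K))
include h2 hn

theorem ram_f' : w.asIdeal.ramificationIdx (𝓞 N) = 1 := by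
  have hquad : Algebra.IsQuadraticExtension N L := ⟨h2⟩
  have hgal : IsGalois N L := inferInstance
  have hp : w.asIdeal.IsPrime := w.isPrime
  have hfin1 : Finite (𝓞 N ⧸ w.asIdeal.under (𝓞 N)) :=
    Ideal.finiteQuotientOfFreeOfNeBot _ (w.under (𝓞 N)).ne_bot
  have h1 := Ideal.card_inertia_eq_ramificationIdxIn (G := Gal(L/N)) (w.asIdeal.under (𝓞 N))
    w.asIdeal
  rw [Ideal.ramificationIdxIn_eq_ramificationIdx _ w.asIdeal Gal(L/N)] at h1
  have h3 : w.asIdeal.inertia Gal(L/N) = ⊥ := by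
    rw [eq_bot_iff]
    intro σ hσ
    rw [Subgroup.mem_bot]
    have h4 : σ (algebraMap K L (ta : K)) = algebraMap K L (ta : K) := by
      rcases ta_or (σ : L →+* L) with h | h
      · exact h
      · exfalso
        have h5 := hσ (algebraMap (𝓞 K) (𝓞 L) ta)
        have h6 : algebraMap (𝓞 K) (𝓞 L) (UF.rt : 𝓞 K) =
            -(σ • algebraMap (𝓞 K) (𝓞 L) (ta : 𝓞 K) - algebraMap (𝓞 K) (𝓞 L) (ta : 𝓞 K)) := by
          have h7 : σ • algebraMap (𝓞 K) (𝓞 L) (ta : 𝓞 K) =
              algebraMap (𝓞 K) (𝓞 L) (cj (ta : 𝓞 K)) := by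
            apply FaithfulSMul.algebraMap_injective (𝓞 L) L
            exact h
          have hcj : cj (ta : 𝓞 K) = (CD.tr : 𝓞 K) - ta := by
            have h := cj_coords 0 1
            rw [Int.cast_zero, Int.cast_one, zero_add, one_mul] at h
            rw [h]
            push_cast
            ring
          rw [h7, ← map_sub, ← map_neg, hcj, UF.rt]
          congr 1
          ring
        apply rt_not_mem hf
        change algebraMap (𝓞 K) (𝓞 L) (UF.rt : 𝓞 K) ∈ w.asIdeal
        rw [h6]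
        exact w.asIdeal.neg_mem h5
    apply AlgEquiv.ext
    intro x
    obtain ⟨a, b, rfl⟩ := gen_L h2 hn x
    rw [map_add, map_mul, AlgEquiv.commutes, AlgEquiv.commutes, h4]
    rfl
  rw [← h1, h3]
  exact Subgroup.card_bot

variable (W : WeierstrassCurve N) (hW : (∃ C : VariableChange N, C • W = LF.crv (cA N) (cB N)) ∨
    ∃ C : VariableChange N, C • W = LF.crv ((LF.tA : ℤ) : N) ((LF.tB : ℤ) : N))
include hW

theorem good_v : ∃ C : VariableChange N,
    GM.GoodW ((w.under (𝓞 N)).valuation N) (C • W) := by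
  obtain ⟨C₀, hC₀⟩ := cls_L (L := L) W hW
  obtain ⟨C₁, hC₁⟩ := good_w hf
  refine desc_unr h2 (ram_f' hf h2 hn) ⟨C₁ * C₀, ?_⟩
  rw [mul_smul, hC₀]
  exact hC₁

theorem loc_split' (hi : w.asIdeal.inertiaDeg (𝓞 N) = 1) :
    locPoly W (w.under (𝓞 N)) = locPoly (W.map (algebraMap N L)) w := by
  classical
  obtain ⟨C, hC⟩ := good_v hf h2 hn W hW
  obtain ⟨V, hV⟩ := exists_abv (Ω := AlgebraicClosure L) w
  have hv : Abv (w.under (𝓞 N)) V := abv_res hV
  have hC' : GM.GoodW (w.valuation L) (C.map (algebraMap N L) • W.map (algebraMap N L)) := by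
    rw [WeierstrassCurve.map_variableChange]
    exact GM.good_map (fun x => GM.val_under w x) hC
  have h1 := (locPoly_good hv W hC).2
  have h3 := (locPoly_good hV (W.map (algebraMap N L)) hC').2
  have hN : Ideal.absNorm (w.under (𝓞 N)).asIdeal = Ideal.absNorm w.asIdeal := by
    have hm : (w.under (𝓞 N)).asIdeal.IsMaximal := (w.under (𝓞 N)).isMaximal
    have hm' : w.asIdeal.IsMaximal := w.isMaximal
    have hl : w.asIdeal.LiesOver (w.under (𝓞 N)).asIdeal := ⟨rfl⟩
    have hrel : Ideal.relNorm (𝓞 N) w.asIdeal =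
        (w.under (𝓞 N)).asIdeal ^ w.asIdeal.inertiaDeg (𝓞 N) :=
      Ideal.relNorm_eq_pow_of_isMaximal w.asIdeal (w.under (𝓞 N)).asIdeal
    rw [← Ideal.absNorm_relNorm (𝓞 N) (𝓞 L) w.asIdeal, hrel, hi, pow_one]
  have e : (C.map (algebraMap N L) • W.map (algebraMap N L)).map
      (algebraMap L (AlgebraicClosure L)) =
      (C • W).map (algebraMap N (AlgebraicClosure L)) := by
    rw [WeierstrassCurve.map_variableChange, WeierstrassCurve.map_map,
      ← IsScalarTower.algebraMap_eq]
  rw [h1, h3, e, hN]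

end

end Pool.Agent.Lib.MP_1a91b9_nuX.GL
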