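import Pool.Agent.Lib.MP_1a91b9_nuX.GL.Af

/-!
# The exponent of an affine endomorphism of the torsion

PROOF.
`pow24`: `c : 𝓞 K` coprime to `n`, `n = 2` or `n = 3`: `(n : 𝓞 K) ∣ c ^ 24 - 1`. `c ^ 2 = t c - m` with `t = tr c`, `m = N c` integers (coordinates: `c = a + b ta`, `exists_coords`, `cj`, `mul_cj`, `c + cj c = 2 a + b tr`, or by `linear_combination` from `CD.quad`). `m` is prime to `n` (if `n ∣ m = c * cj c` then, `c` being coprime to `n`,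
`n ∣ cj c`, so `n ∣ c`, and `n` would be a unit: impossible, norm `n²`). Modulo `n`: `n = 2`: `m = 1`; `t = 0`: `c ^ 2 ≡ 1`; `t = 1`: `c ^ 3 ≡ 1`. `n = 3`: `t = 0`: `c ^ 4 ≡ 1`; `m = 1, t = ± 1`: `c ^ 6 ≡ 1`; `m = -1, t = ± 1`: `c ^ 8 ≡ 1`. All exponents divide `24`. (Work in `𝓞 K ⧸ span {n}` or with explicit divisibilities.)
`af_exp`: `n ∈ {2, 3}` with `V n = 1` (`res_char`: `p ∤ 2` or `p ∤ 3`). `R` with `Ord (n : 𝓞 K) R` (`exists_ord`). `τ R` is killed by `n`: `τ R = sm c R` (`cases_Kb`); `Ord n (τ R)` (`τ` is injective on `Tr` and commutes with `sm`: `sm d (τ R) = τ (sm d R)`), so `IsCoprime c n` (`Ord.coprime`). `τ ^ k R = sm (c ^ k) R` by induction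
(here `τ ^ k` is the `k`-fold composition, `τ^[k]`, `af_iter` by induction with `af_id`, `af_comp`), so `τ ^ 24 R = R` (`Ord.sm_eq_iff`) and `τ ^ 24 (sm ta R) = sm ta R`. `Af V C (τ ^ 24)` (`af_id`, `af_comp`, induction). `T₁ = R`, `T₂ = sm ta R`: `n ∤ 1`, `n ∤ ta`, `n ∤ 1 ∓ ta` (coordinates, `coords_inj`), so `af_two` applies:
`τ ^ 24 T = ± T` for all `T`, and `τ ^ 48 T = τ ^ 24 (± T) = T`.
-/

set_option autoImplicit false

namespace Pool.Agent.Lib.MP_1a91b9_nuX.GL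

open NumberField IsDedekindDomain WeierstrassCurve Pool.Agent.Lib.MP_1a91b9_nuT DB

variable [CD]

/-- divisibility in coordinates -/
private theorem lua_dvd {n : ℤ} {x y : ℤ} (h : (n : 𝓞 K) ∣ (x : 𝓞 K) + (y : 𝓞 K) * ta) :
    n ∣ x ∧ n ∣ y := by
  obtain ⟨q, hq⟩ := h
  obtain ⟨u, v, rfl⟩ := exists_coords q
  have h1 : (x : 𝓞 K) + (y : 𝓞 K) * ta = ((n * u : ℤ) : 𝓞 K) + ((n * v : ℤ) : 𝓞 K) * ta := by
    rw [hq]
    push_cast
    ring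
  obtain ⟨h2, h3⟩ := coords_inj h1
  exact ⟨⟨u, h2⟩, ⟨v, h3⟩⟩

private theorem lua_c {n : ℤ} (t m t0 m0 : ℤ) (c : 𝓞 K)
    (h : c ^ 2 = (t : 𝓞 K) * c - (m : 𝓞 K)) (ht : n ∣ t - t0) (hm : n ∣ m - m0) :
    (n : 𝓞 K) ∣ c ^ 2 - (t0 : 𝓞 K) * c + (m0 : 𝓞 K) := by
  obtain ⟨s, hs⟩ := ht
  obtain ⟨k, hk⟩ := hm
  have hs' : (t : 𝓞 K) = (t0 : 𝓞 K) + (n : 𝓞 K) * (s : 𝓞 K) := by
    have : t = t0 + n * s := by linarith
    rw [this]; push_cast; ring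
  have hk' : (m : 𝓞 K) = (m0 : 𝓞 K) + (n : 𝓞 K) * (k : 𝓞 K) := by
    have : m = m0 + n * k := by linarith
    rw [this]; push_cast; ring
  refine ⟨(s : 𝓞 K) * c - (k : 𝓞 K), ?_⟩
  rw [h, hs', hk']
  ring

omit [CD] in
private theorem lua_pow {R : Type*} [CommRing R] (n c : R) (k l : ℕ) (hkl : k * l = 24)
    (h : n ∣ c ^ k - 1) : n ∣ c ^ 24 - 1 := by
  refine h.trans ?_
  have := sub_dvd_pow_sub_pow (c ^ k) 1 l
  rwa [one_pow, ← pow_mul, hkl] at this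

theorem pow24 {n : ℕ} (hn : n = 2 ∨ n = 3) {c : 𝓞 K} (hc : IsCoprime c (n : 𝓞 K)) :
    (n : 𝓞 K) ∣ c ^ 24 - 1 := by
  obtain ⟨a, b, hab⟩ := exists_coords c
  -- the characteristic equation
  have hq : c ^ 2 = ((2 * a + b * CD.tr : ℤ) : 𝓞 K) * c
      - ((a ^ 2 + a * b * CD.tr + b ^ 2 * CD.nm : ℤ) : 𝓞 K) := by
    rw [hab]
    push_cast
    linear_combination ((b : 𝓞 K) ^ 2) * ta_quad
  have hnZ : ((n : ℤ) : 𝓞 K) = (n : 𝓞 K) := Int.cast_natCast n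
  -- the norm is prime to n
  have hunit : ¬ IsUnit (n : 𝓞 K) := by
    intro hu
    have h1 : (n : 𝓞 K) ∣ ((1 : ℤ) : 𝓞 K) + ((0 : ℤ) : 𝓞 K) * ta := hu.dvd
    rw [← hnZ] at h1
    have h2 := (lua_dvd h1).1
    rcases hn with rfl | rfl
    · norm_num at h2
    · norm_num at h2
  have hm : ¬ (n : ℤ) ∣ a ^ 2 + a * b * CD.tr + b ^ 2 * CD.nm := by
    intro hm
    have h1 : (n : 𝓞 K) ∣ c * (((a + b * CD.tr : ℤ) : 𝓞 K) + ((-b : ℤ) : 𝓞 K) * ta) := by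
      have h2 : c * (((a + b * CD.tr : ℤ) : 𝓞 K) + ((-b : ℤ) : 𝓞 K) * ta)
          = ((a ^ 2 + a * b * CD.tr + b ^ 2 * CD.nm : ℤ) : 𝓞 K) := by
        rw [hab]
        push_cast
        linear_combination (-(b : 𝓞 K) ^ 2) * ta_quad
      rw [h2, ← hnZ]
      exact Int.cast_dvd_cast _ _ hm
    have h3 := hc.symm.dvd_of_dvd_mul_left h1
    rw [← hnZ] at h3
    obtain ⟨h4, h5⟩ := lua_dvd h3
    have h6 : (n : ℤ) ∣ b := (dvd_neg).mp h5
    have h7 : (n : ℤ) ∣ a := by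
      have := dvd_sub h4 (h6.mul_right CD.tr)
      rwa [add_sub_cancel_right] at this
    have h8 : (n : 𝓞 K) ∣ c := by
      rw [hab, ← hnZ]
      exact dvd_add (Int.cast_dvd_cast _ _ h7) ((Int.cast_dvd_cast _ _ h6).mul_right _)
    exact hunit (hc.isUnit_of_dvd' h8 dvd_rfl)
  generalize 2 * a + b * CD.tr = t at hq
  generalize a ^ 2 + a * b * CD.tr + b ^ 2 * CD.nm = m at hq hm
  rcases hn with rfl | rfl
  · have hm1 : ((2 : ℕ) : ℤ) ∣ m - 1 := by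
      push_cast at hm ⊢
      omega
    rcases Int.emod_two_eq_zero_or_one t with ht | ht
    · have h1 := lua_c (n := ((2 : ℕ) : ℤ)) t m 0 1 c hq (by push_cast; omega) hm1
      rw [hnZ] at h1
      refine lua_pow _ c 2 12 rfl ?_
      have h2 : c ^ 2 - 1 = (c ^ 2 - ((0 : ℤ) : 𝓞 K) * c + ((1 : ℤ) : 𝓞 K))
          - ((2 : ℕ) : 𝓞 K) := by
        push_cast; ring
      rw [h2]
      exact dvd_sub h1 dvd_rfl
    · have h1 := lua_c (n := ((2 : ℕ) : ℤ)) t m 1 1 c hq (by push_cast; omega) hm1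
      rw [hnZ] at h1
      refine lua_pow _ c 3 8 rfl ?_
      have h2 : c ^ 3 - 1 = (c ^ 2 - ((1 : ℤ) : 𝓞 K) * c + ((1 : ℤ) : 𝓞 K)) * (c + 1)
          - ((2 : ℕ) : 𝓞 K) := by
        push_cast; ring
      rw [h2]
      exact dvd_sub (h1.mul_right _) dvd_rfl
  · have hm1 : ((3 : ℕ) : ℤ) ∣ m - 1 ∨ ((3 : ℕ) : ℤ) ∣ m - 2 := by
      push_cast at hm ⊢
      omega
    have ht1 : ((3 : ℕ) : ℤ) ∣ t - 0 ∨ ((3 : ℕ) : ℤ) ∣ t - 1 ∨ ((3 : ℕ) : ℤ) ∣ t - 2 := by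
      push_cast
      omega
    rcases hm1 with hm1 | hm1 <;> rcases ht1 with ht | ht | ht
    · have h1 := lua_c (n := ((3 : ℕ) : ℤ)) t m 0 1 c hq ht hm1
      rw [hnZ] at h1
      refine lua_pow _ c 4 6 rfl ?_
      have h2 : c ^ 4 - 1 = (c ^ 2 - ((0 : ℤ) : 𝓞 K) * c + ((1 : ℤ) : 𝓞 K)) * (c ^ 2 - 1) := by
        push_cast; ring
      rw [h2]
      exact h1.mul_right _
    · have h1 := lua_c (n := ((3 : ℕ) : ℤ)) t m 1 1 c hq ht hm1
      rw [hnZ] at h1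
      refine lua_pow _ c 6 4 rfl ?_
      have h2 : c ^ 6 - 1 = (c ^ 2 - ((1 : ℤ) : 𝓞 K) * c + ((1 : ℤ) : 𝓞 K))
          * ((c + 1) * (c ^ 3 - 1)) := by
        push_cast; ring
      rw [h2]
      exact h1.mul_right _
    · have h1 := lua_c (n := ((3 : ℕ) : ℤ)) t m 2 1 c hq ht hm1
      rw [hnZ] at h1
      refine lua_pow _ c 3 8 rfl ?_
      have h2 : c ^ 3 - 1 = (c ^ 2 - ((2 : ℤ) : 𝓞 K) * c + ((1 : ℤ) : 𝓞 K)) * (c - 1)
          + ((3 : ℕ) : 𝓞 K) * (c ^ 2 - c) := by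
        push_cast; ring
      rw [h2]
      exact dvd_add (h1.mul_right _) (dvd_mul_right _ _)
    · have h1 := lua_c (n := ((3 : ℕ) : ℤ)) t m 0 2 c hq ht hm1
      rw [hnZ] at h1
      refine lua_pow _ c 2 12 rfl ?_
      have h2 : c ^ 2 - 1 = (c ^ 2 - ((0 : ℤ) : 𝓞 K) * c + ((2 : ℤ) : 𝓞 K))
          - ((3 : ℕ) : 𝓞 K) := by
        push_cast; ring
      rw [h2]
      exact dvd_sub h1 dvd_rfl
    · have h1 := lua_c (n := ((3 : ℕ) : ℤ)) t m 1 2 c hq ht hm1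
      rw [hnZ] at h1
      refine lua_pow _ c 8 3 rfl ?_
      have h2 : c ^ 8 - 1 = (c ^ 2 - ((1 : ℤ) : 𝓞 K) * c + ((2 : ℤ) : 𝓞 K))
          * ((c ^ 2 + c - 1) * (c ^ 4 - 1)) + ((3 : ℕ) : 𝓞 K) * ((1 - c) * (c ^ 4 - 1)) := by
        push_cast; ring
      rw [h2]
      exact dvd_add (h1.mul_right _) (dvd_mul_right _ _)
    · have h1 := lua_c (n := ((3 : ℕ) : ℤ)) t m 2 2 c hq ht hm1
      rw [hnZ] at h1
      refine lua_pow _ c 8 3 rfl ?_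
      have h2 : c ^ 8 - 1 = (c ^ 2 - ((2 : ℤ) : 𝓞 K) * c + ((2 : ℤ) : 𝓞 K))
          * ((c ^ 2 - c - 1) * (c ^ 4 - 1))
          + ((3 : ℕ) : 𝓞 K) * ((c * (c ^ 2 - c - 1) + (c + 1)) * (c ^ 4 - 1)) := by
        push_cast; ring
      rw [h2]
      exact dvd_add (h1.mul_right _) (dvd_mul_right _ _)

variable [DecidableEq Kb]

section
variable {P : HeightOneSpectrum (𝓞 K)} {V : ValuationSubring Kb} (hV : Abv P V)
  {C : VariableChange Kb} (hC : GoodC V.valuation C)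

theorem af_iter {τ : Pt Kb →+ Pt Kb} (h : Af V C τ) (k : ℕ) :
    ∃ τ' : Pt Kb →+ Pt Kb, Af V C τ' ∧ ∀ T : Pt Kb, τ' T = τ^[k] T := by
  induction k with
  | zero => exact ⟨AddMonoidHom.id _, af_id, fun T => rfl⟩
  | succ k ih =>
    obtain ⟨τ', h', he⟩ := ih
    refine ⟨τ'.comp τ, af_comp h' h, fun T => ?_⟩
    rw [Function.iterate_succ_apply, ← he]
    rfl

private theorem lua_pow_sm {τ : Pt Kb →+ Pt Kb} (h : Af V C τ) {R : Pt Kb} {c : 𝓞 K}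
    (hc : τ R = sm Kb c R) (k : ℕ) : τ^[k] R = sm Kb (c ^ k) R := by
  induction k with
  | zero => rw [Function.iterate_zero, pow_zero, sm_one]; rfl
  | succ k ih => rw [Function.iterate_succ_apply', ih, h.sm, hc, pow_succ, sm_mul]

include hV hC

theorem af_exp {τ : Pt Kb →+ Pt Kb} (h : Af V C τ) (T : Pt Kb) (hT : Tr V.valuation T) :
    τ^[48] T = T := by
  obtain ⟨p, hp, hpV, hpn⟩ := res_char hV
  obtain ⟨n, hn, hVn⟩ : ∃ n : ℕ, (n = 2 ∨ n = 3) ∧ V.valuation (n : Kb) = 1 := by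
    by_cases h2 : p ∣ 2
    · refine ⟨3, Or.inr rfl, (hpn 3).mpr fun h3 => ?_⟩
      have h4 := (Nat.prime_dvd_prime_iff_eq hp Nat.prime_two).mp h2
      have h5 := (Nat.prime_dvd_prime_iff_eq hp Nat.prime_three).mp h3
      omega
    · exact ⟨2, Or.inl rfl, (hpn 2).mpr h2⟩
  have hnZ : ((n : ℤ) : 𝓞 K) = (n : 𝓞 K) := Int.cast_natCast n
  have hn0 : (n : 𝓞 K) ≠ 0 := by
    rcases hn with rfl | rfl
    · exact Nat.cast_ne_zero.mpr (by norm_num)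
    · exact Nat.cast_ne_zero.mpr (by norm_num)
  obtain ⟨R, hR⟩ := exists_ord hn0
  have hnR : n • R = 0 := by rw [← sm_nat]; exact (hR _).mpr dvd_rfl
  have hTR : Tr V.valuation R := ⟨n, hVn, hnR⟩
  have h1 : sm Kb (n : 𝓞 K) (τ R) = 0 := by rw [← h.sm, (hR _).mpr dvd_rfl, map_zero]
  obtain ⟨c, hc⟩ := cases_Kb hn0 hR h1
  have hord : Ord (n : 𝓞 K) (sm Kb c R) := by
    intro d
    rw [← hc, ← h.sm]
    constructor
    · intro h2
      exact (hR d).mp (h.inj _ (tr_sm hTR d) h2)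
    · intro h2
      rw [(hR d).mpr h2, map_zero]
  have hcop := hR.coprime hn0 hord
  have h24 := pow24 hn hcop
  obtain ⟨τ', hτ', he⟩ := af_iter h 24
  have hR' : τ' R = R := by
    rw [he, lua_pow_sm h hc, (hR.sm_eq_iff (c ^ 24) 1).mpr h24, sm_one]
  have hS' : τ' (sm Kb ta R) = sm Kb ta R := by rw [hτ'.sm, hR']
  have hnd : ∀ x y : ℤ, (¬ (n : ℤ) ∣ x ∨ ¬ (n : ℤ) ∣ y) →
      ¬ (n : 𝓞 K) ∣ (x : 𝓞 K) + (y : 𝓞 K) * ta := by
    intro x y hxy hd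
    rw [← hnZ] at hd
    obtain ⟨h2, h3⟩ := lua_dvd hd
    rcases hxy with h4 | h4
    · exact h4 h2
    · exact h4 h3
  have hn1 : ¬ (n : ℤ) ∣ 1 := by
    rcases hn with rfl | rfl
    · norm_num
    · norm_num
  have hne : ∀ x y : ℤ, (¬ (n : ℤ) ∣ x ∨ ¬ (n : ℤ) ∣ y) →
      sm Kb ((x : 𝓞 K) + (y : 𝓞 K) * ta) R ≠ 0 := fun x y hxy h2 => hnd x y hxy ((hR _).mp h2)
  have key := af_two hV hC hτ' hTR (tr_sm hTR ta)
    (by
      have := hne 1 0 (Or.inl hn1)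
      rwa [Int.cast_one, Int.cast_zero, zero_mul, add_zero, sm_one] at this)
    (by
      have := hne 0 1 (Or.inr hn1)
      rwa [Int.cast_one, Int.cast_zero, one_mul, zero_add] at this)
    (by
      have := hne 1 (-1) (Or.inl hn1)
      rwa [Int.cast_one, Int.cast_neg, Int.cast_one, neg_one_mul, ← sub_eq_add_neg, sm_sub,
        sm_one] at this)
    (by
      have := hne 1 1 (Or.inl hn1)
      rwa [Int.cast_one, one_mul, sm_add, sm_one] at this)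
    (Or.inl hR') (Or.inl hS')
  have h48 : τ^[48] T = τ' (τ' T) := by
    rw [he, he, ← Function.iterate_add_apply]
  rw [h48]
  rcases key T hT with h2 | h2
  · rw [h2, h2]
  · rw [h2, map_neg, h2, neg_neg]

end

end Pool.Agent.Lib.MP_1a91b9_nuX.GL
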