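import Pool.Agent.Lib.MP_1a91b9_nuX.GL.LuA

/-!
# An affine endomorphism of the torsion is a unit

PROOF of `af_lem`. `hE` gives two primes `l₁ ≠ l₂`, at least one has value one (`res_char`: `V n = 1 ↔ ¬ p ∣ n`, `p` prime; `p = l₁` and `p = l₂` cannot both hold): call it `l`, `α` the element of norm `l`, `5 ≤ l`. `Deg1 α l`, `α` prime. `R` with `Ord α R` (`exists_ord`); `l • R = 0` (`p_smul`), so `Tr R`; `R ≠ 0`, `2 • R ≠ 0`.
`τ R` is killed by `α`: `τ R = sm c R` (`cases_Kb`). `τ^[48] R = sm (c ^ 48) R` (induction with `h.sm`), `= R` (`af_exp`), so `α ∣ c ^ 48 - 1` (`Ord.sm_eq_iff`) and there is a unit `u` with `α ∣ c - u`: `τ R = sm u R`. Let `τ' = (sm u⁻¹) ∘ τ` (`af_comp`, `af_unit`): `τ' R = R`, `τ' (2 • R) = 2 • R`.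
`T₁ = R`, `T₂ = 2 • R`: `T₁ - T₂ = - R ≠ 0`, `T₁ + T₂ = 3 • R ≠ 0` (`l ≥ 5`; `smul_zero_iff` or `Ord`): `af_two`: `τ' T = ± T` for all `T`; `af_sign` with `T₁ = R`: `τ' T = T`. So `τ T = sm u T`.
-/

set_option autoImplicit false

namespace Pool.Agent.Lib.MP_1a91b9_nuX.GL

open NumberField IsDedekindDomain WeierstrassCurve Pool.Agent.Lib.MP_1a91b9_nuT DB

variable [CD] [DecidableEq Kb]

private theorem lub_core {P : HeightOneSpectrum (𝓞 K)} {V : ValuationSubring Kb} (hV : Abv P V)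
    {C : VariableChange Kb} (hC : GoodC V.valuation C) {τ : Pt Kb →+ Pt Kb} (h : Af V C τ)
    {l : ℕ} (hl : l.Prime) (h5 : 5 ≤ l) (hVl : V.valuation (l : Kb) = 1) {α : 𝓞 K}
    (hα : Ideal.absNorm (Ideal.span {α}) = l)
    (hc : ∀ c : 𝓞 K, α ∣ c ^ 48 - 1 → ∃ u : (𝓞 K)ˣ, α ∣ c - u) :
    ∃ u : (𝓞 K)ˣ, ∀ T : Pt Kb, Tr V.valuation T → τ T = sm Kb (u : 𝓞 K) T := by
  have hd : Deg1 α l := ⟨hl, hα⟩
  have hαp := hd.isPrime
  obtain ⟨R, hR⟩ := exists_ord hαp.ne_zero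
  have hαR : sm Kb α R = 0 := (hR α).2 dvd_rfl
  have hlR : l • R = 0 := p_smul hd hαR
  have hTr : Tr V.valuation R := ⟨l, hVl, hlR⟩
  have hR0 : R ≠ 0 := by
    rintro rfl
    exact hαp.not_isUnit (isUnit_of_dvd_one ((hR 1).1 (map_zero _)))
  have hmul : ∀ n : ℕ, 0 < n → n < l → n • R ≠ 0 := by
    intro n hn hnl h6
    have h7 : ((n : ℕ) : ℤ) • R = 0 := by rw [natCast_zsmul, h6]
    have h8 := (smul_zero_iff hd hαR hR0 n).1 h7
    have h9 := Nat.le_of_dvd hn (Int.natCast_dvd_natCast.1 h8)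
    omega
  have h20 : 2 • R ≠ 0 := hmul 2 (by norm_num) (by omega)
  have h30 : 3 • R ≠ 0 := hmul 3 (by norm_num) (by omega)
  have h1 : sm Kb α (τ R) = 0 := by rw [← h.sm, hαR, map_zero]
  obtain ⟨c, hcR⟩ := cases_Kb hαp.ne_zero hR h1
  have hit : ∀ n : ℕ, τ^[n] R = sm Kb (c ^ n) R := by
    intro n
    induction n with
    | zero => rw [pow_zero, sm_one, Function.iterate_zero_apply]
    | succ n ih => rw [Function.iterate_succ_apply', ih, h.sm, hcR, ← sm_mul, ← pow_succ]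
  have h48 := af_exp hV hC h R hTr
  rw [hit] at h48
  have h2 : α ∣ c ^ 48 - 1 := (hR.sm_eq_iff _ _).1 (by rw [h48, sm_one])
  obtain ⟨u, hu⟩ := hc c h2
  have h3 : τ R = sm Kb (u : 𝓞 K) R := by
    rw [hcR]
    exact (hR.sm_eq_iff _ _).2 hu
  have hτ' := af_comp (af_unit hV hC u⁻¹) h
  obtain ⟨τ', hτe⟩ : ∃ τ', τ' = (DB.sm Kb ((u⁻¹ : (𝓞 K)ˣ) : 𝓞 K)).comp τ := ⟨_, rfl⟩
  rw [← hτe] at hτ'
  have hτT : ∀ T, τ' T = sm Kb ((u⁻¹ : (𝓞 K)ˣ) : 𝓞 K) (τ T) := fun T => by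
    rw [hτe]
    rfl
  have h4 : τ' R = R := by rw [hτT, h3, ← sm_mul, Units.inv_mul, sm_one]
  have h5' : τ' (2 • R) = 2 • R := by rw [map_nsmul, h4]
  have hdf : R - 2 • R ≠ 0 := by
    rw [two_nsmul, sub_add_cancel_left, Ne, neg_eq_zero]
    exact hR0
  have hsm : R + 2 • R ≠ 0 := by
    have e : R + 2 • R = 3 • R := by
      rw [succ_nsmul' R 2]
    rw [e]
    exact h30
  have hall := af_two hV hC hτ' hTr (tr_nsmul hTr 2) hR0 h20 hdf hsm (Or.inl h4) (Or.inl h5')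
  have hsg := af_sign hall hTr h4 h20
  refine ⟨u, fun T hT => ?_⟩
  have h8 := hsg T hT
  rw [hτT] at h8
  have h9 : sm Kb (u : 𝓞 K) (sm Kb ((u⁻¹ : (𝓞 K)ˣ) : 𝓞 K) (τ T)) = τ T := by
    rw [← sm_mul, Units.mul_inv, sm_one]
  rw [h8] at h9
  exact h9.symm

/-- an affine endomorphism of the torsion is the multiplication by a unit -/
theorem af_lem (hE : EllK) {P : HeightOneSpectrum (𝓞 K)} {V : ValuationSubring Kb} (hV : Abv P V)
    {C : VariableChange Kb} (hC : GoodC V.valuation C) {τ : Pt Kb →+ Pt Kb} (h : Af V C τ) :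
    ∃ u : (𝓞 K)ˣ, ∀ T : Pt Kb, Tr V.valuation T → τ T = sm Kb (u : 𝓞 K) T := by
  obtain ⟨l₁, l₂, α₁, α₂, hl₁, hl₂, hne, h5₁, h5₂, hα₁, hα₂, hc₁, hc₂⟩ := hE
  obtain ⟨p, hp, -, hV1⟩ := res_char hV
  by_cases h1 : p = l₁
  · refine lub_core hV hC h hl₂ h5₂ ((hV1 l₂).2 fun h2 => hne ?_) hα₂ hc₂
    rw [← h1]
    exact (Nat.prime_dvd_prime_iff_eq hp hl₂).1 h2
  · refine lub_core hV hC h hl₁ h5₁ ((hV1 l₁).2 fun h2 => h1 ?_) hα₁ hc₁
    exact (Nat.prime_dvd_prime_iff_eq hp hl₁).1 h2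

end Pool.Agent.Lib.MP_1a91b9_nuX.GL
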