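import Pool.Agent.Lib.MP_1a91b9_nuX.GL.DistC

/-!
# Multiplication by elements of norm prime to the residue characteristic

PROOF of `kr_sm` (the kernel of reduction is stable under `a` with `V (N a) = 1`, `N a = Ideal.absNorm (Ideal.span {a})`).
If `sm a X = 0` done (`krc_zero`). Otherwise suppose `sm a X ∉ KrC` (by contradiction). `N a = a * cj a` (`mul_cj`), so `V a = 1` (`val_ok` for `a`, `cj a`). Choose a prime `l ≥ max 5 (N a + 1)` with `V l = 1` (`exists_prime`), so `l`
does not divide `2 N a`, and `R ≠ 0` with `l • R = 0` (`exists_pt_prime`). `Tr R`, `sm a R ≠ 0` and `2 • sm a R ≠ 0` (`sm_inj_on`, `l` odd). `T`: `exists_isRes`, `Rb`: `exists_ord`.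
`xc (sm a X) ≠ xc (sm a R)`: otherwise `sm a X = ± sm a R` (`xc_eq_iff`), so `N a • X = ± N a • R` (`cj a` applied), which is in `KrC` (`krc_nsmul`) and killed by `l`, so `= 0` (`krc_tors`): impossible (`N a` prime to `l`).
For `S = sm a' Rb`, `a' ∈ T`: `S ≠ 0`, `N a • S = 0`, so `Tr S`, `S ∉ KrC` (`tr_not_kr`). `S - R`, `S + R` are `≠ 0` (otherwise `N a • R = 0`) and `Tr`, so not in `KrC`; `krc_unit`: `V (cx S - cx R) = max 1 (V (cx R)) = 1` (`V (cx R) ≤ 1` as `R ∉ KrC`).
`(X + S) - S = X ∈ KrC`: `krc_near`: `V (cx (X + S) - cx S) < 1`, so `V (cx (X + S) - cx R) = 1`. `X ≠ 0`, `V (cx X) > 1 ≥ V (cx R)`: `V (cx X - cx R) = V (cx X) > 1`.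
`distc` (`P := X`, `β := a`): value of the left hand side `> 1`; right hand side: `V a ^ 2 * 1 * V (cx (sm a X) - cx (sm a R)) ≤ 1` (both abscissae have value `≤ 1`: `sm a R` is `Tr` and not `0`). Contradiction.
`kr_sm_inert`: `P.asIdeal = span {p}`: if `b ∉ P` then `cj b ∉ P` (`cj` fixes `span {p}`: `cj b = p c → b = cj p * cj c = p * cj c`), so `N b = b * cj b ∉ P`, `V (N b) = 1`: `kr_sm`. If `a ∈ P`: `1 + a ∉ P`, `sm a X = sm (1 + a) X - X`.
-/

set_option autoImplicit false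

namespace Pool.Agent.Lib.MP_1a91b9_nuX.GL

open NumberField IsDedekindDomain WeierstrassCurve Pool.Agent.Lib.MP_1a91b9_nuT DB

variable [CD] [DecidableEq Kb]

omit [DecidableEq Kb] in
/-- the cast of a natural number -/
private theorem piA_cast (n : ℕ) : (n : Kb) = algebraMap K Kb ((n : 𝓞 K) : K) := by
  have h1 : (((n : 𝓞 K)) : K) = (n : K) := map_natCast (algebraMap (𝓞 K) K) n
  rw [h1, map_natCast]

private theorem piA_cop {m n : ℕ} (h : Nat.Coprime m n) {Y : Pt Kb} (h1 : m • Y = 0)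
    (h2 : n • Y = 0) : Y = 0 := by
  have h3 : addOrderOf Y ∣ 1 := by
    rw [← h]
    exact Nat.dvd_gcd (addOrderOf_dvd_of_nsmul_eq_zero h1) (addOrderOf_dvd_of_nsmul_eq_zero h2)
  exact AddMonoid.addOrderOf_eq_one_iff.1 (Nat.dvd_one.1 h3)

private theorem piA_norm (a : 𝓞 K) (Y : Pt Kb) :
    sm Kb (cj a) (sm Kb a Y) = Ideal.absNorm (Ideal.span {a}) • Y := by
  rw [← sm_mul, mul_comm, mul_cj, sm_nat]

section
variable {P : HeightOneSpectrum (𝓞 K)} {V : ValuationSubring Kb} (hV : Abv P V)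
  {C : VariableChange Kb} (hC : GoodC V.valuation C)
include hV hC

theorem kr_sm {a : 𝓞 K}
    (ha : V.valuation ((Ideal.absNorm (Ideal.span {a}) : ℕ) : Kb) = 1) {X : Pt Kb}
    (hX : KrC V.valuation C X) : KrC V.valuation C (sm Kb a X) := by
  set N : ℕ := Ideal.absNorm (Ideal.span {a}) with hN
  have hN0 : N ≠ 0 := by
    intro h
    rw [h, Nat.cast_zero, map_zero] at ha
    exact zero_ne_one ha
  have ha0 : a ≠ 0 := by
    rintro rfl
    apply hN0
    rw [hN, Ideal.span_singleton_eq_bot.2 rfl, Ideal.absNorm_bot]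
  have hva : V.valuation (algebraMap K Kb (a : K)) = 1 := by
    have e : (N : Kb) = algebraMap K Kb (a : K) * algebraMap K Kb ((cj a : 𝓞 K) : K) := by
      rw [piA_cast, ← mul_cj a, ← map_mul]
      rfl
    rw [e, map_mul] at ha
    refine le_antisymm (val_ok hV a) ?_
    rw [← ha]
    exact mul_le_of_le_one_right' (val_ok hV (cj a))
  by_contra hc
  obtain ⟨hc0, hc1⟩ := not_krc hc
  have hX0 : X ≠ 0 := by
    rintro rfl
    exact hc0 (map_zero _)
  have hX1 : 1 < V.valuation (cx C X) := hX.resolve_left hX0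
  obtain ⟨l, hl, hlN, hvl⟩ := exists_prime hV (max 5 (N + 1))
  have hl5 : 5 ≤ l := (le_max_left _ _).trans hlN
  have hlN' : N < l := (le_max_right _ _).trans hlN
  have hcop : Nat.Coprime N l :=
    ((Nat.Prime.coprime_iff_not_dvd hl).2
      (Nat.not_dvd_of_pos_of_lt (Nat.pos_of_ne_zero hN0) hlN')).symm
  have hcop2 : Nat.Coprime 2 l :=
    ((Nat.Prime.coprime_iff_not_dvd hl).2
      (Nat.not_dvd_of_pos_of_lt (by norm_num) (by omega))).symm
  obtain ⟨R, hR0, hlR⟩ := exists_pt_prime hl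
  have hTR : Tr V.valuation R := ⟨l, hvl, hlR⟩
  have hRk : ¬ KrC V.valuation C R := tr_not_kr hC hTR hR0
  have hRx := (not_krc hRk).2
  have hNR : N • R ≠ 0 := fun h => hR0 (piA_cop hcop h hlR)
  have haR : sm Kb a R ≠ 0 := fun h => hR0 (sm_inj_on hcop h hlR)
  have haR2 : 2 • sm Kb a R ≠ 0 := by
    intro h
    refine haR (piA_cop hcop2 h ?_)
    rw [← map_nsmul, hlR, map_zero]
  have haRx : V.valuation (cx C (sm Kb a R)) ≤ 1 :=
    (not_krc (tr_not_kr hC (tr_sm hTR a) haR)).2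
  obtain ⟨T, hT, -⟩ := exists_isRes ha0
  obtain ⟨Rb, hRb⟩ := exists_ord ha0
  have hne : xc (sm Kb a X) ≠ xc (sm Kb a R) := by
    intro h
    have hk : KrC V.valuation C (N • R) := by
      have h2 := krc_nsmul hC hX N
      rcases (xc_eq_iff hc0 haR).1 h with h1 | h1
      · have h3 : N • X = N • R := by
          rw [hN, ← piA_norm, h1, piA_norm]
        rwa [h3] at h2
      · have h3 : N • X = -(N • R) := by
          rw [hN, ← piA_norm, h1, map_neg, piA_norm]
        rw [h3] at h2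
        exact krc_neg.1 h2
    refine hNR (krc_tors hC hk hvl ?_)
    rw [nsmul_left_comm, hlR, nsmul_zero]
  have hS : ∀ b ∈ T, V.valuation (cx C (sm Kb b Rb) - cx C R) = 1 ∧
      V.valuation (cx C (X + sm Kb b Rb) - cx C R) = 1 := by
    intro b hb
    have hS0 := tors_ne hT hRb hb
    have hNS : N • sm Kb b Rb = 0 := by
      rw [hN, ← piA_norm, tors_zero hRb b, map_zero]
    have hTS : Tr V.valuation (sm Kb b Rb) := ⟨N, ha, hNS⟩
    have hSk := tr_not_kr hC hTS hS0
    have h1 : ¬ KrC V.valuation C (sm Kb b Rb - R) := by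
      refine tr_not_kr hC (tr_sub hTS hTR) fun h => hNR ?_
      rw [← sub_eq_zero.1 h]
      exact hNS
    have h2 : ¬ KrC V.valuation C (sm Kb b Rb + R) := by
      refine tr_not_kr hC (tr_add hTS hTR) fun h => hNR ?_
      rw [eq_neg_of_add_eq_zero_left h, smul_neg, neg_eq_zero] at hNS
      exact hNS
    have h3 := krc_unit hC hSk hR0 h1 h2
    rw [max_eq_left hRx] at h3
    refine ⟨h3, ?_⟩
    have h4 := (krc_near (P := X + sm Kb b Rb) hC hSk (by rwa [add_sub_cancel_right])).1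
    have e : cx C (X + sm Kb b Rb) - cx C R =
        (cx C (X + sm Kb b Rb) - cx C (sm Kb b Rb)) + (cx C (sm Kb b Rb) - cx C R) := by ring
    rw [e, Valuation.map_add_eq_of_lt_right _ (by rwa [h3]), h3]
  have hd := distc ha0 hT hRb C (P := X) (R := R) hc0 haR2 hne
  have hd' := congrArg V.valuation hd
  rw [map_mul, map_mul, map_mul, map_prod, map_prod, map_pow, hva, one_pow, one_mul,
    Finset.prod_eq_one fun b hb => (hS b hb).2, Finset.prod_eq_one fun b hb => (hS b hb).1,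
    mul_one, one_mul] at hd'
  have h5 : V.valuation (cx C X - cx C R) = V.valuation (cx C X) :=
    Valuation.map_sub_eq_of_lt_left _ (hRx.trans_lt hX1)
  have h6 : V.valuation (cx C (sm Kb a X) - cx C (sm Kb a R)) ≤ 1 :=
    (Valuation.map_sub _ _ _).trans (max_le hc1 haRx)
  rw [← hd', h5] at h6
  exact absurd hX1 (not_lt.2 h6)

theorem kr_sm_inert {p : ℕ} (hp : P.asIdeal = Ideal.span {(p : 𝓞 K)}) (a : 𝓞 K) {X : Pt Kb}
    (hX : KrC V.valuation C X) : KrC V.valuation C (sm Kb a X) := by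
  have key : ∀ b : 𝓞 K, b ∉ P.asIdeal → KrC V.valuation C (sm Kb b X) := by
    intro b hb
    refine kr_sm hV hC ?_ hX
    rw [piA_cast, val_one_iff hV, ← mul_cj b]
    intro h
    rcases P.isPrime.mem_or_mem h with h1 | h1
    · exact hb h1
    · rw [hp, Ideal.mem_span_singleton] at h1 hb
      have h2 : cj (p : 𝓞 K) ∣ cj b := by rwa [map_natCast]
      exact hb (cj_dvd_iff.1 h2)
  by_cases h : a ∈ P.asIdeal
  · have h1 : 1 + a ∉ P.asIdeal := by
      intro h2
      have h3 := P.asIdeal.sub_mem h2 h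
      rw [add_sub_cancel_right] at h3
      exact P.isPrime.ne_top ((Ideal.eq_top_iff_one _).2 h3)
    have e : sm Kb a X = sm Kb (1 + a) X - X := by
      rw [sm_add, sm_one, add_sub_cancel_left]
    rw [e]
    exact krc_sub hC (key _ h1) hX
  · exact key a h

end

end Pool.Agent.Lib.MP_1a91b9_nuX.GL
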