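import Pool.Agent.Lib.MP_1a91b9_nuX.GL.PiA

/-!
# The points killed by a generator of the place are in the kernel of reduction

PROOF of `pi_kr`. `p` the residue characteristic (`res_char`), so `(p : 𝓞 K) ∈ P.asIdeal = span {π}`: `π ∣ p`, and `p • S = 0` for every `S` killed by `π`. `π ≠ 0`. `Rb` with `Ord π Rb` (`exists_ord`), `T` with `IsRes π T` (`exists_isRes`).
Step 1: there is `a ∈ T` with `sm a Rb ∈ KrC`. Suppose not. Choose primes `l ≥ 5`, `l' ≥ l + 1` of value one (`exists_prime`), both different from `p` (`V p < 1`); `X ≠ 0`, `l • X = 0`; `R ≠ 0`, `l' • R = 0` (`exists_pt_prime`).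
The norm of `π` is a power of `p` (`norm_pow`), prime to `l`, `l'`: `sm π X ≠ 0`, `sm π R ≠ 0`, `2 • sm π R ≠ 0` (`sm_inj_on`, `l'` odd). `xc (sm π X) ≠ xc (sm π R)`: otherwise `sm π X = ± sm π R` (`xc_eq_iff`) is killed by `l` and `l'`, so it is `0`.
For `S` killed by `π` (also `S = 0`): `X + S ∉ KrC` and `X + S ∓ R ∉ KrC`: the multiple by `p` is `p • X ∓ p • R ≠ 0` (resp. `p • X ≠ 0`), killed by `l l'` (`not_krc_of_mul`). So by `krc_unit` `V (cx (X + S) - cx R) = max 1 (V (cx R)) = 1`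
(`R` is `Tr`, not in `KrC`, `V (cx R) ≤ 1`). For `S = sm a Rb`, `a ∈ T`: `S ∉ KrC` by assumption, `S ∓ R ∉ KrC` (multiple by `p`: `∓ p • R ≠ 0`), so `V (cx S - cx R) = 1`. `V (cx (sm π X) - cx (sm π R)) ≤ 1` (`tr_not_kr`).
`distc` gives `1 = V π ^ 2 * 1 * (≤ 1) < 1`, contradiction (`V π < 1`: `val_lt_iff`).
Step 2: `S0 = sm a0 Rb ∈ KrC`, `S0 ≠ 0`. For `S` with `sm π S = 0`: `S = sm c Rb` (`cases_Kb`). `π` is prime and `π ∤ a0` (`hT.nz`), so there is `k : 𝓞 K` with `π ∣ c - k a0` (Bezout in the principal ideal ring, `Irreducible.coprime_iff_not_dvd`): `S = sm k S0`.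
By `norm_cases`: if `Ideal.absNorm P.asIdeal = p`: `Deg1 π p`, an integer `k'` with `π ∣ k - k'` (`Deg1.exists_int`), `S = k' • S0` (`sm_eq_int`), `krc_zsmul`. If `P.asIdeal = span {p}`: `kr_sm_inert`.
-/

set_option autoImplicit false

namespace Pool.Agent.Lib.MP_1a91b9_nuX.GL

open NumberField IsDedekindDomain WeierstrassCurve Pool.Agent.Lib.MP_1a91b9_nuT DB

variable [CD] [DecidableEq Kb]

private theorem pib_kill {Y : Pt Kb} {m n : ℕ} (h : Nat.Coprime m n) (hm : m • Y = 0)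
    (hn : n • Y = 0) : Y = 0 := by
  have h1 : addOrderOf Y ∣ m := addOrderOf_dvd_of_nsmul_eq_zero hm
  have h2 : addOrderOf Y ∣ n := addOrderOf_dvd_of_nsmul_eq_zero hn
  have h3 : addOrderOf Y ∣ 1 := h ▸ Nat.dvd_gcd h1 h2
  exact AddMonoid.addOrderOf_eq_one_iff.1 (Nat.dvd_one.1 h3)

private theorem pib_nk {V : ValuationSubring Kb} {C : VariableChange Kb}
    (hC : GoodC V.valuation C) {Z S : Pt Kb} {p m : ℕ} (hm : V.valuation (m : Kb) = 1)
    (hcop : Nat.Coprime p m) (hZ : m • Z = 0) (hZ0 : Z ≠ 0) (hS : p • S = 0) :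
    ¬ KrC V.valuation C (Z + S) := by
  have h1 : p • (Z + S) = p • Z := by rw [nsmul_add, hS, add_zero]
  refine not_krc_of_mul hC (m := p) (n := m) hm ?_ ?_
  · rw [h1, smul_comm, hZ, nsmul_zero]
  · rw [h1]
    exact fun h0 => hZ0 (pib_kill hcop h0 hZ)

section
variable {P : HeightOneSpectrum (𝓞 K)} {V : ValuationSubring Kb} (hV : Abv P V)
  {C : VariableChange Kb} (hC : GoodC V.valuation C)
include hV hC

/-- some nonzero point killed by the generator is in the kernel of reduction -/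
theorem pi_kr_one {π : 𝓞 K} (hπ : Ideal.span {π} = P.asIdeal) :
    ∃ S : Pt Kb, S ≠ 0 ∧ sm Kb π S = 0 ∧ KrC V.valuation C S := by
  by_contra hcon
  obtain ⟨p, hp, hpV, hval⟩ := res_char hV
  have hπ0 : π ≠ 0 := by
    rintro rfl
    apply P.ne_bot
    rw [← hπ, Ideal.span_singleton_eq_bot]
  have hpP : (p : 𝓞 K) ∈ P.asIdeal := by
    rw [← val_lt_iff hV]
    have e : algebraMap K Kb (((p : ℕ) : 𝓞 K) : K) = ((p : ℕ) : Kb) := by
      have e1 : (((p : ℕ) : 𝓞 K) : K) = ((p : ℕ) : K) := map_natCast (algebraMap (𝓞 K) K) p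
      rw [e1, map_natCast]
    rw [e]
    exact hpV
  have hπP : π ∈ P.asIdeal := by
    rw [← hπ]
    exact Ideal.mem_span_singleton_self π
  have hVπ : V.valuation (algebraMap K Kb (π : K)) < 1 := (val_lt_iff hV π).2 hπP
  obtain ⟨d, hd⟩ : π ∣ (p : 𝓞 K) := by
    rw [← hπ] at hpP
    exact Ideal.mem_span_singleton.1 hpP
  have hpS : ∀ S : Pt Kb, sm Kb π S = 0 → p • S = 0 := by
    intro S hS
    rw [← sm_nat, hd, mul_comm, sm_mul, hS, map_zero]
  obtain ⟨Rb, hRb⟩ := exists_ord hπ0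
  obtain ⟨T, hT, -⟩ := exists_isRes hπ0
  obtain ⟨l, hl, hl5, hVl⟩ := exists_prime hV 5
  obtain ⟨l', hl', hll', hVl'⟩ := exists_prime hV (l + 1)
  obtain ⟨X, hX0, hX⟩ := exists_pt_prime hl
  obtain ⟨R, hR0, hR⟩ := exists_pt_prime hl'
  obtain ⟨n, hn, hnorm⟩ := norm_pow hV hp hpV
  have hpl : p ≠ l := by
    rintro rfl
    exact (hval p).1 hVl dvd_rfl
  have hpl' : p ≠ l' := by
    rintro rfl
    exact (hval p).1 hVl' dvd_rfl
  have c1 : Nat.Coprime p l := (Nat.coprime_primes hp hl).2 hpl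
  have c2 : Nat.Coprime p l' := (Nat.coprime_primes hp hl').2 hpl'
  have c3 : Nat.Coprime l l' := (Nat.coprime_primes hl hl').2 (by omega)
  have hnorm' : Ideal.absNorm (Ideal.span {π}) = p ^ n := by
    rw [hπ]
    exact hnorm
  have d1 : Nat.Coprime (Ideal.absNorm (Ideal.span {π})) l := by
    rw [hnorm']
    exact c1.pow_left n
  have d2 : Nat.Coprime (Ideal.absNorm (Ideal.span {π})) l' := by
    rw [hnorm']
    exact c2.pow_left n
  have hπX : sm Kb π X ≠ 0 := fun h0 => hX0 (sm_inj_on d1 h0 hX)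
  have hπR : sm Kb π R ≠ 0 := fun h0 => hR0 (sm_inj_on d2 h0 hR)
  have lπX : l • sm Kb π X = 0 := by rw [← map_nsmul, hX, map_zero]
  have lπR : l' • sm Kb π R = 0 := by rw [← map_nsmul, hR, map_zero]
  have c4 : Nat.Coprime 2 l' := (Nat.coprime_primes Nat.prime_two hl').2 (by omega)
  have h2πR : 2 • sm Kb π R ≠ 0 := fun h0 => hπR (pib_kill c4 h0 lπR)
  have hne : xc (sm Kb π X) ≠ xc (sm Kb π R) := by
    intro h0
    have h1 : l' • sm Kb π X = 0 := by
      rcases (xc_eq_iff hπX hπR).1 h0 with h2 | h2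
      · rw [h2, lπR]
      · rw [h2, smul_neg, lπR, neg_zero]
    exact hπX (pib_kill c3 lπX h1)
  have hVm : V.valuation ((l * l' : ℕ) : Kb) = 1 := by
    rw [Nat.cast_mul, map_mul, hVl, hVl', mul_one]
  have c5 : Nat.Coprime p (l * l') := Nat.Coprime.mul_right c1 c2
  have e1 : (l * l') • X = 0 := by rw [mul_comm, mul_nsmul', hX, nsmul_zero]
  have e2 : (l * l') • R = 0 := by rw [mul_nsmul', hR, nsmul_zero]
  have hXR : X - R ≠ 0 := by
    intro h0
    rw [sub_eq_zero] at h0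
    exact hX0 (pib_kill c3 hX (by rw [h0, hR]))
  have hXR' : X + R ≠ 0 := by
    intro h0
    rw [add_eq_zero_iff_eq_neg] at h0
    exact hX0 (pib_kill c3 hX (by rw [h0, smul_neg, hR, neg_zero]))
  have hRn : ¬ KrC V.valuation C R := tr_not_kr hC ⟨l', hVl', hR⟩ hR0
  have hmax : max 1 (V.valuation (cx C R)) = 1 := max_eq_left (not_krc hRn).2
  have key1 : ∀ S : Pt Kb, sm Kb π S = 0 → V.valuation (cx C (X + S) - cx C R) = 1 := by
    intro S hS
    have hpS' := hpS S hS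
    rw [← hmax]
    refine krc_unit hC (pib_nk hC hVl c1 hX hX0 hpS') hR0 ?_ ?_
    · have e3 : X + S - R = (X - R) + S := by abel
      rw [e3]
      exact pib_nk hC hVm c5 (by rw [nsmul_sub, e1, e2, sub_zero]) hXR hpS'
    · have e3 : X + S + R = (X + R) + S := by abel
      rw [e3]
      exact pib_nk hC hVm c5 (by rw [nsmul_add, e1, e2, add_zero]) hXR' hpS'
  have key2 : ∀ a ∈ T, V.valuation (cx C (sm Kb a Rb) - cx C R) = 1 := by
    intro a ha
    have hS0 := tors_ne hT hRb ha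
    have hS := tors_zero hRb a
    have hpS' := hpS _ hS
    have hSk : ¬ KrC V.valuation C (sm Kb a Rb) := fun hk => hcon ⟨_, hS0, hS, hk⟩
    rw [← hmax]
    refine krc_unit hC hSk hR0 ?_ ?_
    · have e3 : sm Kb a Rb - R = -R + sm Kb a Rb := by abel
      rw [e3]
      exact pib_nk hC hVl' c2 (by rw [smul_neg, hR, neg_zero]) (neg_ne_zero.2 hR0) hpS'
    · have e3 : sm Kb a Rb + R = R + sm Kb a Rb := by abel
      rw [e3]
      exact pib_nk hC hVl' c2 hR hR0 hpS'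
  have hπXn : ¬ KrC V.valuation C (sm Kb π X) := tr_not_kr hC ⟨l, hVl, lπX⟩ hπX
  have hπRn : ¬ KrC V.valuation C (sm Kb π R) := tr_not_kr hC ⟨l', hVl', lπR⟩ hπR
  have key3 : V.valuation (cx C (sm Kb π X) - cx C (sm Kb π R)) ≤ 1 :=
    (V.valuation.map_sub _ _).trans (max_le (not_krc hπXn).2 (not_krc hπRn).2)
  have hd2 := congrArg V.valuation (distc hπ0 hT hRb C (P := X) (R := R) hπX h2πR hne)
  rw [map_mul, map_mul, map_mul, map_prod, map_prod, map_pow,
    Finset.prod_eq_one fun a ha => key1 (sm Kb a Rb) (tors_zero hRb a),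
    Finset.prod_eq_one key2] at hd2
  have hX1 := key1 0 (map_zero _)
  rw [add_zero] at hX1
  rw [hX1, mul_one, mul_one] at hd2
  have h4 : V.valuation (algebraMap K Kb (π : K)) ^ 2 *
      V.valuation (cx C (sm Kb π X) - cx C (sm Kb π R)) < 1 :=
    (mul_le_of_le_one_right' key3).trans_lt (pow_lt_one₀ zero_le hVπ two_ne_zero)
  rw [← hd2] at h4
  exact lt_irrefl _ h4

theorem pi_kr {π : 𝓞 K} (hπ : Ideal.span {π} = P.asIdeal) {S : Pt Kb} (hS : sm Kb π S = 0) :
    KrC V.valuation C S := by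
  obtain ⟨p, hp, hpV, hval⟩ := res_char hV
  have hπ0 : π ≠ 0 := by
    rintro rfl
    apply P.ne_bot
    rw [← hπ, Ideal.span_singleton_eq_bot]
  have hprime : Prime π := by
    rw [← Ideal.span_singleton_prime hπ0, hπ]
    exact P.isPrime
  obtain ⟨S0, hS0, hπS0, hk⟩ := pi_kr_one hV hC hπ
  obtain ⟨c, rfl⟩ := cases_Kb hπ0 (ord_of_prime hprime hπS0 hS0) hS
  rcases norm_cases hV hp hpV with h1 | h1
  · have hdeg : Deg1 π p := ⟨hp, by rw [hπ]; exact h1⟩
    obtain ⟨k, -, hk2⟩ := hdeg.exists_int c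
    have h2 : sm Kb c S0 = (k : ℤ) • S0 := by
      refine sm_eq_int hπS0 ?_
      rw [Int.cast_natCast]
      exact hk2
    rw [h2]
    exact krc_zsmul hC hk _
  · exact kr_sm_inert hV hC h1 c hk

end

end Pool.Agent.Lib.MP_1a91b9_nuX.GL
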