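import Pool.Agent.Lib.MP_1a91b9_nuX.GL.Sem
import Pool.Agent.Lib.MP_1a91b9_nuX.DB.Uni
import Pool.Agent.Lib.MP_1a91b9_nuT.P.Conj

/-!
# Automorphisms over the complex conjugation are semilinear

PROOF. Look at `nuT/P/Conj.lean`: `stable_unit`, `xx_conj`, `yy_conj`, and `nuT/P/Coord.lean` (or where they are): `P_unit`, `Q_unit` (`℘ (ε z) = ε⁻² ℘ z` for `ε` with `ε L ⊆ L`, `ε⁻¹ L ⊆ L`), and at `nuX/DB/Uni.lean`: `exists_uni` (a surjective additive map `u : ℂ →+ Pt ℂ` whose kernel is the lattice, `u z` has coordinates `S3.X z`, `S3.Y z / 2` for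
`z` not in the lattice, `sm ℂ a (u z) = u (embK a * z)`).
`aut_sm_C`: `ρ : ℂ`, `ρ ≠ 0`, `ρ ^ 4 * A = A`, `ρ ^ 6 * B = B`; `θ : Pt ℂ →+ Pt ℂ` with `xc (θ T) = ρ ^ 2 * xc T`, `yc (θ T) = ρ ^ 3 * yc T`, `θ T = 0` only for `T = 0`. Then `θ (u z) = u (ρ⁻¹ z)` (coordinates: `P_unit`, `Q_unit` with `ε = ρ⁻¹`, stable by `stable_unit` for `ρ` and `ρ⁻¹`; `pt_ext`), so `θ (sm a T) = sm a (θ T)`.
`aut_sm`: the same over `Kb`: `f : Kb →ₐ[K] ℂ` (`IsAlgClosed.lift`); there is `θ' : Pt ℂ →+ Pt ℂ` with `ρ' = f ρ` (the map `(x, y) ↦ (ρ'² x, ρ'³ y)`; additivity as in `GL/Sem.lean`, or as a change of variables `GM.exists_chg` for `⟨ρ'⁻¹, 0, 0, 0⟩`; or avoid `θ'`: work directly with `T' = pm f T = u z`: `pm f (θ T) = u (ρ'⁻¹ z)` by coordinates) and `pm_sm`, `pm_inj`.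
`conj_sm_C`: `rp (starRingEnd ℂ) (sm ℂ a T) = sm ℂ (cj a) (rp (starRingEnd ℂ) T)`: `T = u z`; `rp (starRingEnd ℂ) (u z) = u (ε * conj z)` with `ε = Per.eps` (`xx_conj`, `yy_conj`: `xx u = S3.X (u / Om)`, with `u = z * Om`), `conj (embK a) = embK (cj a)` (`emb_cj`).
`semi_sm'`: `f : Kb →ₐ[K] ℂ`; `f' = conj ∘ f ∘ τ⁻¹` is again a `K`-algebra homomorphism (`τ⁻¹ (algebraMap K Kb (a / b)) = ` conjugates: every element of `K` is a quotient of elements of `𝓞 K`, `cj_cj`); for `T : Pt Kb`: `pm f' (rp τ T) = rp conj (pm f T)` (coordinates, `pt_ext`). So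
`pm f' (rp τ (sm a T)) = rp conj (pm f (sm a T)) = rp conj (sm a (pm f T)) = sm (cj a) (rp conj (pm f T)) = sm (cj a) (pm f' (rp τ T)) = pm f' (sm (cj a) (rp τ T))`, and `pm_inj`.
`exists_semi'`: the ring automorphism of `K` induced by `cjE : 𝓞 K ≃+* 𝓞 K` (`IsFractionRing.ringEquivOfRingEquiv` / `IsFractionRing.fieldEquivOfRingEquiv`), extended to the algebraic closures (`IsAlgClosure.equivOfEquiv`).
-/

set_option autoImplicit false

namespace Pool.Agent.Lib.MP_1a91b9_nuX.GL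

open NumberField IsDedekindDomain WeierstrassCurve Pool.Agent.Lib.MP_1a91b9_nuT DB

variable [CD]

/-- units of the lattice from automorphisms of the curve -/
private theorem semA_mem {ρ : ℂ} (h0 : ρ ≠ 0) (hA : ρ ^ 4 * cA ℂ = cA ℂ)
    (hB : ρ ^ 6 * cB ℂ = cB ℂ) :
    (∀ l ∈ PP.lattice, ρ * l ∈ PP.lattice) ∧ (∀ l ∈ PP.lattice, ρ⁻¹ * l ∈ PP.lattice) := by
  have h4 := pow_ne_zero 4 h0
  have h6 := pow_ne_zero 6 h0
  refine ⟨fun l hl => Per.stable_unit Per.CR.base h0 ?_ ?_ l hl,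
    fun l hl => Per.stable_unit Per.CR.base (inv_ne_zero h0) ?_ ?_ l hl⟩
  · linear_combination (Om ^ 4) * hA
  · linear_combination (Om ^ 6) * hB
  · rw [inv_pow, ← div_eq_mul_inv, div_eq_iff h4]
    linear_combination (-(Om ^ 4)) * hA
  · rw [inv_pow, ← div_eq_mul_inv, div_eq_iff h6]
    linear_combination (-(Om ^ 6)) * hB

private theorem semA_XY {ρ : ℂ} (h0 : ρ ≠ 0) (hA : ρ ^ 4 * cA ℂ = cA ℂ)
    (hB : ρ ^ 6 * cB ℂ = cB ℂ) (z : ℂ) :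
    S3.X (ρ⁻¹ * z) = ρ ^ 2 * S3.X z ∧ S3.Y (ρ⁻¹ * z) = ρ ^ 3 * S3.Y z := by
  obtain ⟨hm1, hm2⟩ := semA_mem h0 hA hB
  have hm3 : ∀ l ∈ PP.lattice, (ρ⁻¹)⁻¹ * l ∈ PP.lattice := by
    intro l hl
    rw [inv_inv]
    exact hm1 l hl
  constructor
  · rw [S3.X, S3.X, Per.P_unit hm2 hm3 (inv_ne_zero h0), inv_pow, div_inv_eq_mul]
    ring
  · rw [S3.Y, S3.Y, Per.Q_unit hm2 hm3 (inv_ne_zero h0), inv_pow, div_inv_eq_mul]
    ring

theorem aut_sm_C [DecidableEq ℂ] {ρ : ℂ} (h0 : ρ ≠ 0) (hA : ρ ^ 4 * cA ℂ = cA ℂ)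
    (hB : ρ ^ 6 * cB ℂ = cB ℂ) {T T' : Pt ℂ} (hT : T ≠ 0) (hT' : T' ≠ 0)
    (hx : xc T' = ρ ^ 2 * xc T) (hy : yc T' = ρ ^ 3 * yc T) (a : 𝓞 K) :
    (sm ℂ a T = 0 ↔ sm ℂ a T' = 0) ∧ (sm ℂ a T ≠ 0 → xc (sm ℂ a T') = ρ ^ 2 * xc (sm ℂ a T) ∧
      yc (sm ℂ a T') = ρ ^ 3 * yc (sm ℂ a T)) := by
  obtain ⟨u, hu, hu0, huX, hus⟩ := exists_uni
  obtain ⟨hm1, hm2⟩ := semA_mem h0 hA hB
  have key0 : ∀ z, u z = 0 ↔ u (ρ⁻¹ * z) = 0 := by
    intro z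
    rw [hu0, hu0]
    constructor
    · exact fun h => hm2 z h
    · intro h
      have h1 := hm1 _ h
      rwa [mul_inv_cancel_left₀ h0] at h1
  have key1 : ∀ z, u z ≠ 0 → xc (u (ρ⁻¹ * z)) = ρ ^ 2 * xc (u z) ∧
      yc (u (ρ⁻¹ * z)) = ρ ^ 3 * yc (u z) := by
    intro z hz
    have h1 : z ∉ PP.lattice := fun h => hz ((hu0 z).2 h)
    have h2 : ρ⁻¹ * z ∉ PP.lattice := fun h => hz ((key0 z).2 ((hu0 _).2 h))
    obtain ⟨e1, e2⟩ := huX z h1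
    obtain ⟨e3, e4⟩ := huX _ h2
    obtain ⟨e5, e6⟩ := semA_XY h0 hA hB z
    rw [e1, e2, e3, e4, e5, e6]
    exact ⟨rfl, by ring⟩
  obtain ⟨z, rfl⟩ := hu T
  have hT'' : T' = u (ρ⁻¹ * z) := by
    obtain ⟨e1, e2⟩ := key1 z hT
    exact pt_ext hT' (fun h => hT ((key0 z).2 h)) (by rw [hx, e1]) (by rw [hy, e2])
  have e7 : sm ℂ a T' = u (ρ⁻¹ * (embK (a : K) * z)) := by
    rw [hT'', ← hus, mul_left_comm]
  rw [e7, ← hus]
  exact ⟨key0 _, fun h => key1 _ h⟩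

theorem aut_sm [DecidableEq Kb] {ρ : Kb} (h0 : ρ ≠ 0) (hA : ρ ^ 4 * cA Kb = cA Kb)
    (hB : ρ ^ 6 * cB Kb = cB Kb) {θ : Pt Kb →+ Pt Kb} (hθ : ∀ T, T ≠ 0 → θ T ≠ 0 ∧
      xc (θ T) = ρ ^ 2 * xc T ∧ yc (θ T) = ρ ^ 3 * yc T) (a : 𝓞 K) (T : Pt Kb) :
    θ (sm Kb a T) = sm Kb a (θ T) := by
  classical
  let f : Kb →ₐ[K] ℂ := IsAlgClosed.lift
  by_cases hT : T = 0
  · rw [hT, map_zero, map_zero, map_zero]
  have hfi : Function.Injective f := f.toRingHom.injective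
  have hA' : (f ρ) ^ 4 * cA ℂ = cA ℂ := by
    have h1 := congrArg f hA
    rwa [map_mul, map_pow, map_intCast] at h1
  have hB' : (f ρ) ^ 6 * cB ℂ = cB ℂ := by
    have h1 := congrArg f hB
    rwa [map_mul, map_pow, map_intCast] at h1
  have h0' : f ρ ≠ 0 := fun h => h0 (hfi (h.trans (map_zero f).symm))
  have hne : ∀ {P : Pt Kb}, P ≠ 0 → pm f P ≠ 0 := fun {P} hP h =>
    hP (pm_inj f (h.trans (map_zero _).symm))
  obtain ⟨g1, g2, g3⟩ := hθ T hT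
  obtain ⟨k1, k2⟩ := aut_sm_C h0' hA' hB' (hne hT) (hne g1)
    (by rw [xc_pm, xc_pm, g2, map_mul, map_pow]) (by rw [yc_pm, yc_pm, g3, map_mul, map_pow]) a
  rw [← pm_sm, ← pm_sm] at k1 k2
  by_cases hR : sm Kb a T = 0
  · have k3 := k1.1 (by rw [hR, map_zero])
    have k4 : sm Kb a (θ T) = 0 := pm_inj f (k3.trans (map_zero _).symm)
    rw [hR, map_zero, k4]
  · obtain ⟨k5, k6⟩ := k2 (hne hR)
    obtain ⟨g4, g5, g6⟩ := hθ _ hR
    have g7 : sm Kb a (θ T) ≠ 0 := by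
      intro h
      refine hne hR (k1.2 ?_)
      rw [h, map_zero]
    refine pt_ext g4 g7 ?_ ?_
    · rw [g5]
      refine hfi ?_
      rw [xc_pm, xc_pm] at k5
      rw [map_mul, map_pow, ← k5]
    · rw [g6]
      refine hfi ?_
      rw [yc_pm, yc_pm] at k6
      rw [map_mul, map_pow, ← k6]

theorem conj_sm_C [DecidableEq ℂ] (a : 𝓞 K) (T : Pt ℂ) :
    rp (starRingEnd ℂ) (sm ℂ a T) = sm ℂ (cj a) (rp (starRingEnd ℂ) T) := by
  obtain ⟨u, hu, hu0, huX, hus⟩ := exists_uni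
  have hCR : Per.CR Om (((CD.A : ℤ) : ℝ) : ℂ) (((CD.B : ℤ) : ℝ) : ℂ) := by
    rw [Complex.ofReal_intCast, Complex.ofReal_intCast]
    exact Per.CR.base
  have key : ∀ z, rp (starRingEnd ℂ) (u z) = u (Per.eps Om * (starRingEnd ℂ) z) := by
    intro z
    by_cases hz : z ∈ PP.lattice
    · rw [(hu0 z).2 hz, map_zero, (hu0 _).2 (Per.eps_mem hCR _ (S3.conj_mem hz))]
    · have hz2 : Per.eps Om * (starRingEnd ℂ) z ∉ PP.lattice := by
        intro h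
        have h1 := Per.eps_inv_mem hCR _ h
        rw [inv_mul_cancel_left₀ (Per.eps_ne Om_ne)] at h1
        have h2 := S3.conj_mem h1
        rw [Complex.conj_conj] at h2
        exact hz h2
      obtain ⟨e1, e2⟩ := huX z hz
      obtain ⟨e3, e4⟩ := huX _ hz2
      have hu1 : u z ≠ 0 := fun h => hz ((hu0 z).1 h)
      have hu2 : u (Per.eps Om * (starRingEnd ℂ) z) ≠ 0 := fun h => hz2 ((hu0 _).1 h)
      have e5 := Per.xx_conj hCR (z * Om)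
      rw [Per.xx, Per.xx, Per.conj_div Om_ne, mul_div_cancel_right₀ _ Om_ne] at e5
      have e6 := Per.yy_conj hCR (z * Om)
      rw [Per.yy, Per.yy, Per.conj_div Om_ne, mul_div_cancel_right₀ _ Om_ne] at e6
      refine pt_ext (rp_ne _ hu1) hu2 ?_ ?_
      · rw [xc_rph, e1, e3]
        exact e5.symm
      · rw [yc_rph, e2, e4, map_div₀, Complex.conj_ofNat]
        rw [show S3.Y (Per.eps Om * (starRingEnd ℂ) z) = (starRingEnd ℂ) (S3.Y z) from e6]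
  obtain ⟨z, rfl⟩ := hu T
  rw [← hus, key, key, ← hus, map_mul (starRingEnd ℂ), emb_cj, mul_left_comm]

/-- there is an automorphism of the algebraic closure over the conjugation of `K` -/
theorem exists_semi' : ∃ τ : Kb ≃+* Kb, ∀ a : 𝓞 K,
    τ (algebraMap K Kb (a : K)) = algebraMap K Kb ((cj a : 𝓞 K) : K) := by
  refine ⟨IsAlgClosure.equivOfEquiv Kb Kb
    (IsFractionRing.ringEquivOfRingEquiv (K := K) (L := K) cjE), fun a => ?_⟩
  rw [IsAlgClosure.equivOfEquiv_algebraMap]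
  congr 1
  exact IsFractionRing.ringEquivOfRingEquiv_algebraMap _ _

/-- the automorphisms over the conjugation of `K` act semilinearly on the points -/
theorem semi_sm' [DecidableEq Kb] {τ : Kb ≃+* Kb} (hτ : ∀ a : 𝓞 K,
      τ (algebraMap K Kb (a : K)) = algebraMap K Kb ((cj a : 𝓞 K) : K)) (a : 𝓞 K) (T : Pt Kb) :
    rp (τ : Kb →+* Kb) (sm Kb a T) = sm Kb (cj a) (rp (τ : Kb →+* Kb) T) := by
  classical
  let f : Kb →ₐ[K] ℂ := IsAlgClosed.lift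
  have hsymm : ∀ a : 𝓞 K, τ.symm (algebraMap K Kb (a : K)) =
      algebraMap K Kb ((cj a : 𝓞 K) : K) := by
    intro a
    rw [RingEquiv.symm_apply_eq, hτ, cj_cj]
  let g : Kb →+* ℂ := (starRingEnd ℂ).comp ((f : Kb →+* ℂ).comp (τ.symm : Kb →+* Kb))
  have hg : g.comp (algebraMap K Kb) = algebraMap K ℂ := by
    refine IsLocalization.ringHom_ext (nonZeroDivisors (𝓞 K)) (RingHom.ext fun a => ?_)
    show (starRingEnd ℂ) (f (τ.symm (algebraMap K Kb (a : K)))) = algebraMap K ℂ (a : K)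
    rw [hsymm, AlgHom.commutes, algebraMap_eq, algebraMap_eq, emb_cj, Complex.conj_conj]
  let f' : Kb →ₐ[K] ℂ := { g with commutes' := fun x => DFunLike.congr_fun hg x }
  have hf' : ∀ y, f' (τ y) = (starRingEnd ℂ) (f y) := by
    intro y
    show (starRingEnd ℂ) (f (τ.symm (τ y))) = (starRingEnd ℂ) (f y)
    rw [RingEquiv.symm_apply_apply]
  have hne : ∀ (h : Kb →ₐ[K] ℂ) {P : Pt Kb}, P ≠ 0 → pm h P ≠ 0 := fun h {P} hP h' =>
    hP (pm_inj h (h'.trans (map_zero _).symm))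
  have key : ∀ P : Pt Kb, pm f' (rp (τ : Kb →+* Kb) P) = rp (starRingEnd ℂ) (pm f P) := by
    intro P
    by_cases hP : P = 0
    · rw [hP, map_zero, map_zero, map_zero, map_zero]
    · refine pt_ext (hne _ (rp_ne _ hP)) (rp_ne _ (hne _ hP)) ?_ ?_
      · rw [xc_pm, xc_rph, xc_rph, xc_pm]
        exact hf' _
      · rw [yc_pm, yc_rph, yc_rph, yc_pm]
        exact hf' _
  refine pm_inj f' ?_
  rw [key, pm_sm, conj_sm_C, pm_sm, key]

end Pool.Agent.Lib.MP_1a91b9_nuX.GL
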