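import Pool.Agent.Lib.MP_1a91b9_nuX.GL.FrA
import Pool.Agent.Lib.MP_1a91b9_nuX.GL.SemA
import Pool.Agent.Lib.MP_1a91b9_nuX.DB.Ext

/-!
# The ramified places of `K` are places of bad reduction

If `P` is stable under the conjugation and good, `ψ` of `fr_unit'`; conjugating the Frobenius automorphisms by an automorphism `τ` over the conjugation of `K` shows `cj ψ = ψ`, so `ψ` is a rational integer and
the norm of `P` is a square.
-/

set_option autoImplicit false

namespace Pool.Agent.Lib.MP_1a91b9_nuX.GL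

open NumberField IsDedekindDomain WeierstrassCurve Pool.Agent.Lib.MP_1a91b9_nuT DB

variable [CD]

private theorem lt_inv {F Γ : Type*} [Field F] [LinearOrderedCommGroupWithZero Γ]
    (v : Valuation F Γ) (z : F) : v z < 1 ↔ z = 0 ∨ ¬ v z⁻¹ ≤ 1 := by
  by_cases hz : z = 0
  · rw [hz, map_zero]
    exact ⟨fun _ => Or.inl rfl, fun _ => zero_lt_one⟩
  · have hv : v z ≠ 0 := (Valuation.ne_zero_iff _).2 hz
    rw [map_inv₀, not_le, one_lt_inv₀ (zero_lt_iff.2 hv)]
    exact ⟨Or.inr, fun h => h.resolve_left hz⟩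

/-- elements of value at most one are quotients -/
private theorem exists_quot (P : HeightOneSpectrum (𝓞 K)) {x : K} (hx : P.valuation K x ≤ 1) :
    ∃ a b : 𝓞 K, b ∉ P.asIdeal ∧ x = (a : K) / (b : K) := by
  have hpid := CD.pidK
  obtain ⟨a, b, hrp, hab⟩ : ∃ a b : 𝓞 K, IsRelPrime a b ∧ x = (a : K) / (b : K) ∧ b ≠ 0 := by
    refine ⟨IsFractionRing.num (𝓞 K) x, IsFractionRing.den (𝓞 K) x,
      IsFractionRing.num_den_reduced (𝓞 K) x, ?_, nonZeroDivisors.ne_zero (IsFractionRing.den (𝓞 K) x).2⟩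
    have h1 := IsFractionRing.mk'_num_den (𝓞 K) x
    rw [IsFractionRing.mk'_eq_div] at h1
    exact h1.symm
  refine ⟨a, b, fun hb => ?_, hab.1⟩
  have hb0 : (b : K) ≠ 0 := by
    intro h
    exact hab.2 (RingOfIntegers.ext h)
  have hvb : P.valuation K (b : K) < 1 := (GM.val_lt_mem b).2 hb
  have hva : P.valuation K (a : K) < 1 := by
    have h1 : (a : K) = x * (b : K) := by
      rw [hab.1, div_mul_cancel₀ _ hb0]
    rw [h1, map_mul]
    exact (mul_le_of_le_one_left' hx).trans_lt hvb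
  have ha : a ∈ P.asIdeal := (GM.val_lt_mem a).1 hva
  obtain ⟨π, hπ⟩ : ∃ π : 𝓞 K, P.asIdeal = Ideal.span {π} :=
    (IsPrincipalIdealRing.principal P.asIdeal).principal
  rw [hπ] at ha hb
  have hu := hrp (Ideal.mem_span_singleton.1 ha) (Ideal.mem_span_singleton.1 hb)
  apply P.isPrime.ne_top
  rw [hπ]
  exact Ideal.span_singleton_eq_top.2 hu

section
variable {τ : Kb ≃+* Kb} (hτ : ∀ a : 𝓞 K,
  τ (algebraMap K Kb (a : K)) = algebraMap K Kb ((cj a : 𝓞 K) : K))
include hτ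

private theorem symm_alg (a : 𝓞 K) :
    τ.symm (algebraMap K Kb (a : K)) = algebraMap K Kb ((cj a : 𝓞 K) : K) := by
  rw [RingEquiv.symm_apply_eq, hτ, cj_cj]

private theorem symm_quot (a b : 𝓞 K) : τ.symm (algebraMap K Kb ((a : K) / (b : K))) =
    algebraMap K Kb (((cj a : 𝓞 K) : K) / ((cj b : 𝓞 K) : K)) := by
  rw [map_div₀, map_div₀, map_div₀, symm_alg hτ, symm_alg hτ]

private theorem exists_cj (x : K) : ∃ x' : K, τ.symm (algebraMap K Kb x) = algebraMap K Kb x' ∧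
    τ.symm (algebraMap K Kb x') = algebraMap K Kb x := by
  obtain ⟨a, b, -, rfl⟩ := IsFractionRing.div_surjective (A := 𝓞 K) x
  refine ⟨((cj a : 𝓞 K) : K) / ((cj b : 𝓞 K) : K), symm_quot hτ a b, ?_⟩
  rw [symm_quot hτ, cj_cj, cj_cj]

private theorem le_of_le {P : HeightOneSpectrum (𝓞 K)} (hc : P.asIdeal.map cj = P.asIdeal)
    {V : ValuationSubring Kb} (hV : Abv P V) {x : K} (hx : P.valuation K x ≤ 1) :
    V.valuation (τ.symm (algebraMap K Kb x)) ≤ 1 := by
  obtain ⟨a, b, hb, rfl⟩ := exists_quot P hx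
  rw [symm_quot hτ, hV, map_div₀]
  have hb' : cj b ∉ P.asIdeal := by
    intro h
    apply hb
    have h1 := Ideal.mem_map_of_mem cj h
    rwa [cj_cj, hc] at h1
  have h1 : P.valuation K ((cj b : 𝓞 K) : K) = 1 := by
    refine le_antisymm (P.valuation_le_one _) (not_lt.1 fun h => ?_)
    exact hb' ((GM.val_lt_mem _).1 h)
  rw [h1, div_one]
  exact P.valuation_le_one _

end

/-- the ramified places of `K` are places of bad reduction -/
theorem ram_bad' (hE : EllK) (P : HeightOneSpectrum (𝓞 K)) {p : ℕ} (hp : p.Prime)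
    (hN : Ideal.absNorm P.asIdeal = p) (hc : P.asIdeal.map cj = P.asIdeal) :
    ¬ ∃ C : VariableChange K, GM.GoodW (P.valuation K) (C • E K) := by
  classical
  intro hg
  obtain ⟨ψ, hψ, hfr⟩ := fr_unit' hE P hg
  obtain ⟨τ, hτ⟩ := exists_semi'
  obtain ⟨V, hV⟩ := exists_abv (Ω := Kb) P
  obtain ⟨σ, hσ⟩ := exists_fr hV
  obtain ⟨V', hV'⟩ : ∃ V' : ValuationSubring Kb, ∀ x : Kb,
      V'.valuation x ≤ 1 ↔ V.valuation (τ.symm x) ≤ 1 := by
    refine ⟨V.comap (τ.symm : Kb →+* Kb), fun x => ?_⟩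
    rw [ValuationSubring.valuation_le_one_iff, ValuationSubring.valuation_le_one_iff,
      ValuationSubring.mem_comap]
    rfl
  have hlt : ∀ x : Kb, V'.valuation x < 1 ↔ V.valuation (τ.symm x) < 1 := by
    intro x
    rw [lt_inv, lt_inv, hV', ← map_inv₀, map_eq_zero_iff _ τ.symm.injective]
  have hAbv : Abv P V' := by
    intro x
    rw [hV']
    refine ⟨fun h => ?_, le_of_le hτ hc hV⟩
    obtain ⟨x', h1, h2⟩ := exists_cj hτ x
    rw [h1, hV] at h
    have h3 := le_of_le hτ hc hV h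
    rwa [h2, hV] at h3
  -- the conjugate Frobenius automorphism
  obtain ⟨σ', hσ'⟩ : ∃ σ' : Kb ≃ₐ[K] Kb, ∀ x : Kb, σ' x = τ (σ (τ.symm x)) := by
    refine ⟨AlgEquiv.ofRingEquiv (f := (τ.symm.trans (σ : Kb ≃+* Kb)).trans τ) ?_, fun x => rfl⟩
    intro x
    change τ (σ (τ.symm (algebraMap K Kb x))) = _
    obtain ⟨x', h1, -⟩ := exists_cj hτ x
    rw [h1, σ.commutes, ← h1, τ.apply_symm_apply]
  have hσ'fr : IsFr V' (Ideal.absNorm P.asIdeal) σ' := by
    intro x hx
    rw [hlt, map_sub, hσ', τ.symm_apply_apply, map_pow]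
    exact hσ _ ((hV' x).1 hx)
  -- `cj ψ - ψ` is divisible by many natural numbers
  have hdvd : ∀ n : ℕ, V.valuation (n : Kb) = 1 → n ≠ 0 → (n : 𝓞 K) ∣ cj ψ - ψ := by
    intro n hn hn0
    obtain ⟨T, hT⟩ := ext_point Kb (β := (n : 𝓞 K)) (Nat.cast_ne_zero.2 hn0)
    have hnT : n • T = 0 := by
      rw [← sm_nat]
      exact (hT _).2 dvd_rfl
    have hTr : Tr V.valuation T := ⟨n, hn, hnT⟩
    have hTr' : Tr V'.valuation (rp (τ : Kb →+* Kb) T) := by
      refine ⟨n, ?_, by rw [← map_nsmul, hnT, map_zero]⟩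
      rw [← map_natCast (algebraMap K Kb) n, abv_eq hAbv, ← abv_eq hV, map_natCast, hn]
    have h1 := hfr V hV σ hσ T hTr
    have h2 := hfr V' hAbv σ' hσ'fr _ hTr'
    have h3 : ga σ' (rp (τ : Kb →+* Kb) T) = rp (τ : Kb →+* Kb) (ga σ T) := by
      by_cases h0 : T = 0
      · rw [h0, map_zero, map_zero, map_zero, map_zero]
      · refine pt_ext (fun h => rp_ne _ h0 ((gk_ne σ').1 h))
          (rp_ne _ fun h => h0 ((gk_ne σ).1 h)) ?_ ?_
        · rw [xc_gk, xc_rph, xc_rph, xc_gk, hσ']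
          change τ (σ (τ.symm (τ (xc T)))) = τ (σ (xc T))
          rw [τ.symm_apply_apply]
        · rw [yc_gk, yc_rph, yc_rph, yc_gk, hσ']
          change τ (σ (τ.symm (τ (yc T)))) = τ (σ (yc T))
          rw [τ.symm_apply_apply]
    have h4 : rp (τ : Kb →+* Kb) (sm Kb (cj ψ) T) = rp (τ : Kb →+* Kb) (sm Kb ψ T) := by
      rw [semi_sm' hτ, cj_cj, ← h1, ← h3, h2]
    have h5 := rp_inj _ h4
    exact (hT.sm_eq_iff _ _).1 h5
  have hcj : cj ψ = ψ := by
    by_contra hne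
    have h0 : cj ψ - ψ ≠ 0 := sub_ne_zero.2 hne
    have hN0 : Ideal.absNorm (Ideal.span {cj ψ - ψ}) ≠ 0 := by
      rw [Ne, Ideal.absNorm_eq_zero_iff, Ideal.span_singleton_eq_bot]
      exact h0
    -- a large prime
    obtain ⟨l, hl1, hl⟩ := Nat.exists_infinite_primes
      (p + Ideal.absNorm (Ideal.span {cj ψ - ψ}) + 1)
    have hlV : V.valuation (l : Kb) = 1 := by
      rw [← map_natCast (algebraMap K Kb) l, abv_eq hV]
      refine le_antisymm ?_ (not_lt.1 fun h => ?_)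
      · have h1 : P.valuation K (algebraMap (𝓞 K) K (l : 𝓞 K)) ≤ 1 := P.valuation_le_one _
        rwa [map_natCast] at h1
      · have h1 : (l : 𝓞 K) ∈ P.asIdeal := by
          rw [← GM.val_lt_mem]
          change P.valuation K (algebraMap (𝓞 K) K (l : 𝓞 K)) < 1
          rw [map_natCast]
          exact h
        have h2 : (p : 𝓞 K) ∈ P.asIdeal := by
          rw [← hN]
          exact Ideal.absNorm_mem _
        have hcop : IsCoprime (l : ℤ) (p : ℤ) := by
          rw [Nat.isCoprime_iff_coprime, Nat.coprime_primes hl hp]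
          omega
        obtain ⟨a, b, hab⟩ := hcop
        apply P.isPrime.ne_top
        rw [Ideal.eq_top_iff_one]
        have h3 : (1 : 𝓞 K) = (a : 𝓞 K) * (l : 𝓞 K) + (b : 𝓞 K) * (p : 𝓞 K) := by
          have h4 := congrArg (Int.cast : ℤ → 𝓞 K) hab
          push_cast at h4
          exact h4.symm
        rw [h3]
        exact P.asIdeal.add_mem (P.asIdeal.mul_mem_left _ h1) (P.asIdeal.mul_mem_left _ h2)
    have h1 := hdvd l hlV hl.ne_zero
    have h2 : Ideal.span {cj ψ - ψ} ≤ Ideal.span {((l : ℕ) : 𝓞 K)} :=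
      Ideal.span_singleton_le_span_singleton.2 h1
    have h3 := Ideal.absNorm_dvd_absNorm_of_le h2
    have h4 : Ideal.absNorm (Ideal.span {((l : ℕ) : 𝓞 K)}) = l ^ 2 := by
      have h5 := absNorm_form (l : ℤ) 0
      rw [Int.cast_zero, zero_mul, add_zero, Int.cast_natCast] at h5
      have h6 : ((Ideal.absNorm (Ideal.span {((l : ℕ) : 𝓞 K)}) : ℕ) : ℤ) = ((l ^ 2 : ℕ) : ℤ) := by
        rw [h5]
        push_cast
        ring
      exact_mod_cast h6
    rw [h4] at h3
    have h5 := Nat.le_of_dvd (Nat.pos_of_ne_zero hN0) h3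
    nlinarith [hl.two_le]
  -- `ψ` is a rational integer
  obtain ⟨m, n, hmn⟩ := CD.gen ψ
  have hn : n = 0 := by
    rw [hmn, cj_coords'] at hcj
    have h1 := congrArg (fun a : 𝓞 K => embK (a : K)) hcj
    change embK ((((m + n * CD.tr : ℤ) : 𝓞 K) + ((-n : ℤ) : 𝓞 K) * omO : 𝓞 K) : K) =
      embK (((m : 𝓞 K) + (n : 𝓞 K) * omO : 𝓞 K) : K) at h1
    rw [embK_lin, embK_lin] at h1
    have h2 := (lin_inj _ _ _ _ h1).2
    omega
  have h1 : ((Ideal.absNorm P.asIdeal : ℕ) : ℤ) = m ^ 2 := by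
    rw [← hψ, hmn, absNorm_form, hn]
    ring
  rw [hN] at h1
  have h2 : (p : ℤ) = m * m := by rw [h1]; ring
  have hpp : Prime (p : ℤ) := Nat.prime_iff_prime_int.1 hp
  rcases hpp.irreducible.isUnit_or_isUnit h2 with h3 | h3
  · rw [h2] at hpp
    exact hpp.not_isUnit (h3.mul h3)
  · rw [h2] at hpp
    exact hpp.not_isUnit (h3.mul h3)

end Pool.Agent.Lib.MP_1a91b9_nuX.GL
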