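import Pool.Agent.Lib.MP_1a91b9_nuX.GL.Env
import Pool.Agent.Lib.MP_1a91b9_nuT.Nrm

/-!
# The action of the automorphisms of a field on the points of the curve, which is defined over `ℚ`
-/

set_option autoImplicit false

namespace Pool.Agent.Lib.MP_1a91b9_nuX.GL

open NumberField IsDedekindDomain WeierstrassCurve Pool.Agent.Lib.MP_1a91b9_nuT DB

variable [CD]

noncomputable section

section
variable {F F' : Type*} [Field F] [Algebra K F] [Field F'] [Algebra K F']

/-- the action of a ring homomorphism on the points -/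
def rpF (τ : F →+* F') (P : Pt F) : Pt F' := by
  classical
  exact if h : P = 0 then 0 else mkPt (τ (xc P)) (τ (yc P)) (by
    obtain ⟨h1, -⟩ := exists_mk h
    rw [← map_pow, h1, map_add, map_add, map_mul, map_pow, map_intCast, map_intCast])

theorem rpF_zero (τ : F →+* F') : rpF τ (0 : Pt F) = 0 := by
  rw [rpF]
  simp only [dite_true]

theorem xc_rpF (τ : F →+* F') {P : Pt F} (hP : P ≠ 0) : xc (rpF τ P) = τ (xc P) := by
  rw [rpF]
  simp only [hP, dite_false, xc_mk]

theorem yc_rpF (τ : F →+* F') {P : Pt F} (hP : P ≠ 0) : yc (rpF τ P) = τ (yc P) := by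
  rw [rpF]
  simp only [hP, dite_false, yc_mk]

theorem rpF_ne (τ : F →+* F') {P : Pt F} (hP : P ≠ 0) : rpF τ P ≠ 0 := by
  rw [rpF]
  simp only [hP, dite_false]
  exact mk_ne_zero _ _ _

theorem xc_rp (τ : F →+* F') (P : Pt F) : xc (rpF τ P) = τ (xc P) := by
  by_cases hP : P = 0
  · rw [hP, rpF_zero, xc_zero, xc_zero, map_zero]
  · exact xc_rpF τ hP

theorem yc_rp (τ : F →+* F') (P : Pt F) : yc (rpF τ P) = τ (yc P) := by
  by_cases hP : P = 0
  · rw [hP, rpF_zero, yc_zero, yc_zero, map_zero]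
  · exact yc_rpF τ hP

variable [DecidableEq F] [DecidableEq F']

omit [Field F'] [Algebra K F'] [DecidableEq F'] in
private theorem sem_neg {x y x' y' : F} (h : y ^ 2 = x ^ 3 + cA F * x + cB F)
    (h' : y' ^ 2 = x' ^ 3 + cA F * x' + cB F) (hx : x = x') (e : y' = -y) :
    mkPt x y h + mkPt x' y' h' = 0 := by
  subst hx
  exact mk_add_neg h h' e

theorem rpF_add (τ : F →+* F') (P Q : Pt F) : rpF τ (P + Q) = rpF τ P + rpF τ Q := by
  by_cases hP : P = 0
  · rw [hP, rpF_zero, zero_add, zero_add]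
  by_cases hQ : Q = 0
  · rw [hQ, rpF_zero, add_zero, add_zero]
  obtain ⟨e1, e1'⟩ := exists_mk hP
  obtain ⟨e2, e2'⟩ := exists_mk hQ
  have e3 : τ (yc P) ^ 2 = τ (xc P) ^ 3 + cA F' * τ (xc P) + cB F' := by
    rw [← map_pow, e1, map_add, map_add, map_mul, map_pow, map_intCast, map_intCast]
  have e4 : τ (yc Q) ^ 2 = τ (xc Q) ^ 3 + cA F' * τ (xc Q) + cB F' := by
    rw [← map_pow, e2, map_add, map_add, map_mul, map_pow, map_intCast, map_intCast]
  have f1 : rpF τ P = mkPt (τ (xc P)) (τ (yc P)) e3 :=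
    pt_ext (rpF_ne τ hP) (mk_ne_zero _ _ _) (by rw [xc_rpF τ hP, xc_mk]) (by rw [yc_rpF τ hP, yc_mk])
  have f2 : rpF τ Q = mkPt (τ (xc Q)) (τ (yc Q)) e4 :=
    pt_ext (rpF_ne τ hQ) (mk_ne_zero _ _ _) (by rw [xc_rpF τ hQ, xc_mk]) (by rw [yc_rpF τ hQ, yc_mk])
  by_cases hx : xc P = xc Q
  · by_cases hy : yc Q = -yc P
    · have g1 : P + Q = 0 := by
        rw [e1', e2']
        exact sem_neg _ _ hx hy
      have g2 : rpF τ P + rpF τ Q = 0 := by
        rw [f1, f2]
        exact sem_neg _ _ (by rw [hx]) (by rw [hy, map_neg])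
      rw [g1, g2, rpF_zero]
    · have hyy : yc Q = yc P := by
        have h1 : (yc Q - yc P) * (yc Q + yc P) = 0 := by
          have h2 : yc Q ^ 2 = yc P ^ 2 := by rw [e1, e2, hx]
          linear_combination h2
        rcases mul_eq_zero.1 h1 with h2 | h2
        · exact sub_eq_zero.1 h2
        · exact absurd (eq_neg_of_add_eq_zero_left h2) hy
      have hPQ : Q = P := pt_ext hQ hP hx.symm hyy
      have hy0 : yc P ≠ 0 := by
        intro h
        exact hy (by rw [hyy, h, neg_zero])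
      have hy0' : τ (yc P) ≠ 0 := by rwa [Ne, map_eq_zero]
      rw [hPQ, f1]
      obtain ⟨h5, g1⟩ := mk_dbl (xc P) (yc P) e1 hy0
      obtain ⟨h6, g2⟩ := mk_dbl (τ (xc P)) (τ (yc P)) e3 hy0'
      have g1' : P + P = mkPt _ _ h5 := by
        conv_lhs => rw [e1']
        exact g1
      rw [g2, g1']
      refine pt_ext (rpF_ne τ (mk_ne_zero _ _ _)) (mk_ne_zero _ _ _) ?_ ?_
      · rw [xc_rpF τ (mk_ne_zero _ _ _), xc_mk, xc_mk]
        simp only [map_sub, map_pow, map_div₀, map_add, map_mul, map_ofNat, map_intCast]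
      · rw [yc_rpF τ (mk_ne_zero _ _ _), yc_mk, yc_mk]
        simp only [map_sub, map_pow, map_div₀, map_add, map_mul, map_ofNat, map_intCast, map_neg]
  · have hx' : τ (xc P) ≠ τ (xc Q) := fun h => hx (τ.injective h)
    rw [f1, f2]
    obtain ⟨h5, g1⟩ := mk_add (xc P) (yc P) (xc Q) (yc Q) e1 e2 hx
    obtain ⟨h6, g2⟩ := mk_add (τ (xc P)) (τ (yc P)) (τ (xc Q)) (τ (yc Q)) e3 e4 hx'
    have g1' : P + Q = mkPt _ _ h5 := by
      conv_lhs => rw [e1', e2']
      exact g1
    rw [g2, g1']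
    refine pt_ext (rpF_ne τ (mk_ne_zero _ _ _)) (mk_ne_zero _ _ _) ?_ ?_
    · rw [xc_rpF τ (mk_ne_zero _ _ _), xc_mk, xc_mk]
      simp only [map_sub, map_pow, map_div₀]
    · rw [yc_rpF τ (mk_ne_zero _ _ _), yc_mk, yc_mk]
      simp only [map_sub, map_pow, map_div₀, map_add, map_mul, map_neg]

/-- the action of a ring homomorphism on the points, an additive map -/
def rp (τ : F →+* F') : Pt F →+ Pt F' where
  toFun := rpF τ
  map_zero' := rpF_zero τ
  map_add' := rpF_add τ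

theorem xc_rph (τ : F →+* F') (P : Pt F) : xc (rp τ P) = τ (xc P) := xc_rp τ P

theorem yc_rph (τ : F →+* F') (P : Pt F) : yc (rp τ P) = τ (yc P) := yc_rp τ P

theorem rp_ne (τ : F →+* F') {P : Pt F} (hP : P ≠ 0) : rp τ P ≠ 0 := rpF_ne τ hP

theorem rp_inj (τ : F →+* F') : Function.Injective (rp τ) := by
  rw [injective_iff_map_eq_zero]
  intro P h
  by_contra hP
  exact rp_ne τ hP h

end

end

end Pool.Agent.Lib.MP_1a91b9_nuX.GL
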