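import Pool.Agent.Lib.MP_1a91b9_nuX.GL.SemA
import Pool.Agent.Lib.MP_1a91b9_nuX.GL.ChgA

/-!
# Changes of variables between models of the curve

PROOF. `short_eq`: `G : VariableChange Kb` with `G • EF Kb = EF Kb` (`EF Kb = ⟨0, 0, 0, A, B⟩`): `G.s = G.r = G.t = 0` and `G.u⁻¹ ^ 4 * A = A`, `G.u⁻¹ ^ 6 * B = B`: the formulas `WeierstrassCurve.variableChange_a₁`, `..._a₂`, `..._a₃`, `..._a₄`, `..._a₆`: `a₁' = u⁻¹ (a₁ + 2 s) = 0` gives `s = 0`; `a₂' = u⁻² (a₂ - s a₁ + 3 r - s²) = 0` gives `r = 0`;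
`a₃' = u⁻³ (a₃ + r a₁ + 2 t) = 0` gives `t = 0`.
`aut_short`: `G = D⁻¹ * D'` satisfies `G • EF = EF` (`mul_smul`, `h`), `D' = D * G`. With `G = ⟨ρ', 0, 0, 0⟩`: by the definition of the product of changes of variables (`VariableChange.mul_def` or the projections `mul_u`, `mul_r`, ...): `D'.u = D.u ρ'`, `D'.r = D.r ρ'² `, `D'.s = ρ' D.s`, `D'.t = D.t ρ'³` (check the exact formula in Mathlib, it must be the one
for which `(D * G) • W = D • (G • W)`). So `cx D' T = (xc T - ρ'² D.r) / (D.u ρ')² = (ρ'⁻² xc T - D.r) / D.u²`, and `cx D T' = cx D' T` gives `xc T' = ρ² xc T` with `ρ = ρ'⁻¹`; the same for `cy`.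
-/

set_option autoImplicit false

namespace Pool.Agent.Lib.MP_1a91b9_nuX.GL

open NumberField IsDedekindDomain WeierstrassCurve Pool.Agent.Lib.MP_1a91b9_nuT DB

variable [CD]

private theorem semB_a : (EF Kb).a₁ = 0 ∧ (EF Kb).a₂ = 0 ∧ (EF Kb).a₃ = 0 ∧ (EF Kb).a₄ = cA Kb ∧
    (EF Kb).a₆ = cB Kb := by
  refine ⟨map_zero _, map_zero _, map_zero _, map_intCast _ _, map_intCast _ _⟩

theorem short_eq {G : VariableChange Kb} (h : G • EF Kb = EF Kb) : G.r = 0 ∧ G.s = 0 ∧ G.t = 0 ∧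
    (G.u : Kb)⁻¹ ^ 4 * cA Kb = cA Kb ∧ (G.u : Kb)⁻¹ ^ 6 * cB Kb = cB Kb := by
  obtain ⟨a1, a2, a3, a4, a6⟩ := semB_a
  have hu : (G.u : Kb)⁻¹ ≠ 0 := inv_ne_zero G.u.ne_zero
  have h1 := congrArg WeierstrassCurve.a₁ h
  rw [variableChange_a₁, a1, zero_add, Units.val_inv_eq_inv_val] at h1
  have hs : G.s = 0 :=
    (mul_eq_zero.1 ((mul_eq_zero.1 h1).resolve_left hu)).resolve_left two_ne
  have h2 := congrArg WeierstrassCurve.a₂ h
  rw [variableChange_a₂, a1, a2, hs, Units.val_inv_eq_inv_val] at h2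
  have h2' : (G.u : Kb)⁻¹ ^ 2 * (3 * G.r) = 0 := by linear_combination h2
  have hr : G.r = 0 :=
    (mul_eq_zero.1 ((mul_eq_zero.1 h2').resolve_left (pow_ne_zero 2 hu))).resolve_left three_ne
  have h3 := congrArg WeierstrassCurve.a₃ h
  rw [variableChange_a₃, a1, a3, hr, Units.val_inv_eq_inv_val] at h3
  have h3' : (G.u : Kb)⁻¹ ^ 3 * (2 * G.t) = 0 := by linear_combination h3
  have ht : G.t = 0 :=
    (mul_eq_zero.1 ((mul_eq_zero.1 h3').resolve_left (pow_ne_zero 3 hu))).resolve_left two_ne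
  have h4 := congrArg WeierstrassCurve.a₄ h
  rw [variableChange_a₄, a1, a2, a3, a4, hs, hr, ht, Units.val_inv_eq_inv_val] at h4
  have h6 := congrArg WeierstrassCurve.a₆ h
  rw [variableChange_a₆, a1, a2, a3, a4, a6, hr, ht, Units.val_inv_eq_inv_val] at h6
  exact ⟨hr, hs, ht, by linear_combination h4, by linear_combination h6⟩

private theorem semB_alg {r s t u g x x' y y' : Kb} (hu : u ≠ 0) (hg : g ≠ 0)
    (hx : (x' - r) / u ^ 2 = (x - r * g ^ 2) / (u * g) ^ 2)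
    (hy : (y' - s * (x' - r) - t) / u ^ 3 =
      (y - g * s * (x - r * g ^ 2) - t * g ^ 3) / (u * g) ^ 3) :
    x' = g⁻¹ ^ 2 * x ∧ y' = g⁻¹ ^ 3 * y := by
  rw [div_eq_div_iff (pow_ne_zero 2 hu) (pow_ne_zero 2 (mul_ne_zero hu hg))] at hx
  rw [div_eq_div_iff (pow_ne_zero 3 hu) (pow_ne_zero 3 (mul_ne_zero hu hg))] at hy
  have h1 : x' * g ^ 2 = x := by
    have h2 : u ^ 2 * (x' * g ^ 2) = u ^ 2 * x := by linear_combination hx
    exact mul_left_cancel₀ (pow_ne_zero 2 hu) h2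
  have h3 : y' * g ^ 3 = y := by
    have h4 : u ^ 3 * (y' * g ^ 3) = u ^ 3 * y := by
      linear_combination hy + u ^ 3 * g * s * h1
    exact mul_left_cancel₀ (pow_ne_zero 3 hu) h4
  rw [← h1, ← h3]
  constructor
  · field_simp
  · field_simp

theorem aut_short {D D' : VariableChange Kb} (h : D • EF Kb = D' • EF Kb) : ∃ ρ : Kb, ρ ≠ 0 ∧
    ρ ^ 4 * cA Kb = cA Kb ∧ ρ ^ 6 * cB Kb = cB Kb ∧ ∀ T T' : Pt Kb, cx D T' = cx D' T →
      cy D T' = cy D' T → xc T' = ρ ^ 2 * xc T ∧ yc T' = ρ ^ 3 * yc T := by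
  have hG : (D⁻¹ * D') • EF Kb = EF Kb := by rw [mul_smul, ← h, inv_smul_smul]
  obtain ⟨hr, hs, ht, hA, hB⟩ := short_eq hG
  have hD : D' = D * (D⁻¹ * D') := (mul_inv_cancel_left D D').symm
  generalize D⁻¹ * D' = G at hG hr hs ht hA hB hD
  subst hD
  refine ⟨(G.u : Kb)⁻¹, inv_ne_zero G.u.ne_zero, hA, hB, fun T T' hx hy => ?_⟩
  unfold cx at hx
  unfold cy at hy
  rw [VariableChange.mul_def] at hx hy
  dsimp only at hx hy
  rw [Units.val_mul, hr] at hx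
  rw [Units.val_mul, hr, hs, ht] at hy
  refine semB_alg D.u.ne_zero G.u.ne_zero (r := D.r) (s := D.s) (t := D.t) ?_ ?_
  · rw [hx, add_zero]
  · rw [hy]
    congr 1
    ring

end Pool.Agent.Lib.MP_1a91b9_nuX.GL
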